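import Pool.Agent.Lib.P187w.NrA

/-!
# Bounds for Schur functions and their Schur steps

`gk_Sc`, `kh_Sc`: the denominators do not vanish on the disc (for `a = 1` because `|z k z| < 1`),
and `|a - w| ≤ |1 - a w|` for `|w| ≤ 1`, `0 ≤ a ≤ 1`.
`one_sub_le_sq`: for `g 0 = c` with `0 ≤ c ≤ 1` real, `∑_{n ≥ 1} |g_n|^2 ≤ 1 - c^2` by
`P187f6b.sum_sq_le`, then `nr_le_of_sq` for `1 - g` (resp. `1 + g`), whose value at the origin is
`1 - c` (resp. `1 + c`).
`tc_Sc_le`: the classical inequality `|g_n| ≤ 1 - |g_0|^2` for `n ≥ 1`. One proof: for a Schur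
function `g` and `n ≥ 1`, `G z = (1/n) ∑_{j < n} g (w^j z)` with `w = exp (2 π i / n)` is a Schur
function with `G = g_0 + g_n z^n + ...`, a function of `z^n`; then Schwarz-Pick at the origin.
Another proof: `‖(1 + u z^n) g‖_2 ≤ ‖1 + u z^n‖_2` for `|u| = 1` is `P187o.ball_of_fun`; apply the
analogous inequality with weights `(α + β z^n)` in place of `(1 + u z^n)` and optimise:
`|α g_0|^2 + |α g_n + β g_0|^2 ≤ |α|^2 + |β|^2` for all complex `α β` (use
`P187o.sum_sq_le_of_norm_le` with `h = α + β z^n`), which says that the matrix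
`[[g_0, 0], [g_n, g_0]]` is a contraction, hence `|g_n| ≤ 1 - |g_0|^2`.
-/

set_option autoImplicit false

open Complex Metric Set
open Pool.Agent.P187f6b

namespace Pool.Agent.P187w

namespace BndGAux

lemma moeb {a : ℝ} (h0 : 0 ≤ a) (h1 : a ≤ 1) {w : ℂ} (hw : ‖w‖ ≤ 1) :
    ‖(a : ℂ) - w‖ ≤ ‖1 - (a : ℂ) * w‖ := by
  have h : ‖(a : ℂ) - w‖ ^ 2 ≤ ‖1 - (a : ℂ) * w‖ ^ 2 := by
    rw [← Complex.normSq_eq_norm_sq, ← Complex.normSq_eq_norm_sq]
    have hw2 : w.re ^ 2 + w.im ^ 2 ≤ 1 := by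
      have := pow_le_one₀ (n := 2) (norm_nonneg w) hw
      rw [← Complex.normSq_eq_norm_sq, Complex.normSq_apply] at this
      nlinarith
    simp only [Complex.normSq_apply, Complex.sub_re, Complex.sub_im, Complex.ofReal_re,
      Complex.ofReal_im, Complex.one_re, Complex.one_im, Complex.mul_re, Complex.mul_im]
    have h2 : 0 ≤ (1 - a ^ 2) * (1 - (w.re ^ 2 + w.im ^ 2)) :=
      mul_nonneg (by nlinarith) (by linarith)
    nlinarith
  exact le_of_sq_le_sq h (norm_nonneg _)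

lemma moeb' {a : ℝ} (h0 : 0 ≤ a) (h1 : a ≤ 1) {w : ℂ} (hw : ‖w‖ ≤ 1) :
    ‖(a : ℂ) + w‖ ≤ ‖1 + (a : ℂ) * w‖ := by
  have h := moeb h0 h1 (w := -w) (by rw [norm_neg]; exact hw)
  rw [sub_neg_eq_add, mul_neg, sub_neg_eq_add] at h
  exact h

lemma zk_lt {k : ℂ → ℂ} (hk : Sc k) {z : ℂ} (hz : ‖z‖ < 1) : ‖z * k z‖ < 1 := by
  rw [norm_mul]
  have h := hk.2 z hz
  calc ‖z‖ * ‖k z‖ ≤ ‖z‖ * 1 := by gcongr
    _ < 1 := by rw [mul_one]; exact hz

lemma azk_lt {a : ℝ} (h0 : 0 ≤ a) (h1 : a ≤ 1) {k : ℂ → ℂ} (hk : Sc k) {z : ℂ} (hz : ‖z‖ < 1) :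
    ‖(a : ℂ) * (z * k z)‖ < 1 := by
  rw [norm_mul, Complex.norm_real, Real.norm_eq_abs, abs_of_nonneg h0]
  have h := zk_lt hk hz
  calc a * ‖z * k z‖ ≤ 1 * ‖z * k z‖ := by gcongr
    _ < 1 := by rw [one_mul]; exact h

lemma tc_aff (m : ℕ) (hm : 1 ≤ m) (α β : ℂ) (n : ℕ) :
    tc (fun z => α + β * z ^ m) n = if n = 0 then α else if n = m then β else 0 := by
  refine tc_eq (c := fun n => if n = 0 then α else if n = m then β else 0)
    (fun z _ => ?_) n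
  have h := hasSum_sum_of_ne_finset_zero (L := .unconditional ℕ) (f := fun n => (if n = 0 then α else
    if n = m then β else 0) * z ^ n) (s := {0, m}) (fun n hn => by
      simp only [Finset.mem_insert, Finset.mem_singleton, not_or] at hn
      simp [hn.1, hn.2])
  have h0 : (0 : ℕ) ≠ m := by omega
  rw [Finset.sum_pair h0] at h
  simp only [if_true, pow_zero, mul_one, h0.symm, if_false] at h
  exact h

/-- The key inequality. -/
lemma key {g : ℂ → ℂ} (hg : Sc g) (m : ℕ) (hm : 1 ≤ m) (α β : ℂ) :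
    ‖α * tc g 0‖ ^ 2 + ‖α * tc g m + β * tc g 0‖ ^ 2 ≤ ‖α‖ ^ 2 + ‖β‖ ^ 2 := by
  have h0 : (0 : ℕ) ≠ m := by omega
  set h : ℂ → ℂ := fun z => α + β * z ^ m with hh
  have hhd : DifferentiableOn ℂ h (ball 0 1) := by
    rw [hh]; fun_prop
  set G : ℂ → ℂ := fun z => g z * h z with hG
  have hGd : DifferentiableOn ℂ G (ball 0 1) := hg.1.mul hhd
  have e1 : ∀ n, tc G n = α * tc g n + β * P187o.sh m (tc g) n := by
    intro n
    refine tc_eq (c := fun n => α * tc g n + β * P187o.sh m (tc g) n) (fun z hz => ?_) n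
    have h1 := tc_hasSum hg.1 hz
    have h2 := (P187o.hasSum_sh m h1).mul_left β
    have h3 : G z = α * g z + β * (z ^ m * g z) := by
      simp only [hG, hh]; ring
    rw [h3]
    refine ((h1.mul_left α).add h2).congr_fun (fun n => ?_)
    ring
  have e2 : HasSum (fun n => ‖tc h n‖ ^ 2) (‖α‖ ^ 2 + ‖β‖ ^ 2) := by
    have h4 := hasSum_sum_of_ne_finset_zero (L := .unconditional ℕ) (f := fun n => ‖tc h n‖ ^ 2) (s := {0, m})
      (fun n hn => by
        simp only [Finset.mem_insert, Finset.mem_singleton, not_or] at hn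
        rw [hh, tc_aff m hm α β n]
        simp [hn.1, hn.2])
    rw [Finset.sum_pair h0, hh, tc_aff m hm α β 0, tc_aff m hm α β m] at h4
    simp only [if_true, h0.symm, if_false] at h4
    exact h4
  have e3 : ∑ n ∈ Finset.range (m + 1), ‖tc G n‖ ^ 2 ≤ ‖α‖ ^ 2 + ‖β‖ ^ 2 := by
    rw [← e2.tsum_eq]
    refine P187o.sum_sq_le_of_norm_le hGd hhd (fun z hz => ?_) e2.summable (m + 1)
    simp only [hG, norm_mul]
    exact mul_le_of_le_one_left (norm_nonneg _) (hg.2 z hz)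
  have e4 : ∑ n ∈ ({0, m} : Finset ℕ), ‖tc G n‖ ^ 2 ≤ ∑ n ∈ Finset.range (m + 1), ‖tc G n‖ ^ 2 := by
    refine Finset.sum_le_sum_of_subset_of_nonneg ?_ (fun _ _ _ => by positivity)
    intro x hx
    simp only [Finset.mem_insert, Finset.mem_singleton] at hx
    rw [Finset.mem_range]
    rcases hx with rfl | rfl <;> omega
  rw [Finset.sum_pair h0, e1 0, e1 m] at e4
  have s0 : P187o.sh m (tc g) 0 = 0 := by
    have : ¬ m ≤ 0 := by omega
    simp [P187o.sh, this]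
  have sm : P187o.sh m (tc g) m = tc g 0 := by simp [P187o.sh]
  rw [s0, sm, mul_zero, add_zero] at e4
  exact e4.trans e3

lemma tc_one_sub {g : ℂ → ℂ} (hg : Sc g) (n : ℕ) :
    tc (fun z => 1 - g z) (n + 1) = - tc g (n + 1) := by
  have h := tc_eq (f := fun z => 1 - g z) (c := fun n => (if n = 0 then (1 : ℂ) else 0) - tc g n)
    (fun z hz => by
      have h1 := tc_hasSum hg.1 hz
      refine ((hasSum_ite_eq 0 (1 : ℂ)).sub h1).congr_fun (fun n => ?_)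
      by_cases hn : n = 0
      · subst hn; simp
      · simp [hn]) (n + 1)
  rw [h]; simp

lemma tc_one_add' {g : ℂ → ℂ} (hg : Sc g) (n : ℕ) :
    tc (fun z => 1 + g z) (n + 1) = tc g (n + 1) := by
  have h := tc_eq (f := fun z => 1 + g z) (c := fun n => (if n = 0 then (1 : ℂ) else 0) + tc g n)
    (fun z hz => by
      have h1 := tc_hasSum hg.1 hz
      refine ((hasSum_ite_eq 0 (1 : ℂ)).add h1).congr_fun (fun n => ?_)
      by_cases hn : n = 0
      · subst hn; simp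
      · simp [hn]) (n + 1)
  rw [h]; simp

lemma sq_tail {g : ℂ → ℂ} (hg : Sc g) {c : ℝ} (h0 : g 0 = c) (N : ℕ) :
    ∑ n ∈ Finset.range N, ‖tc g (n + 1)‖ ^ 2 ≤ 1 - c ^ 2 := by
  have h := sum_sq_le hg.1 hg.2 (N + 1)
  rw [Finset.sum_range_succ', tc_zero, h0, Complex.norm_real, Real.norm_eq_abs, sq_abs] at h
  linarith

end BndGAux

open BndGAux

lemma one_sub_azk_ne {a : ℝ} (h0 : 0 ≤ a) (h1 : a ≤ 1) {k : ℂ → ℂ} (hk : Sc k) {z : ℂ}
    (hz : ‖z‖ < 1) : 1 - (a : ℂ) * (z * k z) ≠ 0 := by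
  intro h
  have h2 := azk_lt h0 h1 hk hz
  have h3 : (a : ℂ) * (z * k z) = 1 := by linear_combination -h
  rw [h3] at h2
  simp at h2

lemma one_add_pzh_ne {p : ℝ} (h0 : 0 ≤ p) (h1 : p ≤ 1) {h : ℂ → ℂ} (hh : Sc h) {z : ℂ}
    (hz : ‖z‖ < 1) : 1 + (p : ℂ) * (z * h z) ≠ 0 := by
  intro h4
  have h2 := azk_lt h0 h1 hh hz
  have h3 : (p : ℂ) * (z * h z) = -1 := by linear_combination h4
  rw [h3] at h2
  simp at h2

lemma gk_Sc {a : ℝ} (h0 : 0 ≤ a) (h1 : a ≤ 1) {k : ℂ → ℂ} (hk : Sc k) : Sc (gk a k) := by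
  refine ⟨?_, fun z hz => ?_⟩
  · unfold gk
    refine DifferentiableOn.div ?_ ?_ (fun z hz => one_sub_azk_ne h0 h1 hk (by simpa using hz))
    · exact (differentiableOn_const _).sub (differentiableOn_id.mul hk.1)
    · exact (differentiableOn_const _).sub
        ((differentiableOn_const _).mul (differentiableOn_id.mul hk.1))
  · unfold gk
    rw [norm_div]
    have h2 : 0 < ‖1 - (a : ℂ) * (z * k z)‖ := norm_pos_iff.2 (one_sub_azk_ne h0 h1 hk hz)
    rw [div_le_one h2]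
    exact moeb h0 h1 (zk_lt hk hz).le

lemma kh_Sc {p : ℝ} (h0 : 0 ≤ p) (h1 : p ≤ 1) {h : ℂ → ℂ} (hh : Sc h) : Sc (kh p h) := by
  refine ⟨?_, fun z hz => ?_⟩
  · unfold kh
    refine DifferentiableOn.div ?_ ?_ (fun z hz => one_add_pzh_ne h0 h1 hh (by simpa using hz))
    · exact (differentiableOn_const _).add (differentiableOn_id.mul hh.1)
    · exact (differentiableOn_const _).add
        ((differentiableOn_const _).mul (differentiableOn_id.mul hh.1))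
  · unfold kh
    rw [norm_div]
    have h2 : 0 < ‖1 + (p : ℂ) * (z * h z)‖ := norm_pos_iff.2 (one_add_pzh_ne h0 h1 hh hz)
    rw [div_le_one h2]
    exact moeb' h0 h1 (zk_lt hh hz).le

lemma gk_zero (a : ℝ) (k : ℂ → ℂ) : gk a k 0 = a := by simp [gk]

lemma kh_zero (p : ℝ) (h : ℂ → ℂ) : kh p h 0 = p := by simp [kh]

lemma gk_one {k : ℂ → ℂ} (hk : Sc k) {z : ℂ} (hz : ‖z‖ < 1) : gk 1 k z = 1 := by
  have h := one_sub_azk_ne (a := 1) zero_le_one le_rfl hk hz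
  unfold gk
  rw [Complex.ofReal_one, one_mul] at *
  exact div_self h

lemma kh_one {h : ℂ → ℂ} (hh : Sc h) {z : ℂ} (hz : ‖z‖ < 1) : kh 1 h z = 1 := by
  have h2 := one_add_pzh_ne (p := 1) zero_le_one le_rfl hh hz
  unfold kh
  rw [Complex.ofReal_one, one_mul] at *
  exact div_self h2

lemma Sc_one : Sc (fun _ => (1 : ℂ)) :=
  ⟨differentiableOn_const _, fun z _ => by simp⟩

/-- `|g_n| ≤ 1 - |g_0| ^ 2` for `n ≥ 1`. -/
lemma tc_Sc_le {g : ℂ → ℂ} (hg : Sc g) (n : ℕ) : ‖tc g (n + 1)‖ ≤ 1 - ‖g 0‖ ^ 2 := by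
  have ha : ‖g 0‖ ≤ 1 := hg.2 0 (by simp)
  have h1 := key hg (n + 1) (by omega) 1 0
  have h2 := key hg (n + 1) (by omega) ((1 - ‖g 0‖ ^ 2 : ℝ) : ℂ)
    ((starRingEnd ℂ) (g 0) * tc g (n + 1))
  have e1 : ((1 - ‖g 0‖ ^ 2 : ℝ) : ℂ) * tc g (n + 1) +
      (starRingEnd ℂ) (g 0) * tc g (n + 1) * tc g 0 = tc g (n + 1) := by
    have e2 : (starRingEnd ℂ) (g 0) * g 0 = ((‖g 0‖ ^ 2 : ℝ) : ℂ) := by
      rw [← Complex.normSq_eq_norm_sq, Complex.normSq_eq_conj_mul_self]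
    rw [tc_zero]
    have e3 : (starRingEnd ℂ) (g 0) * tc g (n + 1) * g 0 =
        (starRingEnd ℂ) (g 0) * g 0 * tc g (n + 1) := by ring
    rw [e3, e2]
    push_cast
    ring
  rw [e1, tc_zero, norm_mul, norm_mul, Complex.norm_real, Real.norm_eq_abs,
    Complex.norm_conj] at h2
  simp only [tc_zero, one_mul, zero_mul, add_zero, norm_one, norm_zero] at h1
  set a := ‖g 0‖ with hadef
  set D := ‖tc g (n + 1)‖ with hD
  have ha0 : 0 ≤ a := norm_nonneg _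
  have hD0 : 0 ≤ D := norm_nonneg _
  have hb : 0 ≤ 1 - a ^ 2 := by nlinarith
  rw [abs_of_nonneg hb] at h2
  rcases hb.eq_or_lt with h3 | h3
  · have h4 : D ^ 2 ≤ 0 := by
      have : (0 : ℝ) ^ 2 = 0 := by norm_num
      nlinarith
    have h5 : D = 0 := by
      have := le_antisymm h4 (sq_nonneg D)
      exact pow_eq_zero_iff (two_ne_zero) |>.1 this
    rw [h5]; exact hb
  · have h4 : D ^ 2 * (1 - a ^ 2) ≤ (1 - a ^ 2) ^ 2 * (1 - a ^ 2) := by nlinarith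
    have h5 : D ^ 2 ≤ (1 - a ^ 2) ^ 2 := le_of_mul_le_mul_right h4 h3
    exact le_of_sq_le_sq h5 hb

lemma one_sub_le_sq {g : ℂ → ℂ} (hg : Sc g) {c : ℝ} (hc0 : 0 ≤ c) (hc1 : c ≤ 1)
    (h0 : g 0 = c) {r : ℝ} (hr0 : 0 ≤ r) (hr1 : r < 1) :
    nr (fun z => 1 - g z) r ≤ 1 - c + √(1 - c ^ 2) * (r / √(1 - r ^ 2)) := by
  have h1 := nr_le_of_sq (f := fun z => 1 - g z) ((differentiableOn_const _).sub hg.1)
    (S := 1 - c ^ 2) (fun N => by
      have := sq_tail hg h0 N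
      simpa only [tc_one_sub hg, norm_neg] using this) hr0 hr1
  have h2 : ‖(1 : ℂ) - g 0‖ = 1 - c := by
    rw [h0, ← Complex.ofReal_one, ← Complex.ofReal_sub, Complex.norm_real, Real.norm_eq_abs,
      abs_of_nonneg (by linarith)]
  simp only [h2] at h1
  exact h1

lemma one_add_le_sq {g : ℂ → ℂ} (hg : Sc g) {c : ℝ} (hc0 : 0 ≤ c) (hc1 : c ≤ 1)
    (h0 : g 0 = c) {r : ℝ} (hr0 : 0 ≤ r) (hr1 : r < 1) :
    nr (fun z => 1 + g z) r ≤ 1 + c + √(1 - c ^ 2) * (r / √(1 - r ^ 2)) := by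
  have h1 := nr_le_of_sq (f := fun z => 1 + g z) ((differentiableOn_const _).add hg.1)
    (S := 1 - c ^ 2) (fun N => by
      have := sq_tail hg h0 N
      simpa only [tc_one_add' hg] using this) hr0 hr1
  have h2 : ‖(1 : ℂ) + g 0‖ = 1 + c := by
    rw [h0, ← Complex.ofReal_one, ← Complex.ofReal_add, Complex.norm_real, Real.norm_eq_abs,
      abs_of_nonneg (by linarith)]
  simp only [h2] at h1
  exact h1

lemma one_sub_le_lin {g : ℂ → ℂ} (hg : Sc g) {c : ℝ} (hc0 : 0 ≤ c) (hc1 : c ≤ 1)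
    (h0 : g 0 = c) {r : ℝ} (hr0 : 0 ≤ r) (hr1 : r < 1) :
    nr (fun z => 1 - g z) r ≤ 1 - c + (1 - c ^ 2) * (r / (1 - r)) := by
  have hn : ‖g 0‖ = c := by
    rw [h0, Complex.norm_real, Real.norm_eq_abs, abs_of_nonneg hc0]
  have h1 := nr_le_of_bound (f := fun z => 1 - g z) ((differentiableOn_const _).sub hg.1)
    (C := 1 - c ^ 2) (fun n => by
      have := tc_Sc_le hg n
      rw [hn] at this
      rw [tc_one_sub hg, norm_neg]
      exact this) hr0 hr1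
  have h2 : ‖(1 : ℂ) - g 0‖ = 1 - c := by
    rw [h0, ← Complex.ofReal_one, ← Complex.ofReal_sub, Complex.norm_real, Real.norm_eq_abs,
      abs_of_nonneg (by linarith)]
  simp only [h2] at h1
  exact h1

lemma one_add_le_lin {g : ℂ → ℂ} (hg : Sc g) {c : ℝ} (hc0 : 0 ≤ c) (hc1 : c ≤ 1)
    (h0 : g 0 = c) {r : ℝ} (hr0 : 0 ≤ r) (hr1 : r < 1) :
    nr (fun z => 1 + g z) r ≤ 1 + c + (1 - c ^ 2) * (r / (1 - r)) := by
  have hn : ‖g 0‖ = c := by
    rw [h0, Complex.norm_real, Real.norm_eq_abs, abs_of_nonneg hc0]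
  have h1 := nr_le_of_bound (f := fun z => 1 + g z) ((differentiableOn_const _).add hg.1)
    (C := 1 - c ^ 2) (fun n => by
      have := tc_Sc_le hg n
      rw [hn] at this
      rw [tc_one_add' hg]
      exact this) hr0 hr1
  have h2 : ‖(1 : ℂ) + g 0‖ = 1 + c := by
    rw [h0, ← Complex.ofReal_one, ← Complex.ofReal_add, Complex.norm_real, Real.norm_eq_abs,
      abs_of_nonneg (by linarith)]
  simp only [h2] at h1
  exact h1

end Pool.Agent.P187w
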