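import Pool.Agent.Lib.P187w.BndL
import Pool.Agent.Lib.P187w.BndG
import Pool.Agent.Lib.P187s.Schur

/-!
# Normal form of a member of the class

`f = (l + z φ) / (1 + l z φ)` with `φ` a Schur function (`P187s.schur_step` for `f`, `γ = l`).
Let `φ 0 = α`. If `|α| = 1` then `φ` is constant (maximum principle; or `tc_Sc_le`) and we take
`a = 1`, `p = 1`. Otherwise `φ (1 + conj α z κ) = α + z κ` (`schur_step`), `β = κ 0`. Choose
unimodular `η`, `ω` with `α = η |α|` and `-(ω conj η β) = |β|`; put `a = |α|`, `p = |β|`,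
`k z = -(ω conj η κ (ω z))`, `x = -(l ω η)`. Then `φ (ω z) = η gk a k z`,
`f (ω z) = l + (1 - l^2) ω η z (LN x (gk a k) z)`, so
`|tc f (n+1)| = (1 - l^2) |tc (LN x (gk a k)) n|` and `maj l f r = l + (1 - l^2) Ph x (gk a k) r`.
If `p < 1`, a third `schur_step` gives `k = kh p h` on the disc; if `p = 1`, `k = 1` on the disc
and `h` is arbitrary (`h = 0`). If `p = 1` and `a < 1` then
`f (ω z) = GG l a (ω η) z = GG l a (-(x / l)) z`.

`maj_GG`: `GG l a η = l + (1 - l^2) η z (LN (-(l η)) (gk a 1) z)` on the disc and `kh 1 h = 1`.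
`Ph_conj`: take `h' z = conj (h (conj z))`; then `LN (conj x) (gk a (kh p h')) z =
conj (LN x (gk a (kh p h)) (conj z))` and the Taylor coefficients are conjugate (use `tc_eq`).
`Ph_rot`: `x = l e`, `k' z = conj e * k (conj e * z)`;
`LN x (gk a k) (conj e * z) = LN l (gk a k') z`; coefficients get multiplied by `(conj e)^n`
(`P187f6b.tc_rot`).
-/

set_option autoImplicit false

open Complex Metric Set
open scoped ComplexConjugate
open Pool.Agent.P187f6b Pool.Agent.P187s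

namespace Pool.Agent.P187w

namespace NormAux

lemma tc_norm_rot {f : ℂ → ℂ} (hf : DifferentiableOn ℂ f (ball 0 1)) {w : ℂ} (hw : ‖w‖ = 1)
    (n : ℕ) : ‖tc (fun z => f (w * z)) n‖ = ‖tc f n‖ := by
  rw [tc_rot hf hw, norm_mul, norm_pow, hw, one_pow, one_mul]

lemma maj_of {l r : ℝ} {f L : ℂ → ℂ} {κ : ℂ} (hL : DifferentiableOn ℂ L (ball 0 1))
    (h : ∀ z : ℂ, ‖z‖ < 1 → f z = l + κ * z * L z) (hκ : ‖κ‖ = 1 - l ^ 2) :
    maj l f r = l + (1 - l ^ 2) * (r * nr L r) := by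
  rw [maj_eq]
  congr 1
  have e : ∀ n, ‖tc f (n + 1)‖ * r ^ (n + 1) = ((1 - l ^ 2) * r) * (‖tc L n‖ * r ^ n) := by
    intro n
    rw [tc_shift hL h n, norm_mul, hκ]
    ring
  simp_rw [e]
  rw [tsum_mul_left, nr]
  ring

lemma maj_rot {l r : ℝ} {f : ℂ → ℂ} (hf : DifferentiableOn ℂ f (ball 0 1)) {w : ℂ}
    (hw : ‖w‖ = 1) : maj l f r = maj l (fun z => f (w * z)) r := by
  rw [maj_eq, maj_eq]
  congr 1
  refine tsum_congr fun n => ?_
  rw [tc_norm_rot hf hw]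

lemma rot_maps {w : ℂ} (hw : ‖w‖ = 1) : MapsTo (fun z : ℂ => w * z) (ball 0 1) (ball 0 1) := by
  intro z hz
  rw [mem_ball_zero_iff] at hz ⊢
  rw [norm_mul, hw, one_mul]
  exact hz

lemma diff_rot {f : ℂ → ℂ} (hf : DifferentiableOn ℂ f (ball 0 1)) {w : ℂ} (hw : ‖w‖ = 1) :
    DifferentiableOn ℂ (fun z => f (w * z)) (ball 0 1) :=
  hf.comp ((differentiableOn_const _).mul differentiableOn_id) (rot_maps hw)

lemma Sc_rot {k : ℂ → ℂ} (hk : Sc k) {w c : ℂ} (hw : ‖w‖ = 1) (hc : ‖c‖ = 1) :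
    Sc (fun z => c * k (w * z)) := by
  refine ⟨(differentiableOn_const _).mul (diff_rot hk.1 hw), fun z hz => ?_⟩
  rw [norm_mul, hc, one_mul]
  exact hk.2 _ (by rw [norm_mul, hw, one_mul]; exact hz)

lemma conj_mul_self_of {e : ℂ} (he : ‖e‖ = 1) : e * conj e = 1 := by
  rw [Complex.mul_conj, Complex.normSq_eq_norm_sq, he]
  simp

/-- A unimodular factor which turns a number into its modulus. -/
lemma exists_unimod (β : ℂ) : ∃ o : ℂ, ‖o‖ = 1 ∧ o * β = (‖β‖ : ℂ) := by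
  by_cases h : β = 0
  · exact ⟨1, by simp, by simp [h]⟩
  · refine ⟨conj β / ‖β‖, ?_, ?_⟩
    · rw [norm_div, RCLike.norm_conj, Complex.norm_real, norm_norm]
      exact div_self (norm_ne_zero_iff.2 h)
    · have h2 : (‖β‖ : ℂ) ≠ 0 := by exact_mod_cast (norm_ne_zero_iff.2 h)
      rw [div_mul_eq_mul_div, mul_comm, Complex.mul_conj, Complex.normSq_eq_norm_sq]
      push_cast
      field_simp

/-- A Schur function with a value of modulus one at the origin is constant. -/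
lemma const_of_norm_one {g : ℂ → ℂ} (hg : Sc g) (h1 : ‖g 0‖ = 1) {z : ℂ} (hz : ‖z‖ < 1) :
    g z = g 0 := by
  have h2 : ∀ n, tc g (n + 1) = 0 := by
    intro n
    have := tc_Sc_le hg n
    rw [h1] at this
    have h3 : ‖tc g (n + 1)‖ ≤ 0 := by linarith
    exact norm_le_zero_iff.1 h3
  have h3 := tc_hasSum hg.1 hz
  have h4 : HasSum (fun n => tc g n * z ^ n) (tc g 0 * z ^ 0) := by
    refine hasSum_single 0 (fun n hn => ?_)
    obtain ⟨m, rfl⟩ := Nat.exists_eq_succ_of_ne_zero hn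
    rw [h2 m, zero_mul]
  have h5 := h3.unique h4
  rw [pow_zero, mul_one, tc_zero] at h5
  exact h5

lemma GG_formula {l a : ℝ} (h0 : 0 ≤ l) (h1 : l < 1) (ha0 : 0 ≤ a) (ha1 : a < 1) {η : ℂ}
    (hη : ‖η‖ = 1) {z : ℂ} (hz : ‖z‖ < 1) {g : ℂ} (hg : g = (a - z) / (1 - a * z)) :
    GG l a η z = l + ((1 - (l : ℂ) ^ 2) * η) * z * (g / (1 - (-(l * η)) * z * g)) := by
  have hd := den2_lower h0 (norm_psi hη ha0 ha1 hz)
  have hd' : (1 : ℂ) + l * (η * QA a z) ≠ 0 := norm_pos_iff.1 (by linarith)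
  have hQ : QA a z = z * g := by
    rw [hg]
    unfold QA
    ring
  rw [GG_eq, hQ]
  rw [hQ] at hd'
  have e : (1 : ℂ) - (-(l * η)) * z * g = 1 + l * (η * (z * g)) := by ring
  rw [e]
  obtain ⟨D, hD⟩ : ∃ D : ℂ, D = 1 + l * (η * (z * g)) := ⟨_, rfl⟩
  rw [← hD] at hd' ⊢
  rw [div_eq_iff hd']
  have e2 : (l + (1 - (l : ℂ) ^ 2) * η * z * (g / D)) * D =
      l * D + (1 - (l : ℂ) ^ 2) * η * z * g := by
    field_simp
  rw [e2, hD]
  ring

lemma norm_kappa {l : ℝ} (h0 : 0 ≤ l) (h1 : l < 1) {η : ℂ} (hη : ‖η‖ = 1) :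
    ‖(1 - (l : ℂ) ^ 2) * η‖ = 1 - l ^ 2 := by
  rw [norm_mul, hη, mul_one]
  have e : (1 - (l : ℂ) ^ 2) = ((1 - l ^ 2 : ℝ) : ℂ) := by push_cast; ring
  rw [e, Complex.norm_real, Real.norm_eq_abs, abs_of_nonneg]
  nlinarith

lemma norm_x {l : ℝ} (h0 : 0 ≤ l) {η : ℂ} (hη : ‖η‖ = 1) : ‖-((l : ℂ) * η)‖ = l := by
  rw [norm_neg, norm_mul, hη, mul_one, Complex.norm_real, Real.norm_eq_abs, abs_of_nonneg h0]

lemma Sc_zero : Sc (fun _ => (0 : ℂ)) :=
  ⟨differentiableOn_const _, fun z _ => by simp⟩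

lemma Sc_conj {h : ℂ → ℂ} (hh : Sc h) : Sc (fun z => conj (h (conj z))) := by
  refine ⟨fun z hz => ?_, fun z hz => ?_⟩
  · have hz' : conj z ∈ ball (0 : ℂ) 1 := by
      rw [mem_ball_zero_iff] at hz ⊢
      rwa [RCLike.norm_conj]
    have h1 : DifferentiableAt ℂ h (conj z) := hh.1.differentiableAt (isOpen_ball.mem_nhds hz')
    have h2 := (h1.hasDerivAt).conj_conj
    rw [Complex.conj_conj] at h2
    exact h2.differentiableAt.differentiableWithinAt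
  · rw [RCLike.norm_conj]
    exact hh.2 _ (by rwa [RCLike.norm_conj])

lemma nr_conj {F G : ℂ → ℂ} (hF : DifferentiableOn ℂ F (ball 0 1))
    (h : ∀ z : ℂ, ‖z‖ < 1 → G z = conj (F (conj z))) (r : ℝ) : nr F r = nr G r := by
  unfold nr
  refine tsum_congr fun n => ?_
  have h1 : tc G n = conj (tc F n) := by
    refine tc_eq (c := fun n => conj (tc F n)) (fun z hz => ?_) n
    rw [h z hz]
    have h2 := tc_hasSum hF (z := conj z) (by rwa [RCLike.norm_conj])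
    have h3 := Complex.hasSum_conj'.2 h2
    refine h3.congr_fun (fun n => ?_)
    rw [map_mul, map_pow, Complex.conj_conj]
  rw [h1, RCLike.norm_conj]

end NormAux

open NormAux

theorem normal {l : ℝ} (h0 : 0 < l) (h1 : l < 1) {f : ℂ → ℂ} (hf : f ∈ FClass l) :
    ∃ (a p : ℝ) (x ω : ℂ) (h : ℂ → ℂ), 0 ≤ a ∧ a ≤ 1 ∧ 0 ≤ p ∧ p ≤ 1 ∧ ‖x‖ = l ∧ ‖ω‖ = 1 ∧
      Sc h ∧ (∀ r : ℝ, 0 ≤ r → r < 1 →
        maj l f r = l + (1 - l ^ 2) * Ph x (gk a (kh p h)) r) ∧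
      (p = 1 → a < 1 → ∀ z : ℂ, ‖z‖ < 1 → f z = GG l a (-(x / l)) (ω * z)) := by
  have hlnorm : ‖(l : ℂ)‖ < 1 := by
    rw [Complex.norm_real, Real.norm_eq_abs, abs_of_pos h0]
    exact h1
  have hl0 : (l : ℂ) ≠ 0 := by exact_mod_cast h0.ne'
  obtain ⟨φ, hφd, hφb, hφ⟩ := schur_step hf.1
    (fun z hz => (hf.2.1 z (by simpa using hz)).le) hf.2.2 hlnorm
  rw [Complex.conj_ofReal] at hφ
  have hφS : Sc φ := ⟨hφd, hφb⟩
  -- the key reduction
  suffices H : ∃ (a p : ℝ) (u w : ℂ) (h : ℂ → ℂ), 0 ≤ a ∧ a ≤ 1 ∧ 0 ≤ p ∧ p ≤ 1 ∧ ‖u‖ = 1 ∧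
      ‖w‖ = 1 ∧ Sc h ∧ ∀ z : ℂ, ‖z‖ < 1 → w * φ (w * z) = u * gk a (kh p h) z by
    obtain ⟨a, p, u, w, h, ha0, ha1, hp0, hp1, hu, hw, hh, hH⟩ := H
    have hk := kh_Sc hp0 hp1 hh
    have hg := gk_Sc ha0 ha1 hk
    have hx : ‖-((l : ℂ) * u)‖ = l := norm_x h0.le hu
    have hx1 : ‖-((l : ℂ) * u)‖ < 1 := by rw [hx]; exact h1
    have hL := LN_diff hx1 hg
    have hfz : ∀ z : ℂ, ‖z‖ < 1 → f (w * z) =
        l + ((1 - (l : ℂ) ^ 2) * u) * z * LN (-((l : ℂ) * u)) (gk a (kh p h)) z := by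
      intro z hz
      have hwz : ‖w * z‖ < 1 := by rw [norm_mul, hw, one_mul]; exact hz
      have e1 := hφ (w * z) hwz
      have e2 := hH z hz
      have e3 := one_sub_xzg_ne hx1 hg hz
      unfold LN
      set g := gk a (kh p h) z with hgdef
      obtain ⟨D, hD⟩ : ∃ D : ℂ, D = 1 - -((l : ℂ) * u) * z * g := ⟨_, rfl⟩
      rw [← hD] at e3 ⊢
      have e4 : f (w * z) * D = l + u * z * g := by
        have e5 : w * z * φ (w * z) = u * z * g := by linear_combination z * e2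
        have e6 : (1 : ℂ) + l * (w * z) * φ (w * z) = D := by
          rw [hD]; linear_combination l * e5
        rw [e6] at e1
        rw [e1]
        linear_combination e5
      have e7 : (l + (1 - (l : ℂ) ^ 2) * u * z * (g / D)) * D =
          l * D + (1 - (l : ℂ) ^ 2) * u * z * g := by
        field_simp
      refine mul_right_cancel₀ e3 ?_
      rw [e7, e4, hD]
      ring
    refine ⟨a, p, -((l : ℂ) * u), conj w, h, ha0, ha1, hp0, hp1, hx, by rw [RCLike.norm_conj, hw],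
      hh, ?_, ?_⟩
    · intro r _ _
      rw [maj_rot hf.1 hw, maj_of hL hfz (norm_kappa h0.le h1 hu)]
      rfl
    · intro hp ha z hz
      subst hp
      have hz' : ‖conj w * z‖ < 1 := by rw [norm_mul, RCLike.norm_conj, hw, one_mul]; exact hz
      have e1 := hfz (conj w * z) hz'
      have e2 : w * (conj w * z) = z := by rw [← mul_assoc, conj_mul_self_of hw, one_mul]
      have e3 : -(-((l : ℂ) * u) / l) = u := by field_simp
      rw [e2] at e1
      rw [e3, GG_formula h0.le h1 ha0 ha hu hz' rfl, e1]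
      unfold LN gk
      rw [kh_one hh hz', mul_one]
  have hα1 : ‖φ 0‖ ≤ 1 := hφb 0 (by simp)
  rcases hα1.eq_or_lt with hα | hα
  · -- constant case
    refine ⟨1, 1, 1, conj (φ 0), fun _ => 0, zero_le_one, le_rfl, zero_le_one, le_rfl, by simp,
      by rw [RCLike.norm_conj, hα], Sc_zero, fun z hz => ?_⟩
    have hz' : ‖conj (φ 0) * z‖ < 1 := by rw [norm_mul, RCLike.norm_conj, hα, one_mul]; exact hz
    rw [const_of_norm_one hφS hα hz', gk_one (kh_Sc zero_le_one le_rfl Sc_zero) hz, mul_one,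
      mul_comm, conj_mul_self_of hα]
  · obtain ⟨ψ, hψd, hψb, hψ⟩ := schur_step hφd hφb rfl hα
    obtain ⟨o, ho, hoα⟩ := exists_unimod (φ 0)
    -- `conj o` is the phase of `φ 0`
    obtain ⟨q, hq, hqβ⟩ := exists_unimod (-(o * ψ 0))
    have hoo := conj_mul_self_of ho
    set k : ℂ → ℂ := fun z => (-(q * o)) * ψ (q * z) with hk
    have hkS : Sc k := Sc_rot ⟨hψd, hψb⟩ hq (by rw [norm_neg, norm_mul, hq, ho, one_mul])
    have hk0 : k 0 = ((‖ψ 0‖ : ℝ) : ℂ) := by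
      have e : ‖-(o * ψ 0)‖ = ‖ψ 0‖ := by rw [norm_neg, norm_mul, ho, one_mul]
      rw [e] at hqβ
      rw [hk, ← hqβ]
      simp only [mul_zero]
      ring
    have hβ1 : ‖ψ 0‖ ≤ 1 := hψb 0 (by simp)
    obtain ⟨h, hh, hkh⟩ : ∃ h : ℂ → ℂ, Sc h ∧ ∀ z : ℂ, ‖z‖ < 1 → k z = kh ‖ψ 0‖ h z := by
      rcases hβ1.eq_or_lt with hβ | hβ
      · refine ⟨fun _ => 0, Sc_zero, fun z hz => ?_⟩
        have hn : ‖k 0‖ = 1 := by rw [hk0, hβ]; simp
        rw [const_of_norm_one hkS hn hz, hk0, hβ, kh_one Sc_zero hz]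
        simp
      · have hn : ‖((‖ψ 0‖ : ℝ) : ℂ)‖ < 1 := by
          rw [Complex.norm_real, norm_norm]
          exact hβ
        obtain ⟨h, hhd, hhb, hheq⟩ := schur_step hkS.1 hkS.2 hk0 hn
        refine ⟨h, ⟨hhd, hhb⟩, fun z hz => ?_⟩
        have e1 := hheq z hz
        rw [Complex.conj_ofReal] at e1
        have e2 := one_add_pzh_ne (norm_nonneg (ψ 0)) hβ1 (⟨hhd, hhb⟩ : Sc h) hz
        unfold kh
        rw [eq_div_iff e2, ← e1]
        ring
    refine ⟨‖φ 0‖, ‖ψ 0‖, q * conj o, q, h, norm_nonneg _, hα1, norm_nonneg _, hβ1,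
      by rw [norm_mul, RCLike.norm_conj, hq, ho, one_mul], hq, hh, fun z hz => ?_⟩
    have hz' : ‖q * z‖ < 1 := by rw [norm_mul, hq, one_mul]; exact hz
    have e1 := hψ (q * z) hz'
    have e3 : gk ‖φ 0‖ (kh ‖ψ 0‖ h) z = gk ‖φ 0‖ k z := by
      unfold gk
      rw [hkh z hz]
    have e4 := one_sub_azk_ne (norm_nonneg (φ 0)) hα1 hkS hz
    rw [e3]
    unfold gk
    have e5 : k z = -(q * o) * ψ (q * z) := rfl
    -- conj (φ 0) * conj o = ‖φ 0‖
    have e6 : conj (φ 0) * conj o = (‖φ 0‖ : ℂ) := by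
      rw [← map_mul, mul_comm, hoα, Complex.conj_ofReal]
    have e7 : φ 0 = conj o * (‖φ 0‖ : ℂ) := by
      rw [← hoα, ← mul_assoc, mul_comm (conj o) o, hoo, one_mul]
    have e8 : q * ψ (q * z) = -(conj o * k z) := by
      rw [e5]
      linear_combination (-(q * ψ (q * z))) * hoo
    rw [← mul_div_assoc, eq_div_iff e4]
    have e9 : conj (φ 0) * (q * z) * ψ (q * z) = -((‖φ 0‖ : ℂ) * (z * k z)) := by
      calc conj (φ 0) * (q * z) * ψ (q * z) = conj (φ 0) * z * (q * ψ (q * z)) := by ring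
        _ = -((conj (φ 0) * conj o) * (z * k z)) := by rw [e8]; ring
        _ = _ := by rw [e6]
    have e10 : φ 0 + q * z * ψ (q * z) = conj o * ((‖φ 0‖ : ℂ) - z * k z) := by
      calc φ 0 + q * z * ψ (q * z) = conj o * (‖φ 0‖ : ℂ) + z * (q * ψ (q * z)) := by
            rw [← e7]; ring
        _ = _ := by rw [e8]; ring
    rw [e9, e10] at e1
    linear_combination q * e1

theorem maj_GG {l a : ℝ} (h0 : 0 < l) (h1 : l < 1) (ha0 : 0 ≤ a) (ha1 : a < 1) {η : ℂ}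
    (hη : ‖η‖ = 1) {h : ℂ → ℂ} (hh : Sc h) {r : ℝ} (hr0 : 0 ≤ r) (hr1 : r < 1) :
    maj l (GG l a η) r = l + (1 - l ^ 2) * Ph (-(l * η)) (gk a (kh 1 h)) r := by
  have hx : ‖-((l : ℂ) * η)‖ = l := norm_x h0.le hη
  have hg := gk_Sc ha0 ha1.le (kh_Sc zero_le_one le_rfl hh)
  have hL := LN_diff (x := -((l : ℂ) * η)) (by rw [hx]; exact h1) hg
  rw [maj_of hL (κ := (1 - (l : ℂ) ^ 2) * η) (fun z hz => ?_) (norm_kappa h0.le h1 hη)]
  · rfl
  · rw [GG_formula h0.le h1 ha0 ha1 hη hz rfl]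
    unfold LN gk
    rw [kh_one hh hz, mul_one]

theorem Ph_conj {x : ℂ} (hx : ‖x‖ < 1) {a p : ℝ} (ha0 : 0 ≤ a) (ha1 : a ≤ 1) (hp0 : 0 ≤ p)
    (hp1 : p ≤ 1) {h : ℂ → ℂ} (hh : Sc h) (r : ℝ) :
    ∃ h' : ℂ → ℂ, Sc h' ∧ Ph x (gk a (kh p h)) r = Ph (conj x) (gk a (kh p h')) r := by
  refine ⟨fun z => conj (h (conj z)), Sc_conj hh, ?_⟩
  unfold Ph
  congr 1
  refine nr_conj (LN_diff hx (gk_Sc ha0 ha1 (kh_Sc hp0 hp1 hh))) (fun z _ => ?_) r
  unfold LN gk kh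
  simp only [map_div₀, map_sub, map_add, map_mul, map_one, Complex.conj_conj, Complex.conj_ofReal]

theorem Ph_rot {l : ℝ} (h0 : 0 ≤ l) (h1 : l < 1) {e : ℂ} (he : ‖e‖ = 1) {a : ℝ} (ha0 : 0 ≤ a)
    (ha1 : a ≤ 1) {k : ℂ → ℂ} (hk : Sc k) (r : ℝ) :
    ∃ k' : ℂ → ℂ, Sc k' ∧ Ph (l * e) (gk a k) r = Ph l (gk a k') r := by
  have he' : ‖conj e‖ = 1 := by rw [RCLike.norm_conj, he]
  have hx : ‖(l : ℂ) * e‖ < 1 := by
    rw [norm_mul, he, mul_one, Complex.norm_real, Real.norm_eq_abs, abs_of_nonneg h0]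
    exact h1
  refine ⟨fun z => conj e * k (conj e * z), Sc_rot hk he' he', ?_⟩
  have hF := LN_diff hx (gk_Sc ha0 ha1 hk)
  have hfun : LN (l : ℂ) (gk a (fun z => conj e * k (conj e * z))) =
      fun z => LN ((l : ℂ) * e) (gk a k) (conj e * z) := by
    funext z
    have e1 : gk a (fun z => conj e * k (conj e * z)) z = gk a k (conj e * z) := by
      unfold gk
      have e2 : z * (conj e * k (conj e * z)) = conj e * z * k (conj e * z) := by ring
      rw [e2]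
    unfold LN
    rw [e1]
    have e3 : (l : ℂ) * e * (conj e * z) = l * z := by
      have := conj_mul_self_of he
      linear_combination (l : ℂ) * z * this
    rw [e3]
  unfold Ph nr
  congr 1
  refine tsum_congr fun n => ?_
  rw [hfun, tc_norm_rot hF he']

end Pool.Agent.P187w
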