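import Pool.Agent.Lib.P187w.Fin

/-!
# The best constant as a minimum over the closed family `0 ≤ a ≤ 1`

No Lipschitz estimates: an extremal function exists by compactness of the sequences of Taylor
coefficients (Montel), and the reduction is used only for the radius `BB l`.
-/

set_option autoImplicit false

open Complex Metric Set Filter Topology
open scoped ComplexConjugate
open Pool.Agent.P187f6b Pool.Agent.P187s

namespace Pool.Agent.P187w

namespace FinBAux

open FinAux

lemma GG_one_eq {l : ℝ} {η z : ℂ} (hz : ‖z‖ < 1) :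
    GG l 1 η z = (l + η * z) / (1 + l * (η * z)) := by
  have h1 : (1 : ℂ) - z ≠ 0 := by
    intro h
    have h2 : z = 1 := (sub_eq_zero.1 h).symm
    rw [h2, norm_one] at hz
    exact lt_irrefl _ hz
  have h2 : z * (((1 : ℝ) : ℂ) - z) / (1 - ((1 : ℝ) : ℂ) * z) = z := by
    rw [Complex.ofReal_one, one_mul, mul_div_assoc, div_self h1, mul_one]
  unfold GG
  rw [h2]

/-- The members of the family with `a ≤ 1` are in the class. -/
lemma GG_mem' {l a : ℝ} {η : ℂ} (hl : 0 ≤ l) (hl1 : l < 1) (hη : ‖η‖ = 1) (h0 : 0 ≤ a)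
    (h1 : a ≤ 1) : GG l a η ∈ FClass l := by
  rcases lt_or_eq_of_le h1 with h | h
  · exact GG_mem hl hl1 hη h0 h
  · subst h
    have hw : ∀ z : ℂ, ‖z‖ < 1 → ‖η * z‖ < 1 := fun z hz => by
      rw [norm_mul, hη, one_mul]; exact hz
    have hne : ∀ z : ℂ, ‖z‖ < 1 → (1 : ℂ) + l * (η * z) ≠ 0 := fun z hz => by
      have := den2_lower hl (hw z hz)
      exact norm_pos_iff.1 (by linarith)
    refine ⟨?_, fun z hz => ?_, ?_⟩
    · have hd : DifferentiableOn ℂ (fun z : ℂ => ((l : ℂ) + η * z) / (1 + l * (η * z)))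
          (ball 0 1) := by
        refine DifferentiableOn.div (by fun_prop) (by fun_prop) (fun z hz => ?_)
        exact hne z (by simpa using hz)
      exact hd.congr (fun z hz => GG_one_eq (by simpa using hz))
    · have hz' : ‖z‖ < 1 := by simpa using hz
      rw [GG_one_eq hz']
      have hd := den2_lower hl (hw z hz')
      have hw' := hw z hz'
      set w := η * z
      rw [norm_div, div_lt_one (by linarith)]
      rw [← abs_norm, ← abs_norm (1 + (l : ℂ) * w), ← sq_lt_sq, ← Complex.normSq_eq_norm_sq,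
        ← Complex.normSq_eq_norm_sq, Complex.normSq_apply, Complex.normSq_apply]
      have h2 : ‖w‖ ^ 2 < 1 := by
        have := norm_nonneg w
        nlinarith
      rw [← Complex.normSq_eq_norm_sq, Complex.normSq_apply] at h2
      have h5 : 0 < (1 - l ^ 2) * (1 - (w.re * w.re + w.im * w.im)) :=
        mul_pos (by nlinarith) (by linarith)
      simp
      nlinarith [h5]
    · rw [GG_one_eq (by simp)]
      simp

lemma BB_lt_one {l : ℝ} (h0 : 0 < l) (h1 : l < 1) : BB l < 1 := by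
  refine (BB_le h0 h1).trans_lt ?_
  rw [div_lt_one (by linarith)]
  linarith

/-- At the best radius all majorants are at most one. -/
lemma maj_le {l : ℝ} (h0 : 0 < l) (h1 : l < 1) {f : ℂ → ℂ} (hf : f ∈ FClass l) :
    maj l f (BB l) ≤ 1 := by
  have h := BB_lt_one h0 h1
  exact maj_BB_le h0 h1 (R := (BB l + 1) / 2) (by linarith) (by linarith) hf

/-- Rotation of the variable. -/
lemma rot_mem {l : ℝ} {f : ℂ → ℂ} (hf : f ∈ FClass l) {ω : ℂ} (hω : ‖ω‖ = 1) :
    (fun z => f (ω * z)) ∈ FClass l := by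
  refine ⟨?_, fun z hz => ?_, ?_⟩
  · refine hf.1.comp (differentiableOn_id.const_mul ω) (fun z hz => ?_)
    have : ‖z‖ < 1 := by simpa using hz
    simp only [mem_ball_zero_iff, norm_mul, hω, one_mul]
    exact this
  · refine hf.2.1 _ ?_
    have : ‖z‖ < 1 := by simpa using hz
    simp only [mem_ball_zero_iff, norm_mul, hω, one_mul]
    exact this
  · simp only [mul_zero]
    exact hf.2.2

lemma tc_rot {l : ℝ} {f : ℂ → ℂ} (hf : f ∈ FClass l) {ω : ℂ} (hω : ‖ω‖ = 1) (n : ℕ) :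
    tc (fun z => f (ω * z)) n = ω ^ n * tc f n := by
  refine tc_eq (c := fun n => ω ^ n * tc f n) (fun z hz => ?_) n
  have h1 : ‖ω * z‖ < 1 := by rw [norm_mul, hω, one_mul]; exact hz
  refine (tc_hasSum hf.1 h1).congr_fun (fun n => ?_)
  rw [mul_pow]
  ring

lemma maj_rot {l : ℝ} {f : ℂ → ℂ} (hf : f ∈ FClass l) {ω : ℂ} (hω : ‖ω‖ = 1) (r : ℝ) :
    maj l (fun z => f (ω * z)) r = maj l f r := by
  rw [maj_def, maj_def]
  congr 1
  refine tsum_congr (fun n => ?_)
  rw [FinBAux.tc_rot hf hω, norm_mul, norm_pow, hω, one_pow, one_mul]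

/-- The limit of a sequence of functions of the class whose Taylor coefficients converge. -/
lemma limit_mem {l : ℝ} (hl1 : |l| < 1) {F : ℕ → ℂ → ℂ} (hF : ∀ k, F k ∈ FClass l)
    {c : ℕ → ℂ} (hc : ∀ n, Tendsto (fun k => tc (F k) n) atTop (𝓝 (c n))) :
    (fun z : ℂ => ∑' n, c n * z ^ n) ∈ FClass l ∧
      ∀ n, tc (fun z : ℂ => ∑' n, c n * z ^ n) n = c n := by
  have hc1 : ∀ n, ‖c n‖ ≤ 1 := fun n =>
    le_of_tendsto (hc n).norm (Eventually.of_forall (fun k => tc_le_one (hF k) n))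
  have hsum : ∀ z : ℂ, ‖z‖ < 1 → Summable (fun n => c n * z ^ n) := by
    intro z hz
    refine Summable.of_norm_bounded (g := fun n => ‖z‖ ^ n)
      (summable_geometric_of_lt_one (norm_nonneg _) hz) (fun n => ?_)
    rw [norm_mul, norm_pow]
    exact mul_le_of_le_one_left (pow_nonneg (norm_nonneg _) _) (hc1 n)
  have hdiff : DifferentiableOn ℂ (fun z : ℂ => ∑' n, c n * z ^ n) (ball 0 1) := by
    intro z hz
    have hz' : ‖z‖ < 1 := by simpa using hz
    obtain ⟨ρ, hρ1, hρ2⟩ := exists_between hz'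
    have hρ0 : 0 ≤ ρ := (norm_nonneg z).trans hρ1.le
    have h2 : DifferentiableOn ℂ (fun z : ℂ => ∑' n, c n * z ^ n) (ball 0 ρ) := by
      refine differentiableOn_tsum_of_summable_norm (u := fun n => ρ ^ n)
        (summable_geometric_of_lt_one hρ0 hρ2) (fun n => ?_) isOpen_ball (fun n w hw => ?_)
      · fun_prop
      · have hw' : ‖w‖ < ρ := by simpa using hw
        rw [norm_mul, norm_pow]
        exact (mul_le_of_le_one_left (pow_nonneg (norm_nonneg _) _) (hc1 n)).trans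
          (pow_le_pow_left₀ (norm_nonneg _) hw'.le n)
    exact ((h2 z (by simpa using hρ1)).differentiableAt
      (isOpen_ball.mem_nhds (by simpa using hρ1))).differentiableWithinAt
  have hlim : ∀ z : ℂ, ‖z‖ < 1 →
      Tendsto (fun k => F k z) atTop (𝓝 (∑' n, c n * z ^ n)) := by
    intro z hz
    have e : ∀ k, F k z = ∑' n, tc (F k) n * z ^ n := fun k => (tc_hasSum (hF k).1 hz).tsum_eq.symm
    simp_rw [e]
    refine tendsto_tsum_of_dominated_convergence (bound := fun n => ‖z‖ ^ n)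
      (summable_geometric_of_lt_one (norm_nonneg _) hz) (fun n => (hc n).mul_const _)
      (Eventually.of_forall (fun k n => ?_))
    rw [norm_mul, norm_pow]
    exact mul_le_of_le_one_left (pow_nonneg (norm_nonneg _) _) (tc_le_one (hF k) n)
  have hle : ∀ z : ℂ, ‖z‖ < 1 → ‖∑' n, c n * z ^ n‖ ≤ 1 := fun z hz =>
    le_of_tendsto (hlim z hz).norm
      (Eventually.of_forall (fun k => ((hF k).2.1 z (by simpa using hz)).le))
  have hzero : (∑' n, c n * (0 : ℂ) ^ n) = (l : ℂ) := by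
    have h3 := hlim 0 (by simp)
    have h4 : (fun k => F k 0) = fun _ => (l : ℂ) := funext fun k => (hF k).2.2
    rw [h4] at h3
    exact tendsto_nhds_unique h3 tendsto_const_nhds
  refine ⟨⟨hdiff, fun z hz => ?_, hzero⟩, fun n => tc_eq (fun z hz => (hsum z hz).hasSum) n⟩
  have hz' : ‖z‖ < 1 := by simpa using hz
  refine lt_of_le_of_ne (hle z hz') (fun hcon => ?_)
  have hmax : IsMaxOn (norm ∘ fun z : ℂ => ∑' n, c n * z ^ n) (ball 0 1) z := by
    intro w hw
    have := hle w (by simpa using hw)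
    simp only [Set.mem_ofPred_eq, Function.comp_apply]
    rw [hcon]
    exact this
  have h5 := Complex.norm_eqOn_of_isPreconnected_of_isMaxOn
    (convex_ball (0 : ℂ) 1).isPreconnected isOpen_ball hdiff hz hmax
    (mem_ball_self one_pos)
  simp only [Function.comp_apply, Function.const_apply] at h5
  rw [hzero, hcon, Complex.norm_real, Real.norm_eq_abs] at h5
  linarith

/-- There is an extremal function. -/
theorem exists_ext {l : ℝ} (h0 : 0 < l) (h1 : l < 1) : ∃ f ∈ FClass l, maj l f (BB l) = 1 := by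
  have hB0 := BB_pos h0 h1
  have hB1 := BB_lt_one h0 h1
  obtain ⟨ρ, hρ1, hρ2⟩ := exists_between hB1
  have hρ0 : 0 < ρ := hB0.trans hρ1
  -- radii decreasing to the best one
  set r : ℕ → ℝ := fun k => BB l + (ρ - BB l) * (1 / ((k : ℝ) + 1)) with hr
  have hrB : ∀ k, BB l < r k := fun k => by
    have : 0 < (ρ - BB l) * (1 / ((k : ℝ) + 1)) :=
      mul_pos (by linarith) (by positivity)
    simp only [hr]
    linarith
  have hrρ : ∀ k, r k ≤ ρ := fun k => by
    have h2 : (1 : ℝ) / ((k : ℝ) + 1) ≤ 1 := by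
      rw [div_le_one (by positivity)]
      have : (0 : ℝ) ≤ k := Nat.cast_nonneg k
      linarith
    have h3 : (ρ - BB l) * (1 / ((k : ℝ) + 1)) ≤ (ρ - BB l) * 1 :=
      mul_le_mul_of_nonneg_left h2 (by linarith)
    simp only [hr]
    linarith
  have hrlim : Tendsto r atTop (𝓝 (BB l)) := by
    have h2 := (tendsto_one_div_add_atTop_nhds_zero_nat (𝕜 := ℝ)).const_mul (ρ - BB l)
    have h3 := h2.const_add (BB l)
    rw [mul_zero, add_zero] at h3
    exact h3
  have hex : ∀ k, ∃ f ∈ FClass l, 1 < maj l f (r k) := by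
    intro k
    by_contra hcon
    push Not at hcon
    have : r k ≤ BB l := le_csSup ⟨1, fun s hs => hs.2.1.le⟩
      ⟨(hB0.trans (hrB k)).le, (hrρ k).trans_lt hρ2, hcon⟩
    exact absurd this (not_le.2 (hrB k))
  choose F hF hFm using hex
  -- compactness
  have hK : IsCompact (Set.univ.pi (fun _ : ℕ => closedBall (0 : ℂ) 1)) :=
    isCompact_univ_pi (fun _ => isCompact_closedBall _ _)
  obtain ⟨c, _, φ, hφ, hlim⟩ := hK.tendsto_subseq (x := fun k n => tc (F k) n)
    (fun k n _ => by simpa using tc_le_one (hF k) n)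
  have hc : ∀ n, Tendsto (fun k => tc (F (φ k)) n) atTop (𝓝 (c n)) := by
    intro n
    exact (tendsto_pi_nhds.1 hlim) n
  have hcl : |l| < 1 := by rw [abs_of_pos h0]; exact h1
  obtain ⟨hmem, htc⟩ := limit_mem hcl (fun k => hF (φ k)) hc
  refine ⟨_, hmem, le_antisymm (maj_le h0 h1 hmem) ?_⟩
  -- the majorants converge
  have hconv : Tendsto (fun k => maj l (F (φ k)) (r (φ k))) atTop
      (𝓝 (maj l (fun z : ℂ => ∑' n, c n * z ^ n) (BB l))) := by
    simp only [maj_def, htc]
    refine Tendsto.const_add _ ?_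
    refine tendsto_tsum_of_dominated_convergence (bound := fun n : ℕ => ρ ^ (n + 1))
      ((summable_nat_add_iff 1).2 (summable_geometric_of_lt_one hρ0.le hρ2)) (fun n => ?_)
      (Eventually.of_forall (fun k n => ?_))
    · exact (hc (n + 1)).norm.mul ((hrlim.comp hφ.tendsto_atTop).pow (n + 1))
    · have h2 : 0 ≤ r (φ k) := (hB0.trans (hrB _)).le
      rw [norm_mul, norm_norm, norm_pow, Real.norm_eq_abs, abs_of_nonneg h2]
      exact (mul_le_of_le_one_left (pow_nonneg h2 _) (tc_le_one (hF _) _)).trans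
        (pow_le_pow_left₀ h2 (hrρ _) _)
  exact ge_of_tendsto hconv (Eventually.of_forall (fun k => (hFm (φ k)).le))

end FinBAux

open FinAux FinBAux

/-- The best constant is the least radius at which the majorant of a member of the closed family
equals one, and all extremal functions are rotations of members, as soon as the extremal functions
at the best radius are dominated by the family. -/
theorem final_closed {l : ℝ} (h0 : 0 < l) (h1 : l < 1)
    (hred : ∀ f ∈ FClass l, maj l f (BB l) = 1 →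
      ∃ (a : ℝ) (η ω : ℂ), 0 ≤ a ∧ a ≤ 1 ∧ ‖η‖ = 1 ∧ ‖ω‖ = 1 ∧
        (1 < maj l (GG l a η) (BB l) ∨ ∀ z : ℂ, ‖z‖ < 1 → f z = GG l a η (ω * z))) :
    IsLeast {r : ℝ | 0 ≤ r ∧ r < 1 ∧ ∃ (a : ℝ) (η : ℂ), 0 ≤ a ∧ a ≤ 1 ∧ ‖η‖ = 1 ∧
      maj l (GG l a η) r = 1} (BB l) ∧
    ∀ f ∈ FClass l, maj l f (BB l) = 1 →
      ∃ (a : ℝ) (η ω : ℂ), 0 ≤ a ∧ a ≤ 1 ∧ ‖η‖ = 1 ∧ ‖ω‖ = 1 ∧
        ∀ z : ℂ, ‖z‖ < 1 → f z = GG l a η (ω * z) := by
  have hB0 := BB_pos h0 h1
  have hB1 := BB_lt_one h0 h1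
  have hext : ∀ f ∈ FClass l, maj l f (BB l) = 1 →
      ∃ (a : ℝ) (η ω : ℂ), 0 ≤ a ∧ a ≤ 1 ∧ ‖η‖ = 1 ∧ ‖ω‖ = 1 ∧
        ∀ z : ℂ, ‖z‖ < 1 → f z = GG l a η (ω * z) := by
    intro f hf hfm
    obtain ⟨a, η, ω, h2, h3, h4, h5, h6⟩ := hred f hf hfm
    rcases h6 with h7 | h7
    · have := maj_le h0 h1 (GG_mem' h0.le h1 h4 h2 h3)
      linarith
    · exact ⟨a, η, ω, h2, h3, h4, h5, h7⟩
  refine ⟨⟨?_, ?_⟩, hext⟩
  · obtain ⟨f, hf, hfm⟩ := exists_ext h0 h1
    obtain ⟨a, η, ω, h2, h3, h4, h5, h6⟩ := hext f hf hfm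
    refine ⟨hB0.le, hB1, a, η, h2, h3, h4, ?_⟩
    have hG := GG_mem' h0.le h1 h4 h2 h3
    have e : maj l f (BB l) = maj l (fun z => GG l a η (ω * z)) (BB l) := by
      rw [maj_def, maj_def]
      congr 1
      refine tsum_congr (fun n => ?_)
      rw [tc_congr (FinBAux.rot_mem hG h5).1 h6]
    rw [← hfm, e, FinBAux.maj_rot hG h5]
  · rintro r ⟨hr0, hr1, a, η, ha0', ha1', hη, hm⟩
    by_contra hcon
    rw [not_le] at hcon
    have hG := GG_mem' h0.le h1 hη ha0' ha1'
    have hle := maj_le h0 h1 hG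
    have hs1 := summ hG hr0 hr1
    have hs2 := summ hG hB0.le hB1
    have hex : ∃ n, ‖tc (GG l a η) (n + 1)‖ ≠ 0 := by
      by_contra hcon2
      push Not at hcon2
      rw [maj_def] at hm
      simp only [hcon2, zero_mul, tsum_zero, add_zero] at hm
      linarith
    obtain ⟨n, hn⟩ := hex
    have hn0 : 0 < ‖tc (GG l a η) (n + 1)‖ := lt_of_le_of_ne (norm_nonneg _) (Ne.symm hn)
    have hlt2 := hs1.tsum_lt_tsum (i := n) (fun k => ?_) ?_ hs2
    · rw [maj_def] at hm hle
      linarith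
    · exact mul_le_mul_of_nonneg_left (pow_le_pow_left₀ hr0 hcon.le _) (norm_nonneg _)
    · exact mul_lt_mul_of_pos_left (pow_lt_pow_left₀ hcon hr0 (by omega)) hn0

end Pool.Agent.P187w
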