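import Pool.Agent.Lib.P187w.Norm
import Pool.Agent.Lib.P187w.FinB

/-!
# From the three zones to the reduction at the best radius

`FAR`, `NEAR`, `LEV0` are exactly the statements delivered by the certificates (packages BFC and
BNR), `BB l ≤ R` comes from the members. The conclusion `hred` is the hypothesis of `assemble`.
-/

set_option autoImplicit false

open Complex Metric Set
open scoped ComplexConjugate
open Pool.Agent.P187f6b Pool.Agent.P187s

namespace Pool.Agent.P187w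

/-- Far zone, in terms of the first two coefficients of a rotated function. -/
def FAR (l R s1 s2 : ℝ) : Prop :=
  ∀ f ∈ FClass l, ∀ α : ℝ, 0 ≤ α → α ≤ 1 - s2 → tc f 1 = (((1 - l ^ 2) * α : ℝ) : ℂ) →
    ‖tc f 2 + ((l * (1 - l ^ 2) * α ^ 2 : ℝ) : ℂ)‖ ≤ (1 - l ^ 2) * (1 - s1) * (1 - α ^ 2) →
    ∀ r : ℝ, 0 ≤ r → r ≤ R → maj l f r < 1

/-- Near zone. -/
def NEAR (l R s1 s2 : ℝ) : Prop :=
  ∀ x : ℂ, ‖x‖ = l → ∀ a : ℝ, 0 ≤ a → a ≤ 1 - s2 → a < 1 → ∀ k : ℂ → ℂ, Sc k → ∀ t : ℝ, 0 < t →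
    t ≤ s1 → k 0 = ((1 - t : ℝ) : ℂ) → ∀ r : ℝ, 0 ≤ r → r ≤ R →
    1 / (1 + l) ≤ Ph x (gk a k) r → Ph x (gk a k) r < Ph x (gk a (fun _ => 1)) r

/-- The zone `a` near one. -/
def LEV0 (l R s2 : ℝ) : Prop :=
  ∀ x : ℂ, ‖x‖ = l → ∀ g : ℂ → ℂ, Sc g → ∀ d : ℝ, 0 < d → d ≤ s2 → g 0 = ((1 - d : ℝ) : ℂ) →
    ∀ r : ℝ, 0 ≤ r → r ≤ R → r ≤ 1 / (1 + 2 * l) → Ph x g r < 1 / (1 + l)

namespace HredAux

open NormAux

/-- Normal form of a member of the class, with the functional equation. -/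
theorem normal_fun {l : ℝ} (h0 : 0 < l) (h1 : l < 1) {f : ℂ → ℂ} (hf : f ∈ FClass l) :
    ∃ (a p : ℝ) (u w : ℂ) (h : ℂ → ℂ), 0 ≤ a ∧ a ≤ 1 ∧ 0 ≤ p ∧ p ≤ 1 ∧ ‖u‖ = 1 ∧ ‖w‖ = 1 ∧
      Sc h ∧ ∀ z : ℂ, ‖z‖ < 1 → f (w * z) =
        l + ((1 - (l : ℂ) ^ 2) * u) * z * LN (-((l : ℂ) * u)) (gk a (kh p h)) z := by
  have hlnorm : ‖(l : ℂ)‖ < 1 := by
    rw [Complex.norm_real, Real.norm_eq_abs, abs_of_pos h0]
    exact h1
  obtain ⟨φ, hφd, hφb, hφ⟩ := schur_step hf.1
    (fun z hz => (hf.2.1 z (by simpa using hz)).le) hf.2.2 hlnorm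
  rw [Complex.conj_ofReal] at hφ
  have hφS : Sc φ := ⟨hφd, hφb⟩
  -- the key reduction
  suffices H : ∃ (a p : ℝ) (u w : ℂ) (h : ℂ → ℂ), 0 ≤ a ∧ a ≤ 1 ∧ 0 ≤ p ∧ p ≤ 1 ∧ ‖u‖ = 1 ∧
      ‖w‖ = 1 ∧ Sc h ∧ ∀ z : ℂ, ‖z‖ < 1 → w * φ (w * z) = u * gk a (kh p h) z by
    obtain ⟨a, p, u, w, h, ha0, ha1, hp0, hp1, hu, hw, hh, hH⟩ := H
    have hk := kh_Sc hp0 hp1 hh
    have hg := gk_Sc ha0 ha1 hk
    have hx : ‖-((l : ℂ) * u)‖ = l := norm_x h0.le hu
    have hx1 : ‖-((l : ℂ) * u)‖ < 1 := by rw [hx]; exact h1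
    have hL := LN_diff hx1 hg
    have hfz : ∀ z : ℂ, ‖z‖ < 1 → f (w * z) =
        l + ((1 - (l : ℂ) ^ 2) * u) * z * LN (-((l : ℂ) * u)) (gk a (kh p h)) z := by
      intro z hz
      have hwz : ‖w * z‖ < 1 := by rw [norm_mul, hw, one_mul]; exact hz
      have e1 := hφ (w * z) hwz
      have e2 := hH z hz
      have e3 := one_sub_xzg_ne hx1 hg hz
      unfold LN
      set g := gk a (kh p h) z with hgdef
      obtain ⟨D, hD⟩ : ∃ D : ℂ, D = 1 - -((l : ℂ) * u) * z * g := ⟨_, rfl⟩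
      rw [← hD] at e3 ⊢
      have e4 : f (w * z) * D = l + u * z * g := by
        have e5 : w * z * φ (w * z) = u * z * g := by linear_combination z * e2
        have e6 : (1 : ℂ) + l * (w * z) * φ (w * z) = D := by
          rw [hD]; linear_combination l * e5
        rw [e6] at e1
        rw [e1]
        linear_combination e5
      have e7 : (l + (1 - (l : ℂ) ^ 2) * u * z * (g / D)) * D =
          l * D + (1 - (l : ℂ) ^ 2) * u * z * g := by
        field_simp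
      refine mul_right_cancel₀ e3 ?_
      rw [e7, e4, hD]
      ring
    exact ⟨a, p, u, w, h, ha0, ha1, hp0, hp1, hu, hw, hh, hfz⟩
  have hα1 : ‖φ 0‖ ≤ 1 := hφb 0 (by simp)
  rcases hα1.eq_or_lt with hα | hα
  · -- constant case
    refine ⟨1, 1, 1, conj (φ 0), fun _ => 0, zero_le_one, le_rfl, zero_le_one, le_rfl, by simp,
      by rw [RCLike.norm_conj, hα], Sc_zero, fun z hz => ?_⟩
    have hz' : ‖conj (φ 0) * z‖ < 1 := by rw [norm_mul, RCLike.norm_conj, hα, one_mul]; exact hz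
    rw [const_of_norm_one hφS hα hz', gk_one (kh_Sc zero_le_one le_rfl Sc_zero) hz, mul_one,
      mul_comm, conj_mul_self_of hα]
  · obtain ⟨ψ, hψd, hψb, hψ⟩ := schur_step hφd hφb rfl hα
    obtain ⟨o, ho, hoα⟩ := exists_unimod (φ 0)
    -- `conj o` is the phase of `φ 0`
    obtain ⟨q, hq, hqβ⟩ := exists_unimod (-(o * ψ 0))
    have hoo := conj_mul_self_of ho
    set k : ℂ → ℂ := fun z => (-(q * o)) * ψ (q * z) with hk
    have hkS : Sc k := Sc_rot ⟨hψd, hψb⟩ hq (by rw [norm_neg, norm_mul, hq, ho, one_mul])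
    have hk0 : k 0 = ((‖ψ 0‖ : ℝ) : ℂ) := by
      have e : ‖-(o * ψ 0)‖ = ‖ψ 0‖ := by rw [norm_neg, norm_mul, ho, one_mul]
      rw [e] at hqβ
      rw [hk, ← hqβ]
      simp only [mul_zero]
      ring
    have hβ1 : ‖ψ 0‖ ≤ 1 := hψb 0 (by simp)
    obtain ⟨h, hh, hkh⟩ : ∃ h : ℂ → ℂ, Sc h ∧ ∀ z : ℂ, ‖z‖ < 1 → k z = kh ‖ψ 0‖ h z := by
      rcases hβ1.eq_or_lt with hβ | hβ
      · refine ⟨fun _ => 0, Sc_zero, fun z hz => ?_⟩
        have hn : ‖k 0‖ = 1 := by rw [hk0, hβ]; simp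
        rw [const_of_norm_one hkS hn hz, hk0, hβ, kh_one Sc_zero hz]
        simp
      · have hn : ‖((‖ψ 0‖ : ℝ) : ℂ)‖ < 1 := by
          rw [Complex.norm_real, norm_norm]
          exact hβ
        obtain ⟨h, hhd, hhb, hheq⟩ := schur_step hkS.1 hkS.2 hk0 hn
        refine ⟨h, ⟨hhd, hhb⟩, fun z hz => ?_⟩
        have e1 := hheq z hz
        rw [Complex.conj_ofReal] at e1
        have e2 := one_add_pzh_ne (norm_nonneg (ψ 0)) hβ1 (⟨hhd, hhb⟩ : Sc h) hz
        unfold kh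
        rw [eq_div_iff e2, ← e1]
        ring
    refine ⟨‖φ 0‖, ‖ψ 0‖, q * conj o, q, h, norm_nonneg _, hα1, norm_nonneg _, hβ1,
      by rw [norm_mul, RCLike.norm_conj, hq, ho, one_mul], hq, hh, fun z hz => ?_⟩
    have hz' : ‖q * z‖ < 1 := by rw [norm_mul, hq, one_mul]; exact hz
    have e1 := hψ (q * z) hz'
    have e3 : gk ‖φ 0‖ (kh ‖ψ 0‖ h) z = gk ‖φ 0‖ k z := by
      unfold gk
      rw [hkh z hz]
    have e4 := one_sub_azk_ne (norm_nonneg (φ 0)) hα1 hkS hz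
    rw [e3]
    unfold gk
    have e5 : k z = -(q * o) * ψ (q * z) := rfl
    -- conj (φ 0) * conj o = ‖φ 0‖
    have e6 : conj (φ 0) * conj o = (‖φ 0‖ : ℂ) := by
      rw [← map_mul, mul_comm, hoα, Complex.conj_ofReal]
    have e7 : φ 0 = conj o * (‖φ 0‖ : ℂ) := by
      rw [← hoα, ← mul_assoc, mul_comm (conj o) o, hoo, one_mul]
    have e8 : q * ψ (q * z) = -(conj o * k z) := by
      rw [e5]
      linear_combination (-(q * ψ (q * z))) * hoo
    rw [← mul_div_assoc, eq_div_iff e4]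
    have e9 : conj (φ 0) * (q * z) * ψ (q * z) = -((‖φ 0‖ : ℂ) * (z * k z)) := by
      calc conj (φ 0) * (q * z) * ψ (q * z) = conj (φ 0) * z * (q * ψ (q * z)) := by ring
        _ = -((conj (φ 0) * conj o) * (z * k z)) := by rw [e8]; ring
        _ = _ := by rw [e6]
    have e10 : φ 0 + q * z * ψ (q * z) = conj o * ((‖φ 0‖ : ℂ) - z * k z) := by
      calc φ 0 + q * z * ψ (q * z) = conj o * (‖φ 0‖ : ℂ) + z * (q * ψ (q * z)) := by
            rw [← e7]; ring
        _ = _ := by rw [e8]; ring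
    rw [e9, e10] at e1
    linear_combination q * e1

end HredAux

open HredAux

/-- The reduction at the best radius from the three zones. -/
theorem hred_of_zones {l R s1 s2 : ℝ} (h0 : 0 < l) (h1 : l < 1) (hB : BB l ≤ R)
    (hfar : FAR l R s1 s2) (hnear : NEAR l R s1 s2) (hlev : LEV0 l R s2) :
    ∀ f ∈ FClass l, maj l f (BB l) = 1 →
      ∃ (a : ℝ) (η ω : ℂ), 0 ≤ a ∧ a ≤ 1 ∧ ‖η‖ = 1 ∧ ‖ω‖ = 1 ∧
        (1 < maj l (GG l a η) (BB l) ∨ ∀ z : ℂ, ‖z‖ < 1 → f z = GG l a η (ω * z)) := by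
  intro f hf hm
  have hB0 := FinAux.BB_pos h0 h1
  have hB1 := FinBAux.BB_lt_one h0 h1
  have hll : 0 < 1 - l ^ 2 := by nlinarith
  obtain ⟨a, p, u, w, h, ha0, ha1, hp0, hp1, hu, hw, hh, hfz⟩ := normal_fun h0 h1 hf
  have hx : ‖-((l : ℂ) * u)‖ = l := NormAux.norm_x h0.le hu
  have hx1 : ‖-((l : ℂ) * u)‖ < 1 := by rw [hx]; exact h1
  have hk := kh_Sc hp0 hp1 hh
  have hg := gk_Sc ha0 ha1 hk
  have hL := LN_diff hx1 hg
  have hww := NormAux.conj_mul_self_of hw
  have hwn : ‖conj w‖ = 1 := by rw [RCLike.norm_conj, hw]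
  have hmaj : maj l f (BB l) = l + (1 - l ^ 2) *
      Ph (-((l : ℂ) * u)) (gk a (kh p h)) (BB l) := by
    rw [NormAux.maj_rot hf.1 hw, NormAux.maj_of hL hfz (NormAux.norm_kappa h0.le h1 hu)]
    rfl
  have hPh : Ph (-((l : ℂ) * u)) (gk a (kh p h)) (BB l) = 1 / (1 + l) := by
    rw [hmaj] at hm
    rw [eq_div_iff (by linarith)]
    have h2 : (1 - l) * (Ph (-((l : ℂ) * u)) (gk a (kh p h)) (BB l) * (1 + l)) =
        (1 - l) * 1 := by linear_combination hm
    exact mul_left_cancel₀ (by linarith) h2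
  -- undo the rotation
  have hback : ∀ z : ℂ, ‖z‖ < 1 → ‖conj w * z‖ < 1 ∧ w * (conj w * z) = z := fun z hz =>
    ⟨by rw [norm_mul, hwn, one_mul]; exact hz, by rw [← mul_assoc, hww, one_mul]⟩
  rcases eq_or_lt_of_le ha1 with ha | ha
  · -- the Moebius maps
    subst ha
    refine ⟨1, u, conj w, zero_le_one, le_rfl, hu, hwn, Or.inr (fun z hz => ?_)⟩
    obtain ⟨hz', e2⟩ := hback z hz
    have e1 := hfz _ hz'
    rw [e2] at e1
    rw [e1, FinBAux.GG_one_eq hz']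
    set y := conj w * z
    unfold LN
    rw [gk_one hk hz']
    have hd := den2_lower h0.le (w := u * y) (by rw [norm_mul, hu, one_mul]; exact hz')
    have hne : (1 : ℂ) + l * (u * y) ≠ 0 := norm_pos_iff.1 (by linarith)
    have e3 : (1 : ℂ) - -((l : ℂ) * u) * y * 1 = 1 + l * (u * y) := by ring
    rw [e3, eq_div_iff hne, add_mul, mul_assoc, mul_assoc, mul_assoc, one_div,
      inv_mul_cancel₀ hne]
    ring
  rcases eq_or_lt_of_le hp1 with hp | hp
  · -- members of the family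
    subst hp
    refine ⟨a, u, conj w, ha0, ha1, hu, hwn, Or.inr (fun z hz => ?_)⟩
    obtain ⟨hz', e2⟩ := hback z hz
    have e1 := hfz _ hz'
    rw [e2] at e1
    rw [NormAux.GG_formula h0.le h1 ha0 ha hu hz' rfl, e1]
    unfold LN gk
    rw [kh_one hh hz', mul_one]
  rcases lt_or_ge (1 - s2) a with hs2 | hs2
  · -- level zero
    exfalso
    have h2 := hlev _ hx _ hg (1 - a) (by linarith) (by linarith)
      (by rw [gk_zero]; congr 1; ring) (BB l) hB0.le hB (BB_le h0 h1)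
    rw [hPh] at h2
    exact lt_irrefl _ h2
  rcases le_or_gt s1 (1 - p) with hs1 | hs1
  · -- far zone
    exfalso
    have hcu : conj u * u = 1 := by rw [mul_comm]; exact NormAux.conj_mul_self_of hu
    have hwu : ‖w * conj u‖ = 1 := by rw [norm_mul, RCLike.norm_conj, hu, hw, mul_one]
    set F : ℂ → ℂ := fun z => f (w * conj u * z) with hF
    have hFm : F ∈ FClass l := FinBAux.rot_mem hf hwu
    have hFm1 : maj l F (BB l) = 1 := by rw [hF, FinBAux.maj_rot hf hwu, hm]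
    set G : ℂ → ℂ := fun z => f (w * z) with hG
    have hGm : G ∈ FClass l := FinBAux.rot_mem hf hw
    have hFG : ∀ n, tc F n = conj u ^ n * tc G n := by
      intro n
      rw [hF, hG, FinBAux.tc_rot hf hwu, FinBAux.tc_rot hf hw, mul_pow]
      ring
    have hGt : ∀ n, tc G (n + 1) = ((1 - (l : ℂ) ^ 2) * u) *
        tc (LN (-((l : ℂ) * u)) (gk a (kh p h))) n := fun n => tc_shift hL hfz n
    -- the first two coefficients of `LN`
    have hL0 : tc (LN (-((l : ℂ) * u)) (gk a (kh p h))) 0 = a := by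
      rw [tc_zero]
      unfold LN
      rw [gk_zero]
      simp
    have hgsh : ∀ z : ℂ, ‖z‖ < 1 → gk a (kh p h) z = (a : ℂ) + (-1) * z *
        (kh p h z * (1 - (a : ℂ) * gk a (kh p h) z)) := by
      intro z hz
      have hne := one_sub_azk_ne ha0 ha1 hk hz
      have e : gk a (kh p h) z * (1 - (a : ℂ) * (z * kh p h z)) = a - z * kh p h z := by
        unfold gk
        rw [div_mul_cancel₀ _ hne]
      linear_combination e
    have hgd : DifferentiableOn ℂ (fun z => kh p h z * (1 - (a : ℂ) * gk a (kh p h) z))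
        (ball 0 1) := hk.1.mul ((differentiableOn_const _).sub
          ((differentiableOn_const _).mul hg.1))
    have hg1 : tc (gk a (kh p h)) 1 = -((1 - (a : ℂ) ^ 2) * p) := by
      rw [tc_shift hgd hgsh 0, tc_zero, kh_zero, gk_zero]
      ring
    have hLd : DifferentiableOn ℂ (fun z => gk a (kh p h) z *
        LN (-((l : ℂ) * u)) (gk a (kh p h)) z) (ball 0 1) := hg.1.mul hL
    have hLsh : ∀ z : ℂ, ‖z‖ < 1 → LN (-((l : ℂ) * u)) (gk a (kh p h)) z =
        gk a (kh p h) z + -((l : ℂ) * u) * z * (gk a (kh p h) z *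
          LN (-((l : ℂ) * u)) (gk a (kh p h)) z) := by
      intro z hz
      have hne := one_sub_xzg_ne hx1 hg hz
      have e : LN (-((l : ℂ) * u)) (gk a (kh p h)) z * (1 - -((l : ℂ) * u) * z *
          gk a (kh p h) z) = gk a (kh p h) z := by
        unfold LN
        rw [div_mul_cancel₀ _ hne]
      linear_combination e
    have hsd : DifferentiableOn ℂ (fun z : ℂ => -((l : ℂ) * u) * z * (gk a (kh p h) z *
        LN (-((l : ℂ) * u)) (gk a (kh p h)) z)) (ball 0 1) :=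
      ((differentiableOn_const _).mul differentiableOn_id).mul hLd
    have hL1 : tc (LN (-((l : ℂ) * u)) (gk a (kh p h))) 1 =
        -((1 - (a : ℂ) ^ 2) * p) + -((l : ℂ) * u) * (a * a) := by
      rw [tc_congr (hg.1.add hsd) hLsh 1]
      have e := tc_add hg.1 hsd 1
      have e2 : tc (fun z : ℂ => -((l : ℂ) * u) * z * (gk a (kh p h) z *
          LN (-((l : ℂ) * u)) (gk a (kh p h)) z)) 1 = -((l : ℂ) * u) * (a * a) := by
        rw [tc_shift (c := 0) (k := -((l : ℂ) * u)) hLd (fun z _ => by ring) 0, tc_zero]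
        congr 1
        rw [gk_zero]
        unfold LN
        rw [gk_zero]
        simp
      rw [← hg1, ← e2]
      exact e
    have h2 := hfar F hFm a ha0 hs2 ?_ ?_ (BB l) hB0.le hB
    · rw [hFm1] at h2
      exact lt_irrefl _ h2
    · rw [hFG, hGt 0, hL0]
      push_cast
      linear_combination ((1 - (l : ℂ) ^ 2) * a) * hcu
    · have e : tc F 2 + ((l * (1 - l ^ 2) * a ^ 2 : ℝ) : ℂ) =
          (((1 - l ^ 2) * (1 - a ^ 2) * p : ℝ) : ℂ) * (-conj u) := by
        rw [hFG, hGt 1, hL1]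
        push_cast
        have hcu2 : conj u ^ 2 * u = conj u := by rw [pow_two, mul_assoc, hcu, mul_one]
        have hcu3 : conj u ^ 2 * (u * u) = 1 := by
          rw [pow_two]
          calc conj u * conj u * (u * u) = (conj u * u) * (conj u * u) := by ring
            _ = 1 := by rw [hcu, one_mul]
        linear_combination (-(1 - (l : ℂ) ^ 2) * (1 - (a : ℂ) ^ 2) * p) * hcu2 -
          ((1 - (l : ℂ) ^ 2) * l * a ^ 2) * hcu3
      have haa : 0 ≤ 1 - a ^ 2 := by nlinarith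
      rw [e, norm_mul, norm_neg, RCLike.norm_conj, hu, mul_one, Complex.norm_real,
        Real.norm_eq_abs, abs_of_nonneg (by positivity)]
      have h3 : (1 - l ^ 2) * (1 - a ^ 2) * p ≤ (1 - l ^ 2) * (1 - a ^ 2) * (1 - s1) :=
        mul_le_mul_of_nonneg_left (by linarith) (by positivity)
      linarith
  · -- near zone
    refine ⟨a, u, conj w, ha0, ha1, hu, hwn, Or.inl ?_⟩
    have h2 := hnear _ hx a ha0 hs2 ha _ hk (1 - p) (by linarith) hs1.le
      (by rw [kh_zero]; congr 1; ring) (BB l) hB0.le hB hPh.ge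
    have e1 : kh 1 (fun _ => (0 : ℂ)) = fun _ => 1 := by
      funext z
      simp [kh]
    have h3 := maj_GG h0 h1 ha0 ha hu (h := fun _ => (0 : ℂ)) NormAux.Sc_zero hB0.le hB1
    rw [e1] at h3
    have h4 := mul_lt_mul_of_pos_left h2 hll
    rw [hmaj] at hm
    rw [h3]
    linarith

end Pool.Agent.P187w
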