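import Pool.Agent.Lib.P187w.Up

/-!
# Assembly of the full range

The reduction at the best radius for `0 < l ≤ l1`, where `l1` has the Moebius radius, and one value
`l2` without the Moebius radius give the complete statement.
-/

set_option autoImplicit false

open Complex Metric Set Filter Topology
open scoped ComplexConjugate
open Pool.Agent.P187f6b Pool.Agent.P187s

namespace Pool.Agent.P187w

namespace AsmAux

open FinAux FinBAux

/-- The majorant of the Moebius maps. -/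
lemma maj_GG_one {l : ℝ} (h0 : 0 < l) (h1 : l < 1) {η : ℂ} (hη : ‖η‖ = 1) {r : ℝ} (hr0 : 0 ≤ r)
    (hr1 : r < 1) : maj l (GG l 1 η) r = l + (1 - l ^ 2) * r * (1 - l * r)⁻¹ := by
  set F : ℂ → ℂ := fun z : ℂ => (l : ℂ) + (-(1 - (l : ℂ) ^ 2)) * z * LL l (fun _ => 1) z with hF
  have hFm : F ∈ FClass l := class_of_Sch h0.le h1 const_one_Sch
  have hη' : ‖-η‖ = 1 := by rw [norm_neg, hη]
  have e1 : maj l (GG l 1 η) r = maj l (fun z => F (-η * z)) r := by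
    rw [maj_def, maj_def]
    congr 1
    refine tsum_congr (fun n => ?_)
    rw [tc_congr (FinBAux.rot_mem hFm hη').1 (fun z hz => ?_)]
    have hz' : ‖-η * z‖ < 1 := by rw [norm_mul, hη', one_mul]; exact hz
    rw [GG_one_eq hz]
    simp only [hF]
    unfold LL
    have hne := den_ne h0.le h1 hz' (show ‖(1 : ℂ)‖ ≤ 1 by simp)
    rw [mul_one] at hne ⊢
    obtain ⟨D, hD⟩ : ∃ D : ℂ, D = 1 - (l : ℂ) * (-η * z) := ⟨_, rfl⟩
    have e : (1 : ℂ) + l * (η * z) = D := by rw [hD]; ring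
    rw [← hD] at hne ⊢
    rw [e, div_eq_iff hne, add_mul, mul_assoc, div_mul_cancel₀ _ hne, hD]
    ring
  rw [e1, FinBAux.maj_rot hFm hη', maj_class_of_Sch h0.le h1 const_one_Sch hr0]
  have e0 : ∀ n, tc (LL l (fun _ => 1)) n = (l : ℂ) ^ n := by
    intro n
    have := tc_geom (a := (l : ℂ))
      (by rw [Complex.norm_real, Real.norm_eq_abs, abs_of_pos h0]; exact h1) n
    rw [← this]
    have e : LL l (fun _ => 1) = (fun z => (1 - (l : ℂ) * z)⁻¹) := by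
      funext z
      simp [LL]
    rw [e]
  have e2 : ∀ n, ‖tc (LL l (fun _ => 1)) n‖ * r ^ n = (l * r) ^ n := by
    intro n
    rw [e0, norm_pow, Complex.norm_real, Real.norm_eq_abs, abs_of_pos h0, mul_pow]
  simp_rw [e2]
  have hlr : l * r < 1 := by nlinarith
  rw [tsum_geometric_of_lt_one (by positivity) hlr]

lemma radius_one {l : ℝ} (h0 : 0 < l) (h1 : l < 1) {η : ℂ} (hη : ‖η‖ = 1)
    (h : maj l (GG l 1 η) (BB l) = 1) : BB l = 1 / (1 + 2 * l) := by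
  have hB0 := BB_pos h0 h1
  have hB1 := BB_lt_one h0 h1
  rw [maj_GG_one h0 h1 hη hB0.le hB1] at h
  have hpos : 0 < 1 - l * BB l := by nlinarith
  have h2 : (1 - l ^ 2) * BB l * (1 - l * BB l)⁻¹ = 1 - l := by linarith
  rw [← div_eq_mul_inv, div_eq_iff hpos.ne'] at h2
  have h3 : (1 - l) * ((1 + l) * BB l) = (1 - l) * (1 - l * BB l) := by linear_combination h2
  have h4 := mul_left_cancel₀ (by linarith : (1 - l) ≠ 0) h3
  rw [eq_div_iff (by linarith)]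
  linear_combination h4

end AsmAux

open AsmAux FinAux FinBAux

/-- Assembly. -/
theorem assemble {l1 l2 : ℝ} (h1 : 9 / 25 ≤ l1) (h1' : l1 ≤ 11 / 25) (hE : EE l1)
    (h2 : 9 / 25 ≤ l2) (h2' : l2 < 1) (hnE : ¬ EE l2)
    (hred : ∀ l : ℝ, 0 < l → l ≤ l1 → ∀ f ∈ FClass l, maj l f (BB l) = 1 →
      ∃ (a : ℝ) (η ω : ℂ), 0 ≤ a ∧ a ≤ 1 ∧ ‖η‖ = 1 ∧ ‖ω‖ = 1 ∧
        (1 < maj l (GG l a η) (BB l) ∨ ∀ z : ℂ, ‖z‖ < 1 → f z = GG l a η (ω * z))) :
    ∃ c : ℝ, l2 < c ∧ c ≤ l1 ∧ ∀ l : ℝ, 0 < l → l < 1 →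
      IsLeast {r : ℝ | 0 ≤ r ∧ r < 1 ∧ ∃ (a : ℝ) (η : ℂ), 0 ≤ a ∧ a ≤ 1 ∧ ‖η‖ = 1 ∧
        maj l (GG l a η) r = 1} (BB l) ∧
      (BB l = 1 / (1 + 2 * l) ↔ c ≤ l) ∧
      ∀ f ∈ FClass l, maj l f (BB l) = 1 →
        ∃ (a : ℝ) (η ω : ℂ), 0 ≤ a ∧ a ≤ 1 ∧ (l < c → a < 1) ∧ (c < l → a = 1) ∧ ‖η‖ = 1 ∧
          ‖ω‖ = 1 ∧ ∀ z : ℂ, ‖z‖ < 1 → f z = GG l a η (ω * z) := by
  -- the threshold
  set S : Set ℝ := {l | 0 < l ∧ l < 1 ∧ EE l} with hS
  have hbase : l1 ∈ S := ⟨by linarith, by linarith, hE⟩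
  have hlow : ∀ l ∈ S, l2 < l := by
    intro l hl
    by_contra hcon
    rw [not_lt] at hcon
    exact hnE (EE_mono hl.1.le hcon h2' hl.1 hl.2.2)
  have hbdd : BddBelow S := ⟨l2, fun l hl => (hlow l hl).le⟩
  set c := sInf S with hc
  have hc1 : c ≤ l1 := csInf_le hbdd hbase
  have hc0 : l2 ≤ c := le_csInf ⟨_, hbase⟩ (fun l hl => (hlow l hl).le)
  have hEc : EE c := by
    refine EE_closed (by linarith) (by linarith) (fun l hl hl1 => ?_)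
    obtain ⟨a, ha, hal⟩ := exists_lt_of_csInf_lt ⟨_, hbase⟩ hl
    exact EE_mono ha.1.le hal.le hl1 ha.1 ha.2.2
  have hcS : c ∈ S := ⟨by linarith, by linarith, hEc⟩
  have hiff : ∀ l : ℝ, 0 < l → l < 1 → (BB l = 1 / (1 + 2 * l) ↔ c ≤ l) := by
    intro l h3 h4
    rw [BB_eq_iff h3 h4]
    constructor
    · intro h
      exact csInf_le hbdd ⟨h3, h4, h⟩
    · intro h
      exact EE_mono hcS.1.le h h4 hcS.1 hEc
  -- above the threshold
  have habove : ∀ l : ℝ, c < l → l < 1 → ∀ f ∈ FClass l, maj l f (BB l) = 1 →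
      ∃ η ω : ℂ, ‖η‖ = 1 ∧ ‖ω‖ = 1 ∧ ∀ z : ℂ, ‖z‖ < 1 → f z = GG l 1 η (ω * z) :=
    fun l h3 h4 f hf hm => ext_above (by linarith) (by linarith) h3 h4 hEc hf hm
  have hred' : ∀ l : ℝ, 0 < l → l < 1 → ∀ f ∈ FClass l, maj l f (BB l) = 1 →
      ∃ (a : ℝ) (η ω : ℂ), 0 ≤ a ∧ a ≤ 1 ∧ ‖η‖ = 1 ∧ ‖ω‖ = 1 ∧
        (1 < maj l (GG l a η) (BB l) ∨ ∀ z : ℂ, ‖z‖ < 1 → f z = GG l a η (ω * z)) := by
    intro l h3 h4 f hf hm
    rcases le_or_gt l l1 with h5 | h5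
    · exact hred l h3 h5 f hf hm
    · obtain ⟨η, ω, h6, h7, h8⟩ := habove l (lt_of_le_of_lt hc1 h5) h4 f hf hm
      exact ⟨1, η, ω, zero_le_one, le_rfl, h6, h7, Or.inr h8⟩
  refine ⟨c, lt_of_le_of_ne hc0 ?_, hc1, fun l h3 h4 => ?_⟩
  · intro h
    exact hnE (h ▸ hEc)
  obtain ⟨hleast, hext⟩ := final_closed h3 h4 (hred' l h3 h4)
  refine ⟨hleast, hiff l h3 h4, fun f hf hm => ?_⟩
  rcases lt_or_ge c l with h5 | h5
  · obtain ⟨η, ω, h6, h7, h8⟩ := habove l h5 h4 f hf hm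
    exact ⟨1, η, ω, zero_le_one, le_rfl, fun h => absurd h (not_lt.2 h5.le), fun _ => rfl, h6, h7,
      h8⟩
  · obtain ⟨a, η, ω, h6, h7, h8, h9, h10⟩ := hext f hf hm
    refine ⟨a, η, ω, h6, h7, fun h => ?_, fun h => absurd h (not_lt.2 h5), h8, h9, h10⟩
    refine lt_of_le_of_ne h7 (fun ha => ?_)
    subst ha
    have hG := GG_mem' (η := η) h3.le h4 h8 zero_le_one le_rfl
    have e : maj l f (BB l) = maj l (GG l 1 η) (BB l) := by
      rw [← FinBAux.maj_rot hG h9, maj_def, maj_def]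
      congr 1
      refine tsum_congr (fun n => ?_)
      rw [tc_congr (FinBAux.rot_mem hG h9).1 h10]
    rw [e] at hm
    have h11 := (hiff l h3 h4).1 (radius_one h3 h4 h8 hm)
    linarith

end Pool.Agent.P187w
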