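import Pool.Agent.Lib.P187f6b.Low

/-!
# Failure of the Moebius radius at `3671 / 10000`
-/

set_option autoImplicit false

open Complex Metric Set Filter Topology
open Pool.Agent.P187f6b

namespace Pool.Agent.P187w

namespace LowAux

lemma LL_gg' {z : ℂ} (hz : ‖z‖ < 1) : LL (3671/10000) gg z = (11/13 : ℂ) +
    z * (-uu + (11/13) * (uu + 3671/10000) * LL (3671/10000) gg z +
      -((3671/10000) * uu) * z * LL (3671/10000) gg z) := by
  have hu : ‖uu * z‖ < 1 := by rw [norm_mul, norm_uu, one_mul]; exact hz
  have h1 : 1 - (11/13 : ℂ) * (uu * z) ≠ 0 := by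
    refine one_sub_ne ?_
    rw [norm_mul]
    have : ‖(11/13 : ℂ)‖ = 11/13 := by norm_num
    rw [this]
    linarith [norm_nonneg (uu * z)]
  have h2 := den_ne (a := 3671/10000) (by norm_num) (by norm_num) hz (gg_Sch.2.1 z hz)
  have h3 : gg z * (1 - (11/13 : ℂ) * (uu * z)) = 11/13 - uu * z := by
    unfold gg
    push_cast
    rw [div_mul_cancel₀ _ h1]
  have h4 : LL (3671/10000) gg z * (1 - (3671/10000 : ℂ) * z * gg z) = gg z := by
    unfold LL
    push_cast at h2 ⊢
    rw [div_mul_cancel₀ _ h2]
  linear_combination (1 - (11/13 : ℂ) * (uu * z)) * h4 +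
    (1 + LL (3671/10000) gg z * (3671/10000) * z) * h3

lemma LL_gg_diff' : DifferentiableOn ℂ (LL (3671/10000) gg) (ball 0 1) :=
  LL_diff (by norm_num) (by norm_num) gg_Sch.1 gg_Sch.2.1

lemma tcL_one' : tc (LL (3671/10000) gg) 1 =
    -uu + (11/13) * (uu + 3671/10000) * tc (LL (3671/10000) gg) 0 := by
  have hL := LL_gg_diff'
  have hM : DifferentiableOn ℂ (fun z : ℂ => -uu + (11/13) * (uu + 3671/10000) *
      LL (3671/10000) gg z + -((3671/10000) * uu) * z * LL (3671/10000) gg z) (ball 0 1) :=
    ((differentiableOn_const _).add ((differentiableOn_const _).mul hL)).add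
      (((differentiableOn_const _).mul differentiableOn_id).mul hL)
  have h := tc_shift (f := LL (3671/10000) gg) (c := 11/13) (k := 1) hM
    (fun z hz => by rw [one_mul]; exact LL_gg' hz) 0
  rw [zero_add, one_mul, tc_zero] at h
  rw [h, tc_zero]
  simp

lemma tcL_rec' (n : ℕ) : tc (LL (3671/10000) gg) (n + 2) =
    (11/13) * (uu + 3671/10000) * tc (LL (3671/10000) gg) (n + 1) -
      (3671/10000) * uu * tc (LL (3671/10000) gg) n := by
  have hL := LL_gg_diff'
  have hA : DifferentiableOn ℂ (fun z : ℂ => -uu + (11/13) * (uu + 3671/10000) *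
      LL (3671/10000) gg z) (ball 0 1) :=
    (differentiableOn_const _).add ((differentiableOn_const _).mul hL)
  have hB : DifferentiableOn ℂ (fun z : ℂ => -((3671/10000) * uu) * z * LL (3671/10000) gg z)
      (ball 0 1) := ((differentiableOn_const _).mul differentiableOn_id).mul hL
  have hM : DifferentiableOn ℂ (fun z : ℂ => -uu + (11/13) * (uu + 3671/10000) *
      LL (3671/10000) gg z + -((3671/10000) * uu) * z * LL (3671/10000) gg z) (ball 0 1) :=
    hA.add hB
  have h := tc_shift (f := LL (3671/10000) gg) (c := 11/13) (k := 1) hM
    (fun z hz => by rw [one_mul]; exact LL_gg' hz) (n + 1)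
  rw [one_mul, tc_add hA hB] at h
  have h1 : tc (fun z : ℂ => -uu + (11/13) * (uu + 3671/10000) * LL (3671/10000) gg z) (n + 1) =
      (11/13) * (uu + 3671/10000) * tc (LL (3671/10000) gg) (n + 1) := by
    refine tc_eq (c := fun n => (Nat.casesOn n (-uu + (11/13) * (uu + 3671/10000) *
        tc (LL (3671/10000) gg) 0)
      (fun m => (11/13) * (uu + 3671/10000) * tc (LL (3671/10000) gg) (m + 1)) : ℂ))
      (fun z hz => ?_) (n + 1)
    have h2 := (tc_hasSum hL hz).mul_left ((11/13) * (uu + 3671/10000))
    have h3 : HasSum (fun n : ℕ => if n = 0 then -uu else 0) (-uu) := hasSum_ite_eq 0 (-uu)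
    refine (h3.add h2).congr_fun (fun m => ?_)
    rcases m with _ | m
    · simp
    · simp; ring
  have h4 : tc (fun z : ℂ => -((3671/10000) * uu) * z * LL (3671/10000) gg z) (n + 1) =
      -((3671/10000) * uu) * tc (LL (3671/10000) gg) n :=
    tc_shift (c := 0) (k := -((3671/10000) * uu)) hL (fun z _ => by ring) n
  rw [h1, h4] at h
  rw [h]
  ring

lemma ce0 : tc (LL (3671/10000) gg) 0 = ⟨(11/13), (0/1)⟩ := by
  rw [LL_zero]
  simp only [gg]
  apply Complex.ext <;> simp

lemma ce1 : tc (LL (3671/10000) gg) 1 =
    ⟨(132188279/285610000),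
      (-5760/28561)⟩ := by
  rw [tcL_one', ce0]
  apply Complex.ext <;> simp [uu] <;> norm_num

lemma ce2 : tc (LL (3671/10000) gg) 2 =
    ⟨(1304532536816531/6274851700000000),
      (902247984/7843564625)⟩ := by
  rw [tcL_rec', ce1, ce0]
  apply Complex.ext <;> simp [uu] <;> norm_num

lemma ce3 : tc (LL (3671/10000) gg) 3 =
    ⟨(-8455560815156675305441/137858491849000000000000),
      (-1737634764509667/21540389351406250)⟩ := by
  rw [tcL_rec', ce2, ce1]
  apply Complex.ext <;> simp [uu] <;> norm_num

lemma ce4 : tc (LL (3671/10000) gg) 4 =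
    ⟨(453353580995767409998614079451/3028751065922530000000000000000),
      (-4531601785671855187821/118310588512598828125000)⟩ := by
  rw [tcL_rec', ce3, ce2]
  apply Complex.ext <;> simp [uu] <;> norm_num

lemma ce5 : tc (LL (3671/10000) gg) 5 =
    ⟨(-3763398100688022759556406115727549561/66541660918317984100000000000000000000),
      (199607952174117756600493034631/2079426903697437003125000000000)⟩ := by
  rw [tcL_rec', ce4, ce3]
  apply Complex.ext <;> simp [uu] <;> norm_num

lemma ce6 : tc (LL (3671/10000) gg) 6 =
    ⟨(-18766085548121909525119498056615296414163229/1461920290375446110677000000000000000000000000),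
      (-12594685381418040080598562519341655623/114212522685581727396640625000000000000)⟩ := by
  rw [tcL_rec', ce5, ce4]
  apply Complex.ext <;> simp [uu] <;> norm_num

lemma ce7 : tc (LL (3671/10000) gg) 7 =
    ⟨(2579675543200498760784920508177222365544048612127919/32118388779548551051573690000000000000000000000000000),
      (317629855751724982188728421409994535359854857/5018498246804461101808389062500000000000000000)⟩ := by
  rw [tcL_rec', ce6, ce5]
  apply Complex.ext <;> simp [uu] <;> norm_num

lemma ce8 : tc (LL (3671/10000) gg) 8 =
    ⟨(-65621222390555676334515731261347820143133086232347914503509/705641001486681666603073969300000000000000000000000000000000),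
      (69564699493804359852089242075478411914119713002839/13782050810286751300841288462890625000000000000000000)⟩ := by
  rw [tcL_rec', ce7, ce6]
  apply Complex.ext <;> simp [uu] <;> norm_num

lemma ce9 : tc (LL (3671/10000) gg) 9 =
    ⟨(941769086297081806029803176944452127651080222549170740866291438999/15502932802662396215269535105521000000000000000000000000000000000000),
      (-149914077718527736147294947332204663855386297947919858714161/2422333250415999408635864860237656250000000000000000000000000)⟩ := by
  rw [tcL_rec', ce8, ce7]
  apply Complex.ext <;> simp [uu] <;> norm_num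

lemma ce10 : tc (LL (3671/10000) gg) 10 =
    ⟨(-975351498053507969251797513799792156123531824677991571229272300498973389/340599433674492844849471686268296370000000000000000000000000000000000000000),
      (424117847879518569044589096049339426698293350638136224995589162819/5321866151163950700772995097942130781250000000000000000000000000000)⟩ := by
  rw [tcL_rec', ce9, ce8]
  apply Complex.ext <;> simp [uu] <;> norm_num

lemma ce11 : tc (LL (3671/10000) gg) 11 =
    ⟨(-355395575816250578261234583261546750701204723652349249397919315397249756578064321/7482969557828607801342892947314471248900000000000000000000000000000000000000000000),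
      (-65803921031193828642881679794208327444838619233126458590280431009753039499/1169213993410719968959827023017886132640625000000000000000000000000000000000)⟩ := by
  rw [tcL_rec', ce10, ce9]
  apply Complex.ext <;> simp [uu] <;> norm_num

lemma ce12 : tc (LL (3671/10000) gg) 12 =
    ⟨(11079309399799096526584958975310714835092580946557342335867215795319737403204485914155131/164400841185494513395503358052498933338333000000000000000000000000000000000000000000000000),
      (56909490548859436155597794838064857178242102716642978465172762968999004016334697/6421907858808379429511849923925739583528632812500000000000000000000000000000000000)⟩ := by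
  rw [tcL_rec', ce11, ce10]
  apply Complex.ext <;> simp [uu] <;> norm_num

lemma ce13 : tc (LL (3671/10000) gg) 13 =
    ⟨(-185978827995072859415728009951310527435756749554230695571693431841043120148307582954670572190041/3611886480845314459299208776413401565443176010000000000000000000000000000000000000000000000000000),
      (20201215662723915807814446223369056996183008822944191141083331070963761498643954621317243/564357262632080384265501371314593994600496251562500000000000000000000000000000000000000000)⟩ := by
  rw [tcL_rec', ce12, ce11]
  apply Complex.ext <;> simp [uu] <;> norm_num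

lemma ce14 : tc (LL (3671/10000) gg) 14 =
    ⟨(1024320995878762572733912268035741488708975786005925960353720788693071849844896781017753517664183570051/79353145984171558670803616817802432392786576939700000000000000000000000000000000000000000000000000000000),
      (-349779609595312211842504455363599060084258784282399054958019740405852539047980738065769571977947/6199464530013403021156532563890815030686451323414062500000000000000000000000000000000000000000000)⟩ := by
  rw [tcL_rec', ce13, ce12]
  apply Complex.ext <;> simp [uu] <;> norm_num

lemma ce15 : tc (LL (3671/10000) gg) 15 =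
    ⟨(45743067100070820075969385299287222738438400915721431109926762518557625687039548790122551572536758942210693839/1743388617272249143997555461487119439669521095365209000000000000000000000000000000000000000000000000000000000000),
      (2534488030714840660479143880092443542201701782286471430959756414213226145577970381325862009913621867693/54480894289757785749923608171472482489672534230162781250000000000000000000000000000000000000000000000000)⟩ := by
  rw [tcL_rec', ce14, ce13]
  apply Complex.ext <;> simp [uu] <;> norm_num

lemma ce16 : tc (LL (3671/10000) gg) 16 =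
    ⟨(-1792677932781945255052261091179059579871342535064606740181684990550262428945054943685836723039095811127653899747880629/38302247921471313693626293488872014089539378465173641730000000000000000000000000000000000000000000000000000000000000000),
      (-5779714762042057009557268062745415772861328275504259516851201277532534945032649898742534170829352751620069391/374045389858118297789319272352265762593157992823961345019531250000000000000000000000000000000000000000000000000)⟩ := by
  rw [tcL_rec', ce15, ce14]
  apply Complex.ext <;> simp [uu] <;> norm_num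

end LowAux

open LowAux

/-- The property fails at `3671 / 10000`. -/
theorem not_EE_low' : ¬ EE (3671/10000) := by
  intro h
  have h1 := h gg gg_Sch 17
  have e : (1 / (1 + 2 * (3671/10000)) : ℝ) = 5000/8671 := by norm_num
  rw [e] at h1
  have s0 : (10576923/12500000 : ℝ) ≤ ‖tc (LL (3671/10000) gg) 0‖ := by
    rw [ce0]; exact norm_ge (by norm_num)
  have s1 : (50485831/100000000 : ℝ) ≤ ‖tc (LL (3671/10000) gg) 1‖ := by
    rw [ce1]; exact norm_ge (by norm_num)
  have s2 : (4752001/20000000 : ℝ) ≤ ‖tc (LL (3671/10000) gg) 2‖ := by
    rw [ce2]; exact norm_ge (by norm_num)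
  have s3 : (5066909/50000000 : ℝ) ≤ ‖tc (LL (3671/10000) gg) 3‖ := by
    rw [ce3]; exact norm_ge (by norm_num)
  have s4 : (3862657/25000000 : ℝ) ≤ ‖tc (LL (3671/10000) gg) 4‖ := by
    rw [ce4]; exact norm_ge (by norm_num)
  have s5 : (557071/5000000 : ℝ) ≤ ‖tc (LL (3671/10000) gg) 5‖ := by
    rw [ce5]; exact norm_ge (by norm_num)
  have s6 : (11101873/100000000 : ℝ) ≤ ‖tc (LL (3671/10000) gg) 6‖ := by
    rw [ce6]; exact norm_ge (by norm_num)
  have s7 : (2556461/25000000 : ℝ) ≤ ‖tc (LL (3671/10000) gg) 7‖ := by
    rw [ce7]; exact norm_ge (by norm_num)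
  have s8 : (9313207/100000000 : ℝ) ≤ ‖tc (LL (3671/10000) gg) 8‖ := by
    rw [ce8]; exact norm_ge (by norm_num)
  have s9 : (1084007/12500000 : ℝ) ≤ ‖tc (LL (3671/10000) gg) 9‖ := by
    rw [ce9]; exact norm_ge (by norm_num)
  have s10 : (7974487/100000000 : ℝ) ≤ ‖tc (LL (3671/10000) gg) 10‖ := by
    rw [ce10]; exact norm_ge (by norm_num)
  have s11 : (7364213/100000000 : ℝ) ≤ ‖tc (LL (3671/10000) gg) 11‖ := by
    rw [ce11]; exact norm_ge (by norm_num)
  have s12 : (6797219/100000000 : ℝ) ≤ ‖tc (LL (3671/10000) gg) 12‖ := by
    rw [ce12]; exact norm_ge (by norm_num)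
  have s13 : (3135517/50000000 : ℝ) ≤ ‖tc (LL (3671/10000) gg) 13‖ := by
    rw [ce13]; exact norm_ge (by norm_num)
  have s14 : (2893937/50000000 : ℝ) ≤ ‖tc (LL (3671/10000) gg) 14‖ := by
    rw [ce14]; exact norm_ge (by norm_num)
  have s15 : (267049/5000000 : ℝ) ≤ ‖tc (LL (3671/10000) gg) 15‖ := by
    rw [ce15]; exact norm_ge (by norm_num)
  have s16 : (4928819/100000000 : ℝ) ≤ ‖tc (LL (3671/10000) gg) 16‖ := by
    rw [ce16]; exact norm_ge (by norm_num)
  have m0 := mul_le_mul_of_nonneg_right s0 (show (0 : ℝ) ≤ (5000/8671) ^ 0 by positivity)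
  have m1 := mul_le_mul_of_nonneg_right s1 (show (0 : ℝ) ≤ (5000/8671) ^ 1 by positivity)
  have m2 := mul_le_mul_of_nonneg_right s2 (show (0 : ℝ) ≤ (5000/8671) ^ 2 by positivity)
  have m3 := mul_le_mul_of_nonneg_right s3 (show (0 : ℝ) ≤ (5000/8671) ^ 3 by positivity)
  have m4 := mul_le_mul_of_nonneg_right s4 (show (0 : ℝ) ≤ (5000/8671) ^ 4 by positivity)
  have m5 := mul_le_mul_of_nonneg_right s5 (show (0 : ℝ) ≤ (5000/8671) ^ 5 by positivity)
  have m6 := mul_le_mul_of_nonneg_right s6 (show (0 : ℝ) ≤ (5000/8671) ^ 6 by positivity)
  have m7 := mul_le_mul_of_nonneg_right s7 (show (0 : ℝ) ≤ (5000/8671) ^ 7 by positivity)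
  have m8 := mul_le_mul_of_nonneg_right s8 (show (0 : ℝ) ≤ (5000/8671) ^ 8 by positivity)
  have m9 := mul_le_mul_of_nonneg_right s9 (show (0 : ℝ) ≤ (5000/8671) ^ 9 by positivity)
  have m10 := mul_le_mul_of_nonneg_right s10 (show (0 : ℝ) ≤ (5000/8671) ^ 10 by positivity)
  have m11 := mul_le_mul_of_nonneg_right s11 (show (0 : ℝ) ≤ (5000/8671) ^ 11 by positivity)
  have m12 := mul_le_mul_of_nonneg_right s12 (show (0 : ℝ) ≤ (5000/8671) ^ 12 by positivity)
  have m13 := mul_le_mul_of_nonneg_right s13 (show (0 : ℝ) ≤ (5000/8671) ^ 13 by positivity)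
  have m14 := mul_le_mul_of_nonneg_right s14 (show (0 : ℝ) ≤ (5000/8671) ^ 14 by positivity)
  have m15 := mul_le_mul_of_nonneg_right s15 (show (0 : ℝ) ≤ (5000/8671) ^ 15 by positivity)
  have m16 := mul_le_mul_of_nonneg_right s16 (show (0 : ℝ) ≤ (5000/8671) ^ 16 by positivity)
  simp only [Finset.sum_range_succ, Finset.sum_range_zero, zero_add] at h1
  norm_num at h1 m0 m1 m2 m3 m4 m5 m6 m7 m8 m9 m10 m11 m12 m13 m14 m15 m16
  linarith

end Pool.Agent.P187w
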