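import Pool.Agent.Lib.P187w.Hred
import Pool.Agent.Lib.P187w.Asm
import Pool.Agent.Lib.P187w.LowC

/-!
# The Moebius radius at one value from the family check, and the final assembly

`EE_of_zones`: if all members of the family have majorant at most one at `1 / (1 + 2 l)` and the
reduction at the best radius holds for `l`, then `EE l`.
-/

set_option autoImplicit false

open Complex Metric Set
open scoped ComplexConjugate
open Pool.Agent.P187f6b Pool.Agent.P187s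

namespace Pool.Agent.P187w

namespace EEzAux

open FinAux FinBAux

/-- Strict monotonicity of the majorant of a member which takes the value one. -/
lemma maj_strict {l : ℝ} (h1 : l < 1) {f : ℂ → ℂ} (hf : f ∈ FClass l) {r s : ℝ} (hr0 : 0 ≤ r)
    (hrs : r < s) (hs1 : s < 1) (hm : maj l f r = 1) : 1 < maj l f s := by
  have hS1 := summ hf hr0 (hrs.trans hs1)
  have hS2 := summ hf (hr0.trans hrs.le) hs1
  have hex : ∃ n, ‖tc f (n + 1)‖ ≠ 0 := by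
    by_contra hcon2
    push Not at hcon2
    rw [maj_def] at hm
    simp only [hcon2, zero_mul, tsum_zero, add_zero] at hm
    linarith
  obtain ⟨n, hn⟩ := hex
  have hn0 : 0 < ‖tc f (n + 1)‖ := lt_of_le_of_ne (norm_nonneg _) (Ne.symm hn)
  have hlt2 := hS1.tsum_lt_tsum (i := n) (fun k => ?_) ?_ hS2
  · rw [maj_def] at hm ⊢
    linarith
  · exact mul_le_mul_of_nonneg_left (pow_le_pow_left₀ hr0 hrs.le _) (norm_nonneg _)
  · exact mul_lt_mul_of_pos_left (pow_lt_pow_left₀ hrs hr0 (by omega)) hn0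

end EEzAux

open EEzAux FinAux FinBAux AsmAux

/-- The Moebius radius at one value of `l`. -/
theorem EE_of_zones {l s2 : ℝ} (h0 : 0 < l) (h1 : l < 1)
    (hfam : ∀ a : ℝ, 0 ≤ a → a ≤ 1 - s2 → ∀ η : ℂ, ‖η‖ = 1 →
      maj l (GG l a η) (1 / (1 + 2 * l)) ≤ 1)
    (hlev : LEV0 l (1 / (1 + 2 * l)) s2)
    (hred : ∀ f ∈ FClass l, maj l f (BB l) = 1 →
      ∃ (a : ℝ) (η ω : ℂ), 0 ≤ a ∧ a ≤ 1 ∧ ‖η‖ = 1 ∧ ‖ω‖ = 1 ∧
        (1 < maj l (GG l a η) (BB l) ∨ ∀ z : ℂ, ‖z‖ < 1 → f z = GG l a η (ω * z))) :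
    EE l := by
  by_contra hcon
  have hle := BB_le h0 h1
  have hlt : BB l < 1 / (1 + 2 * l) :=
    lt_of_le_of_ne hle (fun h => hcon ((BB_eq_iff h0 h1).1 h))
  have hρ1 : 1 / (1 + 2 * l) < 1 := by
    rw [div_lt_one (by linarith)]; linarith
  have hρ0 : 0 ≤ 1 / (1 + 2 * l) := by positivity
  have hB0 := BB_pos h0 h1
  have hll : 0 < 1 - l ^ 2 := by nlinarith
  obtain ⟨⟨_, _, a, η, ha0, ha1, hη, hm⟩, _⟩ := (final_closed h0 h1 hred).1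
  have hG := GG_mem' h0.le h1 hη ha0 ha1
  have hbig := maj_strict h1 hG hB0.le hlt hρ1 hm
  rcases le_or_gt a (1 - s2) with h2 | h2
  · exact absurd (hfam a ha0 h2 η hη) (not_le.2 hbig)
  rcases eq_or_lt_of_le ha1 with ha | ha
  · subst ha
    exact absurd (radius_one h0 h1 hη hm) hlt.ne
  · have hx : ‖-((l : ℂ) * η)‖ = l := NormAux.norm_x h0.le hη
    have hk := kh_Sc zero_le_one le_rfl NormAux.Sc_zero
    have hg := gk_Sc ha0 ha1 hk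
    have h3 := hlev _ hx _ hg (1 - a) (by linarith) (by linarith)
      (by rw [gk_zero]; congr 1; ring) _ hρ0 le_rfl le_rfl
    rw [maj_GG h0 h1 ha0 ha hη NormAux.Sc_zero hρ0 hρ1] at hbig
    have h4 : (1 - l ^ 2) * (1 / (1 + l)) = 1 - l := by
      rw [mul_one_div, div_eq_iff (by linarith)]
      ring
    have h5 := mul_lt_mul_of_pos_left h3 hll
    linarith

/-- The complete statement from the certificates on `(0, 3672 / 10000]`. -/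
theorem full_range {R s1 s2 : ℝ → ℝ}
    (hB : ∀ l : ℝ, 0 < l → l ≤ 3672 / 10000 → BB l ≤ R l)
    (hfar : ∀ l : ℝ, 0 < l → l ≤ 3672 / 10000 → FAR l (R l) (s1 l) (s2 l))
    (hnear : ∀ l : ℝ, 0 < l → l ≤ 3672 / 10000 → NEAR l (R l) (s1 l) (s2 l))
    (hlev : ∀ l : ℝ, 0 < l → l ≤ 3672 / 10000 → LEV0 l (R l) (s2 l))
    (hfam : ∀ a : ℝ, 0 ≤ a → a ≤ 1 - s2 (3672 / 10000) → ∀ η : ℂ, ‖η‖ = 1 →
      maj (3672 / 10000) (GG (3672 / 10000) a η) (1 / (1 + 2 * (3672 / 10000))) ≤ 1)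
    (hR : 1 / (1 + 2 * (3672 / 10000)) ≤ R (3672 / 10000)) :
    ∃ c : ℝ, 3671 / 10000 < c ∧ c ≤ 3672 / 10000 ∧ ∀ l : ℝ, 0 < l → l < 1 →
      IsLeast {r : ℝ | 0 ≤ r ∧ r < 1 ∧ ∃ (a : ℝ) (η : ℂ), 0 ≤ a ∧ a ≤ 1 ∧ ‖η‖ = 1 ∧
        maj l (GG l a η) r = 1} (BB l) ∧
      (BB l = 1 / (1 + 2 * l) ↔ c ≤ l) ∧
      ∀ f ∈ FClass l, maj l f (BB l) = 1 →
        ∃ (a : ℝ) (η ω : ℂ), 0 ≤ a ∧ a ≤ 1 ∧ (l < c → a < 1) ∧ (c < l → a = 1) ∧ ‖η‖ = 1 ∧
          ‖ω‖ = 1 ∧ ∀ z : ℂ, ‖z‖ < 1 → f z = GG l a η (ω * z) := by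
  have hred : ∀ l : ℝ, 0 < l → l ≤ 3672 / 10000 → ∀ f ∈ FClass l, maj l f (BB l) = 1 →
      ∃ (a : ℝ) (η ω : ℂ), 0 ≤ a ∧ a ≤ 1 ∧ ‖η‖ = 1 ∧ ‖ω‖ = 1 ∧
        (1 < maj l (GG l a η) (BB l) ∨ ∀ z : ℂ, ‖z‖ < 1 → f z = GG l a η (ω * z)) :=
    fun l h0 h1 => hred_of_zones h0 (h1.trans_lt (by norm_num)) (hB l h0 h1) (hfar l h0 h1)
      (hnear l h0 h1) (hlev l h0 h1)
  have hl0 : (0 : ℝ) < 3672 / 10000 := by norm_num
  have hE : EE (3672 / 10000) := EE_of_zones hl0 (by norm_num) hfam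
    (fun x hx g hg d hd0 hd1 hg0 r hr0 hr1 hr2 =>
      hlev _ hl0 le_rfl x hx g hg d hd0 hd1 hg0 r hr0 (hr1.trans hR) hr2)
    (hred _ hl0 le_rfl)
  exact assemble (by norm_num) (by norm_num) hE (by norm_num) (by norm_num) not_EE_low' hred

end Pool.Agent.P187w
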