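import Pool.Agent.Lib.P187w.NrA

/-!
# Bounds for `LN x g`

Proof of `LN_sq`. For `|z| < 1` one has `|x z g| < 1`, so `LN x g` is holomorphic. The function
`F z = (z g z - conj x) / (1 - x z g z) = - conj x + (1 - |x| ^ 2) z (LN x g z)` is holomorphic
and bounded by one (`P187f6b.mobius_norm_le` is the real case; the inequality
`|w - conj x| ≤ |1 - x w|` for `|w| ≤ 1` is `(1 - |w|^2)(1 - |x|^2) ≥ 0`). By `P187f6b.sum_sq_le`,
`|x|^2 + (1 - |x|^2)^2 ∑ |L_n|^2 ≤ 1`, i.e. `∑ |L_n|^2 ≤ 1 / (1 - |x|^2)`, and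
`1 / (1 - |x|^2) ≤ 1 / (1 - l^2)`. Then `nr_LN_le` is `nr_le_of_sq'`, and
`1 / (1 - x z g) = 1 + x z (LN x g z)` gives `nr_inv_le`. The shift of coefficients is
`P187s.tc_succ` or `P187f6b.tc_shift`.
-/

set_option autoImplicit false

open Complex Metric Set
open Pool.Agent.P187f6b

namespace Pool.Agent.P187w

namespace BndLAux

lemma norm_xzg_le {x : ℂ} {g : ℂ → ℂ} (hg : Sc g) {z : ℂ} (hz : ‖z‖ < 1) :
    ‖x * z * g z‖ ≤ ‖x‖ := by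
  have h1 := hg.2 z hz
  rw [norm_mul, norm_mul]
  have h2 : ‖z‖ * ‖g z‖ ≤ 1 :=
    mul_le_one₀ hz.le (norm_nonneg _) h1
  calc ‖x‖ * ‖z‖ * ‖g z‖ = ‖x‖ * (‖z‖ * ‖g z‖) := by ring
    _ ≤ ‖x‖ * 1 := mul_le_mul_of_nonneg_left h2 (norm_nonneg _)
    _ = ‖x‖ := mul_one _

lemma mobius {x w : ℂ} (hx : ‖x‖ < 1) (hw : ‖w‖ ≤ 1) (hne : 1 - x * w ≠ 0) :
    ‖(w - (starRingEnd ℂ) x) / (1 - x * w)‖ ≤ 1 := by
  rw [norm_div, div_le_one (norm_pos_iff.2 hne)]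
  refine (abs_le_of_sq_le_sq' ?_ (norm_nonneg _)).2
  have e1 : ‖w - (starRingEnd ℂ) x‖ ^ 2 = (w.re - x.re) ^ 2 + (w.im + x.im) ^ 2 := by
    rw [← Complex.normSq_eq_norm_sq, Complex.normSq_apply]
    simp
    ring
  have e2 : ‖1 - x * w‖ ^ 2 = (1 - (x.re * w.re - x.im * w.im)) ^ 2
      + (x.re * w.im + x.im * w.re) ^ 2 := by
    rw [← Complex.normSq_eq_norm_sq, Complex.normSq_apply]
    simp
    ring
  have e3 : ‖x‖ ^ 2 = x.re ^ 2 + x.im ^ 2 := by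
    rw [← Complex.normSq_eq_norm_sq, Complex.normSq_apply]
    ring
  have e4 : ‖w‖ ^ 2 = w.re ^ 2 + w.im ^ 2 := by
    rw [← Complex.normSq_eq_norm_sq, Complex.normSq_apply]
    ring
  have h1 : 0 ≤ 1 - ‖x‖ ^ 2 := by nlinarith [norm_nonneg x]
  have h2 : 0 ≤ 1 - ‖w‖ ^ 2 := by nlinarith [norm_nonneg w]
  have h3 := mul_nonneg h1 h2
  rw [e3, e4] at h3
  rw [e1, e2]
  nlinarith [h3]

end BndLAux

lemma one_sub_xzg_ne {x : ℂ} (hx : ‖x‖ < 1) {g : ℂ → ℂ} (hg : Sc g) {z : ℂ} (hz : ‖z‖ < 1) :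
    1 - x * z * g z ≠ 0 := by
  intro h
  have h1 : x * z * g z = 1 := by linear_combination -h
  have h2 := BndLAux.norm_xzg_le (x := x) hg hz
  rw [h1, norm_one] at h2
  linarith

lemma LN_diff {x : ℂ} (hx : ‖x‖ < 1) {g : ℂ → ℂ} (hg : Sc g) :
    DifferentiableOn ℂ (LN x g) (ball 0 1) := by
  refine hg.1.div ((differentiableOn_const _).sub
    (((differentiableOn_const _).mul differentiableOn_id).mul hg.1)) ?_
  intro z hz
  exact one_sub_xzg_ne hx hg (by simpa using hz)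

lemma inv_diff {x : ℂ} (hx : ‖x‖ < 1) {g : ℂ → ℂ} (hg : Sc g) :
    DifferentiableOn ℂ (fun z => 1 / (1 - x * z * g z)) (ball 0 1) := by
  refine (differentiableOn_const _).div ((differentiableOn_const _).sub
    (((differentiableOn_const _).mul differentiableOn_id).mul hg.1)) ?_
  intro z hz
  exact one_sub_xzg_ne hx hg (by simpa using hz)

lemma LN_sq {x : ℂ} {l : ℝ} (hx : ‖x‖ ≤ l) (hl : l < 1) {g : ℂ → ℂ} (hg : Sc g) (N : ℕ) :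
    ∑ n ∈ Finset.range N, ‖tc (LN x g) n‖ ^ 2 ≤ 1 / (1 - l ^ 2) := by
  have hx1 : ‖x‖ < 1 := lt_of_le_of_lt hx hl
  have hL := LN_diff hx1 hg
  set F : ℂ → ℂ := fun z => -(starRingEnd ℂ) x + ((1 - ‖x‖ ^ 2 : ℝ) : ℂ) * z * LN x g z with hF
  have hFd : DifferentiableOn ℂ F (ball 0 1) :=
    (differentiableOn_const _).add (((differentiableOn_const _).mul differentiableOn_id).mul hL)
  have hFb : ∀ z : ℂ, ‖z‖ < 1 → ‖F z‖ ≤ 1 := by
    intro z hz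
    have hne := one_sub_xzg_ne hx1 hg hz
    have hw : ‖z * g z‖ ≤ 1 := by
      rw [norm_mul]
      exact mul_le_one₀ hz.le (norm_nonneg _) (hg.2 z hz)
    have hne' : 1 - x * (z * g z) ≠ 0 := by rw [← mul_assoc]; exact hne
    have hxx : ((‖x‖ ^ 2 : ℝ) : ℂ) = x * (starRingEnd ℂ) x := by
      rw [Complex.mul_conj, Complex.normSq_eq_norm_sq]
    have e : F z = (z * g z - (starRingEnd ℂ) x) / (1 - x * (z * g z)) := by
      rw [hF]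
      simp only [LN]
      have e0 : ((1 - ‖x‖ ^ 2 : ℝ) : ℂ) = 1 - x * (starRingEnd ℂ) x := by
        rw [← hxx]; push_cast; ring
      rw [e0, show 1 - x * z * g z = 1 - x * (z * g z) by ring, eq_div_iff hne']
      field_simp
      ring
    rw [e]
    exact BndLAux.mobius hx1 hw hne'
  have h := sum_sq_le hFd hFb (N + 1)
  rw [Finset.sum_range_succ'] at h
  have h0 : ‖tc F 0‖ ^ 2 = ‖x‖ ^ 2 := by
    rw [tc_zero, hF]
    simp
  have h1 : ∀ n, ‖tc F (n + 1)‖ ^ 2 = (1 - ‖x‖ ^ 2) ^ 2 * ‖tc (LN x g) n‖ ^ 2 := by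
    intro n
    rw [tc_shift (f := F) (c := -(starRingEnd ℂ) x) (k := ((1 - ‖x‖ ^ 2 : ℝ) : ℂ)) hL
      (fun z _ => rfl) n, norm_mul, Complex.norm_real, Real.norm_eq_abs, mul_pow, sq_abs]
  simp only [h1] at h
  rw [← Finset.mul_sum, h0] at h
  set S := ∑ n ∈ Finset.range N, ‖tc (LN x g) n‖ ^ 2 with hS
  have hS0 : 0 ≤ S := Finset.sum_nonneg (fun _ _ => by positivity)
  have hx0 := norm_nonneg x
  have hq : 0 < 1 - ‖x‖ ^ 2 := by nlinarith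
  have hl2 : 0 < 1 - l ^ 2 := by nlinarith
  have hle : 1 - l ^ 2 ≤ 1 - ‖x‖ ^ 2 := by nlinarith
  have h3 : (1 - ‖x‖ ^ 2) * S ≤ 1 := by
    have : (1 - ‖x‖ ^ 2) * ((1 - ‖x‖ ^ 2) * S) ≤ (1 - ‖x‖ ^ 2) * 1 := by nlinarith [h]
    exact le_of_mul_le_mul_left this hq
  rw [le_div_iff₀ hl2]
  nlinarith [mul_le_mul_of_nonneg_left hle hS0]

/-- The Cauchy-Schwarz bound. -/
lemma nr_LN_le {x : ℂ} {l : ℝ} (hx : ‖x‖ ≤ l) (hl : l < 1) {g : ℂ → ℂ} (hg : Sc g) {r F : ℝ}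
    (h0 : 0 ≤ r) (h1 : r < 1) (hF0 : 0 ≤ F) (hF : 1 ≤ F ^ 2 * ((1 - l ^ 2) * (1 - r ^ 2))) :
    nr (LN x g) r ≤ F := by
  have hx1 : ‖x‖ < 1 := lt_of_le_of_lt hx hl
  have hl0 : 0 ≤ l := (norm_nonneg x).trans hx
  have hl2 : 0 < 1 - l ^ 2 := by nlinarith
  have hr2 : 0 < 1 - r ^ 2 := by nlinarith
  refine (nr_le_of_sq' (LN_diff hx1 hg) (LN_sq hx hl hg) h0 h1).trans ?_
  rw [← Real.sqrt_div (by positivity)]
  refine Real.sqrt_le_iff.mpr ⟨hF0, ?_⟩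
  rw [div_div, div_le_iff₀ (by positivity)]
  exact hF

lemma nr_inv_le {x : ℂ} {l : ℝ} (hx : ‖x‖ ≤ l) (hl : l < 1) {g : ℂ → ℂ} (hg : Sc g) {r F : ℝ}
    (h0 : 0 ≤ r) (h1 : r < 1) (hF0 : 0 ≤ F) (hF : 1 ≤ F ^ 2 * ((1 - l ^ 2) * (1 - r ^ 2))) :
    nr (fun z => 1 / (1 - x * z * g z)) r ≤ 1 + l * r * F := by
  have hx1 : ‖x‖ < 1 := lt_of_le_of_lt hx hl
  have hl0 : 0 ≤ l := (norm_nonneg x).trans hx
  have hL := LN_diff hx1 hg
  have hzL : DifferentiableOn ℂ (fun z => z * LN x g z) (ball 0 1) := differentiableOn_id.mul hL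
  have hxzL : DifferentiableOn ℂ (fun z => x * (z * LN x g z)) (ball 0 1) :=
    (differentiableOn_const _).mul hzL
  have hc1 : DifferentiableOn ℂ (fun _ : ℂ => (1 : ℂ)) (ball 0 1) := differentiableOn_const _
  have e : nr (fun z => 1 / (1 - x * z * g z)) r
      = nr (fun z => (fun _ : ℂ => (1 : ℂ)) z + (fun z => x * (z * LN x g z)) z) r := by
    refine nr_congr (hc1.add hxzL) ?_ r
    intro z hz
    have hne := one_sub_xzg_ne hx1 hg hz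
    show 1 / (1 - x * z * g z) = 1 + x * (z * (g z / (1 - x * z * g z)))
    field_simp
    ring
  rw [e]
  refine (nr_add_le hc1 hxzL h0 h1).trans ?_
  rw [nr_const, nr_smul hzL, nr_z_mul hL, norm_one]
  have h2 := nr_LN_le hx hl hg h0 h1 hF0 hF
  have h3 : 0 ≤ nr (LN x g) r := nr_nonneg _ h0
  have h4 : ‖x‖ * (r * nr (LN x g) r) ≤ l * (r * F) :=
    mul_le_mul hx (mul_le_mul_of_nonneg_left h2 h0) (by positivity) hl0
  linarith

lemma norm_LN_le {x : ℂ} {l : ℝ} (hx : ‖x‖ ≤ l) (hl : l < 1) {g : ℂ → ℂ} (hg : Sc g) {z : ℂ}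
    (hz : ‖z‖ < 1) : ‖LN x g z‖ ≤ 1 / (1 - l) := by
  have h1 := BndLAux.norm_xzg_le (x := x) hg hz
  have h2 : 1 - ‖x * z * g z‖ ≤ ‖1 - x * z * g z‖ := by
    have := norm_sub_norm_le (1 : ℂ) (x * z * g z)
    rwa [norm_one] at this
  have h3 : 0 < 1 - l := by linarith
  have h4 : 1 - l ≤ ‖1 - x * z * g z‖ := by linarith
  simp only [LN]
  rw [norm_div]
  exact div_le_div₀ zero_le_one (hg.2 z hz) h3 h4

lemma tc_LN_le {x : ℂ} {l : ℝ} (hx : ‖x‖ ≤ l) (hl : l < 1) {g : ℂ → ℂ} (hg : Sc g) (n : ℕ) :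
    ‖tc (LN x g) n‖ ≤ 1 / (1 - l) := by
  have hl0 : 0 ≤ l := (norm_nonneg x).trans hx
  have h1 := LN_sq hx hl hg (n + 1)
  have h2 : ‖tc (LN x g) n‖ ^ 2 ≤ ∑ k ∈ Finset.range (n + 1), ‖tc (LN x g) k‖ ^ 2 :=
    Finset.single_le_sum (f := fun k => ‖tc (LN x g) k‖ ^ 2) (fun _ _ => by positivity)
      (Finset.mem_range.mpr (Nat.lt_succ_self n))
  have h3 : 0 < 1 - l := by linarith
  have h4 : 1 / (1 - l ^ 2) ≤ (1 / (1 - l)) ^ 2 := by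
    rw [div_pow, one_pow]
    refine one_div_le_one_div_of_le (by positivity) ?_
    nlinarith
  exact (abs_le_of_sq_le_sq' (h2.trans (h1.trans h4)) (by positivity)).2

lemma LN_congr {x : ℂ} (hx : ‖x‖ < 1) {g g' : ℂ → ℂ} (hg : Sc g)
    (h : ∀ z : ℂ, ‖z‖ < 1 → g' z = g z) (r : ℝ) : nr (LN x g') r = nr (LN x g) r := by
  refine nr_congr (LN_diff hx hg) ?_ r
  intro z hz
  simp only [LN]
  rw [h z hz]

end Pool.Agent.P187w
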