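import Pool.Agent.Lib.P187w.BndL
import Pool.Agent.Lib.P187w.BndG

/-!
# The bound for `vk`

Write `v = vk x a k`, `g = gk a k`, `L = LN x g`. Then `1 - a z k = ...`,
`v = (1 - a^2) / ((1 - a z k)(1 - x z g)) = 1 - (a - x z) L` (for `a < 1`; for `a = 1` the left
side is `0` and the right side is `1 - (1 - x z) / (1 - x z) = 0`).
With `F = (z g - conj x) / (1 - x z g)` (a Schur function, `F = - conj x + (1 - |x|^2) z L`),
`(1 - |x|^2) z v = z - a conj x - (a - x z) F`, that is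
`(a - x z) F = - a conj x + (1 - (1 - |x|^2)(1 - a^2)) z - (1 - |x|^2) ∑_{n ≥ 1} v_n z^(n+1)`.
`|(a - x z) F| ≤ |a - x z|` on the disc, so by `P187o.sum_sq_le_of_norm_le` (h = a - x z, whose
sum of squares is `a^2 + |x|^2`)
`a^2 |x|^2 + (1 - (1 - |x|^2)(1 - a^2))^2 + (1 - |x|^2)^2 ∑_{n ≥ 1} |v_n|^2 ≤ a^2 + |x|^2`.
With `b = (1 - |x|^2)(1 - a^2)`, `a^2 + |x|^2 - a^2 |x|^2 = 1 - b`, so
`(1 - |x|^2)^2 ∑_{n≥1} |v_n|^2 ≤ (1 - b) - (1 - b)^2 = b (1 - b)`, i.e.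
`∑_{n≥1} |v_n|^2 ≤ (1 - a^2) (a^2 + |x|^2 / (1 - |x|^2))`, monotone in `|x|`.
Then `nr_le_of_sq` with `v 0 = 1 - a^2`.
-/

set_option autoImplicit false

open Complex Metric Set
open Pool.Agent.P187f6b

namespace Pool.Agent.P187w

namespace BndVAux

lemma gk_mul {a : ℝ} (h0 : 0 ≤ a) (h1 : a ≤ 1) {k : ℂ → ℂ} (hk : Sc k) {z : ℂ} (hz : ‖z‖ < 1) :
    gk a k z * (1 - a * (z * k z)) = a - z * k z := by
  unfold gk
  exact div_mul_cancel₀ _ (one_sub_azk_ne h0 h1 hk hz)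

lemma den_eq {x : ℂ} {a : ℝ} (h0 : 0 ≤ a) (h1 : a ≤ 1) {k : ℂ → ℂ}
    (hk : Sc k) {z : ℂ} (hz : ‖z‖ < 1) :
    (1 - a * (z * k z)) - x * z * (a - z * k z) =
      (1 - a * (z * k z)) * (1 - x * z * gk a k z) := by
  have := gk_mul h0 h1 hk hz
  linear_combination (x * z) * this

end BndVAux

open BndVAux

lemma vk_den_ne {x : ℂ} (hx : ‖x‖ < 1) {a : ℝ} (h0 : 0 ≤ a) (h1 : a ≤ 1) {k : ℂ → ℂ}
    (hk : Sc k) {z : ℂ} (hz : ‖z‖ < 1) :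
    (1 - a * (z * k z)) - x * z * (a - z * k z) ≠ 0 := by
  rw [den_eq h0 h1 hk hz]
  exact mul_ne_zero (one_sub_azk_ne h0 h1 hk hz) (one_sub_xzg_ne hx (gk_Sc h0 h1 hk) hz)

lemma vk_diff {x : ℂ} (hx : ‖x‖ < 1) {a : ℝ} (h0 : 0 ≤ a) (h1 : a ≤ 1) {k : ℂ → ℂ}
    (hk : Sc k) : DifferentiableOn ℂ (vk x a k) (ball 0 1) := by
  have hid : DifferentiableOn ℂ (fun z : ℂ => z) (ball 0 1) := differentiableOn_id
  have hzk : DifferentiableOn ℂ (fun z : ℂ => z * k z) (ball 0 1) := hid.mul hk.1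
  refine DifferentiableOn.div (differentiableOn_const _) ?_
    (fun z hz => vk_den_ne hx h0 h1 hk (by simpa using hz))
  exact ((differentiableOn_const _).sub ((differentiableOn_const _).mul hzk)).sub
    (((differentiableOn_const _).mul hid).mul ((differentiableOn_const _).sub hzk))

namespace BndVAux

/-- `(a - x z) F`. -/
noncomputable def HF (x : ℂ) (a : ℝ) (k : ℂ → ℂ) (z : ℂ) : ℂ :=
  z - a * (starRingEnd ℂ) x - (1 - (‖x‖ : ℂ) ^ 2) * (z * vk x a k z)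

lemma HF_diff {x : ℂ} (hx : ‖x‖ < 1) {a : ℝ} (h0 : 0 ≤ a) (h1 : a ≤ 1) {k : ℂ → ℂ}
    (hk : Sc k) : DifferentiableOn ℂ (HF x a k) (ball 0 1) := by
  have hid : DifferentiableOn ℂ (fun z : ℂ => z) (ball 0 1) := differentiableOn_id
  exact (hid.sub (differentiableOn_const _)).sub
    ((differentiableOn_const _).mul (hid.mul (vk_diff hx h0 h1 hk)))

lemma normsq_cast (x : ℂ) : (‖x‖ : ℂ) ^ 2 = x * (starRingEnd ℂ) x := by
  rw [Complex.mul_conj, Complex.normSq_eq_norm_sq]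
  push_cast
  ring

lemma HF_eq {x : ℂ} (hx : ‖x‖ < 1) {a : ℝ} (h0 : 0 ≤ a) (h1 : a ≤ 1) {k : ℂ → ℂ}
    (hk : Sc k) {z : ℂ} (hz : ‖z‖ < 1) :
    HF x a k z * (1 - x * z * gk a k z) =
      (a - x * z) * (z * gk a k z - (starRingEnd ℂ) x) := by
  have hden := vk_den_ne hx h0 h1 hk hz
  have ha := one_sub_azk_ne h0 h1 hk hz
  have hg := gk_mul h0 h1 hk hz
  have hv : vk x a k z * ((1 - a * (z * k z)) - x * z * (a - z * k z)) = 1 - a ^ 2 := by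
    unfold vk
    exact div_mul_cancel₀ _ hden
  have hde := den_eq (x := x) h0 h1 hk hz
  refine mul_left_cancel₀ ha ?_
  have e1 : (1 - (a : ℂ) * (z * k z)) * (HF x a k z * (1 - x * z * gk a k z)) =
      HF x a k z * ((1 - a * (z * k z)) - x * z * (a - z * k z)) := by
    rw [hde]; ring
  have e2 : (1 - (a : ℂ) * (z * k z)) * ((a - x * z) * (z * gk a k z - (starRingEnd ℂ) x)) =
      (a - x * z) * (z * (a - z * k z) - (starRingEnd ℂ) x * (1 - a * (z * k z))) := by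
    linear_combination ((a - x * z) * z) * hg
  rw [e1, e2]
  unfold HF
  rw [normsq_cast]
  linear_combination (-(1 - x * (starRingEnd ℂ) x) * z) * hv

lemma sub_conj_le {x w : ℂ} (hx : ‖x‖ < 1) (hw : ‖w‖ ≤ 1) :
    ‖w - (starRingEnd ℂ) x‖ ≤ ‖1 - x * w‖ := by
  rw [← abs_norm, ← abs_norm (1 - x * w), ← sq_le_sq,
    ← Complex.normSq_eq_norm_sq, ← Complex.normSq_eq_norm_sq, Complex.normSq_apply,
    Complex.normSq_apply]
  have h3 : ‖w‖ ^ 2 ≤ 1 := pow_le_one₀ (norm_nonneg _) hw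
  have h4 : ‖x‖ ^ 2 ≤ 1 := pow_le_one₀ (norm_nonneg _) hx.le
  rw [← Complex.normSq_eq_norm_sq, Complex.normSq_apply] at h3 h4
  have h5 : 0 ≤ (1 - (x.re * x.re + x.im * x.im)) * (1 - (w.re * w.re + w.im * w.im)) :=
    mul_nonneg (by linarith) (by linarith)
  simp
  nlinarith [h5]

lemma HF_le {x : ℂ} (hx : ‖x‖ < 1) {a : ℝ} (h0 : 0 ≤ a) (h1 : a ≤ 1) {k : ℂ → ℂ}
    (hk : Sc k) {z : ℂ} (hz : ‖z‖ < 1) : ‖HF x a k z‖ ≤ ‖(a : ℂ) + (-x) * z‖ := by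
  have hs := gk_Sc h0 h1 hk
  have hne := one_sub_xzg_ne hx hs hz
  have hpos : 0 < ‖1 - x * z * gk a k z‖ := norm_pos_iff.2 hne
  have e := congrArg norm (HF_eq hx h0 h1 hk hz)
  rw [norm_mul, norm_mul] at e
  have hw : ‖z * gk a k z‖ ≤ 1 := by
    rw [norm_mul]
    exact mul_le_one₀ hz.le (norm_nonneg _) (hs.2 z hz)
  have hb := sub_conj_le hx hw
  rw [← mul_assoc] at hb
  have e3 : (a : ℂ) + (-x) * z = a - x * z := by ring
  rw [e3]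
  refine le_of_mul_le_mul_right ?_ hpos
  rw [e]
  exact mul_le_mul_of_nonneg_left hb (norm_nonneg _)

lemma tc_HF {x : ℂ} (hx : ‖x‖ < 1) {a : ℝ} (h0 : 0 ≤ a) (h1 : a ≤ 1) {k : ℂ → ℂ}
    (hk : Sc k) : ∀ n, tc (HF x a k) n = match n with
      | 0 => -(a * (starRingEnd ℂ) x)
      | 1 => 1 - (1 - (‖x‖ : ℂ) ^ 2) * tc (vk x a k) 0
      | (n + 2) => -((1 - (‖x‖ : ℂ) ^ 2) * tc (vk x a k) (n + 1)) := by
  refine tc_eq (fun z hz => ?_)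
  have hv := tc_hasSum (vk_diff hx h0 h1 hk) hz
  have h2 := hv.mul_left (-((1 - (‖x‖ : ℂ) ^ 2) * z))
  have h3 : HasSum (fun n : ℕ => (match n with
      | 0 => -((1 - (‖x‖ : ℂ) ^ 2) * tc (vk x a k) 0) + 1
      | (n + 1) => -((1 - (‖x‖ : ℂ) ^ 2) * tc (vk x a k) (n + 1))) * z ^ (n + 1))
      (-((1 - (‖x‖ : ℂ) ^ 2) * z) * vk x a k z + z) := by
    have h4 := h2.add (hasSum_ite_eq (0 : ℕ) z)
    refine h4.congr_fun (fun n => ?_)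
    rcases n with _ | n
    · simp; ring
    · simp; ring
  have h5 := (hasSum_nat_add_iff' (f := fun n : ℕ => (match n with
      | 0 => -(a * (starRingEnd ℂ) x)
      | 1 => 1 - (1 - (‖x‖ : ℂ) ^ 2) * tc (vk x a k) 0
      | (n + 2) => -((1 - (‖x‖ : ℂ) ^ 2) * tc (vk x a k) (n + 1))) * z ^ n) (g := HF x a k z) 1).1
  refine h5 ?_
  simp only [Finset.range_one, Finset.sum_singleton, pow_zero, mul_one]
  have e : HF x a k z - -(a * (starRingEnd ℂ) x) = -((1 - (‖x‖ : ℂ) ^ 2) * z) * vk x a k z + z := by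
    unfold HF; ring
  rw [e]
  refine h3.congr_fun (fun n => ?_)
  rcases n with _ | n
  · simp only [zero_add, pow_one]; ring
  · rfl

lemma tc_lin (a x : ℂ) : ∀ n, tc (fun z => a + (-x) * z) n = match n with
      | 0 => a
      | 1 => -x
      | (_ + 2) => 0 := by
  refine tc_eq (fun z _ => ?_)
  have h : HasSum (fun n : ℕ => (match n with
      | 0 => a
      | 1 => -x
      | (_ + 2) => 0) * z ^ n) (∑ n ∈ Finset.range 2, (match n with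
      | 0 => a
      | 1 => -x
      | (_ + 2) => 0) * z ^ n) := hasSum_sum_of_ne_finset_zero (fun n hn => by
    rcases n with _ | _ | n
    · simp at hn
    · simp at hn
    · simp)
  simpa [Finset.sum_range_succ] using h

lemma sq_sum_le {x : ℂ} (hx : ‖x‖ < 1) {a : ℝ} (h0 : 0 ≤ a) (h1 : a ≤ 1) {k : ℂ → ℂ}
    (hk : Sc k) (N : ℕ) :
    (1 - ‖x‖ ^ 2) ^ 2 * ∑ n ∈ Finset.range N, ‖tc (vk x a k) (n + 1)‖ ^ 2 ≤
      ((1 - ‖x‖ ^ 2) * (1 - a ^ 2)) * (1 - (1 - ‖x‖ ^ 2) * (1 - a ^ 2)) := by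
  have hlin : DifferentiableOn ℂ (fun z : ℂ => (a : ℂ) + (-x) * z) (ball 0 1) := by fun_prop
  have hs : HasSum (fun n => ‖tc (fun z : ℂ => (a : ℂ) + (-x) * z) n‖ ^ 2) (a ^ 2 + ‖x‖ ^ 2) := by
    have h : HasSum (fun n => ‖tc (fun z : ℂ => (a : ℂ) + (-x) * z) n‖ ^ 2)
        (∑ n ∈ Finset.range 2, ‖tc (fun z : ℂ => (a : ℂ) + (-x) * z) n‖ ^ 2) :=
      hasSum_sum_of_ne_finset_zero (fun n hn => by
      rw [tc_lin]
      rcases n with _ | _ | n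
      · simp at hn
      · simp at hn
      · simp)
    rw [Finset.sum_range_succ, Finset.sum_range_one, tc_lin, tc_lin] at h
    simpa using h
  have h := P187o.sum_sq_le_of_norm_le (HF_diff hx h0 h1 hk) hlin
    (fun z hz => HF_le hx h0 h1 hk hz) hs.summable (N + 2)
  rw [hs.tsum_eq, Finset.sum_range_succ', Finset.sum_range_succ', tc_HF hx h0 h1 hk,
    tc_HF hx h0 h1 hk] at h
  have e0 : tc (vk x a k) 0 = 1 - a ^ 2 := by
    rw [tc_zero]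
    simp [vk]
  have e1 : ‖(1 : ℂ) - (1 - (‖x‖ : ℂ) ^ 2) * tc (vk x a k) 0‖ ^ 2 =
      (1 - (1 - ‖x‖ ^ 2) * (1 - a ^ 2)) ^ 2 := by
    rw [e0]
    have : (1 : ℂ) - (1 - (‖x‖ : ℂ) ^ 2) * (1 - a ^ 2) =
        ((1 - (1 - ‖x‖ ^ 2) * (1 - a ^ 2) : ℝ) : ℂ) := by push_cast; ring
    rw [this, Complex.norm_real, Real.norm_eq_abs, sq_abs]
  have e2 : ‖-((a : ℂ) * (starRingEnd ℂ) x)‖ ^ 2 = a ^ 2 * ‖x‖ ^ 2 := by
    rw [norm_neg, norm_mul, RCLike.norm_conj, Complex.norm_real, Real.norm_eq_abs, mul_pow, sq_abs]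
  have e3 : ∑ n ∈ Finset.range N, ‖tc (HF x a k) (n + 1 + 1)‖ ^ 2 =
      (1 - ‖x‖ ^ 2) ^ 2 * ∑ n ∈ Finset.range N, ‖tc (vk x a k) (n + 1)‖ ^ 2 := by
    rw [Finset.mul_sum]
    refine Finset.sum_congr rfl (fun n _ => ?_)
    rw [tc_HF hx h0 h1 hk]
    have : ((1 : ℂ) - (‖x‖ : ℂ) ^ 2) = ((1 - ‖x‖ ^ 2 : ℝ) : ℂ) := by push_cast; ring
    rw [norm_neg, norm_mul, this, Complex.norm_real, Real.norm_eq_abs, mul_pow, sq_abs]
  simp only [e1, e2] at h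
  rw [e3] at h
  nlinarith [h]

end BndVAux

/-- The bound for `vk`. -/
lemma nr_vk_le {x : ℂ} {l : ℝ} (hx : ‖x‖ ≤ l) (hl : l < 1) {a : ℝ} (h0 : 0 ≤ a) (h1 : a ≤ 1)
    {k : ℂ → ℂ} (hk : Sc k) {r : ℝ} (hr0 : 0 ≤ r) (hr1 : r < 1) :
    nr (vk x a k) r ≤ (1 - a ^ 2) +
      √((1 - a ^ 2) * (a ^ 2 + l ^ 2 / (1 - l ^ 2))) * (r / √(1 - r ^ 2)) := by
  have hx1 : ‖x‖ < 1 := lt_of_le_of_lt hx hl
  have hxn : 0 ≤ ‖x‖ := norm_nonneg x
  have ha2 : 0 ≤ 1 - a ^ 2 := by nlinarith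
  have hX : 0 < 1 - ‖x‖ ^ 2 := by nlinarith
  have hL : 0 < 1 - l ^ 2 := by nlinarith
  have hxl : ‖x‖ ^ 2 ≤ l ^ 2 := pow_le_pow_left₀ hxn hx 2
  have hmono : ‖x‖ ^ 2 / (1 - ‖x‖ ^ 2) ≤ l ^ 2 / (1 - l ^ 2) :=
    div_le_div₀ (by positivity) hxl hL (by linarith)
  have key := nr_le_of_sq (vk_diff hx1 h0 h1 hk)
    (S := (1 - a ^ 2) * (a ^ 2 + l ^ 2 / (1 - l ^ 2))) (fun N => ?_) hr0 hr1
  · have hv0 : ‖vk x a k 0‖ = 1 - a ^ 2 := by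
      have : vk x a k 0 = ((1 - a ^ 2 : ℝ) : ℂ) := by simp [vk]
      rw [this, Complex.norm_real, Real.norm_eq_abs, abs_of_nonneg ha2]
    rw [hv0] at key
    exact key
  · have h := sq_sum_le hx1 h0 h1 hk N
    have h2 : ∑ n ∈ Finset.range N, ‖tc (vk x a k) (n + 1)‖ ^ 2 ≤
        (1 - a ^ 2) * (a ^ 2 + ‖x‖ ^ 2 / (1 - ‖x‖ ^ 2)) := by
      have e : (1 - a ^ 2) * (a ^ 2 + ‖x‖ ^ 2 / (1 - ‖x‖ ^ 2)) =
          (((1 - ‖x‖ ^ 2) * (1 - a ^ 2)) * (1 - (1 - ‖x‖ ^ 2) * (1 - a ^ 2))) /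
            (1 - ‖x‖ ^ 2) ^ 2 := by
        field_simp
        ring
      rw [e, le_div_iff₀ (by positivity)]
      linarith [h]
    refine h2.trans (mul_le_mul_of_nonneg_left ?_ ha2)
    linarith

end Pool.Agent.P187w
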