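import Mathlib

/-!
# Covering the upper half circle by arcs

Let `b i = (es i * conj e).im`. Then `b 0 = - e.im ≤ 0` and `b n = e.im ≥ 0`. If `e.im = 0` then
`e = 1` or `e = -1` and we take `i = 0`, `s = 0`, `c = 1`, resp. `i = n - 1`, `s = 1`, `c = 1`.
Otherwise `b 0 < 0 < b n` and there is `i < n` with `b i ≤ 0 < b (i + 1)` (discrete intermediate
value); put `s = b i / (b i - b (i + 1))`, `y = (1 - s) es i + s es (i + 1)`; then
`(y conj e).im = 0`, so `y = c e` with `c = (y conj e).re` and `0 ≤ y.im = c e.im`, `c ≥ 0`.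
-/

set_option autoImplicit false

open Complex
open scoped ComplexConjugate

namespace Pool.Agent.P187w

theorem exists_arc {n : ℕ} (hn : 1 ≤ n) {es : ℕ → ℂ} (h0 : es 0 = 1) (h1 : es n = -1)
    (hu : ∀ i, i ≤ n → ‖es i‖ = 1) (hi : ∀ i, i ≤ n → 0 ≤ (es i).im) {e : ℂ} (he : ‖e‖ = 1)
    (hei : 0 ≤ e.im) :
    ∃ i, i < n ∧ ∃ s c : ℝ, 0 ≤ s ∧ s ≤ 1 ∧ 0 ≤ c ∧
      (c : ℂ) * e = (1 - s) * es i + s * es (i + 1) := by
  have _ := hu
  have hee : e.re ^ 2 + e.im ^ 2 = 1 := by
    have h : ‖e‖ ^ 2 = e.re ^ 2 + e.im ^ 2 := by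
      rw [Complex.sq_norm, Complex.normSq_apply]; ring
    rw [he] at h
    linarith
  rcases hei.eq_or_lt with h | hpos
  · -- e = 1 or e = -1
    have him : e.im = 0 := h.symm
    have hre : e.re = 1 ∨ e.re = -1 := by
      have : (e.re - 1) * (e.re + 1) = 0 := by rw [him] at hee; nlinarith
      rcases mul_eq_zero.mp this with h | h
      · left; linarith
      · right; linarith
    rcases hre with hr | hr
    · refine ⟨0, by omega, 0, 1, le_rfl, zero_le_one, zero_le_one, ?_⟩
      have : e = 1 := Complex.ext (by simp [hr]) (by simp [him])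
      rw [this, h0]; simp
    · refine ⟨n - 1, by omega, 1, 1, zero_le_one, le_rfl, zero_le_one, ?_⟩
      have : e = -1 := Complex.ext (by simp [hr]) (by simp [him])
      rw [this, Nat.sub_add_cancel hn, h1]; simp
  · -- discrete intermediate value
    set b : ℕ → ℝ := fun i => (es i).im * e.re - (es i).re * e.im with hb
    have hb0 : b 0 < 0 := by
      simp only [hb, h0]; simp; exact hpos
    have hbn : 0 < b n := by
      simp only [hb, h1]; simp; exact hpos
    classical
    have hex : ∃ m, 0 < b m := ⟨n, hbn⟩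
    set m := Nat.find hex with hm
    have hm1 : 0 < b m := Nat.find_spec hex
    have hmn : m ≤ n := Nat.find_min' hex hbn
    have hm0 : m ≠ 0 := by
      intro h
      rw [h] at hm1
      linarith
    have hlt : b (m - 1) ≤ 0 := by
      have := Nat.find_min hex (m := m - 1) (by omega)
      linarith [not_lt.mp this]
    refine ⟨m - 1, by omega, ?_⟩
    rw [show m - 1 + 1 = m by omega]
    have hd : 0 < b m - b (m - 1) := by linarith
    set s : ℝ := -b (m - 1) / (b m - b (m - 1)) with hs
    have hs0 : 0 ≤ s := div_nonneg (by linarith) hd.le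
    have hs1 : s ≤ 1 := by rw [hs, div_le_one hd]; linarith
    have hsb : (1 - s) * b (m - 1) + s * b m = 0 := by
      have : s * (b m - b (m - 1)) = -b (m - 1) := by rw [hs, div_mul_cancel₀ _ hd.ne']
      linarith
    set y : ℂ := (1 - s) * es (m - 1) + s * es m with hy
    have hyre : y.re = (1 - s) * (es (m - 1)).re + s * (es m).re := by
      simp [hy]
    have hyim : y.im = (1 - s) * (es (m - 1)).im + s * (es m).im := by
      simp [hy]
    have hy0 : 0 ≤ y.im := by
      rw [hyim]
      have h1 := hi (m - 1) (by omega)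
      have h2 := hi m hmn
      have h3 : 0 ≤ 1 - s := by linarith
      positivity
    have hcross : y.im * e.re - y.re * e.im = 0 := by
      rw [hyim, hyre]
      simp only [hb] at hsb
      linarith
    set c : ℝ := y.re * e.re + y.im * e.im with hc
    have hcre : c * e.re = y.re := by
      rw [hc]
      have : y.im * e.re = y.re * e.im := by linarith
      calc (y.re * e.re + y.im * e.im) * e.re = y.re * e.re ^ 2 + (y.im * e.re) * e.im := by ring
        _ = y.re * e.re ^ 2 + (y.re * e.im) * e.im := by rw [this]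
        _ = y.re * (e.re ^ 2 + e.im ^ 2) := by ring
        _ = y.re := by rw [hee, mul_one]
    have hcim : c * e.im = y.im := by
      rw [hc]
      have : y.re * e.im = y.im * e.re := by linarith
      calc (y.re * e.re + y.im * e.im) * e.im = (y.re * e.im) * e.re + y.im * e.im ^ 2 := by ring
        _ = (y.im * e.re) * e.re + y.im * e.im ^ 2 := by rw [this]
        _ = y.im * (e.re ^ 2 + e.im ^ 2) := by ring
        _ = y.im := by rw [hee, mul_one]
    refine ⟨s, c, hs0, hs1, ?_, ?_⟩
    · by_contra hneg
      have h1 : c * e.im < 0 := mul_neg_of_neg_of_pos (not_le.mp hneg) hpos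
      linarith
    · rw [← hy]
      apply Complex.ext
      · simp [hcre]
      · simp [hcim]

end Pool.Agent.P187w
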