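import Mathlib
import Pool.Agent.Lib.P187f6b.Threshold
import Pool.Agent.Lib.P187o.Func
import Pool.Agent.Lib.P187s.Family

/-!
# The classes of functions and the weighted sum of Taylor coefficients
-/

set_option autoImplicit false

open Complex Metric Set
open Pool.Agent.P187f6b

namespace Pool.Agent.P187w

/-- Holomorphic functions on the unit disc bounded by one. -/
def Sc (g : ℂ → ℂ) : Prop :=
  DifferentiableOn ℂ g (ball 0 1) ∧ ∀ z : ℂ, ‖z‖ < 1 → ‖g z‖ ≤ 1

/-- The weighted sum `∑ |f_n| r ^ n` of the Taylor coefficients at the origin. -/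
noncomputable def nr (f : ℂ → ℂ) (r : ℝ) : ℝ := ∑' n : ℕ, ‖tc f n‖ * r ^ n

/-- The function `g / (1 - x z g)`. -/
noncomputable def LN (x : ℂ) (g : ℂ → ℂ) (z : ℂ) : ℂ := g z / (1 - x * z * g z)

/-- The function with value `a` at the origin and next Schur function `k`. -/
noncomputable def gk (a : ℝ) (k : ℂ → ℂ) (z : ℂ) : ℂ := (a - z * k z) / (1 - a * (z * k z))

/-- The function with value `p` at the origin and next Schur function `h`. -/
noncomputable def kh (p : ℝ) (h : ℂ → ℂ) (z : ℂ) : ℂ := (p + z * h z) / (1 + p * (z * h z))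

/-- The function `(1 - a ^ 2) / ((1 - a z k) - x z (a - z k))`. -/
noncomputable def vk (x : ℂ) (a : ℝ) (k : ℂ → ℂ) (z : ℂ) : ℂ :=
  (1 - a ^ 2) / ((1 - a * (z * k z)) - x * z * (a - z * k z))

/-- The quantity `r ∑ |L_n| r ^ n` which is compared with `1 / (1 + l)`. -/
noncomputable def Ph (x : ℂ) (g : ℂ → ℂ) (r : ℝ) : ℝ := r * nr (LN x g) r

end Pool.Agent.P187w
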