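import Pool.Agent.Lib.P187w.Defs

/-!
# The energy inequality

`hz v w = ∑ v_i w^i` is the Horner value of a list. For `|z| = ρ` we have a pointwise quadratic
inequality for `L`; multiply it by a nonnegative weight `T` with `1 - η ≤ Dl T` and integrate
over the circle: `(1 - η) ∫ |L|^2 - 2 Re ∫ conj L (G T) + ∫ H T ≤ 0`.
* `∫ |L|^2 = 2 π ∑ |tc L n|^2 ρ^(2n)` is `P187o.parseval_fun`;
* `∫ conj L * exp (i n θ) = conj ∫ L exp (- i n θ) = 2 π conj (tc L n) ρ^n` (`P187f6b.integral_circ`,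
  `P187f6b.conj_integral`), and `∫ conj L * exp (- i n θ) = 0` for `n ≥ 1`
  (`P187f6b.integral_pos_mode`); expand the lists `b`, `c` by induction.
Continuity of the circle restriction: `P187f6b.continuous_circ`.
-/

set_option autoImplicit false

open Complex Metric Set MeasureTheory
open scoped Real ComplexConjugate
open Pool.Agent.P187f6b

namespace Pool.Agent.P187w

/-- Horner value of a list of coefficients. -/
def hz (v : List ℂ) (w : ℂ) : ℂ := v.foldr (fun a s => a + w * s) 0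

/-- `∑ conj (l n) * b n` over a list. -/
def pair (l : ℕ → ℂ) : List ℂ → ℂ
  | [] => 0
  | b :: bs => conj (l 0) * b + pair (fun n => l (n + 1)) bs

namespace EvAAux

lemma hz_nil (w : ℂ) : hz [] w = 0 := rfl

lemma hz_cons (a : ℂ) (v : List ℂ) (w : ℂ) : hz (a :: v) w = a + w * hz v w := rfl

lemma hz_cont {W : ℝ → ℂ} (hW : Continuous W) (v : List ℂ) :
    Continuous (fun θ : ℝ => hz v (W θ)) := by
  induction v with
  | nil => simp only [hz_nil]; exact continuous_const
  | cons a v ih =>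
    simp only [hz_cons]
    exact continuous_const.add (hW.mul ih)

lemma int_zero {W F : ℝ → ℂ} (hW : Continuous W) (hF : Continuous F)
    (h : ∀ k : ℕ, ∫ θ in (0 : ℝ)..2 * π, F θ * W θ ^ (k + 1) = 0) (v : List ℂ) (m : ℕ) :
    ∫ θ in (0 : ℝ)..2 * π, F θ * (W θ ^ (m + 1) * hz v (W θ)) = 0 := by
  induction v generalizing m with
  | nil => simp [hz_nil]
  | cons a v ih =>
    have h1 : ∀ θ : ℝ, F θ * (W θ ^ (m + 1) * hz (a :: v) (W θ)) =
        a * (F θ * W θ ^ (m + 1)) + F θ * (W θ ^ (m + 1 + 1) * hz v (W θ)) := by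
      intro θ
      rw [hz_cons]
      ring
    simp_rw [h1]
    rw [intervalIntegral.integral_add, intervalIntegral.integral_const_mul, h m, ih (m + 1)]
    · simp
    · exact (continuous_const.mul (hF.mul (hW.pow _))).intervalIntegrable _ _
    · exact (hF.mul ((hW.pow _).mul (hz_cont hW v))).intervalIntegrable _ _

lemma int_pair {W F : ℝ → ℂ} (hW : Continuous W) (hF : Continuous F) (l : ℕ → ℂ)
    (h : ∀ k : ℕ, ∫ θ in (0 : ℝ)..2 * π, F θ * W θ ^ k = 2 * π * conj (l k)) (v : List ℂ)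
    (m : ℕ) :
    ∫ θ in (0 : ℝ)..2 * π, F θ * (W θ ^ m * hz v (W θ)) =
      2 * π * pair (fun n => l (n + m)) v := by
  induction v generalizing m with
  | nil => simp [hz_nil, pair]
  | cons a v ih =>
    have h1 : ∀ θ : ℝ, F θ * (W θ ^ m * hz (a :: v) (W θ)) =
        a * (F θ * W θ ^ m) + F θ * (W θ ^ (m + 1) * hz v (W θ)) := by
      intro θ
      rw [hz_cons]
      ring
    simp_rw [h1]
    rw [intervalIntegral.integral_add, intervalIntegral.integral_const_mul, h m, ih (m + 1)]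
    · have h2 : (fun n => l (n + (m + 1))) = fun n => (fun n => l (n + m)) (n + 1) := by
        funext n
        simp only
        congr 1
        omega
      rw [h2]
      simp only [pair, zero_add]
      ring
    · exact (continuous_const.mul (hF.mul (hW.pow _))).intervalIntegrable _ _
    · exact (hF.mul ((hW.pow _).mul (hz_cont hW v))).intervalIntegrable _ _

lemma exp_pow (θ : ℝ) (k : ℕ) : cexp (θ * I) ^ k = cexp (k * θ * I) := by
  rw [← Complex.exp_nat_mul]
  congr 1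
  ring

lemma exp_neg_pow (θ : ℝ) (k : ℕ) : cexp (-(θ * I)) ^ k = cexp (-(k * θ * I)) := by
  rw [← Complex.exp_nat_mul]
  congr 1
  ring

lemma conj_exp_neg (θ : ℝ) (k : ℕ) : conj (cexp (-(k * θ * I))) = cexp (k * θ * I) := by
  rw [← Complex.exp_conj]
  congr 1
  simp

lemma conj_exp_pos (θ : ℝ) (k : ℕ) : conj (cexp (k * θ * I)) = cexp (-(k * θ * I)) := by
  rw [← Complex.exp_conj]
  congr 1
  simp

lemma int_conj_pos {L : ℂ → ℂ} (hL : DifferentiableOn ℂ L (ball 0 1)) {ρ : ℝ} (h0 : 0 < ρ)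
    (h1 : ρ < 1) (k : ℕ) :
    ∫ θ in (0 : ℝ)..2 * π, conj (L (ρ * cexp (θ * I))) * cexp (θ * I) ^ k =
      2 * π * conj (tc L k * ρ ^ k) := by
  have h2 : ∀ θ : ℝ, conj (L (ρ * cexp (θ * I))) * cexp (θ * I) ^ k =
      conj (L (ρ * cexp (θ * I)) * cexp (-(k * θ * I))) := by
    intro θ
    rw [map_mul, conj_exp_neg, exp_pow]
  simp_rw [h2]
  rw [conj_integral, integral_circ hL h0.le h1 k]
  rw [map_mul (starRingEnd ℂ) (2 * (π : ℂ)), map_mul (starRingEnd ℂ) (2 : ℂ),
    Complex.conj_ofReal, map_ofNat]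

lemma int_conj_neg {L : ℂ → ℂ} (hL : DifferentiableOn ℂ L (ball 0 1)) {ρ : ℝ} (h0 : 0 < ρ)
    (h1 : ρ < 1) (k : ℕ) :
    ∫ θ in (0 : ℝ)..2 * π, conj (L (ρ * cexp (θ * I))) * cexp (-(θ * I)) ^ (k + 1) = 0 := by
  have h2 : ∀ θ : ℝ, conj (L (ρ * cexp (θ * I))) * cexp (-(θ * I)) ^ (k + 1) =
      conj (L (ρ * cexp (θ * I)) * cexp (((k + 1 : ℕ) : ℂ) * θ * I)) := by
    intro θ
    rw [map_mul, conj_exp_pos, exp_neg_pow]
  simp_rw [h2]
  rw [conj_integral, integral_pos_mode hL h0 h1 (Nat.succ_ne_zero k), map_zero]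

lemma cont_exp : Continuous (fun θ : ℝ => cexp (θ * I)) := by fun_prop

lemma cont_exp_neg : Continuous (fun θ : ℝ => cexp (-(θ * I))) := by fun_prop

lemma int_one_pos (k : ℕ) :
    ∫ θ in (0 : ℝ)..2 * π, (1 : ℂ) * cexp (θ * I) ^ (k + 1) = 0 := by
  have h := integral_pos_mode (f := fun _ => (1 : ℂ)) (differentiableOn_const _)
    (s := 1 / 2) (by norm_num) (by norm_num) (Nat.succ_ne_zero k)
  simp_rw [exp_pow]
  exact h

lemma int_one_neg (k : ℕ) :
    ∫ θ in (0 : ℝ)..2 * π, (1 : ℂ) * cexp (-(θ * I)) ^ (k + 1) = 0 := by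
  have h := int_conj_neg (L := fun _ => (1 : ℂ)) (differentiableOn_const _)
    (ρ := 1 / 2) (by norm_num) (by norm_num) k
  simpa using h

end EvAAux

open EvAAux in
theorem energy {L : ℂ → ℂ} (hL : DifferentiableOn ℂ L (ball 0 1)) {ρ : ℝ} (h0 : 0 < ρ)
    (h1 : ρ < 1) {Dl T Hh : ℝ → ℝ} {Gg : ℝ → ℂ} {η h : ℝ} {b c : List ℂ}
    (hT0 : ∀ θ : ℝ, 0 ≤ T θ) (hTD : ∀ θ : ℝ, 1 - η ≤ Dl θ * T θ)
    (hpt : ∀ θ : ℝ, Dl θ * ‖L (ρ * cexp (θ * I))‖ ^ 2 -
      2 * (conj (L (ρ * cexp (θ * I))) * Gg θ).re + Hh θ ≤ 0)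
    (hG : ∀ θ : ℝ, Gg θ * T θ = hz b (cexp (θ * I)) +
      cexp (-(θ * I)) * hz c (cexp (-(θ * I))))
    (hH : ∃ b' c' : List ℂ, ∀ θ : ℝ, ((Hh θ * T θ : ℝ) : ℂ) = h +
      cexp (θ * I) * hz b' (cexp (θ * I)) + cexp (-(θ * I)) * hz c' (cexp (-(θ * I)))) :
    (1 - η) * ∑' n : ℕ, ‖tc L n * ρ ^ n‖ ^ 2 -
      2 * (pair (fun n => tc L n * ρ ^ n) b).re + h ≤ 0 := by
  obtain ⟨b', c', hH⟩ := hH
  set g : ℝ → ℂ := fun θ => hz b (cexp (θ * I)) +
    cexp (-(θ * I)) * hz c (cexp (-(θ * I))) with hg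
  set u : ℝ → ℂ := fun θ => h + cexp (θ * I) * hz b' (cexp (θ * I)) +
    cexp (-(θ * I)) * hz c' (cexp (-(θ * I))) with hu
  have hLc : Continuous fun θ : ℝ => L (ρ * cexp (θ * I)) := continuous_circ hL h0.le h1
  have hgc : Continuous g :=
    (hz_cont cont_exp b).add (cont_exp_neg.mul (hz_cont cont_exp_neg c))
  have huc : Continuous u :=
    (continuous_const.add (cont_exp.mul (hz_cont cont_exp b'))).add
      (cont_exp_neg.mul (hz_cont cont_exp_neg c'))
  have hcL : Continuous fun θ : ℝ => conj (L (ρ * cexp (θ * I))) :=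
    Complex.continuous_conj.comp hLc
  -- pointwise inequality
  have hpt2 : ∀ θ : ℝ, (1 - η) * ‖L (ρ * cexp (θ * I))‖ ^ 2 -
      2 * (conj (L (ρ * cexp (θ * I))) * g θ).re + (u θ).re ≤ 0 := by
    intro θ
    have e1 : (conj (L (ρ * cexp (θ * I))) * g θ).re =
        T θ * (conj (L (ρ * cexp (θ * I))) * Gg θ).re := by
      have : conj (L (ρ * cexp (θ * I))) * g θ =
          (T θ : ℂ) * (conj (L (ρ * cexp (θ * I))) * Gg θ) := by
        simp only [hg]
        rw [← hG θ]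
        ring
      rw [this, Complex.re_ofReal_mul]
    have e2 : (u θ).re = Hh θ * T θ := by
      have : u θ = ((Hh θ * T θ : ℝ) : ℂ) := by
        simp only [hu]
        rw [hH θ]
      rw [this, Complex.ofReal_re]
    rw [e1, e2]
    have e3 := mul_nonpos_of_nonneg_of_nonpos (hT0 θ) (hpt θ)
    have e4 : (1 - η) * ‖L (ρ * cexp (θ * I))‖ ^ 2 ≤
        Dl θ * T θ * ‖L (ρ * cexp (θ * I))‖ ^ 2 :=
      mul_le_mul_of_nonneg_right (hTD θ) (by positivity)
    nlinarith [e3, e4]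
  -- integrate
  have hint : 0 ≤ ∫ θ in (0 : ℝ)..2 * π, -((1 - η) * ‖L (ρ * cexp (θ * I))‖ ^ 2 -
      2 * (conj (L (ρ * cexp (θ * I))) * g θ).re + (u θ).re) := by
    refine intervalIntegral.integral_nonneg (by positivity) (fun θ _ => ?_)
    have := hpt2 θ
    linarith
  rw [intervalIntegral.integral_neg] at hint
  have c1 : Continuous fun θ : ℝ => (1 - η) * ‖L (ρ * cexp (θ * I))‖ ^ 2 :=
    continuous_const.mul (hLc.norm.pow 2)
  have c2 : Continuous fun θ : ℝ => 2 * (conj (L (ρ * cexp (θ * I))) * g θ).re :=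
    continuous_const.mul (Complex.continuous_re.comp (hcL.mul hgc))
  have c3 : Continuous fun θ : ℝ => (u θ).re := Complex.continuous_re.comp huc
  have c12 : Continuous fun θ : ℝ => (1 - η) * ‖L (ρ * cexp (θ * I))‖ ^ 2 -
      2 * (conj (L (ρ * cexp (θ * I))) * g θ).re := c1.sub c2
  rw [intervalIntegral.integral_add (c12.intervalIntegrable _ _)
      (c3.intervalIntegrable _ _),
    intervalIntegral.integral_sub (c1.intervalIntegrable _ _) (c2.intervalIntegrable _ _),
    intervalIntegral.integral_const_mul, intervalIntegral.integral_const_mul] at hint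
  -- the three integrals
  have i1 : ∫ θ in (0 : ℝ)..2 * π, ‖L (ρ * cexp (θ * I))‖ ^ 2 =
      2 * π * ∑' n : ℕ, ‖tc L n * ρ ^ n‖ ^ 2 := by
    have h3 := (Pool.Agent.P187o.parseval_fun hL h0.le h1).tsum_eq
    have h4 : ∀ n : ℕ, ‖tc L n * (ρ : ℂ) ^ n‖ ^ 2 = ‖tc L n‖ ^ 2 * ρ ^ (2 * n) := by
      intro n
      rw [norm_mul, norm_pow, Complex.norm_real, Real.norm_eq_abs, abs_of_pos h0, mul_pow,
        ← pow_mul, mul_comm n 2]
    simp_rw [h4]
    rw [h3, ← mul_assoc, mul_inv_cancel₀ (by positivity), one_mul]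
  have i2 : ∫ θ in (0 : ℝ)..2 * π, (conj (L (ρ * cexp (θ * I))) * g θ).re =
      2 * π * (pair (fun n => tc L n * ρ ^ n) b).re := by
    have h3 : ∫ θ in (0 : ℝ)..2 * π, conj (L (ρ * cexp (θ * I))) * g θ =
        2 * π * pair (fun n => tc L n * ρ ^ n) b := by
      have h4 : ∀ θ : ℝ, conj (L (ρ * cexp (θ * I))) * g θ =
          conj (L (ρ * cexp (θ * I))) * (cexp (θ * I) ^ 0 * hz b (cexp (θ * I))) +
          conj (L (ρ * cexp (θ * I))) *
            (cexp (-(θ * I)) ^ (0 + 1) * hz c (cexp (-(θ * I)))) := by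
        intro θ
        simp only [hg]
        ring
      simp_rw [h4]
      rw [intervalIntegral.integral_add,
        int_pair cont_exp hcL (fun n => tc L n * ρ ^ n) (int_conj_pos hL h0 h1) b 0,
        int_zero cont_exp_neg hcL (int_conj_neg hL h0 h1) c 0, add_zero]
      · simp only [add_zero]
      · exact (hcL.mul ((cont_exp.pow _).mul (hz_cont cont_exp b))).intervalIntegrable _ _
      · exact (hcL.mul ((cont_exp_neg.pow _).mul
          (hz_cont cont_exp_neg c))).intervalIntegrable _ _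
    have h5 : ∫ θ in (0 : ℝ)..2 * π, (conj (L (ρ * cexp (θ * I))) * g θ).re =
        (∫ θ in (0 : ℝ)..2 * π, conj (L (ρ * cexp (θ * I))) * g θ).re := by
      exact Complex.reCLM.intervalIntegral_comp_comm
        ((hcL.mul hgc).intervalIntegrable 0 (2 * π))
    rw [h5, h3]
    have h6 : (2 * (π : ℂ)) = ((2 * π : ℝ) : ℂ) := by push_cast; ring
    rw [h6, Complex.re_ofReal_mul]
  have i3 : ∫ θ in (0 : ℝ)..2 * π, (u θ).re = 2 * π * h := by
    have h3 : ∫ θ in (0 : ℝ)..2 * π, u θ = 2 * π * h := by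
      have h4 : ∀ θ : ℝ, u θ = (h + 1 * (cexp (θ * I) ^ (0 + 1) * hz b' (cexp (θ * I)))) +
          1 * (cexp (-(θ * I)) ^ (0 + 1) * hz c' (cexp (-(θ * I)))) := by
        intro θ
        simp only [hu]
        ring
      simp_rw [h4]
      have c5 : Continuous fun θ : ℝ => (1 : ℂ) * (cexp (θ * I) ^ (0 + 1) *
          hz b' (cexp (θ * I))) :=
        continuous_const.mul ((cont_exp.pow _).mul (hz_cont cont_exp b'))
      have c6 : Continuous fun θ : ℝ => (1 : ℂ) * (cexp (-(θ * I)) ^ (0 + 1) *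
          hz c' (cexp (-(θ * I)))) :=
        continuous_const.mul ((cont_exp_neg.pow _).mul (hz_cont cont_exp_neg c'))
      have c7 : Continuous fun θ : ℝ => (h : ℂ) + (1 : ℂ) * (cexp (θ * I) ^ (0 + 1) *
          hz b' (cexp (θ * I))) := continuous_const.add c5
      rw [intervalIntegral.integral_add (c7.intervalIntegrable _ _)
          (c6.intervalIntegrable _ _),
        intervalIntegral.integral_add (continuous_const.intervalIntegrable _ _)
          (c5.intervalIntegrable _ _),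
        int_zero cont_exp continuous_const int_one_pos b' 0,
        int_zero cont_exp_neg continuous_const int_one_neg c' 0,
        intervalIntegral.integral_const]
      simp
    have h5 : ∫ θ in (0 : ℝ)..2 * π, (u θ).re = (∫ θ in (0 : ℝ)..2 * π, u θ).re :=
      Complex.reCLM.intervalIntegral_comp_comm (huc.intervalIntegrable 0 (2 * π))
    rw [h5, h3]
    have h6 : (2 * (π : ℂ) * h) = ((2 * π * h : ℝ) : ℂ) := by push_cast; ring
    rw [h6, Complex.ofReal_re]
  rw [i1, i2, i3] at hint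
  have hpi : 0 < 2 * π := by positivity
  by_contra hcon
  push Not at hcon
  have h7 := mul_pos hpi hcon
  nlinarith [h7, hint]

/-- A real trigonometric polynomial with a dominant residual bound: if `Dl > 0` everywhere and
`|1 - Dl T| ≤ η < 1`, then `T ≥ 0` and `1 - η ≤ Dl T`. -/
lemma weight_ok {Dl T η : ℝ} (hD : 0 < Dl) (h : |1 - Dl * T| ≤ η) (hη : η < 1) :
    0 ≤ T ∧ 1 - η ≤ Dl * T := by
  have h2 := abs_le.1 h
  refine ⟨?_, by linarith [h2.2]⟩
  by_contra hc
  push Not at hc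
  have : Dl * T < 0 := mul_neg_of_pos_of_neg hD hc
  linarith [h2.2]

end Pool.Agent.P187w
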