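import Pool.Agent.Lib.P187w.BndL
import Pool.Agent.Lib.P187w.BndG

/-!
# The pointwise quadratic inequalities

Level two. `k = kh p h`, `u = z h z`, `|u| ≤ ρ` for `|z| = ρ`, and
`L = LN x (gk a k) = (A + B u) / (q0 + q1 u)` with `A = a - p z`, `B = a p - z`,
`q0 = 1 - a (x + p) z + x p z^2`, `q1 = p - a (1 + x p) z + x z^2`. From
`A - L q0 = u (L q1 - B)`: `|A - L q0|^2 ≤ ρ^2 |L q1 - B|^2`, i.e.
`Δ |L|^2 - 2 Re (conj L G) + H ≤ 0` with `Δ = |q0|^2 - ρ^2 |q1|^2`,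
`G = A conj q0 - ρ^2 B conj q1`, `H = |A|^2 - ρ^2 |B|^2`.
Positivity of `Δ`: `q0 = D - p N z`, `q1 = p D - N z` with `D = 1 - a x z`, `N = a - x z`;
`|q0|^2 - |q1|^2 = (1 - p^2) (|D|^2 - |N z|^2)` and
`|D|^2 - |N|^2 = (1 - a^2) (1 - |x z|^2)`; if `p < 1`, `a < 1` then `Δ > 0` for `|z| < 1`
(`Δ ≥ |q0|^2 - |q1|^2 > 0`; note `|D|^2 - |N z|^2 ≥ |D|^2 - |N|^2 > 0`).
Level one. `L = LN x (gk a k) = (a - w) / (D - N w)`, `w = z k z`, `|w| ≤ ρ`:
the same with `A = a`, `B = -1`, `q0 = D`, `q1 = -N`.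
`tc_one_L`: the coefficient of `z` of `L` is `x a^2 - (1 - a^2) p` where `p = k 0`.
-/

set_option autoImplicit false

open Complex Metric Set
open scoped ComplexConjugate
open Pool.Agent.P187f6b

namespace Pool.Agent.P187w

namespace EvPAux

/-- From `L (q0 + q1 u) = A + B u` and `|u| ≤ ρ` to the quadratic inequality. -/
lemma quad {L q0 q1 A B u : ℂ} {ρ : ℝ} (hu : ‖u‖ ≤ ρ)
    (h : L * (q0 + q1 * u) = A + B * u) :
    (‖q0‖ ^ 2 - ρ ^ 2 * ‖q1‖ ^ 2) * ‖L‖ ^ 2 -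
        2 * (conj L * (A * conj q0 - ρ ^ 2 * (B * conj q1))).re +
        (‖A‖ ^ 2 - ρ ^ 2 * ‖B‖ ^ 2) ≤ 0 := by
  have e : A - L * q0 = u * (L * q1 - B) := by linear_combination (-1 : ℂ) * h
  have h1 : ‖A - L * q0‖ ^ 2 ≤ ρ ^ 2 * ‖L * q1 - B‖ ^ 2 := by
    rw [e, norm_mul, mul_pow]
    gcongr
  have h2 : ‖A - L * q0‖ ^ 2 = ‖A‖ ^ 2 - 2 * (conj L * (A * conj q0)).re + ‖L‖ ^ 2 * ‖q0‖ ^ 2 := by
    rw [← Complex.normSq_eq_norm_sq, ← Complex.normSq_eq_norm_sq, ← Complex.normSq_eq_norm_sq,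
      ← Complex.normSq_eq_norm_sq]
    simp only [Complex.normSq_apply, Complex.sub_re, Complex.sub_im, Complex.mul_re,
      Complex.mul_im, Complex.conj_re, Complex.conj_im]
    ring
  have h3 : ‖L * q1 - B‖ ^ 2 = ‖B‖ ^ 2 - 2 * (conj L * (B * conj q1)).re + ‖L‖ ^ 2 * ‖q1‖ ^ 2 := by
    rw [← Complex.normSq_eq_norm_sq, ← Complex.normSq_eq_norm_sq, ← Complex.normSq_eq_norm_sq,
      ← Complex.normSq_eq_norm_sq]
    simp only [Complex.normSq_apply, Complex.sub_re, Complex.sub_im, Complex.mul_re,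
      Complex.mul_im, Complex.conj_re, Complex.conj_im]
    ring
  have h4 : (conj L * (A * conj q0 - ρ ^ 2 * (B * conj q1))).re =
      (conj L * (A * conj q0)).re - ρ ^ 2 * (conj L * (B * conj q1)).re := by
    have : conj L * (A * conj q0 - ρ ^ 2 * (B * conj q1)) =
        conj L * (A * conj q0) - ((ρ ^ 2 : ℝ) : ℂ) * (conj L * (B * conj q1)) := by
      push_cast; ring
    rw [this, Complex.sub_re, Complex.re_ofReal_mul]
  rw [h2, h3] at h1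
  rw [h4]
  nlinarith [h1]

/-- `|1 - a y|^2 - |a - y|^2 = (1 - a^2) (1 - |y|^2)`. -/
lemma mob (a : ℝ) (y : ℂ) :
    ‖1 - a * y‖ ^ 2 - ‖(a : ℂ) - y‖ ^ 2 = (1 - a ^ 2) * (1 - ‖y‖ ^ 2) := by
  rw [← Complex.normSq_eq_norm_sq, ← Complex.normSq_eq_norm_sq, ← Complex.normSq_eq_norm_sq]
  simp only [Complex.normSq_apply, Complex.sub_re, Complex.sub_im, Complex.mul_re,
    Complex.mul_im, Complex.ofReal_re, Complex.ofReal_im, Complex.one_re, Complex.one_im]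
  ring

lemma mob2 (p : ℝ) (D W : ℂ) :
    ‖D - p * W‖ ^ 2 - ‖p * D - W‖ ^ 2 = (1 - p ^ 2) * (‖D‖ ^ 2 - ‖W‖ ^ 2) := by
  rw [← Complex.normSq_eq_norm_sq, ← Complex.normSq_eq_norm_sq, ← Complex.normSq_eq_norm_sq,
    ← Complex.normSq_eq_norm_sq]
  simp only [Complex.normSq_apply, Complex.sub_re, Complex.sub_im, Complex.mul_re,
    Complex.mul_im, Complex.ofReal_re, Complex.ofReal_im]
  ring

lemma DN_pos {x : ℂ} (hx : ‖x‖ < 1) {a : ℝ} (ha0 : 0 ≤ a) (ha1 : a < 1) {z : ℂ}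
    (hz : ‖z‖ < 1) : 0 < ‖1 - a * (x * z)‖ ^ 2 - ‖(a : ℂ) - x * z‖ ^ 2 := by
  rw [mob]
  have h1 : ‖x * z‖ < 1 := by
    rw [norm_mul]
    nlinarith [norm_nonneg x, norm_nonneg z]
  have h2 : ‖x * z‖ ^ 2 < 1 := by nlinarith [norm_nonneg (x * z)]
  have h3 : a ^ 2 < 1 := by nlinarith
  exact mul_pos (by linarith) (by linarith)

end EvPAux

open EvPAux

theorem level_two {x : ℂ} (hx : ‖x‖ < 1) {a p : ℝ} (ha0 : 0 ≤ a) (ha1 : a < 1) (hp0 : 0 ≤ p)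
    (hp1 : p < 1) {h : ℂ → ℂ} (hh : Sc h) {ρ : ℝ} (h0 : 0 < ρ) (h1 : ρ < 1) {z A B q0 q1 : ℂ}
    (hz : ‖z‖ = ρ) (hA : A = a - p * z) (hB : B = a * p - z)
    (hq0 : q0 = 1 - a * (x + p) * z + x * p * z ^ 2)
    (hq1 : q1 = p - a * (1 + x * p) * z + x * z ^ 2) :
    0 < ‖q0‖ ^ 2 - ρ ^ 2 * ‖q1‖ ^ 2 ∧
      (‖q0‖ ^ 2 - ρ ^ 2 * ‖q1‖ ^ 2) * ‖LN x (gk a (kh p h)) z‖ ^ 2 -
        2 * (conj (LN x (gk a (kh p h)) z) * (A * conj q0 - ρ ^ 2 * (B * conj q1))).re +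
        (‖A‖ ^ 2 - ρ ^ 2 * ‖B‖ ^ 2) ≤ 0 := by
  have hz1 : ‖z‖ < 1 := by rw [hz]; exact h1
  have hk : Sc (kh p h) := kh_Sc hp0 hp1.le hh
  have hg : Sc (gk a (kh p h)) := gk_Sc ha0 ha1.le hk
  constructor
  · have hW : ‖((a : ℂ) - x * z) * z‖ ≤ ‖(a : ℂ) - x * z‖ := by
      rw [norm_mul]
      nlinarith [norm_nonneg ((a : ℂ) - x * z)]
    have hDN := DN_pos hx ha0 ha1 hz1
    have e0 : q0 = (1 - a * (x * z)) - p * (((a : ℂ) - x * z) * z) := by rw [hq0]; ring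
    have e1 : q1 = p * (1 - a * (x * z)) - ((a : ℂ) - x * z) * z := by rw [hq1]; ring
    have h3 := mob2 p (1 - a * (x * z)) (((a : ℂ) - x * z) * z)
    rw [← e0, ← e1] at h3
    have h4 : 0 < (1 - p ^ 2) * (‖1 - a * (x * z)‖ ^ 2 - ‖((a : ℂ) - x * z) * z‖ ^ 2) := by
      apply mul_pos
      · nlinarith
      · have : ‖((a : ℂ) - x * z) * z‖ ^ 2 ≤ ‖(a : ℂ) - x * z‖ ^ 2 := by
          gcongr
        linarith
    have h5 : ρ ^ 2 * ‖q1‖ ^ 2 ≤ ‖q1‖ ^ 2 := by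
      have : ρ ^ 2 ≤ 1 := by nlinarith
      nlinarith [sq_nonneg ‖q1‖]
    linarith
  · have hu : ‖z * h z‖ ≤ ρ := by
      rw [norm_mul, hz]
      have := hh.2 z hz1
      nlinarith [norm_nonneg (h z)]
    have d1 := one_add_pzh_ne hp0 hp1.le hh hz1
    have d2 := one_sub_azk_ne ha0 ha1.le hk hz1
    have d3 := one_sub_xzg_ne hx hg hz1
    refine quad hu ?_
    have eG : gk a (kh p h) z * (1 - (a : ℂ) * (z * kh p h z)) = a - z * kh p h z := by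
      rw [gk]; exact div_mul_cancel₀ _ d2
    have eK : kh p h z * (1 + (p : ℂ) * (z * h z)) = p + z * h z := by
      rw [kh]; exact div_mul_cancel₀ _ d1
    have eL : LN x (gk a (kh p h)) z * (1 - x * z * gk a (kh p h) z) = gk a (kh p h) z := by
      rw [LN]; exact div_mul_cancel₀ _ d3
    generalize LN x (gk a (kh p h)) z = L at *
    generalize gk a (kh p h) z = G at *
    generalize kh p h z = K at *
    generalize h z = H at *
    rw [hq0, hq1, hA, hB]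
    -- L (1 - x z G) = G, G (1 - a z K) = a - z K, K (1 + p z H) = p + z H
    have e5 : L * ((1 - a * (z * K)) - x * z * (a - z * K)) = a - z * K := by
      have : L * ((1 - a * (z * K)) - x * z * (a - z * K)) =
          (L * (1 - x * z * G)) * (1 - a * (z * K)) := by
        rw [← eG]; ring
      rw [this, eL, eG]
    have e6 : L * (((1 + p * (z * H)) - a * (z * (p + z * H))) -
        x * z * (a * (1 + p * (z * H)) - z * (p + z * H))) =
        a * (1 + p * (z * H)) - z * (p + z * H) := by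
      have : L * (((1 + p * (z * H)) - a * (z * (p + z * H))) -
        x * z * (a * (1 + p * (z * H)) - z * (p + z * H))) =
          (L * ((1 - a * (z * K)) - x * z * (a - z * K))) * (1 + p * (z * H)) := by
        rw [← eK]; ring
      rw [this, e5, ← eK]; ring
    linear_combination e6

theorem level_one {x : ℂ} (hx : ‖x‖ < 1) {a : ℝ} (ha0 : 0 ≤ a) (ha1 : a < 1)
    {k : ℂ → ℂ} (hk : Sc k) {ρ : ℝ} (h0 : 0 < ρ) (h1 : ρ < 1) {z q0 q1 : ℂ}
    (hz : ‖z‖ = ρ) (hq0 : q0 = 1 - a * x * z) (hq1 : q1 = -(a - x * z)) :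
    0 < ‖q0‖ ^ 2 - ρ ^ 2 * ‖q1‖ ^ 2 ∧
      (‖q0‖ ^ 2 - ρ ^ 2 * ‖q1‖ ^ 2) * ‖LN x (gk a k) z‖ ^ 2 -
        2 * (conj (LN x (gk a k) z) * (a * conj q0 + ρ ^ 2 * conj q1)).re +
        (a ^ 2 - ρ ^ 2) ≤ 0 := by
  have hz1 : ‖z‖ < 1 := by rw [hz]; exact h1
  have hg : Sc (gk a k) := gk_Sc ha0 ha1.le hk
  constructor
  · have hDN := DN_pos hx ha0 ha1 hz1
    have e0 : q0 = 1 - a * (x * z) := by rw [hq0]; ring
    have e1 : ‖q1‖ = ‖(a : ℂ) - x * z‖ := by rw [hq1, norm_neg]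
    have h5 : ρ ^ 2 * ‖q1‖ ^ 2 ≤ ‖q1‖ ^ 2 := by
      have : ρ ^ 2 ≤ 1 := by nlinarith
      nlinarith [sq_nonneg ‖q1‖]
    rw [← e0, ← e1] at hDN
    linarith
  · have hu : ‖z * k z‖ ≤ ρ := by
      rw [norm_mul, hz]
      have := hk.2 z hz1
      nlinarith [norm_nonneg (k z)]
    have d2 := one_sub_azk_ne ha0 ha1.le hk hz1
    have d3 := one_sub_xzg_ne hx hg hz1
    have key := quad (L := LN x (gk a k) z) (q0 := q0) (q1 := q1) (A := a) (B := -1)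
      (u := z * k z) hu ?_
    · have ea : ‖(a : ℂ)‖ ^ 2 = a ^ 2 := by
        rw [Complex.norm_real, Real.norm_eq_abs, sq_abs]
      have eb : ‖(-1 : ℂ)‖ ^ 2 = 1 := by simp
      rw [ea, eb, mul_one] at key
      have ec : ((a : ℂ) * conj q0 - (ρ : ℂ) ^ 2 * (-1 * conj q1)) =
          a * conj q0 + ρ ^ 2 * conj q1 := by ring
      rw [ec] at key
      exact key
    · have eG : gk a k z * (1 - (a : ℂ) * (z * k z)) = a - z * k z := by
        rw [gk]; exact div_mul_cancel₀ _ d2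
      have eL : LN x (gk a k) z * (1 - x * z * gk a k z) = gk a k z := by
        rw [LN]; exact div_mul_cancel₀ _ d3
      generalize LN x (gk a k) z = L at *
      generalize gk a k z = G at *
      generalize k z = K at *
      rw [hq0, hq1]
      have e5 : L * ((1 - a * (z * K)) - x * z * (a - z * K)) = a - z * K := by
        have : L * ((1 - a * (z * K)) - x * z * (a - z * K)) =
            (L * (1 - x * z * G)) * (1 - a * (z * K)) := by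
          rw [← eG]; ring
        rw [this, eL, eG]
      linear_combination e5

lemma L_zero {x : ℂ} {a : ℝ} {k : ℂ → ℂ} : LN x (gk a k) 0 = a := by simp [LN, gk]

lemma tc_one_L {x : ℂ} (hx : ‖x‖ < 1) {a : ℝ} (ha0 : 0 ≤ a) (ha1 : a ≤ 1) {k : ℂ → ℂ}
    (hk : Sc k) : tc (LN x (gk a k)) 1 = x * a ^ 2 - (1 - a ^ 2) * k 0 := by
  have hkd : HasDerivAt k (deriv k 0) 0 :=
    ((hk.1 0 (by simp)).differentiableAt (isOpen_ball.mem_nhds (by simp))).hasDerivAt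
  have hzk : HasDerivAt (fun z => z * k z) (k 0) 0 := by
    have := (hasDerivAt_id' (0 : ℂ)).fun_mul hkd
    simpa using this
  have hg : HasDerivAt (gk a k) (-(1 - (a : ℂ) ^ 2) * k 0) 0 := by
    have h1 : HasDerivAt (fun z => (a : ℂ) - z * k z) (-(k 0)) 0 := hzk.const_sub _
    have h2 : HasDerivAt (fun z => 1 - (a : ℂ) * (z * k z)) (-(a * k 0)) 0 :=
      (hzk.const_mul (a : ℂ)).const_sub _
    have h3 := h1.div h2 (by simp)
    have h4 : (-(k 0) * (1 - (a : ℂ) * (0 * k 0)) - ((a : ℂ) - 0 * k 0) * (-(a * k 0))) /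
        (1 - (a : ℂ) * (0 * k 0)) ^ 2 = -(1 - (a : ℂ) ^ 2) * k 0 := by
      simp; ring
    rw [h4] at h3
    exact h3
  have hL : HasDerivAt (LN x (gk a k)) (x * (a : ℂ) ^ 2 - (1 - (a : ℂ) ^ 2) * k 0) 0 := by
    have h0 : gk a k 0 = a := by simp [gk]
    have h1 : HasDerivAt (fun z => x * z * gk a k z) (x * a) 0 := by
      have := ((hasDerivAt_id' (0 : ℂ)).const_mul x).fun_mul hg
      simpa [h0] using this
    have h2 := hg.div (h1.const_sub 1) (by simp)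
    have h4 : (-(1 - (a : ℂ) ^ 2) * k 0 * (1 - x * 0 * gk a k 0) - gk a k 0 * (-(x * a))) /
        (1 - x * 0 * gk a k 0) ^ 2 = x * (a : ℂ) ^ 2 - (1 - (a : ℂ) ^ 2) * k 0 := by
      rw [h0]; simp; ring
    rw [h4] at h2
    exact h2
  rw [tc, iteratedDeriv_one, hL.deriv]
  simp

end Pool.Agent.P187w
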