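import Pool.Agent.Lib.P187w.Defs

/-!
# Basic properties of the weighted sum

Everything is elementary: `tc_hasSum`, `tc_eq`, `tc_congr`, `tc_summable` (P187f6b.Basic),
`tc_add` (P187f6b.Core), `tc_mul` (P187f6b.Main), `tc_succ` (P187s.Schur) and the Cauchy product
`tsum_mul_tsum_eq_tsum_sum_antidiagonal_of_summable_norm` for `nr_mul_le`.
For `nr_le_of_sq`: Cauchy-Schwarz on `∑_{n ≥ 1} |f_n| r ^ n` with
`∑_{n ≥ 1} r ^ (2 n) = r ^ 2 / (1 - r ^ 2)` (do it for finite sums with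
`Finset.sum_mul_sq_le_sq_mul_sq`, then `Real.tsum_le_of_sum_range_le`).
-/

set_option autoImplicit false

open Complex Metric Set
open Pool.Agent.P187f6b

namespace Pool.Agent.P187w

lemma summable_nr {f : ℂ → ℂ} (hf : DifferentiableOn ℂ f (ball 0 1)) {r : ℝ} (h0 : 0 ≤ r)
    (h1 : r < 1) : Summable fun n : ℕ => ‖tc f n‖ * r ^ n := tc_summable hf h0 h1

lemma nr_nonneg (f : ℂ → ℂ) {r : ℝ} (h0 : 0 ≤ r) : 0 ≤ nr f r :=
  tsum_nonneg fun n => by positivity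

lemma nr_congr {f g : ℂ → ℂ} (hg : DifferentiableOn ℂ g (ball 0 1))
    (h : ∀ z : ℂ, ‖z‖ < 1 → f z = g z) (r : ℝ) : nr f r = nr g r := by
  unfold nr
  exact tsum_congr fun n => by rw [tc_congr hg h n]

lemma nr_add_le {f g : ℂ → ℂ} (hf : DifferentiableOn ℂ f (ball 0 1))
    (hg : DifferentiableOn ℂ g (ball 0 1)) {r : ℝ} (h0 : 0 ≤ r) (h1 : r < 1) :
    nr (fun z => f z + g z) r ≤ nr f r + nr g r := by
  have sf := summable_nr hf h0 h1
  have sg := summable_nr hg h0 h1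
  unfold nr
  rw [← sf.tsum_add sg]
  have hfg : DifferentiableOn ℂ (fun z => f z + g z) (ball 0 1) := hf.add hg
  refine (summable_nr hfg h0 h1).tsum_le_tsum (fun n => ?_) (sf.add sg)
  rw [tc_add hf hg, ← add_mul]
  exact mul_le_mul_of_nonneg_right (norm_add_le _ _) (by positivity)

lemma nr_smul {f : ℂ → ℂ} (hf : DifferentiableOn ℂ f (ball 0 1)) (c : ℂ) (r : ℝ) :
    nr (fun z => c * f z) r = ‖c‖ * nr f r := by
  have h : ∀ n, tc (fun z => c * f z) n = c * tc f n := fun n =>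
    tc_eq (c := fun n => c * tc f n) (fun z hz => by
      refine ((tc_hasSum hf hz).mul_left c).congr_fun (fun n => ?_)
      ring) n
  unfold nr
  rw [← tsum_mul_left]
  exact tsum_congr fun n => by rw [h, norm_mul]; ring

lemma nr_mul_le {f g : ℂ → ℂ} (hf : DifferentiableOn ℂ f (ball 0 1))
    (hg : DifferentiableOn ℂ g (ball 0 1)) {r : ℝ} (h0 : 0 ≤ r) (h1 : r < 1) :
    nr (fun z => f z * g z) r ≤ nr f r * nr g r := by
  have sf := summable_nr hf h0 h1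
  have sg := summable_nr hg h0 h1
  have hfg : DifferentiableOn ℂ (fun z => f z * g z) (ball 0 1) := hf.mul hg
  have sf' : Summable fun n => ‖‖tc f n‖ * r ^ n‖ := sf.norm
  have sg' : Summable fun n => ‖‖tc g n‖ * r ^ n‖ := sg.norm
  have h2 := tsum_mul_tsum_eq_tsum_sum_antidiagonal_of_summable_norm sf' sg'
  have h3 := (summable_norm_sum_mul_antidiagonal_of_summable_norm sf' sg').of_norm
  unfold nr
  rw [h2]
  refine (summable_nr hfg h0 h1).tsum_le_tsum (fun n => ?_) h3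
  rw [tc_mul hf hg]
  calc ‖∑ kl ∈ Finset.HasAntidiagonal.antidiagonal n, tc f kl.1 * tc g kl.2‖ * r ^ n
      ≤ (∑ kl ∈ Finset.HasAntidiagonal.antidiagonal n, ‖tc f kl.1 * tc g kl.2‖) * r ^ n :=
        mul_le_mul_of_nonneg_right (norm_sum_le _ _) (by positivity)
    _ = ∑ kl ∈ Finset.HasAntidiagonal.antidiagonal n,
          ‖tc f kl.1‖ * r ^ kl.1 * (‖tc g kl.2‖ * r ^ kl.2) := by
        rw [Finset.sum_mul]
        refine Finset.sum_congr rfl fun kl hkl => ?_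
        rw [Finset.HasAntidiagonal.mem_antidiagonal] at hkl
        rw [← hkl, pow_add, norm_mul]
        ring

lemma nr_succ {f : ℂ → ℂ} (hf : DifferentiableOn ℂ f (ball 0 1)) {r : ℝ} (h0 : 0 ≤ r)
    (h1 : r < 1) : nr f r = ‖f 0‖ + ∑' n : ℕ, ‖tc f (n + 1)‖ * r ^ (n + 1) := by
  unfold nr
  rw [(summable_nr hf h0 h1).tsum_eq_zero_add, tc_zero, pow_zero, mul_one]

lemma nr_z_mul {f : ℂ → ℂ} (hf : DifferentiableOn ℂ f (ball 0 1)) (r : ℝ) :
    nr (fun z => z * f z) r = r * nr f r := by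
  have h : ∀ n, tc (fun z => z * f z) (n + 1) = tc f n := fun n => by
    rw [tc_shift (f := fun z => z * f z) (c := 0) (k := 1) hf (fun z _ => by ring) n, one_mul]
  have h0 : tc (fun z => z * f z) 0 = 0 := by rw [tc_zero]; simp
  unfold nr
  by_cases hs : Summable fun n : ℕ => ‖tc f n‖ * r ^ n
  · have hs' : Summable fun n : ℕ => ‖tc (fun z => z * f z) n‖ * r ^ n := by
      rw [← summable_nat_add_iff 1]
      refine (hs.mul_left r).congr fun n => ?_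
      rw [h, pow_succ]; ring
    rw [hs'.tsum_eq_zero_add, h0, norm_zero, zero_mul, zero_add, ← tsum_mul_left]
    exact tsum_congr fun n => by rw [h, pow_succ]; ring
  · by_cases hr : r = 0
    · exfalso
      apply hs
      refine summable_of_ne_finset_zero (s := {0}) fun n hn => ?_
      have : n ≠ 0 := by simpa using hn
      rw [hr, zero_pow this, mul_zero]
    · have hs' : ¬ Summable fun n : ℕ => ‖tc (fun z => z * f z) n‖ * r ^ n := by
        intro hc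
        apply hs
        rw [← summable_nat_add_iff 1] at hc
        refine (hc.mul_left r⁻¹).congr fun n => ?_
        rw [h, pow_succ]
        field_simp
      rw [tsum_eq_zero_of_not_summable hs', tsum_eq_zero_of_not_summable hs, mul_zero]

lemma nr_const (c : ℂ) (r : ℝ) : nr (fun _ => c) r = ‖c‖ := by
  have h : ∀ n, tc (fun _ : ℂ => c) n = if n = 0 then c else 0 := fun n =>
    tc_eq (c := fun n => if n = 0 then c else 0) (fun z _ => by
      have := hasSum_ite_eq (0 : ℕ) c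
      refine this.congr_fun (fun n => ?_)
      by_cases hn : n = 0
      · simp [hn]
      · simp [hn]) n
  unfold nr
  have e : ∀ n : ℕ, ‖tc (fun _ : ℂ => c) n‖ * r ^ n = if n = 0 then ‖c‖ else 0 := by
    intro n
    rw [h]
    by_cases hn : n = 0
    · simp [hn]
    · simp [hn]
  simp_rw [e]
  exact tsum_ite_eq 0 _

/-- The basic interpolation inequality. -/
lemma nr_comb {f f1 f2 e : ℂ → ℂ} (h1 : DifferentiableOn ℂ f1 (ball 0 1))
    (h2 : DifferentiableOn ℂ f2 (ball 0 1)) (he : DifferentiableOn ℂ e (ball 0 1)) {s : ℝ}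
    (hs0 : 0 ≤ s) (hs1 : s ≤ 1)
    (h : ∀ z : ℂ, ‖z‖ < 1 → f z = (1 - s) * f1 z + s * f2 z + e z) {r : ℝ} (hr0 : 0 ≤ r)
    (hr1 : r < 1) : nr f r ≤ (1 - s) * nr f1 r + s * nr f2 r + nr e r := by
  have d1 : DifferentiableOn ℂ (fun z => ((1 - s : ℝ) : ℂ) * f1 z) (ball 0 1) := h1.const_mul _
  have d2 : DifferentiableOn ℂ (fun z => ((s : ℝ) : ℂ) * f2 z) (ball 0 1) := h2.const_mul _
  have d12 : DifferentiableOn ℂ (fun z => ((1 - s : ℝ) : ℂ) * f1 z + ((s : ℝ) : ℂ) * f2 z)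
      (ball 0 1) := d1.add d2
  have d3 : DifferentiableOn ℂ
      (fun z => (((1 - s : ℝ) : ℂ) * f1 z + ((s : ℝ) : ℂ) * f2 z) + e z) (ball 0 1) := d12.add he
  rw [nr_congr d3 (fun z hz => by rw [h z hz]; push_cast; ring) r]
  have a1 := nr_add_le d12 he hr0 hr1
  have a2 := nr_add_le d1 d2 hr0 hr1
  have a3 := nr_smul h1 ((1 - s : ℝ) : ℂ) r
  have a4 := nr_smul h2 ((s : ℝ) : ℂ) r
  rw [Complex.norm_real, Real.norm_eq_abs, abs_of_nonneg (by linarith)] at a3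
  rw [Complex.norm_real, Real.norm_eq_abs, abs_of_nonneg hs0] at a4
  linarith

lemma nr_mono {f : ℂ → ℂ} (hf : DifferentiableOn ℂ f (ball 0 1)) {r s : ℝ} (h0 : 0 ≤ r)
    (hrs : r ≤ s) (h1 : s < 1) : nr f r ≤ nr f s := by
  refine (summable_nr hf h0 (lt_of_le_of_lt hrs h1)).tsum_le_tsum (fun n => ?_)
    (summable_nr hf (h0.trans hrs) h1)
  exact mul_le_mul_of_nonneg_left (pow_le_pow_left₀ h0 hrs n) (norm_nonneg _)

namespace NrAAux

lemma geom_le {r : ℝ} (h0 : 0 ≤ r) (h1 : r < 1) (N : ℕ) :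
    ∑ n ∈ Finset.range N, (r ^ n) ^ 2 ≤ 1 / (1 - r ^ 2) := by
  have h2 : r ^ 2 < 1 := by nlinarith
  have h3 := (hasSum_geometric_of_lt_one (sq_nonneg r) h2)
  have h4 : ∑ n ∈ Finset.range N, (r ^ n) ^ 2 = ∑ n ∈ Finset.range N, (r ^ 2) ^ n :=
    Finset.sum_congr rfl fun n _ => by rw [← pow_mul, ← pow_mul, mul_comm]
  rw [h4, one_div, ← h3.tsum_eq]
  exact h3.summable.sum_le_tsum _ (fun n _ => by positivity)

lemma cs {a : ℕ → ℝ} (ha : ∀ n, 0 ≤ a n) {S : ℝ}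
    (hS : ∀ N : ℕ, ∑ n ∈ Finset.range N, a n ^ 2 ≤ S) {r : ℝ} (h0 : 0 ≤ r)
    (h1 : r < 1) : ∑' n : ℕ, a n * r ^ n ≤ √S / √(1 - r ^ 2) := by
  have hr2 : 0 < 1 - r ^ 2 := by nlinarith
  have hS0 : 0 ≤ S := by simpa using hS 0
  refine Real.tsum_le_of_sum_range_le (fun n => mul_nonneg (ha n) (by positivity)) fun N => ?_
  have h2 := Finset.sum_mul_sq_le_sq_mul_sq (Finset.range N) a (fun n => r ^ n)
  have h3 : (∑ n ∈ Finset.range N, a n * r ^ n) ^ 2 ≤ S * (1 / (1 - r ^ 2)) :=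
    h2.trans (mul_le_mul (hS N) (geom_le h0 h1 N) (Finset.sum_nonneg fun n _ => by positivity) hS0)
  have h4 : (√S / √(1 - r ^ 2)) ^ 2 = S * (1 / (1 - r ^ 2)) := by
    rw [div_pow, Real.sq_sqrt hS0, Real.sq_sqrt hr2.le]; ring
  rw [← h4] at h3
  exact le_of_sq_le_sq h3 (by positivity)

end NrAAux

/-- Cauchy-Schwarz, the value at the origin being kept apart. -/
lemma nr_le_of_sq {f : ℂ → ℂ} (hf : DifferentiableOn ℂ f (ball 0 1)) {S : ℝ}
    (hS : ∀ N : ℕ, ∑ n ∈ Finset.range N, ‖tc f (n + 1)‖ ^ 2 ≤ S) {r : ℝ} (h0 : 0 ≤ r)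
    (h1 : r < 1) : nr f r ≤ ‖f 0‖ + √S * (r / √(1 - r ^ 2)) := by
  rw [nr_succ hf h0 h1]
  have h2 := NrAAux.cs (a := fun n => ‖tc f (n + 1)‖) (fun n => norm_nonneg _) hS h0 h1
  have h3 : ∑' n : ℕ, ‖tc f (n + 1)‖ * r ^ (n + 1) =
      r * ∑' n : ℕ, ‖tc f (n + 1)‖ * r ^ n := by
    rw [← tsum_mul_left]
    exact tsum_congr fun n => by rw [pow_succ]; ring
  rw [h3]
  have h4 := mul_le_mul_of_nonneg_left h2 h0
  have h5 : r * (√S / √(1 - r ^ 2)) = √S * (r / √(1 - r ^ 2)) := by ring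
  linarith

/-- Cauchy-Schwarz, all coefficients. -/
lemma nr_le_of_sq' {f : ℂ → ℂ} (hf : DifferentiableOn ℂ f (ball 0 1)) {S : ℝ}
    (hS : ∀ N : ℕ, ∑ n ∈ Finset.range N, ‖tc f n‖ ^ 2 ≤ S) {r : ℝ} (h0 : 0 ≤ r)
    (h1 : r < 1) : nr f r ≤ √S / √(1 - r ^ 2) := by
  have _ := hf
  exact NrAAux.cs (a := fun n => ‖tc f n‖) (fun _ => norm_nonneg _) hS h0 h1

/-- A bound for all coefficients but the first. -/
lemma nr_le_of_bound {f : ℂ → ℂ} (hf : DifferentiableOn ℂ f (ball 0 1)) {C : ℝ}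
    (hC : ∀ n : ℕ, ‖tc f (n + 1)‖ ≤ C) {r : ℝ} (h0 : 0 ≤ r)
    (h1 : r < 1) : nr f r ≤ ‖f 0‖ + C * (r / (1 - r)) := by
  rw [nr_succ hf h0 h1]
  have hs : Summable fun n : ℕ => ‖tc f (n + 1)‖ * r ^ (n + 1) :=
    (summable_nat_add_iff (f := fun n : ℕ => ‖tc f n‖ * r ^ n) 1).mpr (summable_nr hf h0 h1)
  have hg := (hasSum_geometric_of_lt_one h0 h1).mul_left (C * r)
  have h2 : ∑' n : ℕ, ‖tc f (n + 1)‖ * r ^ (n + 1) ≤ C * r * (1 - r)⁻¹ := by
    rw [← hg.tsum_eq]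
    refine hs.tsum_le_tsum (fun n => ?_) hg.summable
    have := mul_le_mul_of_nonneg_right (hC n) (by positivity : 0 ≤ r ^ (n + 1))
    calc ‖tc f (n + 1)‖ * r ^ (n + 1) ≤ C * r ^ (n + 1) := this
      _ = C * r * r ^ n := by rw [pow_succ]; ring
  have h3 : C * r * (1 - r)⁻¹ = C * (r / (1 - r)) := by rw [div_eq_mul_inv]; ring
  linarith

end Pool.Agent.P187w
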