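import Pool.Agent.Lib.P187w.EvA
import Pool.Agent.Lib.P187w.NrA

/-!
# From the energy inequality to the weighted sum

Put `l n = tc L n * ρ^n`, `q = r / ρ < 1`, `B n = b n / (1 - η)`. Given
`(1 - η) ∑ |l n|^2 - 2 Re ∑ conj (l n) b n + h ≤ 0`. With `b = b0 :: bs` and `l 0 = a` known:
`(1 - η) ∑_{n ≥ 1} |l n|^2 - 2 Re ∑_{n ≥ 1} conj (l n) b n ≤ - h - (1 - η) a^2 + 2 a Re b0`, hence
`∑_{n ≥ 1} |l n - B n|^2 ≤ E` with
`E = ∑_{n ≥ 1} |B n|^2 + (2 Re (conj (l 0) b0) - (1-η) |l 0|^2 - h) / (1 - η)`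
(`b n = 0` beyond the list), and
`∑_{n ≥ 1} q^n |l n| ≤ ∑_{n ≥ 1} q^n |B n| + √E q / √(1 - q^2)`. `norm_two` is the same with the
first two coefficients kept apart.
`sq v = ∑ |v_n|^2` and `wt q v = ∑ q^n |v_n|` over a list.
-/

set_option autoImplicit false

open Complex Metric Set
open scoped Real ComplexConjugate
open Pool.Agent.P187f6b

namespace Pool.Agent.P187w

/-- Sum of squares of a list. -/
noncomputable def sqL : List ℂ → ℝ
  | [] => 0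
  | b :: bs => ‖b‖ ^ 2 + sqL bs

/-- Weighted sum of a list. -/
noncomputable def wtL (q : ℝ) : List ℂ → ℝ
  | [] => 0
  | b :: bs => ‖b‖ + q * wtL q bs

namespace EvSAux

/-- coefficients of a list, zero beyond its end -/
def co : List ℂ → ℕ → ℂ
  | [], _ => 0
  | b :: _, 0 => b
  | _ :: bs, n + 1 => co bs n

lemma norm_sub_div (u b : ℂ) {c : ℝ} (hc : 0 < c) :
    ‖u - b / c‖ ^ 2 = ‖u‖ ^ 2 - 2 / c * (conj u * b).re + ‖b‖ ^ 2 / c ^ 2 := by
  rw [← Complex.normSq_eq_norm_sq, ← Complex.normSq_eq_norm_sq, ← Complex.normSq_eq_norm_sq]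
  have h1 : b / (c : ℂ) = ⟨b.re / c, b.im / c⟩ := by
    apply Complex.ext
    · simp
    · simp
  rw [h1]
  simp only [Complex.normSq_apply, Complex.sub_re, Complex.sub_im, Complex.mul_re,
    Complex.conj_re, Complex.conj_im]
  field_simp
  ring

lemma sq_expand (bs : List ℂ) : ∀ (u : ℕ → ℂ) (c : ℝ), 0 < c → Summable (fun n => ‖u n‖ ^ 2) →
    Summable (fun n => ‖u n - co bs n / c‖ ^ 2) ∧
    ∑' n, ‖u n - co bs n / c‖ ^ 2 =
      ∑' n, ‖u n‖ ^ 2 - 2 / c * (pair u bs).re + sqL bs / c ^ 2 := by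
  induction bs with
  | nil =>
    intro u c hc hu
    simp only [co, zero_div, sub_zero, pair, Complex.zero_re, mul_zero, sqL, add_zero]
    exact ⟨hu, trivial⟩
  | cons b bs ih =>
    intro u c hc hu
    have hu' : Summable (fun n => ‖u (n + 1)‖ ^ 2) :=
      (summable_nat_add_iff (f := fun n => ‖u n‖ ^ 2) 1).2 hu
    obtain ⟨h1, h2⟩ := ih (fun n => u (n + 1)) c hc hu'
    have h3 : Summable (fun n => ‖u n - co (b :: bs) n / c‖ ^ 2) := by
      rw [← summable_nat_add_iff 1]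
      exact h1
    refine ⟨h3, ?_⟩
    rw [h3.tsum_eq_zero_add, hu.tsum_eq_zero_add]
    have h4 : ∑' n, ‖u (n + 1) - co (b :: bs) (n + 1) / c‖ ^ 2 =
        ∑' n, ‖u (n + 1) - co bs n / c‖ ^ 2 := rfl
    rw [h4, h2]
    have h5 : co (b :: bs) 0 = b := rfl
    rw [h5, norm_sub_div _ _ hc]
    simp only [pair, sqL, Complex.add_re]
    field_simp
    ring

lemma wtL_nonneg {q : ℝ} (hq : 0 ≤ q) (bs : List ℂ) : 0 ≤ wtL q bs := by
  induction bs with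
  | nil => exact le_refl _
  | cons b bs ih =>
    simp only [wtL]
    positivity

lemma wt_bound {q : ℝ} (hq : 0 ≤ q) (bs : List ℂ) : ∀ N : ℕ,
    ∑ n ∈ Finset.range N, ‖co bs n‖ * q ^ n ≤ wtL q bs := by
  induction bs with
  | nil =>
    intro N
    simp [co, wtL]
  | cons b bs ih =>
    intro N
    cases N with
    | zero =>
      simp only [Finset.range_zero, Finset.sum_empty]
      exact wtL_nonneg hq _
    | succ N =>
      rw [Finset.sum_range_succ']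
      simp only [co, pow_zero, mul_one, wtL]
      have h1 : ∑ n ∈ Finset.range N, ‖co bs n‖ * q ^ (n + 1) =
          q * ∑ n ∈ Finset.range N, ‖co bs n‖ * q ^ n := by
        rw [Finset.mul_sum]
        refine Finset.sum_congr rfl fun n _ => ?_
        rw [pow_succ]
        ring
      rw [h1]
      have := mul_le_mul_of_nonneg_left (ih N) hq
      linarith

lemma geo_bound {q : ℝ} (hq : 0 ≤ q) (hq1 : q < 1) (N : ℕ) :
    ∑ n ∈ Finset.range N, (q ^ n) ^ 2 ≤ (1 - q ^ 2)⁻¹ := by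
  have h1 : q ^ 2 < 1 := by nlinarith
  have h2 := (hasSum_geometric_of_lt_one (sq_nonneg q) h1)
  rw [← h2.tsum_eq]
  have h3 : ∀ n, (q ^ n) ^ 2 = (q ^ 2) ^ n := fun n => by rw [← pow_mul, ← pow_mul, mul_comm]
  simp_rw [h3]
  exact h2.summable.sum_le_tsum _ (fun n _ => by positivity)

/-- the weighted sum of a sequence close to a list -/
lemma weighted {u : ℕ → ℂ} {bs : List ℂ} {c : ℝ} (hc : 0 < c)
    (hu : Summable (fun n => ‖u n‖ ^ 2)) {E q : ℝ}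
    (hE : ∑' n, ‖u n - co bs n / c‖ ^ 2 ≤ E) (hq : 0 ≤ q) (hq1 : q < 1) (N : ℕ) :
    ∑ n ∈ Finset.range N, ‖u n‖ * q ^ n ≤ wtL q bs / c + √E * √((1 - q ^ 2)⁻¹) := by
  obtain ⟨h1, -⟩ := sq_expand bs u c hc hu
  have hE0 : 0 ≤ E := le_trans (tsum_nonneg (fun n => by positivity)) hE
  have h2 : ∑ n ∈ Finset.range N, ‖u n - co bs n / c‖ ^ 2 ≤ E :=
    (h1.sum_le_tsum _ (fun n _ => by positivity)).trans hE
  have h3 : ∑ n ∈ Finset.range N, ‖u n - co bs n / c‖ * q ^ n ≤ √E * √((1 - q ^ 2)⁻¹) := by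
    rw [← Real.sqrt_mul hE0]
    apply Real.le_sqrt_of_sq_le
    refine (Finset.sum_mul_sq_le_sq_mul_sq _ _ _).trans ?_
    exact mul_le_mul h2 (geo_bound hq hq1 N) (Finset.sum_nonneg fun n _ => by positivity) hE0
  have h4 : ∑ n ∈ Finset.range N, ‖co bs n / c‖ * q ^ n ≤ wtL q bs / c := by
    have h5 : ∀ n, ‖co bs n / c‖ * q ^ n = (‖co bs n‖ * q ^ n) / c := by
      intro n
      rw [norm_div, Complex.norm_real, Real.norm_eq_abs, abs_of_pos hc]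
      ring
    simp_rw [h5]
    rw [← Finset.sum_div]
    exact div_le_div_of_nonneg_right (wt_bound hq bs N) hc.le
  calc ∑ n ∈ Finset.range N, ‖u n‖ * q ^ n
      ≤ ∑ n ∈ Finset.range N, (‖co bs n / c‖ * q ^ n + ‖u n - co bs n / c‖ * q ^ n) := by
        refine Finset.sum_le_sum fun n _ => ?_
        rw [← add_mul]
        refine mul_le_mul_of_nonneg_right ?_ (by positivity)
        have := norm_add_le (co bs n / c : ℂ) (u n - co bs n / c)
        rwa [add_sub_cancel] at this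
    _ ≤ _ := by
        rw [Finset.sum_add_distrib]
        exact add_le_add h4 h3

lemma summable_sq {f : ℕ → ℝ} (h0 : ∀ n, 0 ≤ f n) (hf : Summable f) :
    Summable (fun n => f n ^ 2) := by
  refine Summable.of_nonneg_of_le (fun n => sq_nonneg _) (fun n => ?_)
    (hf.mul_left (∑' n, f n))
  rw [sq]
  exact mul_le_mul_of_nonneg_right (hf.le_tsum n (fun m _ => h0 m)) (h0 n)

end EvSAux

open EvSAux

theorem norm_one {L : ℂ → ℂ} (hL : DifferentiableOn ℂ L (ball 0 1)) {ρ r η h : ℝ}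
    (h0 : 0 < r) (h1 : r < ρ) (h2 : ρ < 1) (hη : η < 1) {b0 : ℂ} {bs : List ℂ}
    (hen : (1 - η) * ∑' n : ℕ, ‖tc L n * ρ ^ n‖ ^ 2 -
      2 * (pair (fun n => tc L n * ρ ^ n) (b0 :: bs)).re + h ≤ 0) {E W : ℝ}
    (hE : sqL bs / (1 - η) ^ 2 + (2 * (conj (L 0) * b0).re - (1 - η) * ‖L 0‖ ^ 2 - h) / (1 - η)
      ≤ E) (hW0 : 0 ≤ W) (hW : (r / ρ) ^ 2 ≤ W ^ 2 * (1 - (r / ρ) ^ 2)) :
    nr L r ≤ ‖L 0‖ + (r / ρ) * (wtL (r / ρ) bs / (1 - η)) + √E * W := by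
  have hρ0 : 0 < ρ := h0.trans h1
  set q : ℝ := r / ρ with hqdef
  have hq0 : 0 < q := div_pos h0 hρ0
  have hq1 : q < 1 := (div_lt_one hρ0).2 h1
  have hqr : ρ * q = r := by rw [hqdef]; field_simp
  set c : ℝ := 1 - η with hcdef
  have hc : 0 < c := by rw [hcdef]; linarith
  set l : ℕ → ℂ := fun n => tc L n * ρ ^ n with hl
  have hl0 : l 0 = L 0 := by simp [hl, tc_zero]
  have hnl : ∀ n, ‖l n‖ = ‖tc L n‖ * ρ ^ n := by
    intro n
    simp only [hl, norm_mul, norm_pow, Complex.norm_real, Real.norm_eq_abs, abs_of_pos hρ0]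
  have hs1 : Summable (fun n => ‖l n‖) := by
    simp_rw [hnl]
    exact tc_summable hL hρ0.le h2
  have hs2 : Summable (fun n => ‖l n‖ ^ 2) := summable_sq (fun n => norm_nonneg _) hs1
  have hs3 : Summable (fun n => ‖l (n + 1)‖ ^ 2) :=
    (summable_nat_add_iff (f := fun n => ‖l n‖ ^ 2) 1).2 hs2
  obtain ⟨-, h3⟩ := sq_expand bs (fun n => l (n + 1)) c hc hs3
  have h4 : ∑' n, ‖l (n + 1) - co bs n / c‖ ^ 2 ≤ E := by
    refine le_trans ?_ hE
    rw [h3]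
    rw [hs2.tsum_eq_zero_add] at hen
    simp only [pair, Complex.add_re] at hen
    rw [hl0] at hen
    have h5 : ∑' n, ‖l (n + 1)‖ ^ 2 - 2 / c * (pair (fun n => l (n + 1)) bs).re =
        (c * ∑' n, ‖l (n + 1)‖ ^ 2 - 2 * (pair (fun n => l (n + 1)) bs).re) / c := by
      field_simp
    rw [h5]
    have h6 : (c * ∑' n, ‖l (n + 1)‖ ^ 2 - 2 * (pair (fun n => l (n + 1)) bs).re) / c ≤
        (2 * (conj (L 0) * b0).re - c * ‖L 0‖ ^ 2 - h) / c := by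
      apply div_le_div_of_nonneg_right _ hc.le
      linarith
    linarith
  have hEn : 0 ≤ E := le_trans (tsum_nonneg (fun n => by positivity)) h4
  have hsr : Summable (fun n => ‖tc L n‖ * r ^ n) := tc_summable hL h0.le (h1.trans h2)
  have hterm : ∀ n, ‖tc L n‖ * r ^ n = ‖l n‖ * q ^ n := by
    intro n
    rw [hnl, ← hqr, mul_pow]
    ring
  have hkey : q * √((1 - q ^ 2)⁻¹) ≤ W := by
    have hq2 : 0 < 1 - q ^ 2 := by nlinarith
    rw [Real.sqrt_inv, ← div_eq_mul_inv, div_le_iff₀ (Real.sqrt_pos.2 hq2)]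
    have : q ≤ √(W ^ 2 * (1 - q ^ 2)) := Real.le_sqrt_of_sq_le hW
    rwa [Real.sqrt_mul (sq_nonneg W), Real.sqrt_sq hW0] at this
  unfold nr
  rw [hsr.tsum_eq_zero_add, tc_zero, pow_zero, mul_one, add_assoc]
  refine add_le_add le_rfl ?_
  apply Real.tsum_le_of_sum_range_le (fun n => by positivity)
  intro N
  have h7 := weighted hc hs3 h4 hq0.le hq1 N
  have h8 : ∑ n ∈ Finset.range N, ‖tc L (n + 1)‖ * r ^ (n + 1) =
      q * ∑ n ∈ Finset.range N, ‖l (n + 1)‖ * q ^ n := by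
    rw [Finset.mul_sum]
    refine Finset.sum_congr rfl fun n _ => ?_
    rw [hterm, pow_succ]
    ring
  rw [h8]
  calc q * ∑ n ∈ Finset.range N, ‖l (n + 1)‖ * q ^ n
      ≤ q * (wtL q bs / c + √E * √((1 - q ^ 2)⁻¹)) := mul_le_mul_of_nonneg_left h7 hq0.le
    _ = q * (wtL q bs / c) + √E * (q * √((1 - q ^ 2)⁻¹)) := by ring
    _ ≤ q * (wtL q bs / c) + √E * W := by
        have := mul_le_mul_of_nonneg_left hkey (Real.sqrt_nonneg E)
        linarith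

theorem norm_two {L : ℂ → ℂ} (hL : DifferentiableOn ℂ L (ball 0 1)) {ρ r η h : ℝ}
    (h0 : 0 < r) (h1 : r < ρ) (h2 : ρ < 1) (hη : η < 1) {b0 b1 l1 : ℂ} {bs : List ℂ}
    (hl1 : tc L 1 * ρ = l1)
    (hen : (1 - η) * ∑' n : ℕ, ‖tc L n * ρ ^ n‖ ^ 2 -
      2 * (pair (fun n => tc L n * ρ ^ n) (b0 :: b1 :: bs)).re + h ≤ 0) {E W : ℝ}
    (hE : sqL bs / (1 - η) ^ 2 + (2 * (conj (L 0) * b0).re + 2 * (conj l1 * b1).re -
      (1 - η) * (‖L 0‖ ^ 2 + ‖l1‖ ^ 2) - h) / (1 - η) ≤ E) (hW0 : 0 ≤ W)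
    (hW : (r / ρ) ^ 4 ≤ W ^ 2 * (1 - (r / ρ) ^ 2)) :
    nr L r ≤ ‖L 0‖ + (r / ρ) * ‖l1‖ + (r / ρ) ^ 2 * (wtL (r / ρ) bs / (1 - η)) + √E * W := by
  have hρ0 : 0 < ρ := h0.trans h1
  set q : ℝ := r / ρ with hqdef
  have hq0 : 0 < q := div_pos h0 hρ0
  have hq1 : q < 1 := (div_lt_one hρ0).2 h1
  have hqr : ρ * q = r := by rw [hqdef]; field_simp
  set c : ℝ := 1 - η with hcdef
  have hc : 0 < c := by rw [hcdef]; linarith
  set l : ℕ → ℂ := fun n => tc L n * ρ ^ n with hl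
  have hl0 : l 0 = L 0 := by simp [hl, tc_zero]
  have hl1' : l 1 = l1 := by simp only [hl, pow_one]; exact hl1
  have hnl : ∀ n, ‖l n‖ = ‖tc L n‖ * ρ ^ n := by
    intro n
    simp only [hl, norm_mul, norm_pow, Complex.norm_real, Real.norm_eq_abs, abs_of_pos hρ0]
  have hs1 : Summable (fun n => ‖l n‖) := by
    simp_rw [hnl]
    exact tc_summable hL hρ0.le h2
  have hs2 : Summable (fun n => ‖l n‖ ^ 2) := summable_sq (fun n => norm_nonneg _) hs1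
  have hs3 : Summable (fun n => ‖l (n + 1)‖ ^ 2) :=
    (summable_nat_add_iff (f := fun n => ‖l n‖ ^ 2) 1).2 hs2
  have hs4 : Summable (fun n => ‖l (n + 2)‖ ^ 2) :=
    (summable_nat_add_iff (f := fun n => ‖l n‖ ^ 2) 2).2 hs2
  obtain ⟨-, h3⟩ := sq_expand bs (fun n => l (n + 2)) c hc hs4
  have hsp : ∑' n, ‖l n‖ ^ 2 = ‖l 0‖ ^ 2 + (‖l 1‖ ^ 2 + ∑' n, ‖l (n + 2)‖ ^ 2) := by
    rw [hs2.tsum_eq_zero_add, hs3.tsum_eq_zero_add]
  have h4 : ∑' n, ‖l (n + 2) - co bs n / c‖ ^ 2 ≤ E := by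
    refine le_trans ?_ hE
    rw [h3]
    rw [hsp] at hen
    simp only [pair, Complex.add_re] at hen
    have e1 : (fun n => l (n + 1 + 1)) = fun n => l (n + 2) := rfl
    rw [e1, zero_add, hl0, hl1'] at hen
    have h5 : ∑' n, ‖l (n + 2)‖ ^ 2 - 2 / c * (pair (fun n => l (n + 2)) bs).re =
        (c * ∑' n, ‖l (n + 2)‖ ^ 2 - 2 * (pair (fun n => l (n + 2)) bs).re) / c := by
      field_simp
    rw [h5]
    have h6 : (c * ∑' n, ‖l (n + 2)‖ ^ 2 - 2 * (pair (fun n => l (n + 2)) bs).re) / c ≤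
        (2 * (conj (L 0) * b0).re + 2 * (conj l1 * b1).re - c * (‖L 0‖ ^ 2 + ‖l1‖ ^ 2) - h) / c := by
      apply div_le_div_of_nonneg_right _ hc.le
      linarith
    linarith
  have hEn : 0 ≤ E := le_trans (tsum_nonneg (fun n => by positivity)) h4
  have hsr : Summable (fun n => ‖tc L n‖ * r ^ n) := tc_summable hL h0.le (h1.trans h2)
  have hsr1 : Summable (fun n => ‖tc L (n + 1)‖ * r ^ (n + 1)) :=
    (summable_nat_add_iff (f := fun n => ‖tc L n‖ * r ^ n) 1).2 hsr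
  have hterm : ∀ n, ‖tc L n‖ * r ^ n = ‖l n‖ * q ^ n := by
    intro n
    rw [hnl, ← hqr, mul_pow]
    ring
  have hkey : q ^ 2 * √((1 - q ^ 2)⁻¹) ≤ W := by
    have hq2 : 0 < 1 - q ^ 2 := by nlinarith
    rw [Real.sqrt_inv, ← div_eq_mul_inv, div_le_iff₀ (Real.sqrt_pos.2 hq2)]
    have : q ^ 2 ≤ √(W ^ 2 * (1 - q ^ 2)) :=
      Real.le_sqrt_of_sq_le (by rw [← pow_mul]; exact hW)
    rwa [Real.sqrt_mul (sq_nonneg W), Real.sqrt_sq hW0] at this
  unfold nr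
  have hsplit : ∑' n, ‖tc L n‖ * r ^ n =
      ‖L 0‖ + (q * ‖l1‖ + ∑' n, ‖tc L (n + 2)‖ * r ^ (n + 2)) := by
    rw [hsr.tsum_eq_zero_add, hsr1.tsum_eq_zero_add, tc_zero, pow_zero, mul_one]
    have : ‖tc L (0 + 1)‖ * r ^ (0 + 1) = q * ‖l1‖ := by
      rw [hterm, zero_add, hl1', pow_one, mul_comm]
    rw [this]
  rw [hsplit, add_assoc (‖L 0‖ + q * ‖l1‖), add_assoc ‖L 0‖]
  refine add_le_add le_rfl (add_le_add le_rfl ?_)
  apply Real.tsum_le_of_sum_range_le (fun n => by positivity)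
  intro N
  have h7 := weighted hc hs4 h4 hq0.le hq1 N
  have h8 : ∑ n ∈ Finset.range N, ‖tc L (n + 2)‖ * r ^ (n + 2) =
      q ^ 2 * ∑ n ∈ Finset.range N, ‖l (n + 2)‖ * q ^ n := by
    rw [Finset.mul_sum]
    refine Finset.sum_congr rfl fun n _ => ?_
    rw [hterm, pow_add]
    ring
  rw [h8]
  calc q ^ 2 * ∑ n ∈ Finset.range N, ‖l (n + 2)‖ * q ^ n
      ≤ q ^ 2 * (wtL q bs / c + √E * √((1 - q ^ 2)⁻¹)) :=
        mul_le_mul_of_nonneg_left h7 (by positivity)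
    _ = q ^ 2 * (wtL q bs / c) + √E * (q ^ 2 * √((1 - q ^ 2)⁻¹)) := by ring
    _ ≤ q ^ 2 * (wtL q bs / c) + √E * W := by
        have := mul_le_mul_of_nonneg_left hkey (Real.sqrt_nonneg E)
        linarith

end Pool.Agent.P187w
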