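import Pool.Agent.Lib.P187w.Norm
import Pool.Agent.Lib.P187o.Upper

/-!
# The best constant as a minimum over the family

Same argument as in `P187s.Exist` and `Results/MP_187f6b_an/Structure.lean`, for general `l`.
* `maj l f` is continuous and nondecreasing in `r` (`P187o.maj_mono`; for `f` in the class
  `|tc f n| ≤ 1`, so `|maj l f r - maj l f s| ≤ |r - s| / (1 - R)^2` for `r, s ≤ R < 1`). Hence
  `maj l f (BB l) ≤ 1` for all `f` in the class (here `0 < BB l`; e.g. `r = (1-l)/2` is admissible).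
* For `R > r > BB l` there is `f` in the class with `1 < maj l f r`, so by the hypothesis some
  `(a, η)` with `alo ≤ a ≤ ahi`, `|η| = 1`, `1 < maj l (GG l a η) r`. Take `r → BB l`, use
  compactness of `[alo, ahi] × circle`, and joint continuity of `maj l (GG l a η) r` in `(a, η, r)`:
  `GG l a η` is Lipschitz in `(a, η)` uniformly on `|z| ≤ ρ` for any `ρ < 1` (compare
  `P187s.GG_lip`, `P187s.maj_lip_a`, there for small `l`; here `1 - ahi > 0` gives the lower bounds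
  for denominators), Cauchy estimate `P187s.tc_bound` at a radius `ρ` between `R` and `1`. So there
  are `A, H` with `maj l (GG l A H) (BB l) ≥ 1`, hence `= 1`.
* Minimality: if `maj l (GG l a η) r = 1` with `r < BB l` then `maj` is strictly increasing past `r`
  (some coefficient is nonzero), contradiction with `maj l (GG l a η) (BB l) ≤ 1`.
* Extremal functions: if `maj l f (BB l) = 1`, the hypothesis at `r = BB l` gives `(a, η, ω)`; the
  strict inequality is impossible since `maj l (GG l a η) (BB l) ≤ 1`.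
-/

set_option autoImplicit false

open Complex Metric Set
open scoped ComplexConjugate
open Pool.Agent.P187f6b Pool.Agent.P187s

namespace Pool.Agent.P187w

namespace FinAux

open Pool.Agent.P187o Filter Topology

/-- the weighted sum at a point as a series -/
theorem maj_def (l : ℝ) (g : ℂ → ℂ) (r : ℝ) :
    maj l g r = l + ∑' n : ℕ, ‖tc g (n + 1)‖ * r ^ (n + 1) := rfl

theorem summ {l : ℝ} {f : ℂ → ℂ} (hf : f ∈ FClass l) {r : ℝ} (hr : 0 ≤ r) (hr1 : r < 1) :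
    Summable fun n : ℕ => ‖tc f (n + 1)‖ * r ^ (n + 1) :=
  (summable_nat_add_iff (f := fun n : ℕ => ‖tc f n‖ * r ^ n) 1).2 (tc_summable hf.1 hr hr1)

theorem tc_le_one {l : ℝ} {f : ℂ → ℂ} (hf : f ∈ FClass l) (n : ℕ) : ‖tc f n‖ ≤ 1 := by
  have hB := ball_of_mem hf
  have h1 : ‖tc f n‖ ^ 2 ≤ 1 := (hB.summ.le_tsum n (fun _ _ => sq_nonneg _)).trans hB.norm_le
  have := norm_nonneg (tc f n)
  nlinarith

theorem GG_lip {l b a a' : ℝ} {η η' z : ℂ} (hl : 0 ≤ l) (hl1 : l < 1) (hb : b < 1)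
    (hη : ‖η‖ = 1) (hη' : ‖η'‖ = 1) (h0 : 0 ≤ a) (h1 : a ≤ b) (h0' : 0 ≤ a') (h1' : a' ≤ b)
    (hz : ‖z‖ < 1) :
    ‖GG l a η z - GG l a' η' z‖ ≤
      (‖η - η'‖ + 2 / (1 - b) ^ 2 * |a - a'|) / (1 - l) ^ 2 := by
  have ha1 : a < 1 := by linarith
  have ha1' : a' < 1 := by linarith
  have hw := norm_psi hη h0 ha1 hz
  have hw' := norm_psi hη' h0' ha1' hz
  have hd := den2_lower hl hw
  have hd' := den2_lower hl hw'
  have hQ := norm_QA_lt h0 ha1 hz
  have hb' : 0 < 1 - b := by linarith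
  have hl' : 0 < 1 - l := by linarith
  have h2 : ‖QA a z - QA a' z‖ ≤ 2 / (1 - b) ^ 2 * |a - a'| := by
    have hn1 := den_lower h0 hz
    have hn2 := den_lower h0' hz
    have hz1 := den_ne' h0 ha1 hz
    have hz2 := den_ne' h0' ha1' hz
    have e : QA a z - QA a' z = z * ((a - a' : ℝ) : ℂ) * (1 - z ^ 2) /
        ((1 - a * z) * (1 - a' * z)) := by
      unfold QA
      rw [eq_div_iff (mul_ne_zero hz1 hz2), sub_mul]
      have e1 : z * (a - z) / (1 - a * z) * ((1 - a * z) * (1 - a' * z)) =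
          z * (a - z) * (1 - a' * z) := by
        rw [div_mul_eq_mul_div, div_eq_iff hz1]; ring
      have e2 : z * (a' - z) / (1 - a' * z) * ((1 - a * z) * (1 - a' * z)) =
          z * (a' - z) * (1 - a * z) := by
        rw [div_mul_eq_mul_div, div_eq_iff hz2]; ring
      rw [e1, e2]
      push_cast
      ring
    rw [e, norm_div, norm_mul, norm_mul, norm_mul, Complex.norm_real, Real.norm_eq_abs,
      div_le_iff₀ (by
        have := norm_pos_iff.2 hz1
        have := norm_pos_iff.2 hz2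
        positivity)]
    have h3 : ‖1 - z ^ 2‖ ≤ 2 := by
      have := norm_sub_le (1 : ℂ) (z ^ 2)
      rw [norm_one, norm_pow] at this
      have h3 : ‖z‖ ^ 2 ≤ 1 := pow_le_one₀ (norm_nonneg _) hz.le
      linarith
    have h4 : ‖z‖ * |a - a'| * ‖1 - z ^ 2‖ ≤ 1 * |a - a'| * 2 := by
      have := abs_nonneg (a - a')
      gcongr
    have h5 : (1 - b) * (1 - b) ≤ ‖1 - (a : ℂ) * z‖ * ‖1 - (a' : ℂ) * z‖ := by
      refine mul_le_mul ?_ ?_ hb'.le (norm_nonneg _)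
      · linarith
      · linarith
    have h6 : 2 / (1 - b) ^ 2 * |a - a'| * ((1 - b) * (1 - b)) ≤
        2 / (1 - b) ^ 2 * |a - a'| * (‖1 - (a : ℂ) * z‖ * ‖1 - (a' : ℂ) * z‖) :=
      mul_le_mul_of_nonneg_left h5 (by positivity)
    have h7 : 2 / (1 - b) ^ 2 * |a - a'| * ((1 - b) * (1 - b)) = 2 * |a - a'| := by
      field_simp
    linarith
  have h3 : ‖η * QA a z - η' * QA a' z‖ ≤ ‖η - η'‖ + 2 / (1 - b) ^ 2 * |a - a'| := by
    have e : η * QA a z - η' * QA a' z = (η - η') * QA a z + η' * (QA a z - QA a' z) := by ring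
    rw [e]
    refine (norm_add_le _ _).trans ?_
    rw [norm_mul, norm_mul, hη', one_mul]
    have : ‖η - η'‖ * ‖QA a z‖ ≤ ‖η - η'‖ * 1 :=
      mul_le_mul_of_nonneg_left hQ.le (norm_nonneg _)
    linarith
  rw [GG_eq, GG_eq]
  set w := η * QA a z
  set w' := η' * QA a' z
  have hne : 1 + (l : ℂ) * w ≠ 0 := norm_pos_iff.1 (by linarith)
  have hne' : 1 + (l : ℂ) * w' ≠ 0 := norm_pos_iff.1 (by linarith)
  have e : (l + w) / (1 + l * w) - (l + w') / (1 + l * w') =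
      (1 - l ^ 2) * (w - w') / ((1 + l * w) * (1 + l * w')) := by
    field_simp
    ring
  have e1 : ‖(1 : ℂ) - (l : ℂ) ^ 2‖ ≤ 1 := by
    have : (1 : ℂ) - (l : ℂ) ^ 2 = ((1 - l ^ 2 : ℝ) : ℂ) := by push_cast; ring
    rw [this, Complex.norm_real, Real.norm_eq_abs, abs_le]
    constructor <;> nlinarith
  rw [e, norm_div, norm_mul, norm_mul]
  have h5 : (1 - l) ^ 2 ≤ ‖1 + (l : ℂ) * w‖ * ‖1 + (l : ℂ) * w'‖ := by
    rw [sq]
    exact mul_le_mul hd hd' hl'.le (norm_nonneg _)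
  have h6 : ‖(1 : ℂ) - (l : ℂ) ^ 2‖ * ‖w - w'‖ ≤ 1 * (‖η - η'‖ + 2 / (1 - b) ^ 2 * |a - a'|) :=
    mul_le_mul e1 h3 (norm_nonneg _) zero_le_one
  rw [one_mul] at h6
  exact div_le_div₀ (by positivity) h6 (by positivity) h5

/-- Lipschitz bound in the parameters. -/
theorem maj_lip_a {l b a a' r R : ℝ} {η η' : ℂ} (hl : 0 ≤ l) (hl1 : l < 1) (hb : b < 1)
    (hη : ‖η‖ = 1) (hη' : ‖η'‖ = 1) (h0 : 0 ≤ a) (h1 : a ≤ b) (h0' : 0 ≤ a') (h1' : a' ≤ b)
    (hr : 0 ≤ r) (hrR : r ≤ R) (hR0 : 0 < R) (hR1 : R < 1) :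
    maj l (GG l a η) r ≤ maj l (GG l a' η') r +
      (‖η - η'‖ + 2 / (1 - b) ^ 2 * |a - a'|) / (1 - l) ^ 2 * (2 * R / (1 - R)) := by
  have ha1 : a < 1 := by linarith
  have ha1' : a' < 1 := by linarith
  have hb' : 0 < 1 - b := by linarith
  have hl' : 0 < 1 - l := by linarith
  have hG := GG_mem hl hl1 hη h0 ha1
  have hG' := GG_mem hl hl1 hη' h0' ha1'
  set D := (‖η - η'‖ + 2 / (1 - b) ^ 2 * |a - a'|) / (1 - l) ^ 2 with hD
  have hD0 : 0 ≤ D := by positivity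
  set ρ : ℝ := (1 + R) / 2 with hρdef
  have hρ0 : 0 < ρ := by linarith
  have hρ1 : ρ < 1 := by linarith
  have hRρ : R < ρ := by linarith
  set t : ℝ := R / ρ with htdef
  have ht0 : 0 < t := div_pos hR0 hρ0
  have ht1 : t < 1 := (div_lt_one hρ0).2 hRρ
  have h2 := summ hG hr (by linarith)
  have h3 := summ hG' hr (by linarith)
  have hκ : HasSum (fun n : ℕ => D * t ^ (n + 1)) (D * (t * (1 - t)⁻¹)) := by
    refine HasSum.mul_left _ ?_
    refine ((hasSum_geometric_of_lt_one ht0.le ht1).mul_left t).congr_fun (fun n => ?_)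
    rw [pow_succ]; ring
  have hle := (h2.sub h3).tsum_le_tsum (fun n => ?_) hκ.summable
  · rw [h2.tsum_sub h3, hκ.tsum_eq] at hle
    rw [maj_def, maj_def]
    have h4 : t * (1 - t)⁻¹ = 2 * R / (1 - R) := by
      have h5 : 1 - R ≠ 0 := by linarith
      have h6 : 1 + R ≠ 0 := by linarith
      have h7 : (1 : ℝ) - R / ((1 + R) / 2) = (1 - R) / (1 + R) := by
        field_simp
        ring
      rw [htdef, hρdef, h7]
      field_simp
    rw [h4] at hle
    linarith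
  · have hd : DifferentiableOn ℂ (fun z => GG l a η z - GG l a' η' z) (ball 0 1) :=
      hG.1.sub hG'.1
    have e : tc (fun z => GG l a η z - GG l a' η' z) (n + 1) =
        tc (GG l a η) (n + 1) - tc (GG l a' η') (n + 1) := by
      refine tc_eq (c := fun n => tc (GG l a η) n - tc (GG l a' η') n) (fun z hz => ?_) (n + 1)
      have h4 := (tc_hasSum hG.1 hz).sub (tc_hasSum hG'.1 hz)
      have e1 : (fun n => tc (GG l a η) n * z ^ n - tc (GG l a' η') n * z ^ n) =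
          fun n => (tc (GG l a η) n - tc (GG l a' η') n) * z ^ n := funext fun n => by ring
      rw [e1] at h4
      exact h4
    have h4 := tc_bound hd hρ0.le hρ1 hD0 (fun z hz => GG_lip hl hl1 hb hη hη' h0 h1 h0' h1'
      (by rw [hz]; exact hρ1)) (n + 1)
    rw [e] at h4
    have h5 := norm_sub_norm_le (tc (GG l a η) (n + 1)) (tc (GG l a' η') (n + 1))
    have h6 : r ^ (n + 1) ≤ ρ ^ (n + 1) * t ^ (n + 1) := by
      rw [← mul_pow]
      refine pow_le_pow_left₀ hr ?_ _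
      rw [htdef, mul_div_cancel₀ _ hρ0.ne']
      exact hrR
    have h7 : (‖tc (GG l a η) (n + 1)‖ - ‖tc (GG l a' η') (n + 1)‖) * r ^ (n + 1) ≤
        ‖tc (GG l a η) (n + 1) - tc (GG l a' η') (n + 1)‖ * (ρ ^ (n + 1) * t ^ (n + 1)) :=
      mul_le_mul h5 h6 (pow_nonneg hr _) (norm_nonneg _)
    have h8 := mul_le_mul_of_nonneg_right h4 (pow_nonneg ht0.le (n + 1))
    linarith

theorem pow_diff {r s R : ℝ} (hr : 0 ≤ r) (hrs : r ≤ s) (hs : s ≤ R) (n : ℕ) :
    s ^ (n + 1) - r ^ (n + 1) ≤ (n + 1) * R ^ n * (s - r) := by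
  have hR : 0 ≤ R := hr.trans (hrs.trans hs)
  induction n with
  | zero => simp
  | succ n ih =>
    have h1 : s ^ (n + 1 + 1) - r ^ (n + 1 + 1) =
        s * (s ^ (n + 1) - r ^ (n + 1)) + (s - r) * r ^ (n + 1) := by ring
    rw [h1]
    have h2 : 0 ≤ s ^ (n + 1) - r ^ (n + 1) := by
      have := pow_le_pow_left₀ hr hrs (n + 1)
      linarith
    have h3 : s * (s ^ (n + 1) - r ^ (n + 1)) ≤ R * ((n + 1) * R ^ n * (s - r)) :=
      mul_le_mul hs ih h2 hR
    have h4 : (s - r) * r ^ (n + 1) ≤ (s - r) * R ^ (n + 1) :=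
      mul_le_mul_of_nonneg_left (pow_le_pow_left₀ hr (hrs.trans hs) _) (by linarith)
    push_cast
    have e : R * ((n + 1) * R ^ n * (s - r)) = (n + 1) * R ^ (n + 1) * (s - r) := by ring
    rw [e] at h3
    linarith

theorem maj_lip_r {l : ℝ} {f : ℂ → ℂ} (hf : f ∈ FClass l) {r s R : ℝ} (hr : 0 ≤ r)
    (hrs : r ≤ s) (hs : s ≤ R) (hR1 : R < 1) :
    maj l f s ≤ maj l f r + 1 / (1 - R) ^ 2 * (s - r) := by
  have hR : 0 ≤ R := hr.trans (hrs.trans hs)
  have h1 := summ hf (r := s) (by linarith) (by linarith)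
  have h2 := summ hf (r := r) hr (by linarith)
  have hg : HasSum (fun n : ℕ => ((n : ℝ) + 1) * R ^ n * (s - r))
      (1 / (1 - R) ^ 2 * (s - r)) := by
    refine HasSum.mul_right _ ?_
    have h := hasSum_choose_mul_geometric_of_norm_lt_one (𝕜 := ℝ) 1 (r := R)
      (by rw [Real.norm_eq_abs, abs_of_nonneg hR]; exact hR1)
    refine h.congr_fun (fun n => ?_)
    rw [choose_cast_one]
  have h3 := (h1.sub h2).tsum_le_tsum (fun n => ?_) hg.summable
  · rw [h1.tsum_sub h2, hg.tsum_eq] at h3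
    rw [maj_def, maj_def]
    linarith
  · have h5 := pow_diff hr hrs hs n
    have h6 := tc_le_one hf (n + 1)
    have h7 : 0 ≤ s ^ (n + 1) - r ^ (n + 1) := by
      have := pow_le_pow_left₀ hr hrs (n + 1)
      linarith
    have h8 : ‖tc f (n + 1)‖ * (s ^ (n + 1) - r ^ (n + 1)) ≤ s ^ (n + 1) - r ^ (n + 1) :=
      mul_le_of_le_one_left h7 h6
    linarith

theorem maj_zero (l : ℝ) (f : ℂ → ℂ) : maj l f 0 = l := by
  rw [maj_def]
  simp

theorem adm_zero {l : ℝ} (h1 : l < 1) :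
    (0 : ℝ) ∈ {r : ℝ | 0 ≤ r ∧ r < 1 ∧ ∀ f ∈ FClass l, maj l f r ≤ 1} :=
  ⟨le_rfl, one_pos, fun f _ => by rw [maj_zero]; exact h1.le⟩

theorem BB_pos {l : ℝ} (h0 : 0 < l) (h1 : l < 1) : 0 < BB l := by
  have hr0 : 0 < (1 - l) / 2 := by linarith
  have hr1 : (1 - l) / 2 < 1 := by linarith
  refine hr0.trans_le (le_csSup ⟨1, fun r hr => hr.2.1.le⟩ ⟨hr0.le, hr1, fun f hf => ?_⟩)
  have hs := summ hf hr0.le hr1
  have hg : HasSum (fun n : ℕ => ((1 - l) / 2) ^ (n + 1))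
      ((1 - l) / 2 * (1 - (1 - l) / 2)⁻¹) := by
    refine ((hasSum_geometric_of_lt_one hr0.le hr1).mul_left ((1 - l) / 2)).congr_fun
      (fun n => ?_)
    rw [pow_succ]; ring
  have h3 := hs.tsum_le_tsum (fun n => ?_) hg.summable
  · rw [hg.tsum_eq] at h3
    rw [maj_def]
    have h4 : (1 - l) / 2 * (1 - (1 - l) / 2)⁻¹ = (1 - l) / (1 + l) := by
      have h6 : 1 + l ≠ 0 := by linarith
      have h7 : (1 : ℝ) - (1 - l) / 2 = (1 + l) / 2 := by ring
      rw [h7]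
      field_simp
    have h5 : (1 - l) / (1 + l) ≤ 1 - l := div_le_self (by linarith) (by linarith)
    rw [h4] at h3
    linarith
  · exact mul_le_of_le_one_left (pow_nonneg hr0.le _) (tc_le_one hf (n + 1))

/-- At the best radius all majorants are at most one. -/
theorem maj_BB_le {l R : ℝ} (hl : 0 < l) (hl1 : l < 1) (hB : BB l < R) (hR1 : R < 1)
    {f : ℂ → ℂ} (hf : f ∈ FClass l) : maj l f (BB l) ≤ 1 := by
  have hB0 := BB_pos hl hl1
  have hR' : 0 < 1 - R := by linarith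
  set C : ℝ := 1 / (1 - R) ^ 2 with hC
  have hC0 : 0 < C := by positivity
  refine le_of_forall_pos_le_add (fun e he => ?_)
  set r : ℝ := max 0 (BB l - e / C) with hr
  have hr0 : 0 ≤ r := le_max_left _ _
  have hrB : r < BB l := max_lt hB0 (by have := div_pos he hC0; linarith)
  obtain ⟨r1, hr1, hr2⟩ := exists_lt_of_lt_csSup ⟨0, adm_zero hl1⟩ hrB
  have h1 := maj_mono hf hr0 hr2.le hr1.2.1
  have h2 := hr1.2.2 f hf
  have h3 := maj_lip_r hf hr0 hrB.le hB.le hR1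
  have h4 : BB l - e / C ≤ r := le_max_right _ _
  have h5 : C * (BB l - r) ≤ C * (e / C) := mul_le_mul_of_nonneg_left (by linarith) hC0.le
  rw [mul_div_cancel₀ _ hC0.ne'] at h5
  linarith

theorem exists_extremal {l R alo ahi : ℝ} (h0 : 0 < l) (h1 : l < 1) (hR1 : R < 1)
    (ha0 : 0 ≤ alo) (ha1 : ahi < 1) (hB : BB l < R)
    (hred : ∀ r : ℝ, 0 ≤ r → r ≤ R → ∀ f ∈ FClass l, 1 ≤ maj l f r →
      ∃ (a : ℝ) (η : ℂ), alo ≤ a ∧ a ≤ ahi ∧ ‖η‖ = 1 ∧ maj l f r ≤ maj l (GG l a η) r) :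
    ∃ (a : ℝ) (η : ℂ), alo ≤ a ∧ a ≤ ahi ∧ ‖η‖ = 1 ∧ maj l (GG l a η) (BB l) = 1 := by
  have hB0 := BB_pos h0 h1
  have hR0 : 0 < R := hB0.trans hB
  set c : ℝ := R - BB l with hc
  have hc0 : 0 < c := by linarith
  set r : ℕ → ℝ := fun j => BB l + c * (1 / ((j : ℝ) + 1)) with hr
  have hj : ∀ j : ℕ, 0 < 1 / ((j : ℝ) + 1) ∧ 1 / ((j : ℝ) + 1) ≤ 1 := by
    intro j
    have h0 : (0 : ℝ) ≤ j := Nat.cast_nonneg j
    refine ⟨by positivity, ?_⟩
    rw [div_le_one (by positivity)]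
    linarith
  have hrB : ∀ j, BB l < r j := fun j => by
    have := mul_pos hc0 (hj j).1
    simp only [hr]
    linarith
  have hrR : ∀ j, r j ≤ R := fun j => by
    have h1 : c * (1 / ((j : ℝ) + 1)) ≤ c * 1 := mul_le_mul_of_nonneg_left (hj j).2 hc0.le
    simp only [hr]
    linarith
  have hex : ∀ j, ∃ (a : ℝ) (η : ℂ), alo ≤ a ∧ a ≤ ahi ∧ ‖η‖ = 1 ∧
      1 ≤ maj l (GG l a η) (r j) := by
    intro j
    have h1 : ∃ f ∈ FClass l, 1 < maj l f (r j) := by
      by_contra hcon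
      push Not at hcon
      have h2 : r j ≤ BB l := by
        refine le_csSup ⟨1, fun r hr => hr.2.1.le⟩ ⟨by linarith [hrB j], ?_, hcon⟩
        linarith [hrR j]
      linarith [hrB j]
    obtain ⟨f, hf, hf1⟩ := h1
    obtain ⟨a, η, h2, h3, h4, h5⟩ := hred (r j) (by linarith [hrB j]) (hrR j) f hf hf1.le
    exact ⟨a, η, h2, h3, h4, by linarith⟩
  choose a η hal hah hη hm using hex
  have hK : IsCompact (Icc alo ahi ×ˢ sphere (0 : ℂ) 1) :=
    isCompact_Icc.prod (isCompact_sphere _ _)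
  obtain ⟨p, hp, φ, hφ, hlim⟩ := hK.tendsto_subseq (x := fun j => (a j, η j)) (fun j =>
    ⟨⟨hal j, hah j⟩, by simpa using hη j⟩)
  obtain ⟨A, H⟩ := p
  have hA1 : alo ≤ A := hp.1.1
  have hA2 : A ≤ ahi := hp.1.2
  have hH : ‖H‖ = 1 := by
    have h1 := hp.2
    simpa using h1
  refine ⟨A, H, hA1, hA2, hH, le_antisymm ?_ ?_⟩
  · exact maj_BB_le h0 h1 hB hR1 (GG_mem h0.le h1 hH (ha0.trans hA1) (by linarith))
  · have hlim1 : Tendsto (fun j => a (φ j)) atTop (𝓝 A) :=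
      (continuous_fst.tendsto (A, H)).comp hlim
    have hlim2 : Tendsto (fun j => η (φ j)) atTop (𝓝 H) :=
      (continuous_snd.tendsto (A, H)).comp hlim
    have hlim3 : Tendsto (fun j => 1 / (((φ j : ℕ) : ℝ) + 1)) atTop (𝓝 0) :=
      tendsto_one_div_add_atTop_nhds_zero_nat.comp hφ.tendsto_atTop
    have hlim4 : Tendsto (fun j => maj l (GG l A H) (BB l) +
        (‖η (φ j) - H‖ + 2 / (1 - ahi) ^ 2 * |a (φ j) - A|) / (1 - l) ^ 2 *
          (2 * R / (1 - R)) +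
        1 / (1 - R) ^ 2 * (c * (1 / (((φ j : ℕ) : ℝ) + 1)))) atTop
        (𝓝 (maj l (GG l A H) (BB l) +
        (‖H - H‖ + 2 / (1 - ahi) ^ 2 * |A - A|) / (1 - l) ^ 2 * (2 * R / (1 - R)) +
        1 / (1 - R) ^ 2 * (c * 0))) :=
      (tendsto_const_nhds.add ((((hlim2.sub_const H).norm.add
        ((hlim1.sub_const A).abs.const_mul _)).div_const _).mul_const _)).add
        ((hlim3.const_mul c).const_mul _)
    simp only [sub_self, norm_zero, abs_zero, mul_zero, add_zero, zero_div, zero_mul] at hlim4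
    refine ge_of_tendsto' hlim4 (fun j => ?_)
    have h1' := hm (φ j)
    have hG : GG l (a (φ j)) (η (φ j)) ∈ FClass l :=
      GG_mem h0.le h1 (hη _) (ha0.trans (hal _)) (by linarith [hah (φ j)])
    have h2 := maj_lip_r hG hB0.le (hrB (φ j)).le (hrR (φ j)) hR1
    have h3 := maj_lip_a (l := l) (r := BB l) (R := R) h0.le h1 ha1 (hη (φ j)) hH
      (ha0.trans (hal _)) (hah (φ j)) (ha0.trans hA1) hA2 hB0.le hB.le hR0 hR1
    have h4 : r (φ j) - BB l = c * (1 / (((φ j : ℕ) : ℝ) + 1)) := by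
      simp only [hr]; ring
    rw [h4] at h2
    linarith

end FinAux

open FinAux Pool.Agent.P187o

theorem final {l R alo ahi : ℝ} (h0 : 0 < l) (h1 : l < 1) (hR1 : R < 1)
    (ha0 : 0 ≤ alo) (ha1 : ahi < 1) (hB : BB l < R)
    (hred : ∀ r : ℝ, 0 ≤ r → r ≤ R → ∀ f ∈ FClass l, 1 ≤ maj l f r →
      ∃ (a : ℝ) (η ω : ℂ), alo ≤ a ∧ a ≤ ahi ∧ ‖η‖ = 1 ∧ ‖ω‖ = 1 ∧
        (maj l f r < maj l (GG l a η) r ∨ ∀ z : ℂ, ‖z‖ < 1 → f z = GG l a η (ω * z)) ∧
        maj l f r ≤ maj l (GG l a η) r) :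
    IsLeast {r : ℝ | 0 ≤ r ∧ r < 1 ∧ ∃ (a : ℝ) (η : ℂ), 0 ≤ a ∧ a < 1 ∧ ‖η‖ = 1 ∧
      maj l (GG l a η) r = 1} (BB l) ∧
    ∀ f ∈ FClass l, maj l f (BB l) = 1 →
      ∃ (a : ℝ) (η ω : ℂ), alo ≤ a ∧ a ≤ ahi ∧ ‖η‖ = 1 ∧ ‖ω‖ = 1 ∧
        ∀ z : ℂ, ‖z‖ < 1 → f z = GG l a η (ω * z) := by
  have hB0 := BB_pos h0 h1
  refine ⟨⟨?_, ?_⟩, ?_⟩
  · obtain ⟨a, η, hal, hah, hη, hm⟩ := exists_extremal h0 h1 hR1 ha0 ha1 hB
      (fun r hr0 hr1 f hf hfm => by
        obtain ⟨a, η, ω, h2, h3, h4, _, _, h5⟩ := hred r hr0 hr1 f hf hfm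
        exact ⟨a, η, h2, h3, h4, h5⟩)
    exact ⟨hB0.le, by linarith, a, η, ha0.trans hal, by linarith, hη, hm⟩
  · rintro r ⟨hr0, hr1, a, η, ha0', ha1', hη, hm⟩
    by_contra hcon
    rw [not_le] at hcon
    have hG := GG_mem h0.le h1 hη ha0' ha1'
    have hle := maj_BB_le h0 h1 hB hR1 hG
    have hB1 : BB l < 1 := by linarith
    have hs1 := summ hG hr0 hr1
    have hs2 := summ hG hB0.le hB1
    have hex : ∃ n, ‖tc (GG l a η) (n + 1)‖ ≠ 0 := by
      by_contra hcon2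
      push Not at hcon2
      rw [maj_def] at hm
      simp only [hcon2, zero_mul, tsum_zero, add_zero] at hm
      linarith
    obtain ⟨n, hn⟩ := hex
    have hn0 : 0 < ‖tc (GG l a η) (n + 1)‖ := lt_of_le_of_ne (norm_nonneg _) (Ne.symm hn)
    have hlt2 := hs1.tsum_lt_tsum (i := n) (fun k => ?_) ?_ hs2
    · rw [maj_def] at hm hle
      linarith
    · exact mul_le_mul_of_nonneg_left (pow_le_pow_left₀ hr0 hcon.le _) (norm_nonneg _)
    · exact mul_lt_mul_of_pos_left (pow_lt_pow_left₀ hcon hr0 (by omega)) hn0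
  · intro f hf hfm
    obtain ⟨a, η, ω, h2, h3, h4, h5, h6, _⟩ := hred (BB l) hB0.le hB.le f hf hfm.ge
    refine ⟨a, η, ω, h2, h3, h4, h5, ?_⟩
    rcases h6 with h7 | h7
    · exfalso
      have h8 := maj_BB_le h0 h1 hB hR1 (GG_mem h0.le h1 h4 (ha0.trans h2) (by linarith))
      linarith
    · exact h7


/-- The best constant is below a radius where a member of the family has a large majorant. -/
theorem BB_lt {l a R : ℝ} (h0 : 0 < l) (h1 : l < 1) (ha0 : 0 ≤ a) (ha1 : a < 1) {η : ℂ}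
    (hη : ‖η‖ = 1) (hR0 : 0 < R) (hR1 : R < 1) (h : 1 < maj l (GG l a η) R) : BB l < R := by
  have hG := GG_mem h0.le h1 hη ha0 ha1
  have hR' : 0 < 1 - R := by linarith
  set C : ℝ := 1 / (1 - R) ^ 2 with hC
  have hC0 : 0 < C := by positivity
  set M : ℝ := maj l (GG l a η) R with hM
  have hd : 0 < (M - 1) / C := div_pos (by linarith) hC0
  have hle : BB l ≤ R - (M - 1) / C := by
    refine csSup_le ⟨0, adm_zero h1⟩ (fun r hr => ?_)
    have h2 := hr.2.2 _ hG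
    rcases le_or_gt R r with hRr | hRr
    · have h3 := maj_mono hG hR0.le hRr hr.2.1
      linarith
    · have h3 := maj_lip_r hG hr.1 hRr.le le_rfl hR1
      have h4 : (M - 1) / C ≤ R - r := by
        rw [div_le_iff₀ hC0]
        linarith
      linarith
  linarith


end Pool.Agent.P187w
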