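import Pool.Agent.Lib.P187w.BndL
import Pool.Agent.Lib.P187w.BndG

/-!
# Interpolation in the parameter `a`

Fix `x`, `k`; put `w = z k z`, `ε i = (1 - a i) / (1 + a i)`, `g i = (a i - w) / (1 - a i w)`,
`L i = g i / (1 - x z g i)`. For `ε = (1 - s) ε1 + s ε2` (so `s = (ε1 - ε) / (ε1 - ε2)`, which is
in `[0, 1]` for `a1 ≤ a ≤ a2`, `a1 < a2`; the case `a1 = a2` is trivial) one has pointwise
`L = (1 - s) L1 + s L2 - s (1 - s) (ε1 - ε2)^2 / (ε1 ε2) * (1 + x z) / 4 *`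
`(1 - g1) (1 - g2) (1 + g) / ((1 - x z g1) (1 - x z g2) (1 - x z g))`
(because `g = (1 - ε Q) / (1 + ε Q)`, `Q = (1 + w) / (1 - w)`,
`L = - 1 / (1 + x z) + 2 / ((1 - x^2 z^2) (1 + ε Y))`, `Y = Q (1 + x z) / (1 - x z)`), and
`(ε1 - ε2)^2 / (ε1 ε2) = 4 (a2 - a1)^2 / ((1 - a1^2) (1 - a2^2))`.
Bounds: `s (1 - s) ≤ 1/4`, `nr (1 - g i) ≤ G i`, `nr (1 + g) ≤ G3` (`one_sub_le_sq`,
`one_add_le_sq`; `√(1 - a^2) ≤ √(1 - a1^2)`), `nr (1 / (1 - x z g)) ≤ 1 + l r F` (`nr_inv_le`),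
`nr (1 + x z) ≤ 1 + l r`.

`interp_a_one`: for `a1 ≤ a ≤ 1`, with `ε = (1 - s') ε1`, pointwise
`L_a = s' / (1 - x z) + (1 - s') L_{a1} + err`, where (take `s' = 1 - ε / ε1`; for `a = 1` it is
an equality with `err = 0`)
`err = - s' (1 - g) (1 - g1) (1 + x z) / (2 (1 - x z) (1 - x z g) (1 - x z g1))`.
Here `nr (1 - g) ≤ (1 - a) (1 + r) / (1 - r)` (from `one_sub_le_lin`), the same for `g1`, and
`1 - a = 2 ε / (1 + ε) ≤ 2 ε = 2 (1 - s') ε1`, `s' (1 - s') ≤ 1/4`;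
`nr (1 / (1 - x z)) ≤ 1 / (1 - l r)` (tc is `x ^ n`), and `Ph x 1 r ≤ r / (1 - l r)`.
(All numbers have been tested on random data.)
-/

set_option autoImplicit false

open Complex Metric Set
open Pool.Agent.P187f6b

namespace Pool.Agent.P187w

namespace IntAAux

lemma nr_mul_le' {f g : ℂ → ℂ} (hf : DifferentiableOn ℂ f (ball 0 1))
    (hg : DifferentiableOn ℂ g (ball 0 1)) {r : ℝ} (h0 : 0 ≤ r) (h1 : r < 1) {A B : ℝ}
    (hA : nr f r ≤ A) (hB : nr g r ≤ B) : nr (fun z => f z * g z) r ≤ A * B :=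
  (nr_mul_le hf hg h0 h1).trans
    (mul_le_mul hA hB (nr_nonneg g h0) ((nr_nonneg f h0).trans hA))

lemma nr_lin_le {x : ℂ} {l : ℝ} (hx : ‖x‖ ≤ l) {r : ℝ} (h0 : 0 ≤ r) (h1 : r < 1) :
    nr (fun z => 1 + x * z) r ≤ 1 + l * r := by
  have e1 : nr (fun z => 1 + x * z) r
      = nr (fun z => (fun _ : ℂ => (1 : ℂ)) z + (fun z => x * (z * (fun _ : ℂ => (1 : ℂ)) z)) z) r := by
    refine nr_congr ?_ (fun z _ => by simp) r
    fun_prop
  rw [e1]
  refine (nr_add_le (by fun_prop) (by fun_prop) h0 h1).trans ?_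
  have e2 : nr (fun z => x * ((fun z => z * (fun _ : ℂ => (1 : ℂ)) z) z)) r = ‖x‖ * (r * 1) := by
    rw [nr_smul (f := fun z => z * (fun _ : ℂ => (1 : ℂ)) z) (by fun_prop) x r]
    rw [nr_z_mul (f := fun _ : ℂ => (1 : ℂ)) (by fun_prop) r, nr_const]
    simp
  have e3 : nr (fun _ : ℂ => (1 : ℂ)) r = 1 := by rw [nr_const]; simp
  have e4 : nr (fun z => (fun z => x * (z * (fun _ : ℂ => (1 : ℂ)) z)) z) r = ‖x‖ * (r * 1) := e2
  rw [e3, e4]
  nlinarith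

lemma nr_geom_le {x : ℂ} {l : ℝ} (hx : ‖x‖ ≤ l) (hl : l < 1) {r : ℝ} (h0 : 0 ≤ r) (h1 : r < 1) :
    nr (fun z => 1 / (1 - x * z)) r ≤ 1 / (1 - l * r) := by
  have hl0 : 0 ≤ l := (norm_nonneg x).trans hx
  have hne : ∀ z : ℂ, ‖z‖ < 1 → 1 - x * z ≠ 0 := by
    intro z hz
    have := one_sub_xzg_ne (lt_of_le_of_lt hx hl) Sc_one hz
    simpa using this
  have hd : DifferentiableOn ℂ (fun z => 1 / (1 - x * z)) (ball 0 1) := by
    refine DifferentiableOn.div (by fun_prop) (by fun_prop) ?_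
    intro z hz
    exact hne z (by simpa using hz)
  set f : ℂ → ℂ := fun z => 1 / (1 - x * z) with hf
  have hdz : DifferentiableOn ℂ (fun z => z * f z) (ball 0 1) := DifferentiableOn.mul (by fun_prop) hd
  have e1 : nr f r = nr (fun z => (fun _ : ℂ => (1 : ℂ)) z + (fun z => x * (z * f z)) z) r := by
    refine nr_congr ?_ (fun z hz => ?_) r
    · exact DifferentiableOn.add (by fun_prop) (DifferentiableOn.mul (by fun_prop) hdz)
    · have := hne z hz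
      simp only [hf]
      field_simp
      ring
  have e2 := nr_add_le (f := fun _ : ℂ => (1 : ℂ)) (g := fun z => x * (z * f z)) (by fun_prop)
    (DifferentiableOn.mul (by fun_prop) hdz) h0 h1
  rw [← e1, nr_const, nr_smul hdz, nr_z_mul hd] at e2
  have hn := nr_nonneg f h0
  have hlr : l * r < 1 := by nlinarith
  rw [le_div_iff₀ (by linarith)]
  have h5 : ‖x‖ * (r * nr f r) ≤ l * (r * nr f r) :=
    mul_le_mul_of_nonneg_right hx (mul_nonneg h0 hn)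
  have h6 : ‖(1 : ℂ)‖ = 1 := norm_one
  rw [h6] at e2
  nlinarith

lemma r1 {a w D : ℂ} (h : 1 - a * w ≠ 0) :
    (a - w) / (1 - a * w) / (D / (1 - a * w)) = (a - w) / D := by
  rw [div_div_div_cancel_right₀ h]

lemma r2 {a w D : ℂ} (h : 1 - a * w ≠ 0) (hD : D ≠ 0) :
    (1 - (a - w) / (1 - a * w)) * (1 / (D / (1 - a * w))) = (1 - a) * (1 + w) / D := by
  have : 1 - (a - w) / (1 - a * w) = (1 - a) * (1 + w) / (1 - a * w) := by
    rw [eq_div_iff h, sub_mul, div_mul_cancel₀ _ h]; ring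
  rw [this, one_div_div, div_mul_div_comm, mul_comm (1 - a * w) D, mul_div_mul_right _ _ h]

lemma r3 {a w D : ℂ} (h : 1 - a * w ≠ 0) (hD : D ≠ 0) :
    (1 + (a - w) / (1 - a * w)) * (1 / (D / (1 - a * w))) = (1 + a) * (1 - w) / D := by
  have : 1 + (a - w) / (1 - a * w) = (1 + a) * (1 - w) / (1 - a * w) := by
    rw [eq_div_iff h, add_mul, div_mul_cancel₀ _ h]; ring
  rw [this, one_div_div, div_mul_div_comm, mul_comm (1 - a * w) D, mul_div_mul_right _ _ h]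

/-- the rational identity -/
lemma key {a a1 a2 w y D D1 D2 : ℂ} (hD : D = (1 - a * w) - y * (a - w))
    (hD1 : D1 = (1 - a1 * w) - y * (a1 - w)) (hD2 : D2 = (1 - a2 * w) - y * (a2 - w))
    (m : D ≠ 0) (m1 : D1 ≠ 0) (m2 : D2 ≠ 0) (c1 : a2 - a1 ≠ 0) (c2 : 1 + a ≠ 0)
    (c3 : 1 + a1 ≠ 0) (c4 : 1 - a1 ≠ 0) (c5 : 1 + a2 ≠ 0) (c6 : 1 - a2 ≠ 0) :
    (a - w) / D = (a2 - a) * (1 + a1) / ((a2 - a1) * (1 + a)) * ((a1 - w) / D1) +
      (a - a1) * (1 + a2) / ((a2 - a1) * (1 + a)) * ((a2 - w) / D2) +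
      -((a - a1) * (1 + a2) / ((a2 - a1) * (1 + a)) *
        ((a2 - a) * (1 + a1) / ((a2 - a1) * (1 + a))) *
        ((a2 - a1) ^ 2 / (((1 - a1) * (1 + a1)) * ((1 - a2) * (1 + a2))))) *
      ((1 + y) * (((1 - a1) * (1 + w) / D1) * (((1 - a2) * (1 + w) / D2) *
        ((1 + a) * (1 - w) / D)))) := by
  have e : -((a - a1) * (1 + a2) / ((a2 - a1) * (1 + a)) *
        ((a2 - a) * (1 + a1) / ((a2 - a1) * (1 + a))) *
        ((a2 - a1) ^ 2 / (((1 - a1) * (1 + a1)) * ((1 - a2) * (1 + a2))))) *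
      ((1 + y) * (((1 - a1) * (1 + w) / D1) * (((1 - a2) * (1 + w) / D2) *
        ((1 + a) * (1 - w) / D)))) =
      -((a - a1) * (a2 - a) / (1 + a)) * ((1 + y) * (1 + w) ^ 2 * (1 - w)) / (D * D1 * D2) := by
    field_simp
  rw [e]
  have h : (a - w) * (D1 * D2) * ((a2 - a1) * (1 + a)) =
      (a2 - a) * (1 + a1) * (a1 - w) * (D * D2) + (a - a1) * (1 + a2) * (a2 - w) * (D * D1) -
        (a - a1) * (a2 - a) * (a2 - a1) * ((1 + y) * (1 + w) ^ 2 * (1 - w)) := by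
    rw [hD, hD1, hD2]; ring
  have e2 : (a2 - a) * (1 + a1) / ((a2 - a1) * (1 + a)) * ((a1 - w) / D1) +
      (a - a1) * (1 + a2) / ((a2 - a1) * (1 + a)) * ((a2 - w) / D2) +
      -((a - a1) * (a2 - a) / (1 + a)) * ((1 + y) * (1 + w) ^ 2 * (1 - w)) / (D * D1 * D2) =
      ((a2 - a) * (1 + a1) * (a1 - w) * (D * D2) + (a - a1) * (1 + a2) * (a2 - w) * (D * D1) -
        (a - a1) * (a2 - a) * (a2 - a1) * ((1 + y) * (1 + w) ^ 2 * (1 - w))) /
        ((D * D1 * D2) * ((a2 - a1) * (1 + a))) := by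
    field_simp
    ring
  rw [e2, ← h]
  field_simp

/-- the second rational identity -/
lemma key2 {a a1 w y D D1 : ℂ} (hD : D = (1 - a * w) - y * (a - w))
    (hD1 : D1 = (1 - a1 * w) - y * (a1 - w))
    (m : D ≠ 0) (m1 : D1 ≠ 0) (m0 : 1 - y ≠ 0) (c2 : 1 + a ≠ 0) (c4 : 1 - a1 ≠ 0) :
    (a - w) / D = (1 - a) * (1 + a1) / ((1 + a) * (1 - a1)) * ((a1 - w) / D1) +
      2 * (a - a1) / ((1 + a) * (1 - a1)) * (1 / (1 - y)) +
      -(2 * (a - a1) / ((1 + a) * (1 - a1)) / 2) *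
      ((1 + y) * ((1 / (1 - y)) * (((1 - a) * (1 + w) / D) * ((1 - a1) * (1 + w) / D1)))) := by
  have h : (a - w) * D1 * (1 - y) * ((1 + a) * (1 - a1)) =
      (1 - a) * (1 + a1) * (a1 - w) * (D * (1 - y)) + 2 * (a - a1) * (D * D1)
        - (a - a1) * ((1 + y) * ((1 - a) * (1 + w) * ((1 - a1) * (1 + w)))) := by
    rw [hD, hD1]; ring
  have e2 : (1 - a) * (1 + a1) / ((1 + a) * (1 - a1)) * ((a1 - w) / D1) +
      2 * (a - a1) / ((1 + a) * (1 - a1)) * (1 / (1 - y)) +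
      -(2 * (a - a1) / ((1 + a) * (1 - a1)) / 2) *
      ((1 + y) * ((1 / (1 - y)) * (((1 - a) * (1 + w) / D) * ((1 - a1) * (1 + w) / D1)))) =
      ((1 - a) * (1 + a1) * (a1 - w) * (D * (1 - y)) + 2 * (a - a1) * (D * D1)
        - (a - a1) * ((1 + y) * ((1 - a) * (1 + w) * ((1 - a1) * (1 + w))))) /
        ((D * D1 * (1 - y)) * ((1 + a) * (1 - a1))) := by
    field_simp
    ring
  rw [e2, ← h]
  field_simp

/-- the three factors -/
lemma facts {x : ℂ} {l : ℝ} (hx : ‖x‖ ≤ l) (hl : l < 1) {k : ℂ → ℂ} (hk : Sc k) {a : ℝ}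
    (h0 : 0 ≤ a) (h1 : a ≤ 1) {z : ℂ} (hz : ‖z‖ < 1) :
    1 - (a : ℂ) * (z * k z) ≠ 0 ∧
      (1 - (a : ℂ) * (z * k z)) - x * z * ((a : ℂ) - z * k z) ≠ 0 ∧
      1 - x * z * gk a k z = ((1 - (a : ℂ) * (z * k z)) - x * z * ((a : ℂ) - z * k z)) /
        (1 - (a : ℂ) * (z * k z)) := by
  have e1 := one_sub_azk_ne h0 h1 hk hz
  have e2 := one_sub_xzg_ne (lt_of_le_of_lt hx hl) (gk_Sc h0 h1 hk) hz
  have e3 : 1 - x * z * gk a k z = ((1 - (a : ℂ) * (z * k z)) - x * z * ((a : ℂ) - z * k z)) /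
        (1 - (a : ℂ) * (z * k z)) := by
    unfold gk
    rw [mul_div_assoc', eq_div_iff e1, sub_mul, div_mul_cancel₀ _ e1]
    ring
  refine ⟨e1, ?_, e3⟩
  intro h
  rw [e3, h, zero_div] at e2
  exact e2 rfl

end IntAAux

open IntAAux

theorem interp_a {x : ℂ} {l : ℝ} (hx : ‖x‖ ≤ l) (hl : l < 1) {a1 a a2 : ℝ} (h0 : 0 ≤ a1)
    (h1 : a1 ≤ a) (h2 : a ≤ a2) (h3 : a2 < 1) {k : ℂ → ℂ} (hk : Sc k) {r F : ℝ} (hr0 : 0 ≤ r)
    (hr1 : r < 1) (hF0 : 0 ≤ F) (hF : 1 ≤ F ^ 2 * ((1 - l ^ 2) * (1 - r ^ 2))) {G1 G2 G3 X : ℝ}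
    (hG1 : 1 - a1 + √(1 - a1 ^ 2) * (r / √(1 - r ^ 2)) ≤ G1)
    (hG2 : 1 - a2 + √(1 - a2 ^ 2) * (r / √(1 - r ^ 2)) ≤ G2)
    (hG3 : 1 + a2 + √(1 - a1 ^ 2) * (r / √(1 - r ^ 2)) ≤ G3)
    (H1 : Ph x (gk a1 k) r ≤ X) (H2 : Ph x (gk a2 k) r ≤ X) :
    Ph x (gk a k) r ≤ X + (a2 - a1) ^ 2 / ((1 - a1 ^ 2) * (1 - a2 ^ 2)) *
      (r * ((1 + l * r) / 4) * (1 + l * r * F) ^ 3 * (G1 * G2 * G3)) := by
  have hx1 : ‖x‖ < 1 := lt_of_le_of_lt hx hl
  have hl0 : 0 ≤ l := (norm_nonneg x).trans hx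
  have ha0 : 0 ≤ a := h0.trans h1
  have ha1 : a < 1 := lt_of_le_of_lt h2 h3
  have ha20 : 0 ≤ a2 := ha0.trans h2
  have ha11 : a1 < 1 := lt_of_le_of_lt h1 ha1
  have hS1 := gk_Sc h0 ha11.le hk
  have hS2 := gk_Sc ha20 h3.le hk
  have hS := gk_Sc ha0 ha1.le hk
  rcases (h1.trans h2).eq_or_lt with h12 | h12
  · have e : a = a1 := le_antisymm (by linarith) h1
    rw [e, ← h12]
    simpa using H1
  have h12' : (0 : ℝ) < a2 - a1 := by linarith
  -- the parameter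
  set s : ℝ := (a - a1) * (1 + a2) / ((a2 - a1) * (1 + a)) with hs
  have hs0 : 0 ≤ s := by
    rw [hs]; apply div_nonneg <;> apply mul_nonneg <;> linarith
  have hs' : 1 - s = (a2 - a) * (1 + a1) / ((a2 - a1) * (1 + a)) := by
    rw [hs]
    have : (1 + a) ≠ 0 := by linarith
    field_simp
    ring
  have hs1 : s ≤ 1 := by
    have : 0 ≤ 1 - s := by
      rw [hs']; apply div_nonneg <;> apply mul_nonneg <;> linarith
    linarith
  set K : ℝ := (a2 - a1) ^ 2 / ((1 - a1 ^ 2) * (1 - a2 ^ 2)) with hK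
  have hK0 : 0 ≤ K := by
    rw [hK]; apply div_nonneg (sq_nonneg _); apply mul_nonneg <;> nlinarith
  -- the error function
  set q : ℂ → ℂ := fun z => (1 + x * z) * ((1 - gk a1 k z) * ((1 - gk a2 k z) * ((1 + gk a k z) *
    ((1 / (1 - x * z * gk a1 k z)) * ((1 / (1 - x * z * gk a2 k z)) *
      (1 / (1 - x * z * gk a k z))))))) with hq
  have d1 := inv_diff hx1 hS1
  have d2 := inv_diff hx1 hS2
  have d3 := inv_diff hx1 hS
  have d12 : DifferentiableOn ℂ (fun z => (1 / (1 - x * z * gk a2 k z)) *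
      (1 / (1 - x * z * gk a k z))) (ball 0 1) := d2.mul d3
  have d13 : DifferentiableOn ℂ (fun z => (1 / (1 - x * z * gk a1 k z)) *
      ((1 / (1 - x * z * gk a2 k z)) * (1 / (1 - x * z * gk a k z)))) (ball 0 1) := d1.mul d12
  have g3 : DifferentiableOn ℂ (fun z => 1 + gk a k z) (ball 0 1) :=
    DifferentiableOn.add (by fun_prop) hS.1
  have g2 : DifferentiableOn ℂ (fun z => 1 - gk a2 k z) (ball 0 1) :=
    DifferentiableOn.sub (by fun_prop) hS2.1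
  have g1 : DifferentiableOn ℂ (fun z => 1 - gk a1 k z) (ball 0 1) :=
    DifferentiableOn.sub (by fun_prop) hS1.1
  have d14 : DifferentiableOn ℂ (fun z => (1 + gk a k z) * ((1 / (1 - x * z * gk a1 k z)) *
      ((1 / (1 - x * z * gk a2 k z)) * (1 / (1 - x * z * gk a k z))))) (ball 0 1) := g3.mul d13
  have d15 : DifferentiableOn ℂ (fun z => (1 - gk a2 k z) * ((1 + gk a k z) *
      ((1 / (1 - x * z * gk a1 k z)) *
      ((1 / (1 - x * z * gk a2 k z)) * (1 / (1 - x * z * gk a k z)))))) (ball 0 1) := g2.mul d14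
  have d16 : DifferentiableOn ℂ (fun z => (1 - gk a1 k z) * ((1 - gk a2 k z) * ((1 + gk a k z) *
      ((1 / (1 - x * z * gk a1 k z)) *
      ((1 / (1 - x * z * gk a2 k z)) * (1 / (1 - x * z * gk a k z))))))) (ball 0 1) := g1.mul d15
  have dl : DifferentiableOn ℂ (fun z => 1 + x * z) (ball 0 1) := by fun_prop
  have dq : DifferentiableOn ℂ q (ball 0 1) := dl.mul d16
  have hB1 := nr_inv_le hx hl hS1 hr0 hr1 hF0 hF
  have hB2 := nr_inv_le hx hl hS2 hr0 hr1 hF0 hF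
  have hB3 := nr_inv_le hx hl hS hr0 hr1 hF0 hF
  have hC1 := (one_sub_le_sq hS1 h0 ha11.le (gk_zero a1 k) hr0 hr1).trans hG1
  have hC2 := (one_sub_le_sq hS2 ha20 h3.le (gk_zero a2 k) hr0 hr1).trans hG2
  have hC3 : nr (fun z => 1 + gk a k z) r ≤ G3 := by
    refine (one_add_le_sq hS ha0 ha1.le (gk_zero a k) hr0 hr1).trans (le_trans ?_ hG3)
    have h5 : √(1 - a ^ 2) ≤ √(1 - a1 ^ 2) := Real.sqrt_le_sqrt (by nlinarith)
    have h6 : 0 ≤ r / √(1 - r ^ 2) := div_nonneg hr0 (Real.sqrt_nonneg _)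
    have h7 := mul_le_mul_of_nonneg_right h5 h6
    linarith
  have hnq : nr q r ≤ (1 + l * r) * (G1 * (G2 * (G3 * ((1 + l * r * F) * ((1 + l * r * F) *
      (1 + l * r * F)))))) := by
    refine nr_mul_le' dl d16 hr0 hr1 (nr_lin_le hx hr0 hr1) ?_
    refine nr_mul_le' g1 d15 hr0 hr1 hC1 ?_
    refine nr_mul_le' g2 d14 hr0 hr1 hC2 ?_
    refine nr_mul_le' g3 d13 hr0 hr1 hC3 ?_
    refine nr_mul_le' d1 d12 hr0 hr1 hB1 ?_
    exact nr_mul_le' d2 d3 hr0 hr1 hB2 hB3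
  set c : ℝ := s * (1 - s) * K with hc
  have hc0 : 0 ≤ c := mul_nonneg (mul_nonneg hs0 (by linarith)) hK0
  have hc4 : c ≤ K / 4 := by
    have : s * (1 - s) ≤ 1 / 4 := by nlinarith [sq_nonneg (s - 1 / 2)]
    rw [hc]
    have h5 := mul_le_mul_of_nonneg_right this hK0
    linarith
  have main := nr_comb (f := LN x (gk a k)) (f1 := LN x (gk a1 k)) (f2 := LN x (gk a2 k))
    (e := fun z => (-(c : ℂ)) * q z) (LN_diff hx1 hS1) (LN_diff hx1 hS2)
    (DifferentiableOn.mul (by fun_prop) dq) hs0 hs1 ?_ hr0 hr1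
  · rw [nr_smul dq, norm_neg, Complex.norm_real, Real.norm_eq_abs, abs_of_nonneg hc0] at main
    unfold Ph at H1 H2 ⊢
    have hn := nr_nonneg q hr0
    have e1 : c * nr q r ≤ K / 4 * ((1 + l * r) * (G1 * (G2 * (G3 * ((1 + l * r * F) *
        ((1 + l * r * F) * (1 + l * r * F))))))) :=
      mul_le_mul hc4 hnq hn (by linarith)
    have e2 : r * nr (LN x (gk a k)) r ≤ r * ((1 - s) * nr (LN x (gk a1 k)) r
        + s * nr (LN x (gk a2 k)) r + c * nr q r) := mul_le_mul_of_nonneg_left main hr0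
    have e3 : (1 - s) * (r * nr (LN x (gk a1 k)) r) ≤ (1 - s) * X :=
      mul_le_mul_of_nonneg_left H1 (by linarith)
    have e4 : s * (r * nr (LN x (gk a2 k)) r) ≤ s * X := mul_le_mul_of_nonneg_left H2 hs0
    have e5 := mul_le_mul_of_nonneg_left e1 hr0
    calc r * nr (LN x (gk a k)) r ≤ (1 - s) * (r * nr (LN x (gk a1 k)) r)
          + s * (r * nr (LN x (gk a2 k)) r) + r * (c * nr q r) := by linarith
      _ ≤ (1 - s) * X + s * X + r * (K / 4 * ((1 + l * r) * (G1 * (G2 * (G3 * ((1 + l * r * F) *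
        ((1 + l * r * F) * (1 + l * r * F)))))))) := by linarith
      _ = X + K * (r * ((1 + l * r) / 4) * (1 + l * r * F) ^ 3 * (G1 * G2 * G3)) := by ring
  · intro z hz
    obtain ⟨n1, m1, q1⟩ := facts hx hl hk h0 ha11.le hz
    obtain ⟨n2, m2, q2⟩ := facts hx hl hk ha20 h3.le hz
    obtain ⟨n3, m3, q3⟩ := facts hx hl hk ha0 ha1.le hz
    simp only [hq, LN]
    rw [q1, q2, q3]
    unfold gk
    generalize z * k z = w at *
    generalize x * z = y at *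
    have c7 : (1 + (a1 : ℂ)) ≠ 0 := by
      have : 1 + a1 ≠ 0 := by linarith
      exact_mod_cast this
    have c8 : (1 - (a1 : ℂ)) ≠ 0 := by
      have : 1 - a1 ≠ 0 := by linarith
      exact_mod_cast this
    have c9 : (1 + (a2 : ℂ)) ≠ 0 := by
      have : 1 + a2 ≠ 0 := by linarith
      exact_mod_cast this
    have c10 : (1 - (a2 : ℂ)) ≠ 0 := by
      have : 1 - a2 ≠ 0 := by linarith
      exact_mod_cast this
    have c1 : ((a2 : ℂ) - a1) ≠ 0 := by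
      have : a2 - a1 ≠ 0 := h12'.ne'
      exact_mod_cast this
    have c2 : (1 + (a : ℂ)) ≠ 0 := by
      have : 1 + a ≠ 0 := by linarith
      exact_mod_cast this
    have es : (s : ℂ) = ((a : ℂ) - a1) * (1 + a2) / ((a2 - a1) * (1 + a)) := by
      rw [hs]; push_cast; ring
    have es' : (1 - (s : ℂ)) = ((a2 : ℂ) - a) * (1 + a1) / ((a2 - a1) * (1 + a)) := by
      have : ((1 - s : ℝ) : ℂ) = (((a2 - a) * (1 + a1) / ((a2 - a1) * (1 + a)) : ℝ) : ℂ) := by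
        rw [hs']
      push_cast at this
      exact this
    have ec : (c : ℂ) = (((a : ℂ) - a1) * (1 + a2) / ((a2 - a1) * (1 + a))) *
        (((a2 : ℂ) - a) * (1 + a1) / ((a2 - a1) * (1 + a))) *
        (((a2 : ℂ) - a1) ^ 2 / (((1 - a1) * (1 + a1)) * ((1 - a2) * (1 + a2)))) := by
      have e0 : ((1 - (a1 : ℂ)) * (1 + a1)) * ((1 - a2) * (1 + a2))
          = (1 - (a1 : ℂ) ^ 2) * (1 - (a2 : ℂ) ^ 2) := by ring
      rw [hc, hK, e0]
      push_cast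
      rw [es', es]
    have eprod : ∀ A B C A' B' C' : ℂ, (1 + y) * (A * (B * (C * (A' * (B' * C')))))
        = (1 + y) * ((A * A') * ((B * B') * (C * C'))) := by intros; ring
    rw [eprod, r1 n3, r1 n1, r1 n2, r2 n1 m1, r2 n2 m2, r3 n3 m3, es', es, ec]
    exact key rfl rfl rfl m3 m1 m2 c1 c2 c7 c8 c9 c10

theorem interp_a_one {x : ℂ} {l : ℝ} (hx : ‖x‖ ≤ l) (hl : l < 1) {a1 a : ℝ} (h0 : 0 ≤ a1)
    (h1 : a1 ≤ a) (h2 : a ≤ 1) (h3 : a1 < 1) {k : ℂ → ℂ} (hk : Sc k) {r F : ℝ} (hr0 : 0 ≤ r)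
    (hr1 : r < 1) (hF0 : 0 ≤ F) (hF : 1 ≤ F ^ 2 * ((1 - l ^ 2) * (1 - r ^ 2))) {X : ℝ}
    (H1 : Ph x (gk a1 k) r ≤ X) (H2 : r / (1 - l * r) ≤ X) :
    Ph x (gk a k) r ≤ X + (1 - a1) ^ 2 / (4 * (1 + a1)) *
      (r * ((1 + r) / (1 - r)) ^ 2 * ((1 + l * r) / (1 - l * r)) * (1 + l * r * F) ^ 2) := by
  have hx1 : ‖x‖ < 1 := lt_of_le_of_lt hx hl
  have hl0 : 0 ≤ l := (norm_nonneg x).trans hx
  have ha0 : 0 ≤ a := h0.trans h1
  have hS1 := gk_Sc h0 h3.le hk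
  have hS := gk_Sc ha0 h2 hk
  set s : ℝ := 2 * (a - a1) / ((1 + a) * (1 - a1)) with hs
  have hden : 0 < (1 + a) * (1 - a1) := mul_pos (by linarith) (by linarith)
  have hs0 : 0 ≤ s := div_nonneg (by linarith) hden.le
  have hs' : 1 - s = (1 - a) * (1 + a1) / ((1 + a) * (1 - a1)) := by
    rw [hs, eq_div_iff hden.ne', sub_mul, div_mul_cancel₀ _ hden.ne']
    ring
  have hs1' : 0 ≤ 1 - s := by
    rw [hs']
    exact div_nonneg (mul_nonneg (by linarith) (by linarith)) hden.le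
  set q : ℂ → ℂ := fun z => (1 + x * z) * ((1 / (1 - x * z)) * ((1 - gk a k z) *
    ((1 - gk a1 k z) * ((1 / (1 - x * z * gk a k z)) * (1 / (1 - x * z * gk a1 k z)))))) with hq
  have hne : ∀ z : ℂ, ‖z‖ < 1 → 1 - x * z ≠ 0 := by
    intro z hz
    have := one_sub_xzg_ne hx1 Sc_one hz
    simpa using this
  have d0 : DifferentiableOn ℂ (fun z => 1 / (1 - x * z)) (ball 0 1) := by
    refine DifferentiableOn.div (by fun_prop) (by fun_prop) ?_
    intro z hz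
    exact hne z (by simpa using hz)
  have d1 := inv_diff hx1 hS1
  have d3 := inv_diff hx1 hS
  have d12 : DifferentiableOn ℂ (fun z => (1 / (1 - x * z * gk a k z)) *
      (1 / (1 - x * z * gk a1 k z))) (ball 0 1) := d3.mul d1
  have g3 : DifferentiableOn ℂ (fun z => 1 - gk a k z) (ball 0 1) :=
    DifferentiableOn.sub (by fun_prop) hS.1
  have g1 : DifferentiableOn ℂ (fun z => 1 - gk a1 k z) (ball 0 1) :=
    DifferentiableOn.sub (by fun_prop) hS1.1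
  have d13 : DifferentiableOn ℂ (fun z => (1 - gk a1 k z) * ((1 / (1 - x * z * gk a k z)) *
      (1 / (1 - x * z * gk a1 k z)))) (ball 0 1) := g1.mul d12
  have d14 : DifferentiableOn ℂ (fun z => (1 - gk a k z) * ((1 - gk a1 k z) *
      ((1 / (1 - x * z * gk a k z)) * (1 / (1 - x * z * gk a1 k z))))) (ball 0 1) := g3.mul d13
  have d15 : DifferentiableOn ℂ (fun z => (1 / (1 - x * z)) * ((1 - gk a k z) *
      ((1 - gk a1 k z) * ((1 / (1 - x * z * gk a k z)) *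
      (1 / (1 - x * z * gk a1 k z)))))) (ball 0 1) := d0.mul d14
  have dl : DifferentiableOn ℂ (fun z => 1 + x * z) (ball 0 1) := by fun_prop
  have dq : DifferentiableOn ℂ q (ball 0 1) := dl.mul d15
  have hB1 := nr_inv_le hx hl hS1 hr0 hr1 hF0 hF
  have hB3 := nr_inv_le hx hl hS hr0 hr1 hF0 hF
  have hr1' : 0 < 1 - r := by linarith
  set R : ℝ := (1 + r) / (1 - r) with hR
  have hR0 : 0 ≤ R := div_nonneg (by linarith) hr1'.le
  have hlin : ∀ b : ℝ, 0 ≤ b → b ≤ 1 → 1 - b + (1 - b ^ 2) * (r / (1 - r)) ≤ (1 - b) * R := by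
    intro b hb0 hb1
    have e1 : R = 1 + 2 * (r / (1 - r)) := by
      rw [hR]; field_simp; ring
    have e2 : 0 ≤ r / (1 - r) := div_nonneg hr0 hr1'.le
    rw [e1]
    nlinarith [mul_nonneg (mul_nonneg (sub_nonneg.2 hb1) (sub_nonneg.2 hb1)) e2]
  have hC1 := (one_sub_le_lin hS1 h0 h3.le (gk_zero a1 k) hr0 hr1).trans (hlin a1 h0 h3.le)
  have hC3 := (one_sub_le_lin hS ha0 h2 (gk_zero a k) hr0 hr1).trans (hlin a ha0 h2)
  have hnq : nr q r ≤ (1 + l * r) * (1 / (1 - l * r) * (((1 - a) * R) * (((1 - a1) * R) *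
      ((1 + l * r * F) * (1 + l * r * F))))) := by
    refine nr_mul_le' dl d15 hr0 hr1 (nr_lin_le hx hr0 hr1) ?_
    refine nr_mul_le' d0 d14 hr0 hr1 (nr_geom_le hx hl hr0 hr1) ?_
    refine nr_mul_le' g3 d13 hr0 hr1 hC3 ?_
    refine nr_mul_le' g1 d12 hr0 hr1 hC1 ?_
    exact nr_mul_le' d3 d1 hr0 hr1 hB3 hB1
  have hlr : l * r < 1 := by nlinarith
  set M : ℝ := (1 + l * r) * (1 / (1 - l * r)) * (R * R) * ((1 + l * r * F) * (1 + l * r * F))
    with hM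
  have hM0 : 0 ≤ M := by
    rw [hM]
    have e1 : 0 ≤ 1 + l * r := by positivity
    have e2 : 0 ≤ 1 / (1 - l * r) := one_div_nonneg.2 (by linarith)
    exact mul_nonneg (mul_nonneg (mul_nonneg e1 e2) (mul_self_nonneg _)) (mul_self_nonneg _)
  have hnq' : nr q r ≤ (1 - a) * (1 - a1) * M := by
    refine hnq.trans (le_of_eq ?_)
    rw [hM]; ring
  -- the coefficient
  have hcoef : s / 2 * ((1 - a) * (1 - a1)) ≤ (1 - a1) ^ 2 / (4 * (1 + a1)) := by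
    have e1 : (1 - a) * (1 + a1) = (1 - s) * ((1 + a) * (1 - a1)) := by
      rw [hs', div_mul_cancel₀ _ hden.ne']
    have e2 : (1 - a) * (1 + a1) ≤ (1 - s) * (2 * (1 - a1)) := by
      rw [e1]
      refine mul_le_mul_of_nonneg_left ?_ hs1'
      nlinarith
    rw [le_div_iff₀ (by linarith)]
    have e3 : s / 2 * ((1 - a) * (1 - a1)) * (4 * (1 + a1))
        = 2 * s * (1 - a1) * ((1 - a) * (1 + a1)) := by ring
    have e4 : 0 ≤ 2 * s * (1 - a1) := by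
      apply mul_nonneg (by linarith) (by linarith)
    have e5 := mul_le_mul_of_nonneg_left e2 e4
    have e6 : 4 * (s * (1 - s)) ≤ 1 := by nlinarith [sq_nonneg (s - 1 / 2)]
    have e7 := mul_le_mul_of_nonneg_right e6 (sq_nonneg (1 - a1))
    rw [e3]
    calc 2 * s * (1 - a1) * ((1 - a) * (1 + a1)) ≤ 2 * s * (1 - a1) * ((1 - s) * (2 * (1 - a1))) := e5
      _ = 4 * (s * (1 - s)) * (1 - a1) ^ 2 := by ring
      _ ≤ 1 * (1 - a1) ^ 2 := e7
      _ = (1 - a1) ^ 2 := one_mul _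
  have main := nr_comb (f := LN x (gk a k)) (f1 := LN x (gk a1 k)) (f2 := fun z => 1 / (1 - x * z))
    (e := fun z => (-((s / 2 : ℝ) : ℂ)) * q z) (LN_diff hx1 hS1) d0
    (DifferentiableOn.mul (by fun_prop) dq) hs0 (by linarith) ?_ hr0 hr1
  · have hs20 : 0 ≤ s / 2 := by linarith
    rw [nr_smul dq, norm_neg, Complex.norm_real, Real.norm_eq_abs, abs_of_nonneg hs20] at main
    unfold Ph at H1 ⊢
    have e0 : r * nr (fun z => 1 / (1 - x * z)) r ≤ X := by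
      refine le_trans ?_ H2
      have := mul_le_mul_of_nonneg_left (nr_geom_le hx hl hr0 hr1) hr0
      rwa [mul_one_div] at this
    have e1 : s / 2 * nr q r ≤ (1 - a1) ^ 2 / (4 * (1 + a1)) * M := by
      have f1 := mul_le_mul_of_nonneg_left hnq' hs20
      have f2 := mul_le_mul_of_nonneg_right hcoef hM0
      calc s / 2 * nr q r ≤ s / 2 * ((1 - a) * (1 - a1) * M) := f1
        _ = s / 2 * ((1 - a) * (1 - a1)) * M := by ring
        _ ≤ _ := f2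
    have e2 : r * nr (LN x (gk a k)) r ≤ r * ((1 - s) * nr (LN x (gk a1 k)) r
        + s * nr (fun z => 1 / (1 - x * z)) r + s / 2 * nr q r) :=
      mul_le_mul_of_nonneg_left main hr0
    have e3 : (1 - s) * (r * nr (LN x (gk a1 k)) r) ≤ (1 - s) * X :=
      mul_le_mul_of_nonneg_left H1 hs1'
    have e4 : s * (r * nr (fun z => 1 / (1 - x * z)) r) ≤ s * X :=
      mul_le_mul_of_nonneg_left e0 hs0
    have e5 := mul_le_mul_of_nonneg_left e1 hr0
    calc r * nr (LN x (gk a k)) r ≤ (1 - s) * (r * nr (LN x (gk a1 k)) r)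
          + s * (r * nr (fun z => 1 / (1 - x * z)) r) + r * (s / 2 * nr q r) := by linarith
      _ ≤ (1 - s) * X + s * X + r * ((1 - a1) ^ 2 / (4 * (1 + a1)) * M) := by linarith
      _ = X + (1 - a1) ^ 2 / (4 * (1 + a1)) *
        (r * R ^ 2 * ((1 + l * r) / (1 - l * r)) * (1 + l * r * F) ^ 2) := by
          rw [hM]; ring
  · intro z hz
    obtain ⟨n1, m1, q1⟩ := facts hx hl hk h0 h3.le hz
    obtain ⟨n3, m3, q3⟩ := facts hx hl hk ha0 h2 hz
    have m0 := hne z hz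
    simp only [hq, LN]
    rw [q1, q3]
    unfold gk
    generalize z * k z = w at *
    generalize x * z = y at *
    have c2 : (1 + (a : ℂ)) ≠ 0 := by
      have : 1 + a ≠ 0 := by linarith
      exact_mod_cast this
    have c4 : (1 - (a1 : ℂ)) ≠ 0 := by
      have : 1 - a1 ≠ 0 := by linarith
      exact_mod_cast this
    have es : (s : ℂ) = 2 * ((a : ℂ) - a1) / ((1 + a) * (1 - a1)) := by
      rw [hs]; push_cast; ring
    have es' : (1 - (s : ℂ)) = (1 - (a : ℂ)) * (1 + a1) / ((1 + a) * (1 - a1)) := by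
      have : ((1 - s : ℝ) : ℂ) = (((1 - a) * (1 + a1) / ((1 + a) * (1 - a1)) : ℝ) : ℂ) := by
        rw [hs']
      push_cast at this
      exact this
    have ec : ((s / 2 : ℝ) : ℂ) = 2 * ((a : ℂ) - a1) / ((1 + a) * (1 - a1)) / 2 := by
      push_cast
      rw [es]
    have eprod : ∀ A B A' B' : ℂ, (1 + y) * (1 / (1 - y) * (A * (B * (A' * B'))))
        = (1 + y) * (1 / (1 - y) * ((A * A') * (B * B'))) := by intros; ring
    rw [eprod, r1 n3, r1 n1, r2 n1 m1, r2 n3 m3, es', ec, es]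
    exact key2 rfl rfl m3 m1 m0 c2 c4

end Pool.Agent.P187w
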