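import Pool.Agent.Lib.P187w.BndL

/-!
# Interpolation in the parameter `x`

For `y = (1 - s) x1 + s x2`, pointwise on the disc
`LN y g = (1 - s) LN x1 g + s LN x2 g - s (1 - s) (x1 - x2)^2 z^2 (LN y g) (LN x1 g) (LN x2 g)`
(`field_simp; ring` with the three denominators nonzero), and
`LN x g = LN y g + (x - y) z (LN x g) (LN y g)`. Use `nr_comb`, `nr_mul_le`, `nr_z_mul`,
`nr_smul`, `nr_LN_le`.

`arc`: `c^2 = |(1-s) e1 + s e2|^2 = 1 - s (1-s) |e1 - e2|^2 ≥ 1 - D` (as `s (1-s) ≤ 1/4`), so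
`c ≤ 1`, `c ≥ c^2 ≥ 1 - D` and `1 - c = (1 - c^2) / (1 + c) ≤ D / (2 - D)`. Apply `radial` to
`x = l e`, `y = l c e` (`|x - y| = l (1 - c)`), then `chord` to `y` with `x1 = l e1`, `x2 = l e2`
(`s (1-s) |x1 - x2|^2 ≤ l^2 D`).
-/

set_option autoImplicit false

open Complex Metric Set
open Pool.Agent.P187f6b

namespace Pool.Agent.P187w

namespace IntNuAux

lemma key3 (G z s c w0 w1 w2 : ℂ) (h0 : w0 ≠ 0) (h1 : w1 ≠ 0) (h2 : w2 ≠ 0)
    (e : G * (w1 * w2) = (1 - s) * G * (w0 * w2) + s * G * (w0 * w1) + c * z ^ 2 * G ^ 3) :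
    G / w0 = (1 - s) * (G / w1) + s * (G / w2) + c * (z * (z * (G / w0 * (G / w1 * (G / w2))))) := by
  have h : G / w0 - ((1 - s) * (G / w1) + s * (G / w2) +
      c * (z * (z * (G / w0 * (G / w1 * (G / w2)))))) = (G * (w1 * w2) -
      ((1 - s) * G * (w0 * w2) + s * G * (w0 * w1) + c * z ^ 2 * G ^ 3)) / (w0 * w1 * w2) := by
    field_simp
  rw [e, sub_self, zero_div] at h
  exact sub_eq_zero.1 h

lemma key2 (G z d s w0 w1 : ℂ) (h0 : w0 ≠ 0) (h1 : w1 ≠ 0)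
    (e : G * w1 = (1 - s) * G * w0 + s * G * w0 + d * z * G ^ 2) :
    G / w0 = (1 - s) * (G / w1) + s * (G / w1) + d * (z * (G / w0 * (G / w1))) := by
  have h : G / w0 - ((1 - s) * (G / w1) + s * (G / w1) + d * (z * (G / w0 * (G / w1)))) =
      (G * w1 - ((1 - s) * G * w0 + s * G * w0 + d * z * G ^ 2)) / (w0 * w1) := by
    field_simp
  rw [e, sub_self, zero_div] at h
  exact sub_eq_zero.1 h

end IntNuAux

lemma chord {x1 x2 : ℂ} {l : ℝ} (h1 : ‖x1‖ ≤ l) (h2 : ‖x2‖ ≤ l) (hl : l < 1) {g : ℂ → ℂ}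
    (hg : Sc g) {s : ℝ} (hs0 : 0 ≤ s) (hs1 : s ≤ 1) {r F : ℝ} (hr0 : 0 ≤ r) (hr1 : r < 1)
    (hF0 : 0 ≤ F) (hF : 1 ≤ F ^ 2 * ((1 - l ^ 2) * (1 - r ^ 2))) :
    Ph ((1 - s) * x1 + s * x2) g r ≤ (1 - s) * Ph x1 g r + s * Ph x2 g r +
      s * (1 - s) * ‖x1 - x2‖ ^ 2 * (r ^ 3 * F ^ 3) := by
  have hy : ‖(1 - (s : ℂ)) * x1 + (s : ℂ) * x2‖ ≤ l := by
    refine (norm_add_le _ _).trans ?_
    rw [norm_mul, norm_mul]
    have e1 : ‖(1 - (s : ℂ))‖ = 1 - s := by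
      rw [← Complex.ofReal_one, ← Complex.ofReal_sub, Complex.norm_real, Real.norm_eq_abs,
        abs_of_nonneg (by linarith)]
    have e2 : ‖(s : ℂ)‖ = s := by
      rw [Complex.norm_real, Real.norm_eq_abs, abs_of_nonneg hs0]
    rw [e1, e2]
    nlinarith
  set y : ℂ := (1 - (s : ℂ)) * x1 + (s : ℂ) * x2 with hydef
  have hy1 : ‖y‖ < 1 := lt_of_le_of_lt hy hl
  have hx1 : ‖x1‖ < 1 := lt_of_le_of_lt h1 hl
  have hx2 : ‖x2‖ < 1 := lt_of_le_of_lt h2 hl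
  have d0 := LN_diff hy1 hg
  have d1 := LN_diff hx1 hg
  have d2 := LN_diff hx2 hg
  have d12 : DifferentiableOn ℂ (fun z => LN x1 g z * LN x2 g z) (ball 0 1) := d1.mul d2
  have d012 : DifferentiableOn ℂ (fun z => LN y g z * (LN x1 g z * LN x2 g z)) (ball 0 1) :=
    d0.mul d12
  have dz1 : DifferentiableOn ℂ (fun z => z * (LN y g z * (LN x1 g z * LN x2 g z))) (ball 0 1) :=
    differentiableOn_id.mul d012
  have dz2 : DifferentiableOn ℂ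
      (fun z => z * (z * (LN y g z * (LN x1 g z * LN x2 g z)))) (ball 0 1) :=
    differentiableOn_id.mul dz1
  set c : ℂ := -((s : ℂ) * (1 - (s : ℂ)) * (x1 - x2) ^ 2) with hc
  have dz3 : DifferentiableOn ℂ
      (fun z => c * (z * (z * (LN y g z * (LN x1 g z * LN x2 g z))))) (ball 0 1) :=
    (differentiableOn_const c).mul dz2
  have hpt : ∀ z : ℂ, ‖z‖ < 1 → LN y g z = (1 - (s : ℂ)) * LN x1 g z + (s : ℂ) * LN x2 g z +
      c * (z * (z * (LN y g z * (LN x1 g z * LN x2 g z)))) := by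
    intro z hz
    have n0 := one_sub_xzg_ne hy1 hg hz
    have n1 := one_sub_xzg_ne hx1 hg hz
    have n2 := one_sub_xzg_ne hx2 hg hz
    unfold LN
    apply IntNuAux.key3 _ _ _ _ _ _ _ n0 n1 n2
    rw [hc, hydef]
    ring
  have hcomb := nr_comb d1 d2 dz3 hs0 hs1 hpt hr0 hr1
  have hnc : ‖c‖ = s * (1 - s) * ‖x1 - x2‖ ^ 2 := by
    rw [hc, norm_neg, norm_mul, norm_mul, norm_pow]
    have e1 : ‖(1 - (s : ℂ))‖ = 1 - s := by
      rw [← Complex.ofReal_one, ← Complex.ofReal_sub, Complex.norm_real, Real.norm_eq_abs,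
        abs_of_nonneg (by linarith)]
    have e2 : ‖(s : ℂ)‖ = s := by
      rw [Complex.norm_real, Real.norm_eq_abs, abs_of_nonneg hs0]
    rw [e1, e2]
  have b0 := nr_LN_le hy hl hg hr0 hr1 hF0 hF
  have b1 := nr_LN_le h1 hl hg hr0 hr1 hF0 hF
  have b2 := nr_LN_le h2 hl hg hr0 hr1 hF0 hF
  have b12 : nr (fun z => LN x1 g z * LN x2 g z) r ≤ F * F :=
    (nr_mul_le d1 d2 hr0 hr1).trans (mul_le_mul b1 b2 (nr_nonneg _ hr0) hF0)
  have b012 : nr (fun z => LN y g z * (LN x1 g z * LN x2 g z)) r ≤ F * (F * F) :=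
    (nr_mul_le d0 d12 hr0 hr1).trans (mul_le_mul b0 b12 (nr_nonneg _ hr0) hF0)
  have he : nr (fun z => c * (z * (z * (LN y g z * (LN x1 g z * LN x2 g z))))) r ≤
      (s * (1 - s) * ‖x1 - x2‖ ^ 2) * (r * (r * (F * (F * F)))) := by
    rw [nr_smul dz2, nr_z_mul dz1, nr_z_mul d012, hnc]
    have hs2 : 0 ≤ s * (1 - s) := mul_nonneg hs0 (by linarith)
    apply mul_le_mul_of_nonneg_left _ (by positivity)
    apply mul_le_mul_of_nonneg_left _ hr0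
    apply mul_le_mul_of_nonneg_left b012 hr0
  unfold Ph
  calc r * nr (LN y g) r ≤ r * ((1 - s) * nr (LN x1 g) r + s * nr (LN x2 g) r +
        (s * (1 - s) * ‖x1 - x2‖ ^ 2) * (r * (r * (F * (F * F))))) :=
        mul_le_mul_of_nonneg_left (by linarith) hr0
    _ = _ := by ring

lemma radial {x y : ℂ} {l : ℝ} (hx : ‖x‖ ≤ l) (hy : ‖y‖ ≤ l) (hl : l < 1) {g : ℂ → ℂ}
    (hg : Sc g) {r F : ℝ} (hr0 : 0 ≤ r) (hr1 : r < 1)
    (hF0 : 0 ≤ F) (hF : 1 ≤ F ^ 2 * ((1 - l ^ 2) * (1 - r ^ 2))) :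
    Ph x g r ≤ Ph y g r + ‖x - y‖ * (r ^ 2 * F ^ 2) := by
  have hx1 : ‖x‖ < 1 := lt_of_le_of_lt hx hl
  have hy1 : ‖y‖ < 1 := lt_of_le_of_lt hy hl
  have d0 := LN_diff hx1 hg
  have d1 := LN_diff hy1 hg
  have d01 : DifferentiableOn ℂ (fun z => LN x g z * LN y g z) (ball 0 1) := d0.mul d1
  have dz1 : DifferentiableOn ℂ (fun z => z * (LN x g z * LN y g z)) (ball 0 1) :=
    differentiableOn_id.mul d01
  have dz3 : DifferentiableOn ℂ (fun z => (x - y) * (z * (LN x g z * LN y g z))) (ball 0 1) :=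
    (differentiableOn_const (x - y)).mul dz1
  have hpt : ∀ z : ℂ, ‖z‖ < 1 → LN x g z = (1 - ((0 : ℝ) : ℂ)) * LN y g z
      + ((0 : ℝ) : ℂ) * LN y g z + (x - y) * (z * (LN x g z * LN y g z)) := by
    intro z hz
    have n0 := one_sub_xzg_ne hx1 hg hz
    have n1 := one_sub_xzg_ne hy1 hg hz
    unfold LN
    rw [Complex.ofReal_zero]
    apply IntNuAux.key2 _ _ _ _ _ _ n0 n1
    ring
  have hcomb := nr_comb d1 d1 dz3 le_rfl zero_le_one hpt hr0 hr1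
  have b0 := nr_LN_le hx hl hg hr0 hr1 hF0 hF
  have b1 := nr_LN_le hy hl hg hr0 hr1 hF0 hF
  have b01 : nr (fun z => LN x g z * LN y g z) r ≤ F * F :=
    (nr_mul_le d0 d1 hr0 hr1).trans (mul_le_mul b0 b1 (nr_nonneg _ hr0) hF0)
  have he : nr (fun z => (x - y) * (z * (LN x g z * LN y g z))) r ≤
      ‖x - y‖ * (r * (F * F)) := by
    rw [nr_smul dz1, nr_z_mul d01]
    apply mul_le_mul_of_nonneg_left _ (norm_nonneg _)
    apply mul_le_mul_of_nonneg_left b01 hr0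
  unfold Ph
  calc r * nr (LN x g) r ≤ r * (nr (LN y g) r + ‖x - y‖ * (r * (F * F))) :=
        mul_le_mul_of_nonneg_left (by linarith) hr0
    _ = _ := by ring

theorem arc {e e1 e2 : ℂ} (he : ‖e‖ = 1) (he1 : ‖e1‖ = 1) (he2 : ‖e2‖ = 1) {s c D : ℝ}
    (hs0 : 0 ≤ s) (hs1 : s ≤ 1) (hc : 0 ≤ c) (hy : (c : ℂ) * e = (1 - s) * e1 + s * e2)
    (hD : ‖e1 - e2‖ ^ 2 ≤ 4 * D) (hD1 : D ≤ 1) {l : ℝ} (hl0 : 0 ≤ l) (hl1 : l < 1)
    {g : ℂ → ℂ} (hg : Sc g) {r F : ℝ} (hr0 : 0 ≤ r) (hr1 : r < 1)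
    (hF0 : 0 ≤ F) (hF : 1 ≤ F ^ 2 * ((1 - l ^ 2) * (1 - r ^ 2))) {X : ℝ}
    (h1 : Ph (l * e1) g r ≤ X) (h2 : Ph (l * e2) g r ≤ X) :
    Ph (l * e) g r ≤ X + D * (l * r ^ 2 * F ^ 2 / (2 - D) + l ^ 2 * r ^ 3 * F ^ 3) := by
  have hs1' : 0 ≤ 1 - s := by linarith
  have hD0 : 0 ≤ D := by nlinarith [sq_nonneg ‖e1 - e2‖]
  have hs4 : s * (1 - s) ≤ 1 / 4 := by nlinarith [sq_nonneg (s - 1 / 2)]
  have hc2 : c ^ 2 = 1 - s * (1 - s) * ‖e1 - e2‖ ^ 2 := by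
    have hn : ‖(c : ℂ) * e‖ = c := by
      rw [norm_mul, he, mul_one, Complex.norm_real, Real.norm_eq_abs, abs_of_nonneg hc]
    have h3 : c ^ 2 = ‖(1 - (s : ℂ)) * e1 + (s : ℂ) * e2‖ ^ 2 := by rw [← hy, hn]
    rw [h3, ← Complex.normSq_eq_norm_sq, ← Complex.normSq_eq_norm_sq]
    have g1 : Complex.normSq e1 = 1 := by rw [Complex.normSq_eq_norm_sq, he1]; norm_num
    have g2 : Complex.normSq e2 = 1 := by rw [Complex.normSq_eq_norm_sq, he2]; norm_num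
    rw [Complex.normSq_apply] at g1 g2
    rw [Complex.normSq_apply, Complex.normSq_apply]
    simp only [Complex.add_re, Complex.mul_re, Complex.sub_re, Complex.one_re, Complex.ofReal_re,
      Complex.sub_im, Complex.one_im, Complex.ofReal_im, Complex.add_im, Complex.mul_im]
    ring_nf
    ring_nf at g1 g2
    have g1' : e1.re ^ 2 = 1 - e1.im ^ 2 := by linarith
    have g2' : e2.re ^ 2 = 1 - e2.im ^ 2 := by linarith
    rw [g1', g2']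
    ring
  have hDd : s * (1 - s) * ‖e1 - e2‖ ^ 2 ≤ D := by
    have := mul_le_mul hs4 hD (sq_nonneg _) (by norm_num)
    linarith
  have hd0 : 0 ≤ s * (1 - s) * ‖e1 - e2‖ ^ 2 := by positivity
  have hc1 : c ≤ 1 := by nlinarith
  have hcD : 1 - D ≤ c := by nlinarith
  have h1c : 1 - c ≤ D / (2 - D) := by
    rw [le_div_iff₀ (by linarith)]
    nlinarith
  have hcn : ‖(c : ℂ)‖ = c := by rw [Complex.norm_real, Real.norm_eq_abs, abs_of_nonneg hc]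
  have hln : ‖(l : ℂ)‖ = l := by rw [Complex.norm_real, Real.norm_eq_abs, abs_of_nonneg hl0]
  have hx : ‖(l : ℂ) * e‖ ≤ l := by rw [norm_mul, hln, he, mul_one]
  have hyn : ‖(l : ℂ) * ((c : ℂ) * e)‖ ≤ l := by
    rw [norm_mul, norm_mul, hln, hcn, he, mul_one]
    nlinarith
  have hrad := radial hx hyn hl1 hg hr0 hr1 hF0 hF
  have hxy : ‖(l : ℂ) * e - (l : ℂ) * ((c : ℂ) * e)‖ = l * (1 - c) := by
    have : (l : ℂ) * e - (l : ℂ) * ((c : ℂ) * e) = ((l * (1 - c) : ℝ) : ℂ) * e := by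
      push_cast; ring
    rw [this, norm_mul, he, mul_one, Complex.norm_real, Real.norm_eq_abs,
      abs_of_nonneg (mul_nonneg hl0 (by linarith))]
  have hx1 : ‖(l : ℂ) * e1‖ ≤ l := by rw [norm_mul, hln, he1, mul_one]
  have hx2 : ‖(l : ℂ) * e2‖ ≤ l := by rw [norm_mul, hln, he2, mul_one]
  have hch := chord hx1 hx2 hl1 hg hs0 hs1 hr0 hr1 hF0 hF
  have hyy : (1 - (s : ℂ)) * ((l : ℂ) * e1) + (s : ℂ) * ((l : ℂ) * e2) =
      (l : ℂ) * ((c : ℂ) * e) := by rw [hy]; ring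
  rw [hyy] at hch
  have hx12 : ‖(l : ℂ) * e1 - (l : ℂ) * e2‖ ^ 2 = l ^ 2 * ‖e1 - e2‖ ^ 2 := by
    rw [← mul_sub, norm_mul, hln, mul_pow]
  rw [hx12] at hch
  rw [hxy] at hrad
  have t1 : (1 - s) * Ph (l * e1) g r ≤ (1 - s) * X := mul_le_mul_of_nonneg_left h1 hs1'
  have t2 : s * Ph (l * e2) g r ≤ s * X := mul_le_mul_of_nonneg_left h2 hs0
  have t3 : s * (1 - s) * (l ^ 2 * ‖e1 - e2‖ ^ 2) * (r ^ 3 * F ^ 3) ≤
      D * (l ^ 2 * r ^ 3 * F ^ 3) := by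
    calc s * (1 - s) * (l ^ 2 * ‖e1 - e2‖ ^ 2) * (r ^ 3 * F ^ 3)
        = (s * (1 - s) * ‖e1 - e2‖ ^ 2) * (l ^ 2 * r ^ 3 * F ^ 3) := by ring
      _ ≤ D * (l ^ 2 * r ^ 3 * F ^ 3) := mul_le_mul_of_nonneg_right hDd (by positivity)
  have t4 : l * (1 - c) * (r ^ 2 * F ^ 2) ≤ D * (l * r ^ 2 * F ^ 2 / (2 - D)) := by
    calc l * (1 - c) * (r ^ 2 * F ^ 2) = (1 - c) * (l * (r ^ 2 * F ^ 2)) := by ring
      _ ≤ D / (2 - D) * (l * (r ^ 2 * F ^ 2)) := mul_le_mul_of_nonneg_right h1c (by positivity)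
      _ = D * (l * r ^ 2 * F ^ 2 / (2 - D)) := by ring
  linarith

end Pool.Agent.P187w
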