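import Pool.Agent.Lib.P187w.BndV

/-!
# Interpolation in the parameter `t = 1 - p`

Fix `x`, `a`, `h`; put `u = z h z`, `P = (1 - u) / (1 + u)`, `δ = t / (2 - t)`,
`k_t = kh (1 - t) h = (1 - δ P) / (1 + δ P)`, `D = 1 - x a z`, `N = a - x z`, `q = D - N z`,
`q' = D + N z = 1 + a (1 - x) z - x z^2`, `L_t = LN x (gk a k_t) = (a - z k_t) / (D - N z k_t)`,
`v_t = vk x a k_t = (1 - a^2) / (D - N z k_t)`. For `δ = (1 - s) δ1 + s δ2`, pointwise
`L_t = (1 - s) L_{t1} + s L_{t2} + s (1 - s) (δ2 - δ1)^2 / (δ1 δ2) * z q' / (4 (1 - a^2)^2) *`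
`(1 - k_{t1}) (1 - k_{t2}) (1 + k_t) v_{t1} v_{t2} v_t`
(up to the sign of the last term, which does not matter), because
`L_t = (a - z) / q + 2 (1 - a^2) z δ P / (q (q + δ P q'))`. And
`(δ2 - δ1)^2 / (δ1 δ2) = 4 (t2 - t1)^2 / ((2 - t1) (2 - t2) t1 t2)`.
Bounds: `nr q' ≤ 1 + a (1 + l) r + l r^2`; `nr v ≤ V` (`nr_vk_le`); `nr (1 - k_t) ≤ κ t` with
`κ t = t + min (t (2-t) r / (1-r)) (√(t (2-t)) r / √(1-r^2))` (`one_sub_le_lin`, `one_sub_le_sq`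
with `c = 1 - t`, `1 - c^2 = t (2 - t)`), `nr (1 + k_t) ≤ K3`.
Finally, for `0 ≤ S1 ≤ S2`: `(1-s) S1 + s S2 - s (1-s) (3 S1 + S2) = S1 (1-s)(1-3s) + S2 s^2
≥ S1 (1 - 2 s)^2 ≥ 0`.

`interp_t_zero` is the same with `t1 = 0`: for `δ = s δ0`, pointwise
`L_t = (1 - s) L_0 + s L_{t0} ± (1 - s) / (2 (1 - a^2)^2) * z q' v_0 v_{t0} v_t (1 - k_{t0}) (1 - k_t)`
and `nr (1 - k_t) ≤ t (1 + r) / (1 - r) ≤ 2 s δ0 (1 + r) / (1 - r)` (as `t = 2 δ / (1 + δ)`), so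
`Ph_t ≤ (1 - s) Ph_0 + s Ph_{t0} + s (1 - s) C0 ≤ (1 - s) Ph_0 + s (X - S0) + s (1 - s) S0`.
(All numbers have been tested on random data.)
-/

set_option autoImplicit false

open Complex Metric Set
open Pool.Agent.P187f6b

namespace Pool.Agent.P187w

namespace IntTAux

lemma alg1 {α β q q' m n d1 d2 s A A1 A2 : ℂ} (hA1 : A1 = q * m + q' * d1 * n)
    (hA2 : A2 = q * m + q' * d2 * n) (hA : A = q * m + q' * ((1 - s) * d1 + s * d2) * n)
    (h0 : A ≠ 0) (h1 : A1 ≠ 0) (h2 : A2 ≠ 0) :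
    (α * m + β * ((1 - s) * d1 + s * d2) * n) / A =
      (1 - s) * ((α * m + β * d1 * n) / A1) + s * ((α * m + β * d2 * n) / A2) -
      (α * q' - β * q) * (s * (1 - s)) * (d2 - d1) ^ 2 * q' * n ^ 2 * m / (A * A1 * A2) := by
  field_simp
  rw [hA, hA1, hA2]
  ring

lemma alg2 {a z D N m n d k : ℂ} (hk : k = (m - d * n) / (m + d * n)) (hm : m + d * n ≠ 0) :
    D - N * z * k = ((D - N * z) * m + (D + N * z) * d * n) / (m + d * n) ∧
      a - z * k = ((a - z) * m + (a + z) * d * n) / (m + d * n) := by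
  rw [hk]
  constructor
  · field_simp
    ring
  · field_simp
    ring

/-- The pointwise identity, general form. -/
lemma alg3 {a x z m n d1 d2 s d k k1 k2 E E1 E2 : ℂ} (hd : d = (1 - s) * d1 + s * d2)
    (hk : k = (m - d * n) / (m + d * n)) (hm : m + d * n ≠ 0)
    (hk1 : k1 = (m - d1 * n) / (m + d1 * n)) (hm1 : m + d1 * n ≠ 0)
    (hk2 : k2 = (m - d2 * n) / (m + d2 * n)) (hm2 : m + d2 * n ≠ 0)
    (hE : E = (1 - a * (z * k)) - x * z * (a - z * k)) (hE0 : E ≠ 0)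
    (hE1 : E1 = (1 - a * (z * k1)) - x * z * (a - z * k1)) (hE10 : E1 ≠ 0)
    (hE2 : E2 = (1 - a * (z * k2)) - x * z * (a - z * k2)) (hE20 : E2 ≠ 0) :
    (a - z * k) / E = (1 - s) * ((a - z * k1) / E1) + s * ((a - z * k2) / E2) +
      2 * z * (1 - a ^ 2) * (s * (1 - s)) * (d2 - d1) ^ 2 * (1 + a * (1 - x) * z - x * z ^ 2) *
        n ^ 2 * m / ((E * (m + d * n)) * (E1 * (m + d1 * n)) * (E2 * (m + d2 * n))) := by
  have g : ∀ {d k E : ℂ}, k = (m - d * n) / (m + d * n) → m + d * n ≠ 0 →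
      E = (1 - a * (z * k)) - x * z * (a - z * k) → E ≠ 0 →
      E * (m + d * n) = (1 - x * a * z - (a - x * z) * z) * m +
        (1 - x * a * z + (a - x * z) * z) * d * n ∧
      (a - z * k) / E = ((a - z) * m + (a + z) * d * n) / (E * (m + d * n)) := by
    intro d k E hk hm hE hE0
    have h := alg2 (a := a) (z := z) (D := 1 - x * a * z) (N := a - x * z) hk hm
    have e : E = (1 - x * a * z) - (a - x * z) * z * k := by rw [hE]; ring
    constructor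
    · rw [e, h.1, div_mul_cancel₀ _ hm]
    · rw [h.2]
      field_simp
  obtain ⟨f, l⟩ := g hk hm hE hE0
  obtain ⟨f1, l1⟩ := g hk1 hm1 hE1 hE10
  obtain ⟨f2, l2⟩ := g hk2 hm2 hE2 hE20
  rw [l, l1, l2]
  have h0 : E * (m + d * n) ≠ 0 := mul_ne_zero hE0 hm
  have h1 : E1 * (m + d1 * n) ≠ 0 := mul_ne_zero hE10 hm1
  have h2 : E2 * (m + d2 * n) ≠ 0 := mul_ne_zero hE20 hm2
  generalize hA : E * (m + d * n) = A at *
  generalize hA1 : E1 * (m + d1 * n) = A1 at *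
  generalize hA2 : E2 * (m + d2 * n) = A2 at *
  rw [hd] at f ⊢
  rw [alg1 f1 f2 f h0 h1 h2]
  rw [sub_eq_add_neg, ← neg_div]
  congr 2
  ring

lemma alg4 {a x z m n d1 d2 s d k k1 k2 E E1 E2 : ℂ} (ha : 1 - a ^ 2 ≠ 0)
    (hk : k = (m - d * n) / (m + d * n)) (hm : m + d * n ≠ 0)
    (hk1 : k1 = (m - d1 * n) / (m + d1 * n)) (hm1 : m + d1 * n ≠ 0)
    (hk2 : k2 = (m - d2 * n) / (m + d2 * n)) (hm2 : m + d2 * n ≠ 0)
    (hE0 : E ≠ 0) (hE10 : E1 ≠ 0) (hE20 : E2 ≠ 0) (hd1 : d1 ≠ 0) (hd2 : d2 ≠ 0) :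
    2 * z * (1 - a ^ 2) * (s * (1 - s)) * (d2 - d1) ^ 2 * (1 + a * (1 - x) * z - x * z ^ 2) *
        n ^ 2 * m / ((E * (m + d * n)) * (E1 * (m + d1 * n)) * (E2 * (m + d2 * n))) =
      (s * (1 - s) * ((d2 - d1) ^ 2 / (d1 * d2)) / (4 * (1 - a ^ 2) ^ 2)) *
      (z * ((1 + a * (1 - x) * z - x * z ^ 2) * ((1 - k1) * ((1 - k2) * ((1 + k) *
        ((1 - a ^ 2) / E1 * ((1 - a ^ 2) / E2 * ((1 - a ^ 2) / E)))))))) := by
  have e1 : 1 - k1 = 2 * d1 * n / (m + d1 * n) := by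
    rw [hk1]
    field_simp
    ring
  have e2 : 1 - k2 = 2 * d2 * n / (m + d2 * n) := by
    rw [hk2]
    field_simp
    ring
  have e : 1 + k = 2 * m / (m + d * n) := by
    rw [hk]
    field_simp
    ring
  rw [e1, e2, e]
  generalize 1 - a ^ 2 = b at *
  generalize 1 + a * (1 - x) * z - x * z ^ 2 = Q at *
  generalize m + d * n = M at *
  generalize m + d1 * n = M1 at *
  generalize m + d2 * n = M2 at *
  generalize d2 - d1 = w at *
  field_simp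
  ring

lemma alg5 {a x z m n d2 s d k k2 E E1 E2 : ℂ} (ha : 1 - a ^ 2 ≠ 0) (hd : d = s * d2)
    (hk : k = (m - d * n) / (m + d * n)) (hm : m + d * n ≠ 0)
    (hm1 : m ≠ 0)
    (hk2 : k2 = (m - d2 * n) / (m + d2 * n)) (hm2 : m + d2 * n ≠ 0)
    (hE0 : E ≠ 0) (hE10 : E1 ≠ 0) (hE20 : E2 ≠ 0) :
    2 * z * (1 - a ^ 2) * (s * (1 - s)) * (d2 - 0) ^ 2 * (1 + a * (1 - x) * z - x * z ^ 2) *
        n ^ 2 * m / ((E * (m + d * n)) * (E1 * (m + 0 * n)) * (E2 * (m + d2 * n))) =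
      ((1 - s) / (2 * (1 - a ^ 2) ^ 2)) *
      (z * ((1 + a * (1 - x) * z - x * z ^ 2) * ((1 - k) * ((1 - k2) *
        ((1 - a ^ 2) / E1 * ((1 - a ^ 2) / E2 * ((1 - a ^ 2) / E))))))) := by
  have e2 : 1 - k2 = 2 * d2 * n / (m + d2 * n) := by
    rw [hk2]
    field_simp
    ring
  have e : 1 - k = 2 * (s * d2) * n / (m + d * n) := by
    rw [← hd, hk]
    field_simp
    ring
  rw [e2, e, zero_mul, add_zero, sub_zero]
  generalize 1 - a ^ 2 = b at *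
  generalize 1 + a * (1 - x) * z - x * z ^ 2 = Q at *
  generalize m + d * n = M at *
  generalize m + d2 * n = M2 at *
  field_simp

/-- `LN` of `gk` -/
lemma LN_gk {x : ℂ} {a : ℝ} (ha0 : 0 ≤ a) (ha1 : a ≤ 1) {k : ℂ → ℂ} (hk : Sc k) {z : ℂ}
    (hz : ‖z‖ < 1) : LN x (gk a k) z =
      (a - z * k z) / ((1 - a * (z * k z)) - x * z * (a - z * k z)) := by
  have h := one_sub_azk_ne ha0 ha1 hk hz
  unfold LN gk
  generalize 1 - (a : ℂ) * (z * k z) = b at *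
  generalize (a : ℂ) - z * k z = c at *
  have h3 : 1 - x * z * (c / b) = (b - x * z * c) / b := by
    field_simp
  rw [h3, div_div_div_cancel_right₀ h]

/-- the numbers `m = 1 + u`, `n = 1 - u`, `d = t / (2 - t)` -/
lemma kh_eq {t : ℝ} (ht0 : 0 ≤ t) (ht1 : t ≤ 1) {h : ℂ → ℂ} (hh : Sc h) {z : ℂ}
    (hz : ‖z‖ < 1) :
    (1 + z * h z) + ((t / (2 - t) : ℝ) : ℂ) * (1 - z * h z) ≠ 0 ∧
      kh (1 - t) h z = ((1 + z * h z) - ((t / (2 - t) : ℝ) : ℂ) * (1 - z * h z)) /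
        ((1 + z * h z) + ((t / (2 - t) : ℝ) : ℂ) * (1 - z * h z)) := by
  have h1 := one_add_pzh_ne (p := 1 - t) (by linarith) (by linarith) hh hz
  have h2 : ((2 - t : ℝ) : ℂ) ≠ 0 := by
    exact_mod_cast (by linarith : (2 - t : ℝ) ≠ 0)
  have h3 : ((2 : ℂ) - (t : ℂ)) ≠ 0 := by
    have := h2
    push_cast at this
    exact this
  push_cast at h1 ⊢
  have e1 : (1 + z * h z) + (t : ℂ) / (2 - t) * (1 - z * h z) =
      2 / (2 - t) * (1 + (1 - t) * (z * h z)) := by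
    field_simp
    ring
  have e2 : (1 + z * h z) - (t : ℂ) / (2 - t) * (1 - z * h z) =
      2 / (2 - t) * ((1 - t) + z * h z) := by
    field_simp
    ring
  have h4 : (2 : ℂ) / (2 - t) ≠ 0 := div_ne_zero (by norm_num) h3
  refine ⟨by rw [e1]; exact mul_ne_zero h4 h1, ?_⟩
  rw [e1, e2, mul_div_mul_left _ _ h4]
  unfold kh
  push_cast
  rfl

lemma mulb {f g : ℂ → ℂ} (hf : DifferentiableOn ℂ f (ball 0 1))
    (hg : DifferentiableOn ℂ g (ball 0 1)) {r F G : ℝ} (h0 : 0 ≤ r) (h1 : r < 1)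
    (bf : nr f r ≤ F) (bg : nr g r ≤ G) : nr (fun z => f z * g z) r ≤ F * G :=
  (nr_mul_le hf hg h0 h1).trans
    (mul_le_mul bf bg (nr_nonneg g h0) ((nr_nonneg f h0).trans bf))

lemma q_diff (a : ℝ) (x : ℂ) :
    DifferentiableOn ℂ (fun z : ℂ => 1 + a * (1 - x) * z - x * z ^ 2) (ball 0 1) := by
  fun_prop

lemma nr_q_le {a : ℝ} (ha0 : 0 ≤ a) {x : ℂ} {l : ℝ} (hx : ‖x‖ ≤ l) {r : ℝ} (h0 : 0 ≤ r)
    (h1 : r < 1) :
    nr (fun z : ℂ => 1 + a * (1 - x) * z - x * z ^ 2) r ≤ 1 + a * (1 + l) * r + l * r ^ 2 := by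
  have d0 : DifferentiableOn ℂ (fun _ : ℂ => (1 : ℂ)) (ball 0 1) := by fun_prop
  have dx : DifferentiableOn ℂ (fun _ : ℂ => -x) (ball 0 1) := by fun_prop
  have dc : DifferentiableOn ℂ (fun _ : ℂ => (a : ℂ) * (1 - x)) (ball 0 1) := by fun_prop
  have d1 : DifferentiableOn ℂ (fun z : ℂ => z * (-x)) (ball 0 1) := by fun_prop
  have d2 : DifferentiableOn ℂ (fun z : ℂ => (a : ℂ) * (1 - x) + z * (-x)) (ball 0 1) := by
    fun_prop
  have d3 : DifferentiableOn ℂ (fun z : ℂ => z * ((a : ℂ) * (1 - x) + z * (-x))) (ball 0 1) := by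
    fun_prop
  have e : (fun z : ℂ => 1 + a * (1 - x) * z - x * z ^ 2) =
      fun z => 1 + z * ((a : ℂ) * (1 - x) + z * (-x)) := by
    funext z
    ring
  rw [e]
  have b1 : nr (fun z : ℂ => z * (-x)) r ≤ r * l := by
    rw [nr_z_mul dx, nr_const, norm_neg]
    exact mul_le_mul_of_nonneg_left hx h0
  have b2 : nr (fun z : ℂ => (a : ℂ) * (1 - x) + z * (-x)) r ≤ a * (1 + l) + r * l := by
    refine (nr_add_le dc d1 h0 h1).trans (add_le_add ?_ b1)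
    rw [nr_const, norm_mul, Complex.norm_real, Real.norm_of_nonneg ha0]
    refine mul_le_mul_of_nonneg_left ?_ ha0
    refine (norm_sub_le _ _).trans ?_
    rw [norm_one]
    linarith
  have b3 : nr (fun z : ℂ => z * ((a : ℂ) * (1 - x) + z * (-x))) r ≤
      r * (a * (1 + l) + r * l) := by
    rw [nr_z_mul d2]
    exact mul_le_mul_of_nonneg_left b2 h0
  refine (nr_add_le d0 d3 h0 h1).trans ?_
  rw [nr_const, norm_one]
  linarith

lemma sub_diff {k : ℂ → ℂ} (hk : Sc k) : DifferentiableOn ℂ (fun z => 1 - k z) (ball 0 1) :=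
  (differentiableOn_const 1).sub hk.1

lemma add_diff {k : ℂ → ℂ} (hk : Sc k) : DifferentiableOn ℂ (fun z => 1 + k z) (ball 0 1) :=
  (differentiableOn_const 1).add hk.1

lemma nr_sub_kh {t : ℝ} (ht0 : 0 ≤ t) (ht1 : t ≤ 1) {h : ℂ → ℂ} (hh : Sc h) {r : ℝ}
    (hr0 : 0 ≤ r) (hr1 : r < 1) :
    nr (fun z => 1 - kh (1 - t) h z) r ≤
      t + min (t * (2 - t) * (r / (1 - r))) (√(t * (2 - t)) * (r / √(1 - r ^ 2))) := by
  have hk := kh_Sc (p := 1 - t) (by linarith) (by linarith) hh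
  have h0 : kh (1 - t) h 0 = ((1 - t : ℝ) : ℂ) := kh_zero _ _
  have e : 1 - (1 - t) ^ 2 = t * (2 - t) := by ring
  have e' : 1 - (1 - t) = t := by ring
  have b1 := one_sub_le_lin hk (by linarith) (by linarith) h0 hr0 hr1
  have b2 := one_sub_le_sq hk (by linarith) (by linarith) h0 hr0 hr1
  rw [e, e'] at b1 b2
  rw [← min_add_add_left]
  exact le_min b1 b2

lemma nr_add_kh {t : ℝ} (ht0 : 0 ≤ t) (ht1 : t ≤ 1) {h : ℂ → ℂ} (hh : Sc h) {r : ℝ}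
    (hr0 : 0 ≤ r) (hr1 : r < 1) :
    nr (fun z => 1 + kh (1 - t) h z) r ≤
      2 - t + min (t * (2 - t) * (r / (1 - r))) (√(t * (2 - t)) * (r / √(1 - r ^ 2))) := by
  have hk := kh_Sc (p := 1 - t) (by linarith) (by linarith) hh
  have h0 : kh (1 - t) h 0 = ((1 - t : ℝ) : ℂ) := kh_zero _ _
  have e : 1 - (1 - t) ^ 2 = t * (2 - t) := by ring
  have e' : 1 + (1 - t) = 2 - t := by ring
  have b1 := one_add_le_lin hk (by linarith) (by linarith) h0 hr0 hr1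
  have b2 := one_add_le_sq hk (by linarith) (by linarith) h0 hr0 hr1
  rw [e, e'] at b1 b2
  rw [← min_add_add_left]
  exact le_min b1 b2

lemma del_mono {t t' : ℝ} (h : t ≤ t') (h1 : t' ≤ 1) : t / (2 - t) ≤ t' / (2 - t') := by
  rw [div_le_div_iff₀ (by linarith) (by linarith)]
  nlinarith

end IntTAux

theorem interp_t {x : ℂ} {l : ℝ} (hx : ‖x‖ ≤ l) (hl : l < 1) {a : ℝ} (ha0 : 0 ≤ a)
    (ha1 : a < 1) {h : ℂ → ℂ} (hh : Sc h) {t1 t t2 : ℝ} (ht0 : 0 < t1) (ht1 : t1 ≤ t)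
    (ht2 : t ≤ t2) (ht3 : t2 ≤ 1) {r : ℝ} (hr0 : 0 ≤ r) (hr1 : r < 1)
    {K1 K2 K3 V X S1 S2 : ℝ}
    (hK1 : t1 + min (t1 * (2 - t1) * (r / (1 - r))) (√(t1 * (2 - t1)) * (r / √(1 - r ^ 2))) ≤ K1)
    (hK2 : t2 + min (t2 * (2 - t2) * (r / (1 - r))) (√(t2 * (2 - t2)) * (r / √(1 - r ^ 2))) ≤ K2)
    (hK3 : 2 - t1 + min (t2 * (2 - t2) * (r / (1 - r))) (√(t2 * (2 - t2)) * (r / √(1 - r ^ 2))) ≤
      K3)
    (hV : (1 - a ^ 2) + √((1 - a ^ 2) * (a ^ 2 + l ^ 2 / (1 - l ^ 2))) * (r / √(1 - r ^ 2)) ≤ V)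
    (hS1 : 0 ≤ S1) (hS2 : S1 ≤ S2)
    (H1 : Ph x (gk a (kh (1 - t1) h)) r ≤ X - S1)
    (H2 : Ph x (gk a (kh (1 - t2) h)) r ≤ X - S2)
    (hC : (t2 - t1) ^ 2 / ((2 - t1) * (2 - t2) * t1 * t2) * (r ^ 2 / (1 - a ^ 2) ^ 2) *
      (1 + a * (1 + l) * r + l * r ^ 2) * (K1 * K2 * K3 * V ^ 3) ≤ 3 * S1 + S2) :
    Ph x (gk a (kh (1 - t) h)) r ≤ X := by
  have ht0' : 0 ≤ t1 := ht0.le
  have ht : 0 < t := lt_of_lt_of_le ht0 ht1
  have ht2p : 0 < t2 := lt_of_lt_of_le ht ht2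
  have ht1' : t1 ≤ 1 := ht1.trans (ht2.trans ht3)
  have htt : t ≤ 1 := ht2.trans ht3
  have hxl : ‖x‖ < 1 := lt_of_le_of_lt hx hl
  have ha1' : a ≤ 1 := ha1.le
  -- the parameter
  obtain ⟨s, hs0, hs1, hs⟩ : ∃ s : ℝ, 0 ≤ s ∧ s ≤ 1 ∧
      t / (2 - t) = (1 - s) * (t1 / (2 - t1)) + s * (t2 / (2 - t2)) := by
    have m1 := IntTAux.del_mono ht1 htt
    have m2 := IntTAux.del_mono ht2 ht3
    rcases eq_or_lt_of_le (m1.trans m2) with h | h
    · exact ⟨0, le_refl _, zero_le_one, by linarith⟩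
    · have hpos : 0 < t2 / (2 - t2) - t1 / (2 - t1) := by linarith
      refine ⟨(t / (2 - t) - t1 / (2 - t1)) / (t2 / (2 - t2) - t1 / (2 - t1)), ?_, ?_, ?_⟩
      · exact div_nonneg (by linarith) hpos.le
      · rw [div_le_one hpos]
        linarith
      · generalize t1 / (2 - t1) = d1 at *
        generalize t2 / (2 - t2) = d2 at *
        field_simp
        ring
  have hk1 := kh_Sc (p := 1 - t1) (by linarith) (by linarith) hh
  have hk2 := kh_Sc (p := 1 - t2) (by linarith) (by linarith) hh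
  have hk := kh_Sc (p := 1 - t) (by linarith) (by linarith) hh
  -- the error term
  have ha2 : 0 < 1 - a ^ 2 := by nlinarith
  have haC : (1 - (a : ℂ) ^ 2) ≠ 0 := by exact_mod_cast ha2.ne'
  obtain ⟨C, hCdef⟩ : ∃ C : ℝ, C = (t2 - t1) ^ 2 / ((2 - t1) * (2 - t2) * t1 * t2) *
    (1 / (1 - a ^ 2) ^ 2) := ⟨_, rfl⟩
  have hC0 : 0 ≤ C := by
    rw [hCdef]
    have : 0 < (2 - t1) * (2 - t2) * t1 * t2 :=
      mul_pos (mul_pos (mul_pos (by linarith) (by linarith)) ht0) ht2p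
    positivity
  set w : ℂ → ℂ := fun z => (1 + a * (1 - x) * z - x * z ^ 2) * ((1 - kh (1 - t1) h z) *
    ((1 - kh (1 - t2) h z) * ((1 + kh (1 - t) h z) * (vk x a (kh (1 - t1) h) z *
      (vk x a (kh (1 - t2) h) z * vk x a (kh (1 - t) h) z))))) with hw
  have dv1 := vk_diff hxl ha0 ha1' hk1
  have dv2 := vk_diff hxl ha0 ha1' hk2
  have dv := vk_diff hxl ha0 ha1' hk
  have bv1 := (nr_vk_le hx hl ha0 ha1' hk1 hr0 hr1).trans hV
  have bv2 := (nr_vk_le hx hl ha0 ha1' hk2 hr0 hr1).trans hV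
  have bv := (nr_vk_le hx hl ha0 ha1' hk hr0 hr1).trans hV
  have bk1 := (IntTAux.nr_sub_kh ht0' ht1' hh hr0 hr1).trans hK1
  have bk2 := (IntTAux.nr_sub_kh ht2p.le ht3 hh hr0 hr1).trans hK2
  have bk : nr (fun z => 1 + kh (1 - t) h z) r ≤ K3 := by
    refine (IntTAux.nr_add_kh ht.le htt hh hr0 hr1).trans (le_trans ?_ hK3)
    have e1 : t * (2 - t) ≤ t2 * (2 - t2) := by nlinarith
    have e2 : 0 ≤ r / (1 - r) := div_nonneg hr0 (by linarith)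
    have e3 : 0 ≤ r / √(1 - r ^ 2) := div_nonneg hr0 (Real.sqrt_nonneg _)
    have e4 : min (t * (2 - t) * (r / (1 - r))) (√(t * (2 - t)) * (r / √(1 - r ^ 2))) ≤
        min (t2 * (2 - t2) * (r / (1 - r))) (√(t2 * (2 - t2)) * (r / √(1 - r ^ 2))) :=
      min_le_min (mul_le_mul_of_nonneg_right e1 e2)
        (mul_le_mul_of_nonneg_right (Real.sqrt_le_sqrt e1) e3)
    linarith
  have ds1 := IntTAux.sub_diff hk1
  have ds2 := IntTAux.sub_diff hk2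
  have da := IntTAux.add_diff hk
  have dq := IntTAux.q_diff a x
  have bq := IntTAux.nr_q_le ha0 hx hr0 hr1
  have d1 := dv2.fun_mul dv
  have b1 := IntTAux.mulb dv2 dv hr0 hr1 bv2 bv
  have d2 := dv1.fun_mul d1
  have b2 := IntTAux.mulb dv1 d1 hr0 hr1 bv1 b1
  have d3 := da.fun_mul d2
  have b3 := IntTAux.mulb da d2 hr0 hr1 bk b2
  have d4 := ds2.fun_mul d3
  have b4 := IntTAux.mulb ds2 d3 hr0 hr1 bk2 b3
  have d5 := ds1.fun_mul d4
  have b5 := IntTAux.mulb ds1 d4 hr0 hr1 bk1 b4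
  have dw : DifferentiableOn ℂ w (ball 0 1) := dq.fun_mul d5
  have bw : nr w r ≤ (1 + a * (1 + l) * r + l * r ^ 2) * (K1 * (K2 * (K3 * (V * (V * V))))) :=
    IntTAux.mulb dq d5 hr0 hr1 bq b5
  have dzw : DifferentiableOn ℂ (fun z => z * w z) (ball 0 1) := differentiableOn_id.fun_mul dw
  have de : DifferentiableOn ℂ (fun z => ((s * (1 - s) * C : ℝ) : ℂ) * (z * w z)) (ball 0 1) :=
    dzw.const_mul _
  have be : nr (fun z => ((s * (1 - s) * C : ℝ) : ℂ) * (z * w z)) r =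
      s * (1 - s) * C * (r * nr w r) := by
    rw [nr_smul dzw, nr_z_mul dw, Complex.norm_real, Real.norm_of_nonneg]
    exact mul_nonneg (mul_nonneg hs0 (by linarith)) hC0
  -- the identity
  have hpt : ∀ z : ℂ, ‖z‖ < 1 → LN x (gk a (kh (1 - t) h)) z =
      (1 - s) * LN x (gk a (kh (1 - t1) h)) z + s * LN x (gk a (kh (1 - t2) h)) z +
        ((s * (1 - s) * C : ℝ) : ℂ) * (z * w z) := by
    intro z hz
    obtain ⟨m0, q0⟩ := IntTAux.kh_eq ht.le htt hh hz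
    obtain ⟨m1, q1⟩ := IntTAux.kh_eq ht0' ht1' hh hz
    obtain ⟨m2, q2⟩ := IntTAux.kh_eq ht2p.le ht3 hh hz
    have n0 := vk_den_ne hxl ha0 ha1' hk hz
    have n1 := vk_den_ne hxl ha0 ha1' hk1 hz
    have n2 := vk_den_ne hxl ha0 ha1' hk2 hz
    rw [IntTAux.LN_gk ha0 ha1' hk hz, IntTAux.LN_gk ha0 ha1' hk1 hz,
      IntTAux.LN_gk ha0 ha1' hk2 hz]
    have hd : ((t / (2 - t) : ℝ) : ℂ) = (1 - (s : ℂ)) * ((t1 / (2 - t1) : ℝ) : ℂ) +
        (s : ℂ) * ((t2 / (2 - t2) : ℝ) : ℂ) := by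
      rw [hs]
      push_cast
      ring
    have hd1 : ((t1 / (2 - t1) : ℝ) : ℂ) ≠ 0 := by
      have : (t1 / (2 - t1) : ℝ) ≠ 0 := (div_pos ht0 (by linarith)).ne'
      exact_mod_cast this
    have hd2 : ((t2 / (2 - t2) : ℝ) : ℂ) ≠ 0 := by
      have : (t2 / (2 - t2) : ℝ) ≠ 0 := (div_pos ht2p (by linarith)).ne'
      exact_mod_cast this
    have key := IntTAux.alg3 (a := (a : ℂ)) (x := x) (z := z) hd q0 m0 q1 m1 q2 m2 rfl n0 rfl n1
      rfl n2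
    rw [IntTAux.alg4 haC q0 m0 q1 m1 q2 m2 n0 n1 n2 hd1 hd2] at key
    rw [key]
    congr 1
    have hCC : ((s * (1 - s) * C : ℝ) : ℂ) = (s : ℂ) * (1 - s) *
        ((((t2 / (2 - t2) : ℝ) : ℂ) - ((t1 / (2 - t1) : ℝ) : ℂ)) ^ 2 /
          (((t1 / (2 - t1) : ℝ) : ℂ) * ((t2 / (2 - t2) : ℝ) : ℂ))) / (4 * (1 - (a : ℂ) ^ 2) ^ 2) := by
      have hr : s * (1 - s) * C = s * (1 - s) * ((t2 / (2 - t2) - t1 / (2 - t1)) ^ 2 /
          (t1 / (2 - t1) * (t2 / (2 - t2)))) / (4 * (1 - a ^ 2) ^ 2) := by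
        rw [hCdef]
        have r1 : (2 - t1) ≠ 0 := by linarith
        have r2 : (2 - t2) ≠ 0 := by linarith
        have r3 := ht0.ne'
        have r4 := ht2p.ne'
        have r5 := ha2.ne'
        have e1 : t2 / (2 - t2) - t1 / (2 - t1) = 2 * (t2 - t1) / ((2 - t1) * (2 - t2)) := by
          field_simp
          ring
        rw [e1]
        generalize t2 - t1 = τ
        generalize 2 - t1 = σ1 at *
        generalize 2 - t2 = σ2 at *
        generalize 1 - a ^ 2 = b at *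
        field_simp
        ring
      rw [hr]
      push_cast
      ring
    rw [hCC]
    rfl
  have main := nr_comb (LN_diff hxl (gk_Sc ha0 ha1' hk1)) (LN_diff hxl (gk_Sc ha0 ha1' hk2)) de
    hs0 hs1 hpt hr0 hr1
  rw [be] at main
  unfold Ph at H1 H2 ⊢
  generalize nr (LN x (gk a (kh (1 - t) h))) r = N0 at *
  generalize nr (LN x (gk a (kh (1 - t1) h))) r = N1 at *
  generalize nr (LN x (gk a (kh (1 - t2) h))) r = N2 at *
  have hss : 0 ≤ s * (1 - s) := mul_nonneg hs0 (by linarith)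
  have e1 : r * (C * (r * nr w r)) ≤ 3 * S1 + S2 := by
    refine le_trans ?_ hC
    have e2 : r * (C * (r * nr w r)) ≤ r * (C * (r *
        ((1 + a * (1 + l) * r + l * r ^ 2) * (K1 * (K2 * (K3 * (V * (V * V)))))))) :=
      mul_le_mul_of_nonneg_left (mul_le_mul_of_nonneg_left
        (mul_le_mul_of_nonneg_left bw hr0) hC0) hr0
    refine e2.trans (le_of_eq ?_)
    rw [hCdef]
    ring
  have e3 := mul_le_mul_of_nonneg_left e1 hss
  have e4 := mul_le_mul_of_nonneg_left main hr0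
  have e5 := mul_le_mul_of_nonneg_left H1 (by linarith : (0 : ℝ) ≤ 1 - s)
  have e6 := mul_le_mul_of_nonneg_left H2 hs0
  have e7 : 0 ≤ S1 * (1 - 2 * s) ^ 2 := mul_nonneg hS1 (sq_nonneg _)
  have e8 : 0 ≤ (S2 - S1) * s ^ 2 := mul_nonneg (by linarith) (sq_nonneg _)
  have e9 : (1 - s) * (X - S1) + s * (X - S2) + s * (1 - s) * (3 * S1 + S2) =
      X - (S1 * (1 - 2 * s) ^ 2 + (S2 - S1) * s ^ 2) := by ring
  have e10 : r * ((1 - s) * N1 + s * N2 + s * (1 - s) * C * (r * nr w r)) =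
      (1 - s) * (r * N1) + s * (r * N2) + s * (1 - s) * (r * (C * (r * nr w r))) := by ring
  rw [e10] at e4
  linarith

theorem interp_t_zero {x : ℂ} {l : ℝ} (hx : ‖x‖ ≤ l) (hl : l < 1) {a : ℝ} (ha0 : 0 ≤ a)
    (ha1 : a < 1) {h : ℂ → ℂ} (hh : Sc h) {t t0 : ℝ} (ht0 : 0 ≤ t) (ht1 : t ≤ t0)
    (ht2 : 0 < t0) (ht3 : t0 ≤ 1) {r : ℝ} (hr0 : 0 ≤ r) (hr1 : r < 1)
    {K0 V X S0 : ℝ}
    (hK0 : t0 + min (t0 * (2 - t0) * (r / (1 - r))) (√(t0 * (2 - t0)) * (r / √(1 - r ^ 2))) ≤ K0)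
    (hV : (1 - a ^ 2) + √((1 - a ^ 2) * (a ^ 2 + l ^ 2 / (1 - l ^ 2))) * (r / √(1 - r ^ 2)) ≤ V)
    (hS0 : 0 ≤ S0)
    (H0 : Ph x (gk a (kh (1 - t0) h)) r ≤ X - S0)
    (hC : t0 / (2 - t0) * ((1 + r) / (1 - r)) * (r ^ 2 / (1 - a ^ 2) ^ 2) *
      (1 + a * (1 + l) * r + l * r ^ 2) * (K0 * V ^ 3) ≤ S0) :
    ∃ s : ℝ, 0 ≤ s ∧ s ≤ 1 ∧ (0 < t → 0 < s) ∧
      Ph x (gk a (kh (1 - t) h)) r ≤
        (1 - s) * Ph x (gk a (kh 1 h)) r + s * (X - s * S0) := by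
  have ht0p : t0 / (2 - t0) > 0 := div_pos ht2 (by linarith)
  have htt : t ≤ 1 := ht1.trans ht3
  have hxl : ‖x‖ < 1 := lt_of_le_of_lt hx hl
  have ha1' : a ≤ 1 := ha1.le
  obtain ⟨s, hsdef⟩ : ∃ s : ℝ, s = (t / (2 - t)) / (t0 / (2 - t0)) := ⟨_, rfl⟩
  have hs0 : 0 ≤ s := by
    rw [hsdef]
    exact div_nonneg (div_nonneg ht0 (by linarith)) ht0p.le
  have hs1 : s ≤ 1 := by
    rw [hsdef, div_le_one ht0p]
    exact IntTAux.del_mono ht1 ht3
  have hs : t / (2 - t) = s * (t0 / (2 - t0)) := by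
    rw [hsdef, div_mul_cancel₀ _ ht0p.ne']
  have hsp : 0 < t → 0 < s := by
    intro h'
    rw [hsdef]
    exact div_pos (div_pos h' (by linarith)) ht0p
  refine ⟨s, hs0, hs1, hsp, ?_⟩
  have hk1 := kh_Sc (p := 1) (by norm_num) (by norm_num) hh
  have hk2 := kh_Sc (p := 1 - t0) (by linarith) (by linarith) hh
  have hk := kh_Sc (p := 1 - t) (by linarith) (by linarith) hh
  have ha2 : 0 < 1 - a ^ 2 := by nlinarith
  have haC : (1 - (a : ℂ) ^ 2) ≠ 0 := by exact_mod_cast ha2.ne'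
  obtain ⟨C, hCdef⟩ : ∃ C : ℝ, C = 1 / (2 * (1 - a ^ 2) ^ 2) := ⟨_, rfl⟩
  have hC0 : 0 ≤ C := by
    rw [hCdef]
    positivity
  set w : ℂ → ℂ := fun z => (1 + a * (1 - x) * z - x * z ^ 2) * ((1 - kh (1 - t) h z) *
    ((1 - kh (1 - t0) h z) * (vk x a (kh 1 h) z *
      (vk x a (kh (1 - t0) h) z * vk x a (kh (1 - t) h) z)))) with hw
  have dv1 := vk_diff hxl ha0 ha1' hk1
  have dv2 := vk_diff hxl ha0 ha1' hk2
  have dv := vk_diff hxl ha0 ha1' hk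
  have bv1 := (nr_vk_le hx hl ha0 ha1' hk1 hr0 hr1).trans hV
  have bv2 := (nr_vk_le hx hl ha0 ha1' hk2 hr0 hr1).trans hV
  have bv := (nr_vk_le hx hl ha0 ha1' hk hr0 hr1).trans hV
  have bk2 := (IntTAux.nr_sub_kh ht2.le ht3 hh hr0 hr1).trans hK0
  have h1r : 0 < 1 - r := by linarith
  have bk : nr (fun z => 1 - kh (1 - t) h z) r ≤
      2 * (s * (t0 / (2 - t0))) * ((1 + r) / (1 - r)) := by
    have f1 := IntTAux.nr_sub_kh ht0 htt hh hr0 hr1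
    have f2 : t + min (t * (2 - t) * (r / (1 - r))) (√(t * (2 - t)) * (r / √(1 - r ^ 2))) ≤
        t + t * (2 - t) * (r / (1 - r)) := by
      have := min_le_left (t * (2 - t) * (r / (1 - r))) (√(t * (2 - t)) * (r / √(1 - r ^ 2)))
      linarith
    have e2 : 0 ≤ r / (1 - r) := div_nonneg hr0 h1r.le
    have f3 : t * (2 - t) * (r / (1 - r)) ≤ t * 2 * (r / (1 - r)) :=
      mul_le_mul_of_nonneg_right (mul_le_mul_of_nonneg_left (by linarith) ht0) e2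
    have f4 : t + t * 2 * (r / (1 - r)) = t * ((1 + r) / (1 - r)) := by
      field_simp
      ring
    have f5 : t ≤ 2 * (t / (2 - t)) := by
      rw [mul_div_assoc', le_div_iff₀ (by linarith)]
      nlinarith
    have f6 : 0 ≤ (1 + r) / (1 - r) := div_nonneg (by linarith) h1r.le
    have f7 := mul_le_mul_of_nonneg_right f5 f6
    rw [← hs]
    linarith
  have ds2 := IntTAux.sub_diff hk2
  have ds := IntTAux.sub_diff hk
  have dq := IntTAux.q_diff a x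
  have bq := IntTAux.nr_q_le ha0 hx hr0 hr1
  have d1 := dv2.fun_mul dv
  have b1 := IntTAux.mulb dv2 dv hr0 hr1 bv2 bv
  have d2 := dv1.fun_mul d1
  have b2 := IntTAux.mulb dv1 d1 hr0 hr1 bv1 b1
  have d4 := ds2.fun_mul d2
  have b4 := IntTAux.mulb ds2 d2 hr0 hr1 bk2 b2
  have d5 := ds.fun_mul d4
  have b5 := IntTAux.mulb ds d4 hr0 hr1 bk b4
  have dw : DifferentiableOn ℂ w (ball 0 1) := dq.fun_mul d5
  have bw : nr w r ≤ (1 + a * (1 + l) * r + l * r ^ 2) *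
      (2 * (s * (t0 / (2 - t0))) * ((1 + r) / (1 - r)) * (K0 * (V * (V * V)))) :=
    IntTAux.mulb dq d5 hr0 hr1 bq b5
  have dzw : DifferentiableOn ℂ (fun z => z * w z) (ball 0 1) := differentiableOn_id.fun_mul dw
  have de : DifferentiableOn ℂ (fun z => (((1 - s) * C : ℝ) : ℂ) * (z * w z)) (ball 0 1) :=
    dzw.const_mul _
  have be : nr (fun z => (((1 - s) * C : ℝ) : ℂ) * (z * w z)) r =
      (1 - s) * C * (r * nr w r) := by
    rw [nr_smul dzw, nr_z_mul dw, Complex.norm_real, Real.norm_of_nonneg]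
    exact mul_nonneg (by linarith) hC0
  have hpt : ∀ z : ℂ, ‖z‖ < 1 → LN x (gk a (kh (1 - t) h)) z =
      (1 - s) * LN x (gk a (kh 1 h)) z + s * LN x (gk a (kh (1 - t0) h)) z +
        (((1 - s) * C : ℝ) : ℂ) * (z * w z) := by
    intro z hz
    obtain ⟨m0, q0⟩ := IntTAux.kh_eq ht0 htt hh hz
    obtain ⟨m2, q2⟩ := IntTAux.kh_eq ht2.le ht3 hh hz
    have m1 := one_add_pzh_ne (p := 1) (by norm_num) (by norm_num) hh hz
    rw [Complex.ofReal_one, one_mul] at m1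
    have q1 : kh 1 h z = ((1 + z * h z) - 0 * (1 - z * h z)) /
        ((1 + z * h z) + 0 * (1 - z * h z)) := by
      rw [kh_one hh hz, zero_mul, sub_zero, add_zero, div_self m1]
    have m1' : (1 + z * h z) + 0 * (1 - z * h z) ≠ 0 := by
      rw [zero_mul, add_zero]
      exact m1
    have n0 := vk_den_ne hxl ha0 ha1' hk hz
    have n1 := vk_den_ne hxl ha0 ha1' hk1 hz
    have n2 := vk_den_ne hxl ha0 ha1' hk2 hz
    rw [IntTAux.LN_gk ha0 ha1' hk hz, IntTAux.LN_gk ha0 ha1' hk1 hz,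
      IntTAux.LN_gk ha0 ha1' hk2 hz]
    have hd' : ((t / (2 - t) : ℝ) : ℂ) = (s : ℂ) * ((t0 / (2 - t0) : ℝ) : ℂ) := by
      rw [hs]
      push_cast
      ring
    have hd : ((t / (2 - t) : ℝ) : ℂ) = (1 - (s : ℂ)) * 0 +
        (s : ℂ) * ((t0 / (2 - t0) : ℝ) : ℂ) := by
      rw [hd', mul_zero, zero_add]
    have key := IntTAux.alg3 (a := (a : ℂ)) (x := x) (z := z) hd q0 m0 q1 m1' q2 m2 rfl n0 rfl n1
      rfl n2
    rw [IntTAux.alg5 (x := x) (z := z) haC hd' q0 m0 m1 q2 m2 n0 n1 n2] at key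
    rw [key]
    congr 1
    have hCC : (((1 - s) * C : ℝ) : ℂ) = (1 - (s : ℂ)) / (2 * (1 - (a : ℂ) ^ 2) ^ 2) := by
      rw [hCdef]
      push_cast
      ring
    rw [hCC]
    rfl
  have main := nr_comb (LN_diff hxl (gk_Sc ha0 ha1' hk1)) (LN_diff hxl (gk_Sc ha0 ha1' hk2)) de
    hs0 hs1 hpt hr0 hr1
  rw [be] at main
  unfold Ph at H0 ⊢
  generalize nr (LN x (gk a (kh (1 - t) h))) r = N0 at *
  generalize nr (LN x (gk a (kh 1 h))) r = N1 at *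
  generalize nr (LN x (gk a (kh (1 - t0) h))) r = N2 at *
  have e1 : r * (C * (r * nr w r)) ≤ s * S0 := by
    have e2 : r * (C * (r * nr w r)) ≤ r * (C * (r * ((1 + a * (1 + l) * r + l * r ^ 2) *
      (2 * (s * (t0 / (2 - t0))) * ((1 + r) / (1 - r)) * (K0 * (V * (V * V))))))) :=
      mul_le_mul_of_nonneg_left (mul_le_mul_of_nonneg_left
        (mul_le_mul_of_nonneg_left bw hr0) hC0) hr0
    refine e2.trans ?_
    have e3 := mul_le_mul_of_nonneg_left hC hs0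
    refine le_trans (le_of_eq ?_) e3
    rw [hCdef]
    generalize t0 / (2 - t0) = d
    generalize (1 + r) / (1 - r) = R
    have r5 := ha2.ne'
    generalize 1 - a ^ 2 = b at *
    field_simp
  have e3 := mul_le_mul_of_nonneg_left e1 (by linarith : (0 : ℝ) ≤ 1 - s)
  have e4 := mul_le_mul_of_nonneg_left main hr0
  have e6 := mul_le_mul_of_nonneg_left H0 hs0
  have e10 : r * ((1 - s) * N1 + s * N2 + (1 - s) * C * (r * nr w r)) =
      (1 - s) * (r * N1) + s * (r * N2) + (1 - s) * (r * (C * (r * nr w r))) := by ring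
  rw [e10] at e4
  have e11 : s * (X - S0) + (1 - s) * (s * S0) = s * (X - s * S0) := by ring
  linarith


end Pool.Agent.P187w
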