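import Pool.Agent.Lib.P187w.IntNu

/-!
# Interpolation in `l` and `r` together

`l = (1-s) l1 + s l2`, `r = (1-s) r1 + s r2`, `L = LN (l e) g`, `L_i = LN (l_i e) g`.
`lam_upper`. Step 1 (identity of `chord`, at radius `r ≤ r1`):
`r nr L r ≤ (1-s) r nr L1 r + s r nr L2 r + s (1-s) (l2-l1)^2 r1^3 F^3`.
Step 2: `r^(n+1) ≤ (1-s) r1^(n+1) + s r2^(n+1)` (convexity of powers), so with
`Φ i j = r_j nr L_i r_j`, `r nr L_i r ≤ (1-s) Φ i 1 + s Φ i 2`.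
Step 3: the sum is `(1-s) Φ 11 + s Φ 22 + s (1-s) (Φ 12 + Φ 21 - Φ 11 - Φ 22)` and
`Φ12 + Φ21 - Φ11 - Φ22 = ∑ (|L_{1,n}| - |L_{2,n}|) (r2^(n+1) - r1^(n+1))
 ≤ ∑_{n ≥ 1} |L_{1,n} - L_{2,n}| (r1^(n+1) - r2^(n+1))` (the term `n = 0` vanishes: both are `g 0`)
`≤ √(∑ |L_{1,n} - L_{2,n}|^2) √(∑_{n ≥ 1} (r1^(n+1) - r2^(n+1))^2)`.
`L1 - L2 = (l1 - l2) e z L1 L2` pointwise, `|z e L1| ≤ 1 / (1 - l2)` on the disc, so
`∑ |L_{1,n} - L_{2,n}|^2 ≤ (l2-l1)^2 / ((1-l2)^2 (1 - l2^2))` (`P187o.sum_sq_le_of_norm_le` and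
`LN_sq`), and `r1^(n+1) - r2^(n+1) ≤ (n+1) r1^n (r1-r2)`, with
`∑_{n ≥ 1} (n+1)^2 y^n = (1 + y) / (1 - y)^3 - 1` for `y = r1^2`.

`lam_lower`: for `|ω n| ≤ 1`, `T l r = ∑_{n < M} (ω n L_n r^(n+1)).re`. The same with
`r^(n+1) ≥ (1-s) r1^(n+1) + s r2^(n+1) - s (1-s) (r1-r2)^2 (n+1) n / 2 * r1^(n-1)`
(second order Taylor bound for a power), `|L_n| ≤ 1 / (1 - l)` (`tc_LN_le`) and
`∑_{n ≥ 1} (n+1) n / 2 r1^(n-1) ≤ 1 / (1 - r1)^3`. So
`T l r ≥ (1-s) T l1 r1 + s T l2 r2 - s (1-s) [ (l2-l1)^2 r1^3 F^3 + (l2-l1)(r1-r2) K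
  + (r1-r2)^2 / ((1-l2)(1-r1)^3) ]`.
-/

set_option autoImplicit false

open Complex Metric Set
open Pool.Agent.P187f6b

namespace Pool.Agent.P187w

namespace LamAux

lemma sum_sq_geom {y : ℝ} (h0 : 0 ≤ y) (h1 : y < 1) (M : ℕ) :
    ∑ n ∈ Finset.range M, ((n : ℝ) + 1) ^ 2 * y ^ n ≤ (1 + y) / (1 - y) ^ 3 := by
  have h2 : (1 - y) ≠ 0 := by linarith
  have key : ∀ M : ℕ, ∑ n ∈ Finset.range M, ((n : ℝ) + 1) ^ 2 * y ^ n =
      (1 + y) / (1 - y) ^ 3 -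
        y ^ M * ((1 + y) / (1 - y) ^ 3 + 2 * M / (1 - y) ^ 2 + (M : ℝ) ^ 2 / (1 - y)) := by
    intro M
    induction M with
    | zero => simp
    | succ M ih =>
      rw [Finset.sum_range_succ, ih]
      push_cast
      field_simp
      ring
  rw [key M]
  have h3 : 0 < 1 - y := by linarith
  have : 0 ≤ y ^ M * ((1 + y) / (1 - y) ^ 3 + 2 * M / (1 - y) ^ 2 + (M : ℝ) ^ 2 / (1 - y)) := by
    positivity
  linarith

lemma sum_sq_geom' {y : ℝ} (h0 : 0 ≤ y) (h1 : y < 1) (M : ℕ) :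
    ∑ n ∈ Finset.range M, ((n : ℝ) + 1 + 1) ^ 2 * y ^ (n + 1) ≤ (1 + y) / (1 - y) ^ 3 - 1 := by
  have h := sum_sq_geom h0 h1 (M + 1)
  rw [Finset.sum_range_succ'] at h
  have e : ∑ n ∈ Finset.range M, ((n : ℝ) + 1 + 1) ^ 2 * y ^ (n + 1) =
      ∑ n ∈ Finset.range M, (((n + 1 : ℕ) : ℝ) + 1) ^ 2 * y ^ (n + 1) := by
    refine Finset.sum_congr rfl (fun n _ => ?_)
    push_cast
    ring
  rw [e]
  have e2 : (((0 : ℕ) : ℝ) + 1) ^ 2 * y ^ 0 = 1 := by norm_num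
  linarith

lemma pow_sub_le {r1 r2 : ℝ} (h0 : 0 ≤ r2) (h1 : r2 ≤ r1) (n : ℕ) :
    r1 ^ (n + 1) - r2 ^ (n + 1) ≤ (n + 1) * r1 ^ n * (r1 - r2) := by
  have h2 : 0 ≤ r1 := h0.trans h1
  induction n with
  | zero => simp
  | succ n ih =>
    have h3 : r2 ^ (n + 1) ≤ r1 ^ (n + 1) := pow_le_pow_left₀ h0 h1 _
    have h4 : r1 * (r1 ^ (n + 1) - r2 ^ (n + 1)) ≤ r1 * ((n + 1) * r1 ^ n * (r1 - r2)) :=
      mul_le_mul_of_nonneg_left ih h2
    have h5 : r2 ^ (n + 1) * (r1 - r2) ≤ r1 ^ (n + 1) * (r1 - r2) :=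
      mul_le_mul_of_nonneg_right h3 (by linarith)
    push_cast
    calc r1 ^ (n + 1 + 1) - r2 ^ (n + 1 + 1)
        = r1 * (r1 ^ (n + 1) - r2 ^ (n + 1)) + r2 ^ (n + 1) * (r1 - r2) := by ring
      _ ≤ r1 * ((n + 1) * r1 ^ n * (r1 - r2)) + r1 ^ (n + 1) * (r1 - r2) := add_le_add h4 h5
      _ = _ := by ring

lemma pow_sub_nonneg {r1 r2 : ℝ} (h0 : 0 ≤ r2) (h1 : r2 ≤ r1) (n : ℕ) :
    0 ≤ r1 ^ (n + 1) - r2 ^ (n + 1) := by
  have h3 : r2 ^ (n + 1) ≤ r1 ^ (n + 1) := pow_le_pow_left₀ h0 h1 _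
  linarith

lemma pow_conv {r1 r2 s : ℝ} (h0 : 0 ≤ r2) (h1 : r2 ≤ r1) (hs0 : 0 ≤ s) (hs1 : s ≤ 1) (n : ℕ) :
    ((1 - s) * r1 + s * r2) ^ n ≤ (1 - s) * r1 ^ n + s * r2 ^ n := by
  obtain ⟨_, h⟩ := convexOn_pow (𝕜 := ℝ) n
  have h' := h (show r1 ∈ Ici (0 : ℝ) from h0.trans h1) (show r2 ∈ Ici (0 : ℝ) from h0)
    (show (0 : ℝ) ≤ 1 - s by linarith) hs0 (by ring)
  simpa [smul_eq_mul] using h'

/-- the coefficients of the second order bound -/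
noncomputable def qq (y : ℝ) : ℕ → ℝ
  | 0 => 0
  | n + 1 => y * qq y n + (n + 1) * y ^ n

lemma qq_nonneg {y : ℝ} (h : 0 ≤ y) (n : ℕ) : 0 ≤ qq y n := by
  induction n with
  | zero => simp [qq]
  | succ n ih => simp only [qq]; positivity

lemma sum_geom1 {y : ℝ} (h0 : 0 ≤ y) (h1 : y < 1) (M : ℕ) :
    ∑ n ∈ Finset.range M, ((n : ℝ) + 1) * y ^ n ≤ 1 / (1 - y) ^ 2 := by
  have h2 : (1 - y) ≠ 0 := by linarith
  have key : ∀ M : ℕ, ∑ n ∈ Finset.range M, ((n : ℝ) + 1) * y ^ n =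
      1 / (1 - y) ^ 2 - y ^ M * (1 / (1 - y) ^ 2 + M / (1 - y)) := by
    intro M
    induction M with
    | zero => simp
    | succ M ih =>
      rw [Finset.sum_range_succ, ih]
      push_cast
      field_simp
      ring
  rw [key M]
  have h3 : 0 < 1 - y := by linarith
  have : 0 ≤ y ^ M * (1 / (1 - y) ^ 2 + (M : ℝ) / (1 - y)) := by positivity
  linarith

lemma sum_qq {y : ℝ} (h0 : 0 ≤ y) (h1 : y < 1) (M : ℕ) :
    ∑ n ∈ Finset.range M, qq y n ≤ 1 / (1 - y) ^ 3 := by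
  have h3 : 0 < 1 - y := by linarith
  have e : ∑ n ∈ Finset.range (M + 1), qq y n =
      y * ∑ n ∈ Finset.range M, qq y n + ∑ n ∈ Finset.range M, ((n : ℝ) + 1) * y ^ n := by
    rw [Finset.sum_range_succ', Finset.mul_sum, ← Finset.sum_add_distrib]
    simp [qq]
  have e2 : ∑ n ∈ Finset.range M, qq y n ≤ ∑ n ∈ Finset.range (M + 1), qq y n := by
    rw [Finset.sum_range_succ]
    have := qq_nonneg h0 M
    linarith
  have e3 := sum_geom1 h0 h1 M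
  have e4 : (1 - y) * ∑ n ∈ Finset.range M, qq y n ≤ 1 / (1 - y) ^ 2 := by linarith
  have e5 : 1 / (1 - y) ^ 3 = 1 / (1 - y) ^ 2 / (1 - y) := by
    field_simp
  rw [e5, le_div_iff₀ h3]
  linarith

lemma pow_taylor {r1 r2 s : ℝ} (h0 : 0 ≤ r2) (h1 : r2 ≤ r1) (hs0 : 0 ≤ s) (hs1 : s ≤ 1) (n : ℕ) :
    (1 - s) * r1 ^ (n + 1) + s * r2 ^ (n + 1) - ((1 - s) * r1 + s * r2) ^ (n + 1) ≤
      s * (1 - s) * (r1 - r2) ^ 2 * qq r1 n := by
  have h2 : 0 ≤ r1 := h0.trans h1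
  have h3 : 0 ≤ (1 - s) * r1 + s * r2 := by
    have : 0 ≤ 1 - s := by linarith
    positivity
  have h4 : (1 - s) * r1 + s * r2 ≤ r1 := by nlinarith
  have h5 : 0 ≤ s * (1 - s) := mul_nonneg hs0 (by linarith)
  induction n with
  | zero => simp [qq]
  | succ n ih =>
    have h6 := pow_sub_le h0 h1 n
    have hp := qq_nonneg h2 n
    have h7 : ((1 - s) * r1 + s * r2) * ((1 - s) * r1 ^ (n + 1) + s * r2 ^ (n + 1) -
        ((1 - s) * r1 + s * r2) ^ (n + 1)) ≤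
        ((1 - s) * r1 + s * r2) * (s * (1 - s) * (r1 - r2) ^ 2 * qq r1 n) :=
      mul_le_mul_of_nonneg_left ih h3
    have h8 : ((1 - s) * r1 + s * r2) * (s * (1 - s) * (r1 - r2) ^ 2 * qq r1 n) ≤
        r1 * (s * (1 - s) * (r1 - r2) ^ 2 * qq r1 n) :=
      mul_le_mul_of_nonneg_right h4 (by positivity)
    have h9 : s * (1 - s) * (r1 - r2) * (r1 ^ (n + 1) - r2 ^ (n + 1)) ≤
        s * (1 - s) * (r1 - r2) * ((n + 1) * r1 ^ n * (r1 - r2)) :=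
      mul_le_mul_of_nonneg_left h6 (mul_nonneg h5 (by linarith))
    simp only [qq]
    calc (1 - s) * r1 ^ (n + 1 + 1) + s * r2 ^ (n + 1 + 1) -
          ((1 - s) * r1 + s * r2) ^ (n + 1 + 1)
        = ((1 - s) * r1 + s * r2) * ((1 - s) * r1 ^ (n + 1) + s * r2 ^ (n + 1) -
          ((1 - s) * r1 + s * r2) ^ (n + 1)) +
          s * (1 - s) * (r1 - r2) * (r1 ^ (n + 1) - r2 ^ (n + 1)) := by ring
      _ ≤ r1 * (s * (1 - s) * (r1 - r2) ^ 2 * qq r1 n) +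
          s * (1 - s) * (r1 - r2) * ((n + 1) * r1 ^ n * (r1 - r2)) := by linarith
      _ = _ := by ring

lemma xi_norm {l : ℝ} (hl : 0 ≤ l) {e : ℂ} (he : ‖e‖ = 1) : ‖(l : ℂ) * e‖ = l := by
  rw [norm_mul, he, mul_one, Complex.norm_real, Real.norm_eq_abs, abs_of_nonneg hl]

lemma LN_sub {x1 x2 : ℂ} (h1 : ‖x1‖ < 1) (h2 : ‖x2‖ < 1) {g : ℂ → ℂ} (hg : Sc g) {z : ℂ}
    (hz : ‖z‖ < 1) : LN x1 g z - LN x2 g z = (x1 - x2) * (z * (LN x1 g z * LN x2 g z)) := by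
  have a1 := one_sub_xzg_ne h1 hg hz
  have a2 := one_sub_xzg_ne h2 hg hz
  simp only [LN]
  have e1 : x1 * z * g z = 1 - (1 - x1 * z * g z) := by ring
  have e2 : x2 * z * g z = 1 - (1 - x2 * z * g z) := by ring
  have e3 : (x1 - x2) * z * g z = (1 - x2 * z * g z) - (1 - x1 * z * g z) := by ring
  rw [show (x1 - x2) * (z * (g z / (1 - x1 * z * g z) * (g z / (1 - x2 * z * g z)))) =
    ((x1 - x2) * z * g z) * (1 / (1 - x1 * z * g z)) * (g z / (1 - x2 * z * g z)) by ring, e3]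
  generalize 1 - x1 * z * g z = D1 at *
  generalize 1 - x2 * z * g z = D2 at *
  field_simp

lemma three_den (s x1 x2 z w : ℂ) (u1 : 1 - x1 * z * w ≠ 0) (u2 : 1 - x2 * z * w ≠ 0)
    (u3 : 1 - ((1 - s) * x1 + s * x2) * z * w ≠ 0) :
    (1 - s) * (w / (1 - x1 * z * w)) + s * (w / (1 - x2 * z * w)) -
      s * (1 - s) * ((x1 - x2) ^ 2 * (z * (z * (w / (1 - ((1 - s) * x1 + s * x2) * z * w) *
        (w / (1 - x1 * z * w) * (w / (1 - x2 * z * w))))))) =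
      w / (1 - ((1 - s) * x1 + s * x2) * z * w) := by
  have e3 : 1 - ((1 - s) * x1 + s * x2) * z * w =
      (1 - s) * (1 - x1 * z * w) + s * (1 - x2 * z * w) := by ring
  rw [e3] at u3 ⊢
  have e4 : s * (1 - s) * ((x1 - x2) ^ 2 * (z * (z * (w / ((1 - s) * (1 - x1 * z * w) +
      s * (1 - x2 * z * w)) * (w / (1 - x1 * z * w) * (w / (1 - x2 * z * w))))))) =
      s * (1 - s) * ((1 - x2 * z * w) - (1 - x1 * z * w)) ^ 2 * (w / ((1 - s) * (1 - x1 * z * w) +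
      s * (1 - x2 * z * w)) * (1 / (1 - x1 * z * w) * (1 / (1 - x2 * z * w)))) := by ring
  rw [e4]
  generalize 1 - x1 * z * w = D1 at u1 u3 ⊢
  generalize 1 - x2 * z * w = D2 at u2 u3 ⊢
  field_simp
  ring

lemma tc_sub {f g : ℂ → ℂ} (hf : DifferentiableOn ℂ f (ball 0 1))
    (hg : DifferentiableOn ℂ g (ball 0 1)) (n : ℕ) :
    tc (fun z => f z - g z) n = tc f n - tc g n := by
  refine tc_eq (c := fun n => tc f n - tc g n) (fun z hz => ?_) n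
  have := (tc_hasSum hf hz).sub (tc_hasSum hg hz)
  refine this.congr_fun (fun n => ?_)
  ring

lemma summable_sq_LN {x : ℂ} {l : ℝ} (hx : ‖x‖ ≤ l) (hl : l < 1) {g : ℂ → ℂ} (hg : Sc g) :
    Summable fun n => ‖tc (LN x g) n‖ ^ 2 :=
  summable_of_sum_range_le (fun n => by positivity) (fun N => LN_sq hx hl hg N)

lemma tsum_sq_LN {x : ℂ} {l : ℝ} (hx : ‖x‖ ≤ l) (hl : l < 1) {g : ℂ → ℂ} (hg : Sc g) :
    ∑' n, ‖tc (LN x g) n‖ ^ 2 ≤ 1 / (1 - l ^ 2) :=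
  Real.tsum_le_of_sum_range_le (fun n => by positivity) (fun N => LN_sq hx hl hg N)

lemma diff_sq {l1 l2 : ℝ} (h0 : 0 ≤ l1) (h1 : l1 ≤ l2) (h2 : l2 < 1) {e : ℂ} (he : ‖e‖ = 1)
    {g : ℂ → ℂ} (hg : Sc g) (N : ℕ) :
    ∑ n ∈ Finset.range N, ‖tc (LN (l1 * e) g) n - tc (LN (l2 * e) g) n‖ ^ 2 ≤
      ((l2 - l1) / (1 - l2)) ^ 2 * (1 / (1 - l2 ^ 2)) := by
  have hx1 : ‖(l1 : ℂ) * e‖ = l1 := xi_norm h0 he
  have hx2 : ‖(l2 : ℂ) * e‖ = l2 := xi_norm (h0.trans h1) he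
  have hx1' : ‖(l1 : ℂ) * e‖ < 1 := by rw [hx1]; linarith
  have hx2' : ‖(l2 : ℂ) * e‖ < 1 := by rw [hx2]; linarith
  have d1 := LN_diff hx1' hg
  have d2 := LN_diff hx2' hg
  have h3 : 0 < 1 - l2 := by linarith
  set C : ℝ := (l2 - l1) / (1 - l2) with hC
  have hC0 : 0 ≤ C := div_nonneg (by linarith) h3.le
  have tcC : ∀ n, tc (fun z => (C : ℂ) * LN (l2 * e) g z) n = C * tc (LN (l2 * e) g) n := by
    intro n
    refine tc_eq (c := fun n => C * tc (LN (l2 * e) g) n) (fun z hz => ?_) n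
    refine ((tc_hasSum d2 hz).mul_left (C : ℂ)).congr_fun (fun n => ?_)
    ring
  have hn : ∀ n, ‖tc (fun z => (C : ℂ) * LN (l2 * e) g z) n‖ ^ 2 =
      C ^ 2 * ‖tc (LN (l2 * e) g) n‖ ^ 2 := by
    intro n
    rw [tcC, norm_mul, Complex.norm_real, Real.norm_eq_abs, abs_of_nonneg hC0, mul_pow]
  have main := P187o.sum_sq_le_of_norm_le (g := fun z => LN (l1 * e) g z - LN (l2 * e) g z)
    (h := fun z => (C : ℂ) * LN (l2 * e) g z) (d1.sub d2) (d2.const_mul _) (fun z hz => ?_)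
    (((summable_sq_LN hx2.le h2 hg).mul_left (C ^ 2)).congr (fun n => (hn n).symm)) N
  · have e1 : ∑ n ∈ Finset.range N, ‖tc (LN (l1 * e) g) n - tc (LN (l2 * e) g) n‖ ^ 2 =
        ∑ n ∈ Finset.range N, ‖tc (fun z => LN (l1 * e) g z - LN (l2 * e) g z) n‖ ^ 2 := by
      refine Finset.sum_congr rfl (fun n _ => ?_)
      rw [tc_sub d1 d2]
    rw [e1]
    refine main.trans ?_
    simp_rw [hn]
    rw [tsum_mul_left]
    exact mul_le_mul_of_nonneg_left (tsum_sq_LN hx2.le h2 hg) (by positivity)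
  · show ‖LN (l1 * e) g z - LN (l2 * e) g z‖ ≤ ‖(C : ℂ) * LN (l2 * e) g z‖
    rw [LN_sub hx1' hx2' hg hz]
    have e2 : ((l1 : ℂ) * e - l2 * e) = ((l1 - l2 : ℝ) : ℂ) * e := by push_cast; ring
    rw [e2, norm_mul, norm_mul, norm_mul, norm_mul, he, mul_one, Complex.norm_real,
      Real.norm_eq_abs, norm_mul, Complex.norm_real, Real.norm_eq_abs, abs_of_nonneg hC0,
      abs_sub_comm, abs_of_nonneg (by linarith : 0 ≤ l2 - l1)]
    have b1 := norm_LN_le hx1.le (by linarith) hg hz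
    have b2 : 1 / (1 - l1) ≤ 1 / (1 - l2) := one_div_le_one_div_of_le h3 (by linarith)
    have b3 : ‖z‖ * (‖LN (l1 * e) g z‖ * ‖LN (l2 * e) g z‖) ≤
        1 * ((1 / (1 - l2)) * ‖LN (l2 * e) g z‖) := by
      refine mul_le_mul hz.le ?_ (by positivity) zero_le_one
      exact mul_le_mul_of_nonneg_right (b1.trans b2) (norm_nonneg _)
    calc (l2 - l1) * (‖z‖ * (‖LN (l1 * e) g z‖ * ‖LN (l2 * e) g z‖))
        ≤ (l2 - l1) * (1 * ((1 / (1 - l2)) * ‖LN (l2 * e) g z‖)) :=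
          mul_le_mul_of_nonneg_left b3 (by linarith)
      _ = C * ‖LN (l2 * e) g z‖ := by rw [hC]; ring

lemma LN_tc_zero (x : ℂ) (g : ℂ → ℂ) : tc (LN x g) 0 = g 0 := by
  rw [tc_zero]; simp [LN]

/-- The mixed difference. -/
lemma cross {l1 l2 r1 r2 : ℝ} (h0 : 0 ≤ l1) (h1 : l1 ≤ l2) (h2 : l2 < 1)
    (hr0 : 0 ≤ r2) (hr1 : r2 ≤ r1) (hr2 : r1 < 1)
    {e : ℂ} (he : ‖e‖ = 1) {g : ℂ → ℂ} (hg : Sc g) {K : ℝ} (hK0 : 0 ≤ K)
    (hK : ((1 + r1 ^ 2) / (1 - r1 ^ 2) ^ 3 - 1) ≤ K ^ 2 * ((1 - l2) ^ 2 * (1 - l2 ^ 2)))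
    (M : ℕ) :
    ∑ n ∈ Finset.range M, ‖tc (LN (l1 * e) g) n - tc (LN (l2 * e) g) n‖ *
      (r1 ^ (n + 1) - r2 ^ (n + 1)) ≤ (l2 - l1) * (r1 - r2) * K := by
  have hr1' : 0 ≤ r1 := hr0.trans hr1
  have h3 : 0 < 1 - l2 := by linarith
  have h4 : 0 < 1 - l2 ^ 2 := by nlinarith [h0.trans h1]
  set d : ℕ → ℝ := fun n => ‖tc (LN (l1 * e) g) n - tc (LN (l2 * e) g) n‖ with hd
  have d0 : d 0 = 0 := by simp [hd, LN_tc_zero]
  have hy0 : 0 ≤ r1 ^ 2 := by positivity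
  have hy1 : r1 ^ 2 < 1 := by nlinarith
  have main : ∀ M : ℕ, ∑ n ∈ Finset.range (M + 1), d n * (r1 ^ (n + 1) - r2 ^ (n + 1)) ≤
      (l2 - l1) * (r1 - r2) * K := by
    intro M
    rw [Finset.sum_range_succ', d0, zero_mul, add_zero]
    have cs := Finset.sum_mul_sq_le_sq_mul_sq (Finset.range M) (fun n => d (n + 1))
      (fun n => r1 ^ (n + 1 + 1) - r2 ^ (n + 1 + 1))
    have s1 : ∑ n ∈ Finset.range M, d (n + 1) ^ 2 ≤
        ((l2 - l1) / (1 - l2)) ^ 2 * (1 / (1 - l2 ^ 2)) := by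
      have := diff_sq h0 h1 h2 he hg (M + 1)
      rw [Finset.sum_range_succ'] at this
      have p : 0 ≤ ‖tc (LN (l1 * e) g) 0 - tc (LN (l2 * e) g) 0‖ ^ 2 := by positivity
      simp only [hd]
      linarith
    have s2 : ∑ n ∈ Finset.range M, (r1 ^ (n + 1 + 1) - r2 ^ (n + 1 + 1)) ^ 2 ≤
        (r1 - r2) ^ 2 * ((1 + r1 ^ 2) / (1 - r1 ^ 2) ^ 3 - 1) := by
      have := sum_sq_geom' hy0 hy1 M
      calc ∑ n ∈ Finset.range M, (r1 ^ (n + 1 + 1) - r2 ^ (n + 1 + 1)) ^ 2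
          ≤ ∑ n ∈ Finset.range M, (r1 - r2) ^ 2 *
              (((n : ℝ) + 1 + 1) ^ 2 * (r1 ^ 2) ^ (n + 1)) := by
            refine Finset.sum_le_sum (fun n _ => ?_)
            have a1 := pow_sub_nonneg hr0 hr1 (n + 1)
            have a2 := pow_sub_le hr0 hr1 (n + 1)
            have a3 := pow_le_pow_left₀ a1 a2 2
            refine a3.trans (le_of_eq ?_)
            push_cast
            ring
        _ = (r1 - r2) ^ 2 * ∑ n ∈ Finset.range M,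
              (((n : ℝ) + 1 + 1) ^ 2 * (r1 ^ 2) ^ (n + 1)) := by rw [Finset.mul_sum]
        _ ≤ _ := mul_le_mul_of_nonneg_left this (by positivity)
    have s3 : (∑ n ∈ Finset.range M, d (n + 1) * (r1 ^ (n + 1 + 1) - r2 ^ (n + 1 + 1))) ^ 2 ≤
        ((l2 - l1) * (r1 - r2) * K) ^ 2 := by
      refine cs.trans ?_
      have q0 : 0 ≤ ∑ n ∈ Finset.range M, (r1 ^ (n + 1 + 1) - r2 ^ (n + 1 + 1)) ^ 2 :=
        Finset.sum_nonneg (fun _ _ => by positivity)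
      have q1 : 0 ≤ ((l2 - l1) / (1 - l2)) ^ 2 * (1 / (1 - l2 ^ 2)) := by positivity
      refine (mul_le_mul s1 s2 q0 q1).trans ?_
      have q2 : ((l2 - l1) / (1 - l2)) ^ 2 * (1 / (1 - l2 ^ 2)) * ((r1 - r2) ^ 2 *
          ((1 + r1 ^ 2) / (1 - r1 ^ 2) ^ 3 - 1)) ≤
          ((l2 - l1) / (1 - l2)) ^ 2 * (1 / (1 - l2 ^ 2)) * ((r1 - r2) ^ 2 *
          (K ^ 2 * ((1 - l2) ^ 2 * (1 - l2 ^ 2)))) := by
        refine mul_le_mul_of_nonneg_left ?_ q1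
        exact mul_le_mul_of_nonneg_left hK (by positivity)
      refine q2.trans (le_of_eq ?_)
      field_simp
    exact abs_le_of_sq_le_sq' s3 (mul_nonneg (mul_nonneg (by linarith) (by linarith)) hK0) |>.2
  cases M with
  | zero => simpa using mul_nonneg (mul_nonneg (by linarith : 0 ≤ l2 - l1) (by linarith : 0 ≤ r1 - r2)) hK0
  | succ M => exact main M

lemma Ph_eq (x : ℂ) (g : ℂ → ℂ) (r : ℝ) : Ph x g r = ∑' n, ‖tc (LN x g) n‖ * r ^ (n + 1) := by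
  rw [Ph, nr, ← tsum_mul_left]
  refine tsum_congr (fun n => ?_)
  ring

lemma summable_Ph {x : ℂ} (hx : ‖x‖ < 1) {g : ℂ → ℂ} (hg : Sc g) {r : ℝ} (h0 : 0 ≤ r)
    (h1 : r < 1) : Summable fun n => ‖tc (LN x g) n‖ * r ^ (n + 1) := by
  refine ((summable_nr (LN_diff hx hg) h0 h1).mul_left r).congr (fun n => ?_)
  ring

lemma Ph_conv {x : ℂ} (hx : ‖x‖ < 1) {g : ℂ → ℂ} (hg : Sc g) {r1 r2 s : ℝ} (h0 : 0 ≤ r2)
    (h1 : r2 ≤ r1) (h2 : r1 < 1) (hs0 : 0 ≤ s) (hs1 : s ≤ 1) :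
    Ph x g ((1 - s) * r1 + s * r2) ≤ (1 - s) * Ph x g r1 + s * Ph x g r2 := by
  have hs : 0 ≤ 1 - s := by linarith
  have hr1 : 0 ≤ r1 := h0.trans h1
  have a0 : 0 ≤ (1 - s) * r1 + s * r2 := by positivity
  have a1 : (1 - s) * r1 + s * r2 < 1 := by nlinarith
  have S1 := (summable_Ph hx hg hr1 h2).mul_left (1 - s)
  have S2 := (summable_Ph hx hg h0 (h1.trans_lt h2)).mul_left s
  rw [Ph_eq, Ph_eq, Ph_eq, ← tsum_mul_left, ← tsum_mul_left, ← S1.tsum_add S2]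
  refine (summable_Ph hx hg a0 a1).tsum_le_tsum (fun n => ?_) (S1.add S2)
  have := pow_conv h0 h1 hs0 hs1 (n + 1)
  calc ‖tc (LN x g) n‖ * ((1 - s) * r1 + s * r2) ^ (n + 1)
      ≤ ‖tc (LN x g) n‖ * ((1 - s) * r1 ^ (n + 1) + s * r2 ^ (n + 1)) :=
        mul_le_mul_of_nonneg_left this (norm_nonneg _)
    _ = _ := by ring

lemma cross_Ph {l1 l2 r1 r2 : ℝ} (h0 : 0 ≤ l1) (h1 : l1 ≤ l2) (h2 : l2 < 1)
    (hr0 : 0 ≤ r2) (hr1 : r2 ≤ r1) (hr2 : r1 < 1)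
    {e : ℂ} (he : ‖e‖ = 1) {g : ℂ → ℂ} (hg : Sc g) {K : ℝ} (hK0 : 0 ≤ K)
    (hK : ((1 + r1 ^ 2) / (1 - r1 ^ 2) ^ 3 - 1) ≤ K ^ 2 * ((1 - l2) ^ 2 * (1 - l2 ^ 2))) :
    Ph (l1 * e) g r2 + Ph (l2 * e) g r1 ≤ Ph (l1 * e) g r1 + Ph (l2 * e) g r2 +
      (l2 - l1) * (r1 - r2) * K := by
  have hx1 : ‖(l1 : ℂ) * e‖ < 1 := by rw [xi_norm h0 he]; linarith
  have hx2 : ‖(l2 : ℂ) * e‖ < 1 := by rw [xi_norm (h0.trans h1) he]; linarith
  have hr1' : 0 ≤ r1 := hr0.trans hr1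
  have hr2' : r2 < 1 := hr1.trans_lt hr2
  have S11 := summable_Ph hx1 hg hr1' hr2
  have S12 := summable_Ph hx1 hg hr0 hr2'
  have S21 := summable_Ph hx2 hg hr1' hr2
  have S22 := summable_Ph hx2 hg hr0 hr2'
  have hb : Summable fun n => ‖tc (LN (l1 * e) g) n - tc (LN (l2 * e) g) n‖ *
      (r1 ^ (n + 1) - r2 ^ (n + 1)) :=
    summable_of_sum_range_le (fun n => mul_nonneg (norm_nonneg _) (pow_sub_nonneg hr0 hr1 n))
      (fun M => cross h0 h1 h2 hr0 hr1 hr2 he hg hK0 hK M)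
  have hB : ∑' n, ‖tc (LN (l1 * e) g) n - tc (LN (l2 * e) g) n‖ *
      (r1 ^ (n + 1) - r2 ^ (n + 1)) ≤ (l2 - l1) * (r1 - r2) * K :=
    Real.tsum_le_of_sum_range_le
      (fun n => mul_nonneg (norm_nonneg _) (pow_sub_nonneg hr0 hr1 n))
      (fun M => cross h0 h1 h2 hr0 hr1 hr2 he hg hK0 hK M)
  rw [Ph_eq, Ph_eq, Ph_eq, Ph_eq]
  have key : ∑' n, (‖tc (LN (l1 * e) g) n‖ * r2 ^ (n + 1) + ‖tc (LN (l2 * e) g) n‖ * r1 ^ (n + 1))
      ≤ ∑' n, (‖tc (LN (l1 * e) g) n‖ * r1 ^ (n + 1) + ‖tc (LN (l2 * e) g) n‖ * r2 ^ (n + 1) +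
        ‖tc (LN (l1 * e) g) n - tc (LN (l2 * e) g) n‖ * (r1 ^ (n + 1) - r2 ^ (n + 1))) := by
    refine (S12.add S21).tsum_le_tsum (fun n => ?_) ((S11.add S22).add hb)
    have a1 := pow_sub_nonneg hr0 hr1 n
    have a2 : ‖tc (LN (l2 * e) g) n‖ - ‖tc (LN (l1 * e) g) n‖ ≤
        ‖tc (LN (l1 * e) g) n - tc (LN (l2 * e) g) n‖ := by
      rw [norm_sub_rev]; exact norm_sub_norm_le _ _
    have a3 := mul_le_mul_of_nonneg_right a2 a1
    linarith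
  rw [S12.tsum_add S21, (S11.add S22).tsum_add hb, S11.tsum_add S22] at key
  linarith

end LamAux

open LamAux

theorem lam_upper {l1 l2 r1 r2 s : ℝ} (h0 : 0 ≤ l1) (h1 : l1 ≤ l2) (h2 : l2 < 1)
    (hr0 : 0 ≤ r2) (hr1 : r2 ≤ r1) (hr2 : r1 < 1) (hs0 : 0 ≤ s) (hs1 : s ≤ 1)
    {e : ℂ} (he : ‖e‖ = 1) {g : ℂ → ℂ} (hg : Sc g) {F K : ℝ} (hF0 : 0 ≤ F)
    (hF : 1 ≤ F ^ 2 * ((1 - l2 ^ 2) * (1 - r1 ^ 2))) (hK0 : 0 ≤ K)
    (hK : ((1 + r1 ^ 2) / (1 - r1 ^ 2) ^ 3 - 1) ≤ K ^ 2 * ((1 - l2) ^ 2 * (1 - l2 ^ 2))) :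
    Ph (((1 - s) * l1 + s * l2 : ℝ) * e) g ((1 - s) * r1 + s * r2) ≤
      (1 - s) * Ph (l1 * e) g r1 + s * Ph (l2 * e) g r2 +
        s * (1 - s) * ((l2 - l1) ^ 2 * (r1 ^ 3 * F ^ 3) + (l2 - l1) * (r1 - r2) * K) := by
  have hs : 0 ≤ 1 - s := by linarith
  have hr1' : 0 ≤ r1 := hr0.trans hr1
  have hx1 : ‖(l1 : ℂ) * e‖ ≤ l2 := by rw [xi_norm h0 he]; exact h1
  have hx2 : ‖(l2 : ℂ) * e‖ ≤ l2 := by rw [xi_norm (h0.trans h1) he]
  set r : ℝ := (1 - s) * r1 + s * r2 with hr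
  have a0 : 0 ≤ r := by positivity
  have a1 : r ≤ r1 := by nlinarith
  have a2 : r < 1 := a1.trans_lt hr2
  have hl2 : 0 < 1 - l2 ^ 2 := by nlinarith [h0.trans h1]
  have hF' : 1 ≤ F ^ 2 * ((1 - l2 ^ 2) * (1 - r ^ 2)) := by
    refine hF.trans ?_
    have : r ^ 2 ≤ r1 ^ 2 := pow_le_pow_left₀ a0 a1 2
    exact mul_le_mul_of_nonneg_left (mul_le_mul_of_nonneg_left (by linarith) hl2.le)
      (by positivity)
  have c := chord hx1 hx2 h2 hg hs0 hs1 a0 a2 hF0 hF'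
  have e1 : (((1 - s) * l1 + s * l2 : ℝ) : ℂ) * e = (1 - s) * (l1 * e) + s * (l2 * e) := by
    push_cast; ring
  have e2 : ‖(l1 : ℂ) * e - l2 * e‖ = l2 - l1 := by
    have : ((l1 : ℂ) * e - l2 * e) = ((l1 - l2 : ℝ) : ℂ) * e := by push_cast; ring
    rw [this, norm_mul, he, mul_one, Complex.norm_real, Real.norm_eq_abs, abs_sub_comm,
      abs_of_nonneg (by linarith)]
  rw [e1]
  rw [e2] at c
  refine c.trans ?_
  have p1 := Ph_conv (hx1.trans_lt h2) hg hr0 hr1 hr2 hs0 hs1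
  have p2 := Ph_conv (hx2.trans_lt h2) hg hr0 hr1 hr2 hs0 hs1
  rw [← hr] at p1 p2
  have p3 := cross_Ph h0 h1 h2 hr0 hr1 hr2 he hg hK0 hK
  have q1 := mul_le_mul_of_nonneg_left p1 hs
  have q2 := mul_le_mul_of_nonneg_left p2 hs0
  have q3 := mul_le_mul_of_nonneg_left p3 (mul_nonneg hs0 hs)
  have q4 : s * (1 - s) * (l2 - l1) ^ 2 * (r ^ 3 * F ^ 3) ≤
      s * (1 - s) * (l2 - l1) ^ 2 * (r1 ^ 3 * F ^ 3) := by
    refine mul_le_mul_of_nonneg_left ?_ (by positivity)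
    exact mul_le_mul_of_nonneg_right (pow_le_pow_left₀ a0 a1 3) (by positivity)
  linarith

/-- A test sum for the lower bound. -/
noncomputable def Ts (M : ℕ) (ω : ℕ → ℂ) (x : ℂ) (g : ℂ → ℂ) (r : ℝ) : ℝ :=
  ∑ n ∈ Finset.range M, (ω n * tc (LN x g) n).re * r ^ (n + 1)

lemma Ts_le {M : ℕ} {ω : ℕ → ℂ} (hω : ∀ n, ‖ω n‖ ≤ 1) {x : ℂ} (hx : ‖x‖ < 1) {g : ℂ → ℂ}
    (hg : Sc g) {r : ℝ} (h0 : 0 ≤ r) (h1 : r < 1) : Ts M ω x g r ≤ Ph x g r := by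
  have S := summable_Ph hx hg h0 h1
  rw [Ph_eq, Ts]
  refine le_trans (Finset.sum_le_sum (fun n _ => ?_))
    (S.sum_le_tsum (Finset.range M) (fun n _ => by positivity))
  refine mul_le_mul_of_nonneg_right ?_ (by positivity)
  refine (Complex.re_le_norm _).trans ?_
  rw [norm_mul]
  exact mul_le_of_le_one_left (norm_nonneg _) (hω n)

theorem lam_lower {l1 l2 r1 r2 s : ℝ} (h0 : 0 ≤ l1) (h1 : l1 ≤ l2) (h2 : l2 < 1)
    (hr0 : 0 ≤ r2) (hr1 : r2 ≤ r1) (hr2 : r1 < 1) (hs0 : 0 ≤ s) (hs1 : s ≤ 1)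
    {e : ℂ} (he : ‖e‖ = 1) {g : ℂ → ℂ} (hg : Sc g) {F K : ℝ} (hF0 : 0 ≤ F)
    (hF : 1 ≤ F ^ 2 * ((1 - l2 ^ 2) * (1 - r1 ^ 2))) (hK0 : 0 ≤ K)
    (hK : ((1 + r1 ^ 2) / (1 - r1 ^ 2) ^ 3 - 1) ≤ K ^ 2 * ((1 - l2) ^ 2 * (1 - l2 ^ 2)))
    {M : ℕ} {ω : ℕ → ℂ} (hω : ∀ n, ‖ω n‖ ≤ 1) :
    (1 - s) * Ts M ω (l1 * e) g r1 + s * Ts M ω (l2 * e) g r2 -
        s * (1 - s) * ((l2 - l1) ^ 2 * (r1 ^ 3 * F ^ 3) + (l2 - l1) * (r1 - r2) * K +
          (r1 - r2) ^ 2 / ((1 - l2) * (1 - r1) ^ 3)) ≤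
      Ts M ω (((1 - s) * l1 + s * l2 : ℝ) * e) g ((1 - s) * r1 + s * r2) := by
  have hs : 0 ≤ 1 - s := by linarith
  have hr1' : 0 ≤ r1 := hr0.trans hr1
  have hx1 : ‖(l1 : ℂ) * e‖ ≤ l2 := by rw [xi_norm h0 he]; exact h1
  have hx2 : ‖(l2 : ℂ) * e‖ ≤ l2 := by rw [xi_norm (h0.trans h1) he]
  have hl0 : 0 ≤ (1 - s) * l1 + s * l2 := by have := h0.trans h1; positivity
  have hy : ‖(((1 - s) * l1 + s * l2 : ℝ) : ℂ) * e‖ ≤ l2 := by
    rw [xi_norm hl0 he]; nlinarith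
  set y : ℂ := (((1 - s) * l1 + s * l2 : ℝ) : ℂ) * e with hyd
  set r : ℝ := (1 - s) * r1 + s * r2 with hr
  have a0 : 0 ≤ r := by positivity
  have a1 : r ≤ r1 := by nlinarith
  have a2 : r < 1 := a1.trans_lt hr2
  have hl2 : 0 < 1 - l2 ^ 2 := by nlinarith [h0.trans h1]
  have hF' : 1 ≤ F ^ 2 * ((1 - l2 ^ 2) * (1 - r ^ 2)) := by
    refine hF.trans ?_
    have : r ^ 2 ≤ r1 ^ 2 := pow_le_pow_left₀ a0 a1 2
    exact mul_le_mul_of_nonneg_left (mul_le_mul_of_nonneg_left (by linarith) hl2.le)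
      (by positivity)
  have d1 := LN_diff (hx1.trans_lt h2) hg
  have d2 := LN_diff (hx2.trans_lt h2) hg
  have dy := LN_diff (hy.trans_lt h2) hg
  have did : DifferentiableOn ℂ (fun z : ℂ => z) (ball 0 1) := differentiableOn_id
  set P : ℂ → ℂ := fun z => LN y g z * (LN (l1 * e) g z * LN (l2 * e) g z) with hP
  have dP : DifferentiableOn ℂ P (ball 0 1) := dy.mul (d1.mul d2)
  have dzP : DifferentiableOn ℂ (fun z => z * P z) (ball 0 1) := did.mul dP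
  have dzzP : DifferentiableOn ℂ (fun z => z * (z * P z)) (ball 0 1) := did.mul dzP
  set cc : ℂ := ((l1 : ℂ) * e - l2 * e) ^ 2 with hcc
  set E : ℂ → ℂ := fun z => cc * (z * (z * P z)) with hE
  have dE : DifferentiableOn ℂ E (ball 0 1) := dzzP.const_mul _
  have e2 : ‖(l1 : ℂ) * e - l2 * e‖ = l2 - l1 := by
    have : ((l1 : ℂ) * e - l2 * e) = ((l1 - l2 : ℝ) : ℂ) * e := by push_cast; ring
    rw [this, norm_mul, he, mul_one, Complex.norm_real, Real.norm_eq_abs, abs_sub_comm,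
      abs_of_nonneg (by linarith)]
  have nE : r * nr E r ≤ (l2 - l1) ^ 2 * (r1 ^ 3 * F ^ 3) := by
    have n1 : nr E r = ‖cc‖ * (r * (r * nr P r)) := by
      rw [hE, nr_smul dzzP, nr_z_mul dzP, nr_z_mul dP]
    have n2 : nr P r ≤ F * (F * F) := by
      have m1 : nr P r ≤ nr (LN y g) r * nr (fun z => LN (l1 * e) g z * LN (l2 * e) g z) r :=
        nr_mul_le dy (d1.mul d2) a0 a2
      have m2 : nr (fun z => LN (l1 * e) g z * LN (l2 * e) g z) r ≤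
          nr (LN (l1 * e) g) r * nr (LN (l2 * e) g) r := nr_mul_le d1 d2 a0 a2
      have b1 := nr_LN_le hx1 h2 hg a0 a2 hF0 hF'
      have b2 := nr_LN_le hx2 h2 hg a0 a2 hF0 hF'
      have b3 := nr_LN_le hy h2 hg a0 a2 hF0 hF'
      have m3 : nr (fun z => LN (l1 * e) g z * LN (l2 * e) g z) r ≤ F * F :=
        m2.trans (mul_le_mul b1 b2 (nr_nonneg _ a0) hF0)
      exact m1.trans (mul_le_mul b3 m3 (nr_nonneg _ a0) hF0)
    have n3 : ‖cc‖ = (l2 - l1) ^ 2 := by rw [hcc, norm_pow, e2]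
    rw [n1, n3]
    have n4 : r ^ 3 ≤ r1 ^ 3 := pow_le_pow_left₀ a0 a1 3
    calc r * ((l2 - l1) ^ 2 * (r * (r * nr P r))) = ((l2 - l1) ^ 2 * r ^ 3) * nr P r := by ring
      _ ≤ ((l2 - l1) ^ 2 * r ^ 3) * (F * (F * F)) :=
          mul_le_mul_of_nonneg_left n2 (by positivity)
      _ = (l2 - l1) ^ 2 * (r ^ 3 * F ^ 3) := by ring
      _ ≤ (l2 - l1) ^ 2 * (r1 ^ 3 * F ^ 3) :=
          mul_le_mul_of_nonneg_left (mul_le_mul_of_nonneg_right n4 (by positivity))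
            (by positivity)
  -- the coefficients
  have hco : ∀ n, tc (LN y g) n = (1 - s) * tc (LN (l1 * e) g) n + s * tc (LN (l2 * e) g) n -
      s * (1 - s) * tc E n := by
    intro n
    refine tc_eq (c := fun n => (1 - s) * tc (LN (l1 * e) g) n + s * tc (LN (l2 * e) g) n -
      s * (1 - s) * tc E n) (fun z hz => ?_) n
    have A1 := (tc_hasSum d1 hz).mul_left (1 - (s : ℂ))
    have A2 := (tc_hasSum d2 hz).mul_left (s : ℂ)
    have A3 := (tc_hasSum dE hz).mul_left ((s : ℂ) * (1 - s))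
    have A := (A1.add A2).sub A3
    have hv : (1 - (s : ℂ)) * LN (l1 * e) g z + s * LN (l2 * e) g z -
        (s : ℂ) * (1 - s) * E z = LN y g z := by
      have u1 := one_sub_xzg_ne (hx1.trans_lt h2) hg hz
      have u2 := one_sub_xzg_ne (hx2.trans_lt h2) hg hz
      have u3 := one_sub_xzg_ne (hy.trans_lt h2) hg hz
      have hy2 : y = (1 - (s : ℂ)) * (l1 * e) + s * (l2 * e) := by rw [hyd]; push_cast; ring
      simp only [hE, hP, hcc, LN]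
      rw [hy2] at u3 ⊢
      generalize (l1 : ℂ) * e = x1 at u1 u3 ⊢
      generalize (l2 : ℂ) * e = x2 at u2 u3 ⊢
      exact three_den s x1 x2 z (g z) u1 u2 u3
    rw [hv] at A
    refine A.congr_fun (fun n => ?_)
    ring
  have hEb : ∑ n ∈ Finset.range M, (ω n * tc E n).re * r ^ (n + 1) ≤
      (l2 - l1) ^ 2 * (r1 ^ 3 * F ^ 3) := by
    refine le_trans ?_ nE
    have SE : Summable fun n => ‖tc E n‖ * r ^ n := summable_nr dE a0 a2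
    have h5 : ∑ n ∈ Finset.range M, ‖tc E n‖ * r ^ n ≤ nr E r :=
      SE.sum_le_tsum (Finset.range M) (fun n _ => by positivity)
    calc ∑ n ∈ Finset.range M, (ω n * tc E n).re * r ^ (n + 1)
        ≤ ∑ n ∈ Finset.range M, r * (‖tc E n‖ * r ^ n) := by
          refine Finset.sum_le_sum (fun n _ => ?_)
          have : (ω n * tc E n).re ≤ ‖tc E n‖ := by
            refine (Complex.re_le_norm _).trans ?_
            rw [norm_mul]
            exact mul_le_of_le_one_left (norm_nonneg _) (hω n)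
          calc (ω n * tc E n).re * r ^ (n + 1) ≤ ‖tc E n‖ * r ^ (n + 1) :=
                mul_le_mul_of_nonneg_right this (by positivity)
            _ = _ := by ring
      _ = r * ∑ n ∈ Finset.range M, ‖tc E n‖ * r ^ n := by rw [Finset.mul_sum]
      _ ≤ _ := mul_le_mul_of_nonneg_left h5 a0
  have T1 : Ts M ω y g r = (1 - s) * Ts M ω (l1 * e) g r + s * Ts M ω (l2 * e) g r -
      s * (1 - s) * ∑ n ∈ Finset.range M, (ω n * tc E n).re * r ^ (n + 1) := by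
    simp only [Ts]
    rw [Finset.mul_sum, Finset.mul_sum, Finset.mul_sum, ← Finset.sum_add_distrib,
      ← Finset.sum_sub_distrib]
    refine Finset.sum_congr rfl (fun n _ => ?_)
    rw [hco n]
    have : (ω n * ((1 - (s : ℂ)) * tc (LN (l1 * e) g) n + s * tc (LN (l2 * e) g) n -
        s * (1 - s) * tc E n)) = ((1 - s : ℝ) : ℂ) * (ω n * tc (LN (l1 * e) g) n) +
        (s : ℂ) * (ω n * tc (LN (l2 * e) g) n) - ((s * (1 - s) : ℝ) : ℂ) * (ω n * tc E n) := by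
      push_cast; ring
    rw [this, Complex.sub_re, Complex.add_re, Complex.re_ofReal_mul, Complex.re_ofReal_mul,
      Complex.re_ofReal_mul]
    ring
  -- change of the radius
  have hQ := sum_qq hr1' hr2 M
  have hrad : ∀ x : ℂ, ‖x‖ ≤ l2 → (1 - s) * Ts M ω x g r1 + s * Ts M ω x g r2 -
      s * (1 - s) * ((r1 - r2) ^ 2 / ((1 - l2) * (1 - r1) ^ 3)) ≤ Ts M ω x g r := by
    intro x hx
    have h3 : 0 < 1 - l2 := by linarith
    have h4 : 0 < 1 - r1 := by linarith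
    have hb : (1 - s) * Ts M ω x g r1 + s * Ts M ω x g r2 - Ts M ω x g r ≤
        ∑ n ∈ Finset.range M, (1 / (1 - l2)) * (s * (1 - s) * (r1 - r2) ^ 2 * qq r1 n) := by
      simp only [Ts]
      rw [Finset.mul_sum, Finset.mul_sum, ← Finset.sum_add_distrib, ← Finset.sum_sub_distrib]
      refine Finset.sum_le_sum (fun n _ => ?_)
      have b1 : (ω n * tc (LN x g) n).re ≤ 1 / (1 - l2) := by
        refine (Complex.re_le_norm _).trans ?_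
        rw [norm_mul]
        exact (mul_le_of_le_one_left (norm_nonneg _) (hω n)).trans (tc_LN_le hx h2 hg n)
      have b2 := pow_conv hr0 hr1 hs0 hs1 (n + 1)
      have b3 := pow_taylor hr0 hr1 hs0 hs1 n
      rw [← hr] at b2 b3
      have b4 : 0 ≤ (1 - s) * r1 ^ (n + 1) + s * r2 ^ (n + 1) - r ^ (n + 1) := by linarith
      calc (1 - s) * ((ω n * tc (LN x g) n).re * r1 ^ (n + 1)) +
            s * ((ω n * tc (LN x g) n).re * r2 ^ (n + 1)) -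
            (ω n * tc (LN x g) n).re * r ^ (n + 1)
          = (ω n * tc (LN x g) n).re *
              ((1 - s) * r1 ^ (n + 1) + s * r2 ^ (n + 1) - r ^ (n + 1)) := by ring
        _ ≤ (1 / (1 - l2)) * ((1 - s) * r1 ^ (n + 1) + s * r2 ^ (n + 1) - r ^ (n + 1)) :=
            mul_le_mul_of_nonneg_right b1 b4
        _ ≤ _ := mul_le_mul_of_nonneg_left b3 (by positivity)
    rw [← Finset.mul_sum, ← Finset.mul_sum] at hb
    have hb2 : (1 / (1 - l2)) * (s * (1 - s) * (r1 - r2) ^ 2 * ∑ n ∈ Finset.range M, qq r1 n) ≤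
        (1 / (1 - l2)) * (s * (1 - s) * (r1 - r2) ^ 2 * (1 / (1 - r1) ^ 3)) := by
      refine mul_le_mul_of_nonneg_left ?_ (by positivity)
      exact mul_le_mul_of_nonneg_left hQ (by positivity)
    have hb3 : (1 / (1 - l2)) * (s * (1 - s) * (r1 - r2) ^ 2 * (1 / (1 - r1) ^ 3)) =
        s * (1 - s) * ((r1 - r2) ^ 2 / ((1 - l2) * (1 - r1) ^ 3)) := by
      field_simp
    linarith
  have hc : Ts M ω (l1 * e) g r1 + Ts M ω (l2 * e) g r2 - (l2 - l1) * (r1 - r2) * K ≤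
      Ts M ω (l1 * e) g r2 + Ts M ω (l2 * e) g r1 := by
    have hcr := cross h0 h1 h2 hr0 hr1 hr2 he hg hK0 hK M
    have : Ts M ω (l1 * e) g r1 + Ts M ω (l2 * e) g r2 -
        (Ts M ω (l1 * e) g r2 + Ts M ω (l2 * e) g r1) ≤
        ∑ n ∈ Finset.range M, ‖tc (LN (l1 * e) g) n - tc (LN (l2 * e) g) n‖ *
          (r1 ^ (n + 1) - r2 ^ (n + 1)) := by
      simp only [Ts]
      rw [← Finset.sum_add_distrib, ← Finset.sum_add_distrib, ← Finset.sum_sub_distrib]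
      refine Finset.sum_le_sum (fun n _ => ?_)
      have b0 := pow_sub_nonneg hr0 hr1 n
      have b1 : (ω n * (tc (LN (l1 * e) g) n - tc (LN (l2 * e) g) n)).re ≤
          ‖tc (LN (l1 * e) g) n - tc (LN (l2 * e) g) n‖ := by
        refine (Complex.re_le_norm _).trans ?_
        rw [norm_mul]
        exact mul_le_of_le_one_left (norm_nonneg _) (hω n)
      rw [mul_sub, Complex.sub_re] at b1
      have b2 := mul_le_mul_of_nonneg_right b1 b0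
      linarith
    linarith
  have q1 := mul_le_mul_of_nonneg_left (hrad _ hx1) hs
  have q2 := mul_le_mul_of_nonneg_left (hrad _ hx2) hs0
  have q3 := mul_le_mul_of_nonneg_left hc (mul_nonneg hs0 hs)
  have q4 := mul_le_mul_of_nonneg_left hEb (mul_nonneg hs0 hs)
  rw [T1]
  linarith

end Pool.Agent.P187w
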