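import Pool.Agent.Lib.P187w.Norm
import Pool.Agent.Lib.P187w.IntT

/-!
# Reduction to the two parameter family

`Ph` is nondecreasing in `r` (`nr_mono`), and so are `r / (1 - r)`, `r / √(1 - r^2)` and all the
constants of `interp_t_zero`; so (A), (B), (C) at the radius `R` give the same statements at every
`r ≤ R`. Let `1 ≤ maj l f r`; `normal` gives `a, p, x, ω, h` with
`maj l f r = l + (1 - l^2) Ph`, so `1 / (1 + l) ≤ Ph x (gk a (kh p h)) r`. By (A)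
`alo ≤ a ≤ ahi`, by (B) `t = 1 - p < t0`, and by (C) and `interp_t_zero`
`Ph_t ≤ (1 - s) Ph_0 + s (X - s S0)`, `X = 1 / (1 + l) ≤ Ph_t`. If `t > 0` then `s > 0`, and
`(1 - s) Ph_0 ≥ (1 - s) Ph_t + s^2 S0` forces `s < 1` and `Ph_t < Ph_0`; `Ph_0` belongs to
`GG l a (-(x / l))` by `maj_GG`. If `t = 0` then `p = 1` and `f` is a rotation of it.
-/

set_option autoImplicit false

open Complex Metric Set
open scoped ComplexConjugate
open Pool.Agent.P187f6b Pool.Agent.P187s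

namespace Pool.Agent.P187w

/-- The three statements at a radius `R` which give the reduction. -/
structure Stm (l R alo ahi t0 : ℝ) : Prop where
  outer : ∀ x : ℂ, ‖x‖ = l → ∀ a : ℝ, 0 ≤ a → a ≤ 1 → (a < alo ∨ ahi < a) →
    ∀ k : ℂ → ℂ, Sc k → Ph x (gk a k) R < 1 / (1 + l)
  inner : ∀ x : ℂ, ‖x‖ = l → ∀ a : ℝ, alo ≤ a → a ≤ ahi → ∀ t : ℝ, t0 ≤ t → t ≤ 1 →
    ∀ h : ℂ → ℂ, Sc h → Ph x (gk a (kh (1 - t) h)) R < 1 / (1 + l)
  edge : ∀ a : ℝ, alo ≤ a → a ≤ ahi → ∃ K0 V S0 : ℝ, 0 < S0 ∧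
    t0 + min (t0 * (2 - t0) * (R / (1 - R))) (√(t0 * (2 - t0)) * (R / √(1 - R ^ 2))) ≤ K0 ∧
    (1 - a ^ 2) + √((1 - a ^ 2) * (a ^ 2 + l ^ 2 / (1 - l ^ 2))) * (R / √(1 - R ^ 2)) ≤ V ∧
    t0 / (2 - t0) * ((1 + R) / (1 - R)) * (R ^ 2 / (1 - a ^ 2) ^ 2) *
      (1 + a * (1 + l) * R + l * R ^ 2) * (K0 * V ^ 3) ≤ S0 ∧
    ∀ x : ℂ, ‖x‖ = l → ∀ h : ℂ → ℂ, Sc h →
      Ph x (gk a (kh (1 - t0) h)) R ≤ 1 / (1 + l) - S0

namespace RedAux

lemma Ph_mono {x : ℂ} (hx : ‖x‖ < 1) {g : ℂ → ℂ} (hg : Sc g) {r s : ℝ} (h0 : 0 ≤ r)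
    (hrs : r ≤ s) (h1 : s < 1) : Ph x g r ≤ Ph x g s := by
  unfold Ph
  exact mul_le_mul hrs (nr_mono (LN_diff hx hg) h0 hrs h1) (nr_nonneg _ h0) (h0.trans hrs)

lemma frac1 {r s : ℝ} (h0 : 0 ≤ r) (hrs : r ≤ s) (h1 : s < 1) : r / (1 - r) ≤ s / (1 - s) := by
  have h2 : 0 < 1 - s := by linarith
  have h3 : 0 < 1 - r := by linarith
  rw [div_le_div_iff₀ h3 h2]
  nlinarith

lemma frac2 {r s : ℝ} (h0 : 0 ≤ r) (hrs : r ≤ s) (h1 : s < 1) :
    r / √(1 - r ^ 2) ≤ s / √(1 - s ^ 2) := by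
  have h2 : 0 < 1 - s ^ 2 := by nlinarith
  have h3 : 1 - s ^ 2 ≤ 1 - r ^ 2 := by nlinarith
  have h4 : 0 < √(1 - s ^ 2) := Real.sqrt_pos.2 h2
  exact div_le_div₀ (h0.trans hrs) hrs h4 (Real.sqrt_le_sqrt h3)

lemma frac3 {r s : ℝ} (h0 : 0 ≤ r) (hrs : r ≤ s) (h1 : s < 1) :
    (1 + r) / (1 - r) ≤ (1 + s) / (1 - s) := by
  have h2 : 0 < 1 - s := by linarith
  have h3 : 0 < 1 - r := by linarith
  rw [div_le_div_iff₀ h3 h2]
  nlinarith

end RedAux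

open RedAux

theorem reduction {l R alo ahi t0 : ℝ} (h0 : 0 < l) (h1 : l < 1) (hR1 : R < 1)
    (ha0 : 0 ≤ alo) (ha1 : ahi < 1) (ht0 : 0 < t0) (ht1 : t0 ≤ 1)
    (H : Stm l R alo ahi t0) {r : ℝ} (hr0 : 0 ≤ r) (hrR : r ≤ R) {f : ℂ → ℂ}
    (hf : f ∈ FClass l) (hbig : 1 ≤ maj l f r) :
    ∃ (a : ℝ) (η ω : ℂ), alo ≤ a ∧ a ≤ ahi ∧ ‖η‖ = 1 ∧ ‖ω‖ = 1 ∧
      (maj l f r < maj l (GG l a η) r ∨ ∀ z : ℂ, ‖z‖ < 1 → f z = GG l a η (ω * z)) ∧
      maj l f r ≤ maj l (GG l a η) r := by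
  have hr1 : r < 1 := lt_of_le_of_lt hrR hR1
  have hR0 : 0 ≤ R := hr0.trans hrR
  obtain ⟨a, p, x, ω, h, ha00, ha11, hp0, hp1, hx, hω, hh, hmaj, hrig⟩ := normal h0 h1 hf
  have hx1 : ‖x‖ < 1 := by rw [hx]; exact h1
  have hll : 0 < 1 - l ^ 2 := by nlinarith
  -- the value is large
  have hm := hmaj r hr0 hr1
  have hX : 1 / (1 + l) ≤ Ph x (gk a (kh p h)) r := by
    rw [div_le_iff₀ (by linarith)]
    rw [hm] at hbig
    have h2 : (1 - l) * (Ph x (gk a (kh p h)) r * (1 + l)) =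
        (1 - l ^ 2) * Ph x (gk a (kh p h)) r := by ring
    nlinarith
  have hXR : 1 / (1 + l) ≤ Ph x (gk a (kh p h)) R :=
    hX.trans (Ph_mono hx1 (gk_Sc ha00 ha11 (kh_Sc hp0 hp1 hh)) hr0 hrR hR1)
  -- the range of `a`
  have halo : alo ≤ a := by
    by_contra hcon
    have := H.outer x hx a ha00 ha11 (Or.inl (not_le.1 hcon)) _ (kh_Sc hp0 hp1 hh)
    linarith
  have hahi : a ≤ ahi := by
    by_contra hcon
    have := H.outer x hx a ha00 ha11 (Or.inr (not_le.1 hcon)) _ (kh_Sc hp0 hp1 hh)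
    linarith
  have ha1' : a < 1 := lt_of_le_of_lt hahi ha1
  have haa : 0 < 1 - a ^ 2 := by nlinarith
  -- the range of `t`
  set t : ℝ := 1 - p with ht
  have hpt : p = 1 - t := by rw [ht]; ring
  have htt : t < t0 := by
    by_contra hcon
    have h2 := H.inner x hx a halo hahi t (not_lt.1 hcon) (by linarith) h hh
    rw [← hpt] at h2
    linarith
  -- the unimodular constant
  have hl0 : (l : ℂ) ≠ 0 := by exact_mod_cast h0.ne'
  have hη : ‖-(x / (l : ℂ))‖ = 1 := by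
    rw [norm_neg, norm_div, Complex.norm_real, Real.norm_eq_abs, abs_of_pos h0, hx,
      div_self h0.ne']
  have hηx : -((l : ℂ) * (-(x / (l : ℂ)))) = x := by
    rw [mul_neg, neg_neg, mul_div_cancel₀ _ hl0]
  have hGG : maj l (GG l a (-(x / (l : ℂ)))) r = l + (1 - l ^ 2) * Ph x (gk a (kh 1 h)) r := by
    rw [maj_GG h0 h1 ha00 ha1' hη hh hr0 hr1, hηx]
  refine ⟨a, -(x / (l : ℂ)), ω, halo, hahi, hη, hω, ?_⟩
  rcases eq_or_lt_of_le (show 0 ≤ t by linarith) with ht00 | htpos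
  · -- `p = 1`
    have hp : p = 1 := by linarith
    refine ⟨Or.inr (hrig hp ha1'), ?_⟩
    rw [hGG, hm, hp]
  · obtain ⟨K0, V, S0, hS0, hK0, hV, hC, hE⟩ := H.edge a halo hahi
    have f1 := frac1 hr0 hrR hR1
    have f2 := frac2 hr0 hrR hR1
    have f3 := frac3 hr0 hrR hR1
    have ht02 : 0 ≤ t0 * (2 - t0) := mul_nonneg ht0.le (by linarith)
    have hK0' : t0 + min (t0 * (2 - t0) * (r / (1 - r)))
        (√(t0 * (2 - t0)) * (r / √(1 - r ^ 2))) ≤ K0 := by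
      refine le_trans ?_ hK0
      have h2 : t0 * (2 - t0) * (r / (1 - r)) ≤ t0 * (2 - t0) * (R / (1 - R)) :=
        mul_le_mul_of_nonneg_left f1 ht02
      have h3 : √(t0 * (2 - t0)) * (r / √(1 - r ^ 2)) ≤
          √(t0 * (2 - t0)) * (R / √(1 - R ^ 2)) :=
        mul_le_mul_of_nonneg_left f2 (Real.sqrt_nonneg _)
      have := min_le_min h2 h3
      linarith
    have hV' : (1 - a ^ 2) + √((1 - a ^ 2) * (a ^ 2 + l ^ 2 / (1 - l ^ 2))) *
        (r / √(1 - r ^ 2)) ≤ V := by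
      refine le_trans ?_ hV
      have := mul_le_mul_of_nonneg_left f2
        (Real.sqrt_nonneg ((1 - a ^ 2) * (a ^ 2 + l ^ 2 / (1 - l ^ 2))))
      linarith
    have hV0 : 0 ≤ V := by
      refine le_trans ?_ hV'
      have : 0 ≤ √((1 - a ^ 2) * (a ^ 2 + l ^ 2 / (1 - l ^ 2))) * (r / √(1 - r ^ 2)) := by
        positivity
      linarith
    have hK00 : 0 ≤ K0 := by
      refine le_trans ?_ hK0'
      have h2 : 0 ≤ t0 * (2 - t0) * (r / (1 - r)) :=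
        mul_nonneg ht02 (div_nonneg hr0 (by linarith))
      have h3 : 0 ≤ √(t0 * (2 - t0)) * (r / √(1 - r ^ 2)) := by positivity
      have := le_min h2 h3
      linarith
    have hC' : t0 / (2 - t0) * ((1 + r) / (1 - r)) * (r ^ 2 / (1 - a ^ 2) ^ 2) *
        (1 + a * (1 + l) * r + l * r ^ 2) * (K0 * V ^ 3) ≤ S0 := by
      refine le_trans ?_ hC
      have h2 : 0 ≤ t0 / (2 - t0) := div_nonneg ht0.le (by linarith)
      have h3 : 0 ≤ (1 + r) / (1 - r) := div_nonneg (by linarith) (by linarith)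
      have h3R : 0 ≤ (1 + R) / (1 - R) := div_nonneg (by linarith) (by linarith)
      have h4 : r ^ 2 ≤ R ^ 2 := pow_le_pow_left₀ hr0 hrR 2
      have h5 : a * (1 + l) * r ≤ a * (1 + l) * R :=
        mul_le_mul_of_nonneg_left hrR (mul_nonneg ha00 (by linarith))
      have h6 : l * r ^ 2 ≤ l * R ^ 2 := mul_le_mul_of_nonneg_left h4 h0.le
      have h7 : 0 ≤ a * (1 + l) * r := mul_nonneg (mul_nonneg ha00 (by linarith)) hr0
      have h8 : 0 ≤ l * r ^ 2 := by positivity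
      have h9 : r ^ 2 / (1 - a ^ 2) ^ 2 ≤ R ^ 2 / (1 - a ^ 2) ^ 2 :=
        div_le_div_of_nonneg_right h4 (by positivity)
      have h10 : 0 ≤ K0 * V ^ 3 := by positivity
      have h11 : 0 ≤ r ^ 2 / (1 - a ^ 2) ^ 2 := by positivity
      refine mul_le_mul_of_nonneg_right ?_ h10
      refine mul_le_mul ?_ (by linarith) (by linarith) (by positivity)
      refine mul_le_mul ?_ h9 h11 (mul_nonneg h2 h3R)
      exact mul_le_mul_of_nonneg_left f3 h2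
    have hH0 : Ph x (gk a (kh (1 - t0) h)) r ≤ 1 / (1 + l) - S0 :=
      (Ph_mono hx1 (gk_Sc ha00 ha11 (kh_Sc (by linarith) (by linarith) hh)) hr0 hrR hR1).trans
        (hE x hx h hh)
    obtain ⟨s, hs0, hs1, hspos, hle⟩ := interp_t_zero (t := t) hx.le h1 ha00 ha1' hh htpos.le
      htt.le ht0 ht1 hr0 hr1 hK0' hV' hS0.le hH0 hC'
    rw [← hpt] at hle
    have hs := hspos htpos
    set A := Ph x (gk a (kh p h)) r with hA
    set B := Ph x (gk a (kh 1 h)) r with hB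
    have h2 : s * (1 / (1 + l)) ≤ s * A := mul_le_mul_of_nonneg_left hX hs.le
    have h3 : 0 < s * (s * S0) := by positivity
    have h4 : (1 - s) * A < (1 - s) * B := by nlinarith
    have h5 : A < B := by
      have h6 : 0 ≤ 1 - s := by linarith
      exact lt_of_mul_lt_mul_left h4 h6
    have h7 : maj l f r < maj l (GG l a (-(x / (l : ℂ)))) r := by
      rw [hGG, hm]
      have := mul_lt_mul_of_pos_left h5 hll
      linarith
    exact ⟨Or.inl h7, h7.le⟩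

end Pool.Agent.P187w
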