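import Pool.Agent.Lib.P187w.FinB

/-!
# Above a value with the Moebius radius the extremal functions are the Moebius maps

Let `EE l0`, `9/25 ≤ l0 ≤ 11/25`, `l0 < l < 1`, `r = 1 / (1 + 2 l)`. Write
`f (o z) = l - (1 - l^2) z L z`, `L = LL l g`, `g` a Schur function with `γ = g 0 ≥ 0`, and
`N a = ∑ |tc (LL a g) n| r ^ n`. By scaling and monotonicity `N a ≤ 1 / (1 - a r)` for
`l' = l0 (1 + 2 l) / (1 + 2 l0) ≤ a ≤ l`. If `f` is extremal then equality holds at `l`, hence for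
all `a` in `[l', l]` because `LL b g = LL a g + (b - a) z LL a g LL b g`. Comparing the norms of the
coefficients in this identity, all coefficients of `LL a g`, `l' < a < l`, are positive if
`γ > 0`, so `LL a g r = 1 / (1 - a r)`, `g r = 1` and `g` is constant. The case `γ = 0` is excluded
by the Cauchy-Schwarz inequality at `a = l'`.
-/

set_option autoImplicit false

open Complex Metric Set Filter Topology
open scoped ComplexConjugate
open Pool.Agent.P187f6b Pool.Agent.P187s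

namespace Pool.Agent.P187w

namespace UpAux

open FinAux FinBAux

/-- Structure of the class, with the function. -/
lemma class_structure' {l : ℝ} (hl0 : 0 ≤ l) (hl1 : l < 1) {f : ℂ → ℂ} (hf : f ∈ FClass l) :
    ∃ (g : ℂ → ℂ) (o : ℂ), Sch g ∧ ‖o‖ = 1 ∧
      ∀ z : ℂ, ‖z‖ < 1 → f (o * z) = (l : ℂ) + (-(1 - (l : ℂ) ^ 2)) * z * LL l g z := by
  obtain ⟨hfd, hfb, hf0⟩ := hf
  have hne : ∀ z ∈ ball (0 : ℂ) 1, 1 - (l : ℂ) * f z ≠ 0 := by
    intro z hz
    refine one_sub_ne ?_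
    rw [norm_mul, Complex.norm_real, Real.norm_eq_abs, abs_of_nonneg hl0]
    nlinarith [hfb z hz, norm_nonneg (f z)]
  set w : ℂ → ℂ := fun z => (l - f z) / (1 - l * f z) with hw
  have hwd : DifferentiableOn ℂ w (ball 0 1) :=
    ((differentiableOn_const _).sub hfd).div
      ((differentiableOn_const _).sub ((differentiableOn_const _).mul hfd)) hne
  have hw0 : w 0 = 0 := by simp [hw, hf0]
  have hwb : MapsTo w (ball 0 1) (closedBall (w 0) 1) := by
    intro z hz
    rw [hw0, mem_closedBall_zero_iff]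
    exact mobius_norm_le hl0 hl1 (hfb z hz).le
  set g0 : ℂ → ℂ := dslope w 0 with hg0
  have hg0d : DifferentiableOn ℂ g0 (ball 0 1) :=
    (Complex.differentiableOn_dslope (ball_mem_nhds 0 one_pos)).2 hwd
  have hg0b : ∀ z : ℂ, ‖z‖ < 1 → ‖g0 z‖ ≤ 1 := by
    intro z hz
    have := Complex.norm_dslope_le_div_of_mapsTo_ball hwd hwb (z := z) (by simpa using hz)
    simpa using this
  have hwz : ∀ z, w z = z * g0 z := by
    intro z
    have := sub_smul_dslope w 0 z
    rw [hw0] at this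
    simp only [sub_zero, smul_eq_mul] at this
    rw [hg0, this]
  obtain ⟨o, ho, hog⟩ : ∃ o : ℂ, ‖o‖ = 1 ∧ o * g0 0 = (‖g0 0‖ : ℂ) := by
    by_cases h : g0 0 = 0
    · exact ⟨1, by simp, by simp [h]⟩
    · refine ⟨conj (g0 0) / ‖g0 0‖, ?_, ?_⟩
      · rw [norm_div, RCLike.norm_conj, Complex.norm_real, norm_norm]
        exact div_self (norm_ne_zero_iff.2 h)
      · have h2 : (‖g0 0‖ : ℂ) ≠ 0 := by exact_mod_cast (norm_ne_zero_iff.2 h)
        rw [div_mul_eq_mul_div, mul_comm, Complex.mul_conj, Complex.normSq_eq_norm_sq]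
        push_cast
        field_simp
  have hmaps : ∀ z ∈ ball (0 : ℂ) 1, o * z ∈ ball (0 : ℂ) 1 := by
    intro z hz
    rw [mem_ball_zero_iff] at hz ⊢
    rw [norm_mul, ho, one_mul]; exact hz
  have hgb : ∀ z : ℂ, ‖z‖ < 1 → ‖o * g0 (o * z)‖ ≤ 1 := by
    intro z hz
    rw [norm_mul, ho, one_mul]
    exact hg0b _ (by rw [norm_mul, ho, one_mul]; exact hz)
  refine ⟨fun z => o * g0 (o * z), o, ⟨?_, hgb, ‖g0 0‖, norm_nonneg _, by simpa using hog⟩,
    ho, ?_⟩
  · refine (differentiableOn_const _).mul (hg0d.comp ?_ hmaps)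
    exact (differentiableOn_const _).mul differentiableOn_id
  · intro z hz
    have hz' : z ∈ ball (0 : ℂ) 1 := by simpa using hz
    have h1 := hne (o * z) (hmaps z hz')
    have h2 := den_ne hl0 hl1 hz (hgb z hz)
    have h3 := hwz (o * z)
    simp only [hw] at h3
    rw [div_eq_iff h1] at h3
    simp only [LL]
    rw [← sub_eq_zero]
    have h4 : (f (o * z) - (l : ℂ)) * (1 - (l : ℂ) * z * (o * g0 (o * z))) =
        (-(1 - (l : ℂ) ^ 2)) * z * (o * g0 (o * z)) := by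
      linear_combination -h3
    have h5 : (-(1 - (l : ℂ) ^ 2)) * z * ((o * g0 (o * z)) / (1 - (l : ℂ) * z * (o * g0 (o * z)))) =
        f (o * z) - (l : ℂ) := by
      rw [← mul_div_assoc, div_eq_iff h2, h4]
    rw [h5]
    ring

/-- Comparison of the coefficients for two parameters. -/
lemma rel {g : ℂ → ℂ} (hg : Sch g) {a b : ℝ} (ha0 : 0 ≤ a) (hab : a ≤ b) (hb1 : b < 1) (n : ℕ) :
    tc (LL b g) (n + 1) = tc (LL a g) (n + 1) + ((b - a : ℝ) : ℂ) *
      ∑ kl ∈ Finset.HasAntidiagonal.antidiagonal n, tc (LL a g) kl.1 * tc (LL b g) kl.2 := by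
  have ha1 : a < 1 := lt_of_le_of_lt hab hb1
  have hb0 : 0 ≤ b := ha0.trans hab
  have hda := LL_diff ha0 ha1 hg.1 hg.2.1
  have hdl := LL_diff hb0 hb1 hg.1 hg.2.1
  have hprod : DifferentiableOn ℂ (fun z => LL a g z * LL b g z) (ball 0 1) := hda.mul hdl
  have hrel : ∀ z : ℂ, ‖z‖ < 1 → LL b g z =
      LL a g z + ((b - a : ℝ) : ℂ) * z * (LL a g z * LL b g z) := by
    intro z hz
    have h1 := den_ne ha0 ha1 hz (hg.2.1 z hz)
    have h2 := den_ne hb0 hb1 hz (hg.2.1 z hz)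
    simp only [LL]
    obtain ⟨D1, hD1⟩ : ∃ D, D = 1 - (a : ℂ) * z * g z := ⟨_, rfl⟩
    obtain ⟨D2, hD2⟩ : ∃ D, D = 1 - (b : ℂ) * z * g z := ⟨_, rfl⟩
    rw [← hD1] at h1 ⊢
    rw [← hD2] at h2 ⊢
    field_simp
    rw [hD1, hD2]
    push_cast
    ring
  have hsh : DifferentiableOn ℂ (fun z => ((b - a : ℝ) : ℂ) * z * (LL a g z * LL b g z))
      (ball 0 1) := ((differentiableOn_const _).mul differentiableOn_id).mul hprod
  have hadd : DifferentiableOn ℂ (fun z => LL a g z +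
      ((b - a : ℝ) : ℂ) * z * (LL a g z * LL b g z)) (ball 0 1) := hda.add hsh
  rw [tc_congr hadd hrel (n + 1), tc_add hda hsh]
  have e := tc_shift (f := fun z => ((b - a : ℝ) : ℂ) * z * (LL a g z * LL b g z)) (c := 0)
    (k := ((b - a : ℝ) : ℂ)) hprod (fun z _ => by ring) n
  rw [e, tc_mul hda hdl]

/-- The weighted sum. -/
noncomputable def NN (g : ℂ → ℂ) (r a : ℝ) : ℝ := ∑' n, ‖tc (LL a g) n‖ * r ^ n

/-- The terms which are compared. -/
noncomputable def gap (g : ℂ → ℂ) (a b : ℝ) (n : ℕ) : ℝ :=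
  ‖tc (LL a g) (n + 1)‖ + (b - a) * ∑ kl ∈ Finset.HasAntidiagonal.antidiagonal n,
    ‖tc (LL a g) kl.1‖ * ‖tc (LL b g) kl.2‖ - ‖tc (LL b g) (n + 1)‖

lemma gap_nonneg {g : ℂ → ℂ} (hg : Sch g) {a b : ℝ} (ha0 : 0 ≤ a) (hab : a ≤ b) (hb1 : b < 1)
    (n : ℕ) : 0 ≤ gap g a b n := by
  unfold gap
  rw [rel hg ha0 hab hb1 n]
  have hla : 0 ≤ b - a := by linarith
  have h1 : ‖((b - a : ℝ) : ℂ) * ∑ kl ∈ Finset.HasAntidiagonal.antidiagonal n,
      tc (LL a g) kl.1 * tc (LL b g) kl.2‖ ≤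
      (b - a) * ∑ kl ∈ Finset.HasAntidiagonal.antidiagonal n,
        ‖tc (LL a g) kl.1‖ * ‖tc (LL b g) kl.2‖ := by
    rw [norm_mul, Complex.norm_real, Real.norm_eq_abs, abs_of_nonneg hla]
    gcongr
    refine (norm_sum_le _ _).trans ?_
    exact Finset.sum_le_sum (fun kl _ => (norm_mul _ _).le)
  have h2 := norm_add_le (tc (LL a g) (n + 1)) (((b - a : ℝ) : ℂ) *
    ∑ kl ∈ Finset.HasAntidiagonal.antidiagonal n, tc (LL a g) kl.1 * tc (LL b g) kl.2)
  linarith

/-- The sum of the gaps. -/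
lemma gap_sum {g : ℂ → ℂ} (hg : Sch g) {a b : ℝ} (ha0 : 0 ≤ a) (hab : a ≤ b) (hb1 : b < 1)
    {r : ℝ} (hr0 : 0 < r) (hr1 : r < 1) :
    HasSum (fun n => gap g a b n * r ^ (n + 1))
      (NN g r a * (1 + (b - a) * r * NN g r b) - NN g r b) := by
  have ha1 : a < 1 := lt_of_le_of_lt hab hb1
  have hb0 : 0 ≤ b := ha0.trans hab
  have hda := LL_diff ha0 ha1 hg.1 hg.2.1
  have hdl := LL_diff hb0 hb1 hg.1 hg.2.1
  unfold gap NN
  set x := tc (LL a g) with hx
  set y := tc (LL b g) with hy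
  have hy0 : y 0 = x 0 := by rw [hx, hy, LL_zero, LL_zero]
  have sx : Summable (fun n => ‖x n‖ * r ^ n) := tc_summable hda hr0.le hr1
  have sy : Summable (fun n => ‖y n‖ * r ^ n) := tc_summable hdl hr0.le hr1
  have sx' : Summable (fun n => ‖(‖x n‖ * r ^ n : ℝ)‖) := by
    refine sx.congr (fun n => ?_)
    rw [Real.norm_eq_abs, abs_of_nonneg (by positivity)]
  have sy' : Summable (fun n => ‖(‖y n‖ * r ^ n : ℝ)‖) := by
    refine sy.congr (fun n => ?_)
    rw [Real.norm_eq_abs, abs_of_nonneg (by positivity)]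
  have hXY := tsum_mul_tsum_eq_tsum_sum_antidiagonal_of_summable_norm sx' sy'
  have sXY := (summable_norm_sum_mul_antidiagonal_of_summable_norm sx' sy').of_norm
  have hsum1 : ∑' n, ‖y n‖ * r ^ n = ‖y 0‖ + ∑' n, ‖y (n + 1)‖ * r ^ (n + 1) := by
    rw [sy.tsum_eq_zero_add]; simp
  have hsum2 : ∑' n, ‖x n‖ * r ^ n = ‖x 0‖ + ∑' n, ‖x (n + 1)‖ * r ^ (n + 1) := by
    rw [sx.tsum_eq_zero_add]; simp
  have hA : HasSum (fun n => ‖x (n + 1)‖ * r ^ (n + 1)) (∑' n, ‖x (n + 1)‖ * r ^ (n + 1)) :=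
    ((summable_nat_add_iff 1).2 sx).hasSum
  have hB : HasSum (fun n => ‖y (n + 1)‖ * r ^ (n + 1)) (∑' n, ‖y (n + 1)‖ * r ^ (n + 1)) :=
    ((summable_nat_add_iff 1).2 sy).hasSum
  have hC := sXY.hasSum.mul_left ((b - a) * r)
  rw [← hXY] at hC
  have hT := (hA.add hC).sub hB
  have e : ∀ n, ‖x (n + 1)‖ * r ^ (n + 1) + (b - a) * r *
      ∑ kl ∈ Finset.HasAntidiagonal.antidiagonal n, (‖x kl.1‖ * r ^ kl.1) * (‖y kl.2‖ * r ^ kl.2) -
      ‖y (n + 1)‖ * r ^ (n + 1) = (‖x (n + 1)‖ + (b - a) *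
      ∑ kl ∈ Finset.HasAntidiagonal.antidiagonal n, ‖x kl.1‖ * ‖y kl.2‖ - ‖y (n + 1)‖) *
      r ^ (n + 1) := by
    intro n
    have h2 : ∑ kl ∈ Finset.HasAntidiagonal.antidiagonal n,
        (‖x kl.1‖ * r ^ kl.1) * (‖y kl.2‖ * r ^ kl.2) =
        (∑ kl ∈ Finset.HasAntidiagonal.antidiagonal n, ‖x kl.1‖ * ‖y kl.2‖) * r ^ n := by
      rw [Finset.sum_mul]
      refine Finset.sum_congr rfl (fun kl hkl => ?_)
      rw [← Finset.HasAntidiagonal.mem_antidiagonal.1 hkl, pow_add]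
      ring
    rw [h2]
    ring
  have hT' := hT.congr_fun (fun n => (e n).symm)
  have e3 : (∑' n, ‖x n‖ * r ^ n) * (1 + (b - a) * r * ∑' n, ‖y n‖ * r ^ n) -
      ∑' n, ‖y n‖ * r ^ n = (∑' n, ‖x (n + 1)‖ * r ^ (n + 1)) +
        (b - a) * r * ((∑' n, ‖x n‖ * r ^ n) * ∑' n, ‖y n‖ * r ^ n) -
        ∑' n, ‖y (n + 1)‖ * r ^ (n + 1) := by
    rw [hy0] at hsum1
    linear_combination hsum2 - hsum1
  rw [e3]
  exact hT'

/-- If equality holds at `a` and at `b` then all gaps vanish. -/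
lemma gap_zero {g : ℂ → ℂ} (hg : Sch g) {a b : ℝ} (ha0 : 0 ≤ a) (hab : a ≤ b) (hb1 : b < 1)
    {r : ℝ} (hr0 : 0 < r) (hr1 : r < 1) (hA : NN g r a = 1 / (1 - a * r))
    (hB : NN g r b = 1 / (1 - b * r)) (n : ℕ) : gap g a b n = 0 := by
  have h1 := gap_sum hg ha0 hab hb1 hr0 hr1
  have har : 0 < 1 - a * r := by nlinarith
  have hbr : 0 < 1 - b * r := by nlinarith
  have e : NN g r a * (1 + (b - a) * r * NN g r b) - NN g r b = 0 := by
    have e' : 1 + (b - a) * r * (1 / (1 - b * r)) = (1 - a * r) / (1 - b * r) := by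
      field_simp
      ring
    rw [hA, hB, e', one_div_mul_eq_div, div_div, mul_comm (1 - b * r), ← div_div,
      div_self har.ne', sub_self]
  rw [e] at h1
  have h2 : ∀ n, 0 ≤ gap g a b n * r ^ (n + 1) := fun n =>
    mul_nonneg (gap_nonneg hg ha0 hab hb1 n) (pow_nonneg hr0.le _)
  have h3 := (hasSum_zero_iff_of_nonneg h2).1 h1
  have h4 := congrFun h3 n
  simp only [Pi.zero_apply] at h4
  rcases mul_eq_zero.1 h4 with h5 | h5
  · exact h5
  · exact absurd h5 (pow_pos hr0 _).ne'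

/-- A complex number which is aligned with a positive number is nonnegative. -/
lemma aligned {w : ℂ} {q : ℝ} (hq : 0 < q) (h : ‖w‖ + q ≤ ‖w + (q : ℂ)‖) : w = (‖w‖ : ℂ) := by
  have h1 : ‖w + (q : ℂ)‖ ^ 2 = ‖w‖ ^ 2 + 2 * q * w.re + q ^ 2 := by
    rw [← Complex.normSq_eq_norm_sq, ← Complex.normSq_eq_norm_sq, Complex.normSq_apply,
      Complex.normSq_apply]
    simp only [Complex.add_re, Complex.add_im, Complex.ofReal_re, Complex.ofReal_im]
    ring
  have h2 : (‖w‖ + q) ^ 2 ≤ ‖w + (q : ℂ)‖ ^ 2 :=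
    pow_le_pow_left₀ (by have := norm_nonneg w; positivity) h 2
  have h3 : ‖w‖ ≤ w.re := by
    rw [h1] at h2
    have h4 : 0 ≤ q * (w.re - ‖w‖) := by nlinarith
    have h5 := nonneg_of_mul_nonneg_right h4 hq
    linarith
  have h4 : w.re = ‖w‖ := le_antisymm (Complex.re_le_norm w) h3
  have h5 : ‖w‖ ^ 2 = w.re ^ 2 + w.im ^ 2 := by
    rw [← Complex.normSq_eq_norm_sq, Complex.normSq_apply]; ring
  have h6 : w.im = 0 := by
    rw [h4] at h5
    have : w.im ^ 2 = 0 := by linarith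
    exact pow_eq_zero_iff (two_ne_zero) |>.1 this
  apply Complex.ext
  · rw [Complex.ofReal_re, h4]
  · rw [Complex.ofReal_im, h6]

/-- If the value at the origin is positive then all coefficients are positive. -/
lemma all_pos {g : ℂ → ℂ} (hg : Sch g) {γ : ℝ} (hγ : g 0 = γ) (hγ0 : 0 < γ) {l' l r : ℝ}
    (hl0 : 0 ≤ l') (hl1 : l < 1) (hr0 : 0 < r) (hr1 : r < 1)
    (hE : ∀ a, l' ≤ a → a ≤ l → NN g r a = 1 / (1 - a * r)) (n : ℕ) :
    ∀ a, l' < a → a < l → ∃ p : ℝ, 0 < p ∧ tc (LL a g) n = (p : ℂ) := by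
  induction n using Nat.strong_induction_on with
  | _ n ih =>
    intro a ha1 ha2
    rcases n with _ | n
    · exact ⟨γ, hγ0, by rw [LL_zero, hγ]⟩
    · obtain ⟨a', h1, h2⟩ := exists_between ha1
      have h0' : 0 ≤ a' := hl0.trans h1.le
      have hδ : 0 < a - a' := by linarith
      have hgz := gap_zero hg h0' h2.le (ha2.trans hl1) hr0 hr1
        (hE a' h1.le (h2.trans ha2).le) (hE a ha1.le ha2.le) n
      have hrel := rel hg h0' h2.le (ha2.trans hl1) n
      -- the coefficients of smaller index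
      have hx : ∀ k, k ≤ n → ∃ p : ℝ, 0 < p ∧ tc (LL a' g) k = (p : ℂ) := fun k hk =>
        ih k (by omega) a' h1 (h2.trans ha2)
      have hy : ∀ k, k ≤ n → ∃ p : ℝ, 0 < p ∧ tc (LL a g) k = (p : ℂ) := fun k hk =>
        ih k (by omega) a ha1 ha2
      -- the sum is a positive number
      have hS : ∃ S : ℝ, 0 < S ∧ ∑ kl ∈ Finset.HasAntidiagonal.antidiagonal n,
          tc (LL a' g) kl.1 * tc (LL a g) kl.2 = (S : ℂ) ∧
          ∑ kl ∈ Finset.HasAntidiagonal.antidiagonal n,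
          ‖tc (LL a' g) kl.1‖ * ‖tc (LL a g) kl.2‖ = S := by
        choose! X hX0 hX using hx
        choose! Y hY0 hY using hy
        have hk : ∀ kl ∈ Finset.HasAntidiagonal.antidiagonal n, kl.1 ≤ n ∧ kl.2 ≤ n := by
          intro kl hkl
          have := Finset.HasAntidiagonal.mem_antidiagonal.1 hkl
          omega
        refine ⟨∑ kl ∈ Finset.HasAntidiagonal.antidiagonal n, X kl.1 * Y kl.2, ?_, ?_, ?_⟩
        · refine Finset.sum_pos (fun kl hkl => mul_pos (hX0 _ (hk kl hkl).1)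
            (hY0 _ (hk kl hkl).2)) ⟨(0, n), ?_⟩
          rw [Finset.HasAntidiagonal.mem_antidiagonal]
          simp
        · push_cast
          refine Finset.sum_congr rfl (fun kl hkl => ?_)
          rw [hX _ (hk kl hkl).1, hY _ (hk kl hkl).2]
        · refine Finset.sum_congr rfl (fun kl hkl => ?_)
          rw [hX _ (hk kl hkl).1, hY _ (hk kl hkl).2, Complex.norm_real, Complex.norm_real,
            Real.norm_eq_abs, Real.norm_eq_abs, abs_of_pos (hX0 _ (hk kl hkl).1),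
            abs_of_pos (hY0 _ (hk kl hkl).2)]
      obtain ⟨S, hS0, hS1, hS2⟩ := hS
      unfold gap at hgz
      rw [hS2] at hgz
      rw [hS1] at hrel
      set w := tc (LL a' g) (n + 1) with hw
      have hq : 0 < (a - a') * S := mul_pos hδ hS0
      have hal : w = (‖w‖ : ℂ) := by
        refine aligned hq ?_
        have e : (((a - a') * S : ℝ) : ℂ) = ((a - a' : ℝ) : ℂ) * (S : ℂ) := by push_cast; ring
        rw [e, ← hrel]
        linarith
      refine ⟨‖w‖ + (a - a') * S, by have := norm_nonneg w; linarith, ?_⟩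
      rw [hrel, hal]
      push_cast
      simp

/-- Equality at `l` and the inequality at `a ≤ l` give equality at `a`. -/
lemma eq_of_eq {g : ℂ → ℂ} (hg : Sch g) {a l r : ℝ} (ha0 : 0 ≤ a) (hal : a ≤ l) (hl1 : l < 1)
    (hr0 : 0 < r) (hr1 : r < 1) (hL : NN g r l = 1 / (1 - l * r)) (hP : PP a r) :
    NN g r a = 1 / (1 - a * r) := by
  have h1 := gap_sum hg ha0 hal hl1 hr0 hr1
  have h2 : 0 ≤ NN g r a * (1 + (l - a) * r * NN g r l) - NN g r l :=
    h1.nonneg (fun n => mul_nonneg (gap_nonneg hg ha0 hal hl1 n) (pow_nonneg hr0.le _))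
  have har : 0 < 1 - a * r := by nlinarith
  have hlr : 0 < 1 - l * r := by nlinarith
  have h3 : NN g r a ≤ 1 / (1 - a * r) := Real.tsum_le_of_sum_range_le
    (fun n => by positivity) (hP g hg)
  refine le_antisymm h3 ?_
  rw [hL] at h2
  have e : 1 + (l - a) * r * (1 / (1 - l * r)) = (1 - a * r) / (1 - l * r) := by
    field_simp
    ring
  rw [e] at h2
  rw [div_le_iff₀ har]
  have h4 : 1 / (1 - l * r) ≤ NN g r a * ((1 - a * r) / (1 - l * r)) := by linarith
  rw [← mul_div_assoc, div_le_div_iff_of_pos_right hlr] at h4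
  exact h4

/-- If equality holds on an interval and the value at the origin is positive then `g` is the
constant one. -/
lemma const_of_eq {g : ℂ → ℂ} (hg : Sch g) {γ : ℝ} (hγ : g 0 = γ) (hγ0 : 0 < γ) {l' l r : ℝ}
    (hl0 : 0 ≤ l') (hll : l' < l) (hl1 : l < 1) (hr0 : 0 < r) (hr1 : r < 1)
    (hE : ∀ a, l' ≤ a → a ≤ l → NN g r a = 1 / (1 - a * r)) :
    ∀ z : ℂ, ‖z‖ < 1 → g z = 1 := by
  obtain ⟨a, ha1, ha2⟩ := exists_between hll
  have ha0 : 0 ≤ a := hl0.trans ha1.le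
  have haa : a < 1 := ha2.trans hl1
  have hrz : ‖(r : ℂ)‖ < 1 := by
    rw [Complex.norm_real, Real.norm_eq_abs, abs_of_pos hr0]; exact hr1
  have hd := LL_diff ha0 haa hg.1 hg.2.1
  have h1 := tc_hasSum hd hrz
  have h2 : ∀ n, tc (LL a g) n * (r : ℂ) ^ n = ((‖tc (LL a g) n‖ * r ^ n : ℝ) : ℂ) := by
    intro n
    obtain ⟨p, hp0, hp⟩ := all_pos hg hγ hγ0 hl0 hl1 hr0 hr1 hE n a ha1 ha2
    rw [hp, Complex.norm_real, Real.norm_eq_abs, abs_of_pos hp0]
    push_cast
    ring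
  have hs : Summable (fun n => ‖tc (LL a g) n‖ * r ^ n) := tc_summable hd hr0.le hr1
  have h3 : HasSum (fun n => tc (LL a g) n * (r : ℂ) ^ n) ((NN g r a : ℝ) : ℂ) := by
    simp_rw [h2]
    exact Complex.hasSum_ofReal.2 hs.hasSum
  have h4 := h1.unique h3
  have har : 0 < 1 - a * r := by nlinarith
  rw [hE a ha1.le ha2.le] at h4
  have hne := den_ne ha0 haa hrz (hg.2.1 _ hrz)
  unfold LL at h4
  have hne2 : (1 : ℂ) - a * r ≠ 0 := by
    have : ((1 - a * r : ℝ) : ℂ) ≠ 0 := by exact_mod_cast har.ne'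
    push_cast at this
    exact this
  have h5 : g r = 1 := by
    push_cast at h4
    rw [div_eq_div_iff hne hne2] at h4
    linear_combination h4
  -- maximum principle
  have hmax : IsMaxOn (norm ∘ g) (ball 0 1) (r : ℂ) := by
    intro w hw
    have := hg.2.1 w (by simpa using hw)
    simp only [Set.mem_ofPred_eq, Function.comp_apply]
    rw [h5, norm_one]
    exact this
  intro z hz
  have h6 := Complex.eqOn_of_isPreconnected_of_isMaxOn_norm
    (convex_ball (0 : ℂ) 1).isPreconnected isOpen_ball hg.1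
    (show (r : ℂ) ∈ ball (0 : ℂ) 1 by simpa using hrz) hmax
    (show z ∈ ball (0 : ℂ) 1 by simpa using hz)
  simp only [Function.const_apply] at h6
  rw [h6, h5]

/-- The value zero at the origin is excluded. -/
lemma zero_excluded {g : ℂ → ℂ} (hg : Sch g) (hγ : g 0 = 0) {l' r : ℝ}
    (hl0 : 0 ≤ l') (hl1 : l' < 1) (hr0 : 0 < r) (hr1 : r < 1)
    (hnum : r ^ 2 < (1 - r ^ 2) * (1 - l' ^ 2)) : NN g r l' < 1 := by
  have hd := LL_diff hl0 hl1 hg.1 hg.2.1
  have hs : Summable (fun n => ‖tc (LL l' g) n‖ * r ^ n) := tc_summable hd hr0.le hr1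
  have hll : 0 < 1 - l' ^ 2 := by nlinarith
  have hrr : 0 < 1 - r ^ 2 := by nlinarith
  set q : ℝ := √(r ^ 2 / ((1 - r ^ 2) * (1 - l' ^ 2))) with hq
  have hq1 : q < 1 := by
    rw [hq, Real.sqrt_lt' one_pos, one_pow, div_lt_one (by positivity)]
    exact hnum
  refine lt_of_le_of_lt ?_ hq1
  refine Real.tsum_le_of_sum_range_le
    (fun n => mul_nonneg (norm_nonneg _) (pow_nonneg hr0.le _)) (fun N => ?_)
  rw [hq]
  refine Real.le_sqrt_of_sq_le ?_
  rcases N with _ | N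
  · rw [Finset.range_zero, Finset.sum_empty, zero_pow two_ne_zero]
    positivity
  rw [Finset.sum_range_succ']
  have h0 : ‖tc (LL l' g) 0‖ = 0 := by rw [LL_zero, hγ, norm_zero]
  rw [h0, zero_mul, add_zero]
  have h1 := Finset.sum_mul_sq_le_sq_mul_sq (Finset.range N) (fun n => ‖tc (LL l' g) (n + 1)‖)
    (fun n => r ^ (n + 1))
  refine h1.trans ?_
  have h2 := LL_sq_sum hl0 hl1 hg.1 hg.2.1 (N + 1)
  rw [Finset.sum_range_succ', h0] at h2
  have h3 : ∑ n ∈ Finset.range N, ‖tc (LL l' g) (n + 1)‖ ^ 2 ≤ 1 / (1 - l' ^ 2) := by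
    rw [le_div_iff₀ hll]
    have h5 : (0 : ℝ) ^ 2 = 0 := by norm_num
    rw [h5, add_zero] at h2
    linarith
  have h4 : ∑ n ∈ Finset.range N, (r ^ (n + 1)) ^ 2 ≤ r ^ 2 / (1 - r ^ 2) := by
    have e : ∀ n, (r ^ (n + 1)) ^ 2 = r ^ 2 * (r ^ 2) ^ n := fun n => by
      rw [← pow_mul, ← pow_mul, ← pow_add]
      congr 1
      ring
    simp_rw [e]
    rw [← Finset.mul_sum, div_eq_mul_inv]
    refine mul_le_mul_of_nonneg_left ?_ (by positivity)
    have hr2 : r ^ 2 < 1 := by nlinarith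
    have h6 := (summable_geometric_of_lt_one (r := r ^ 2) (by positivity) hr2)
    have h7 := h6.sum_le_tsum (Finset.range N) (fun n _ => by positivity)
    rwa [tsum_geometric_of_lt_one (by positivity) hr2] at h7
  calc (∑ n ∈ Finset.range N, ‖tc (LL l' g) (n + 1)‖ ^ 2) *
        ∑ n ∈ Finset.range N, (r ^ (n + 1)) ^ 2
      ≤ (1 / (1 - l' ^ 2)) * (r ^ 2 / (1 - r ^ 2)) := by
        refine mul_le_mul h3 h4 (Finset.sum_nonneg (fun n _ => by positivity)) (by positivity)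
    _ = _ := by
        rw [div_mul_div_comm, one_mul, mul_comm (1 - l' ^ 2)]

end UpAux

open UpAux FinAux FinBAux

/-- Above a value with the Moebius radius the extremal functions are the Moebius maps. -/
theorem ext_above {l0 l : ℝ} (h0 : 9 / 25 ≤ l0) (h0' : l0 ≤ 11 / 25) (hl : l0 < l) (h1 : l < 1)
    (hE : EE l0) {f : ℂ → ℂ} (hf : f ∈ FClass l) (hm : maj l f (BB l) = 1) :
    ∃ η ω : ℂ, ‖η‖ = 1 ∧ ‖ω‖ = 1 ∧ ∀ z : ℂ, ‖z‖ < 1 → f z = GG l 1 η (ω * z) := by
  have hl00 : 0 < l0 := by linarith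
  have hl0 : 0 < l := by linarith
  have hEl : EE l := EE_mono hl00.le hl.le h1 hl00 hE
  have hB : BB l = 1 / (1 + 2 * l) := (BB_eq_iff hl0 h1).2 hEl
  rw [hB] at hm
  set r : ℝ := 1 / (1 + 2 * l) with hr
  have hr0 : 0 < r := by positivity
  have hr1 : r < 1 := by
    rw [hr, div_lt_one (by linarith)]; linarith
  have hrl : r * (1 + 2 * l) = 1 := by rw [hr]; field_simp
  obtain ⟨g, o, hg, ho, hfz⟩ := class_structure' hl0.le h1 hf
  obtain ⟨γ, hγ, hg0⟩ := hg.2.2
  -- the weighted sum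
  have hL := LL_diff hl0.le h1 hg.1 hg.2.1
  have hlr : 0 < 1 - l * r := by nlinarith
  have hll : 0 < 1 - l ^ 2 := by nlinarith
  have hN : NN g r l = 1 / (1 - l * r) := by
    have e1 : maj l f r = maj l (fun z => f (o * z)) r := (FinBAux.maj_rot hf ho r).symm
    have e2 : maj l (fun z => f (o * z)) r =
        maj l (fun z : ℂ => (l : ℂ) + (-(1 - (l : ℂ) ^ 2)) * z * LL l g z) r := by
      rw [maj_def, maj_def]
      congr 1
      refine tsum_congr (fun n => ?_)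
      rw [tc_congr (class_of_Sch hl0.le h1 hg).1 hfz]
    rw [e1, e2, maj_class_of_Sch hl0.le h1 hg hr0.le] at hm
    have hm' : l + (1 - l ^ 2) * r * NN g r l = 1 := hm
    rw [eq_div_iff hlr.ne']
    have h5 : (1 - l ^ 2) * r * NN g r l = 1 - l := by linarith
    have h6 : (1 - l) * ((1 + l) * r * NN g r l) = (1 - l) * 1 := by linear_combination h5
    have h7 : (1 + l) * r * NN g r l = 1 := mul_left_cancel₀ (by linarith) h6
    have h8 : (1 + l) * r = 1 - l * r := by linear_combination hrl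
    rw [← h8]
    linear_combination h7
  -- the smaller parameter
  set k : ℝ := l0 / (1 + 2 * l0) with hk
  have hk0 : 0 < k := by positivity
  have hkk : k * (1 + 2 * l0) = l0 := by rw [hk]; field_simp
  set l' : ℝ := k * (1 + 2 * l) with hl'
  have hl'0 : 0 < l' := by positivity
  have hl'l : l' < l := by
    have h5 : (l - l') * (1 + 2 * l0) = l - l0 := by
      rw [hl']; linear_combination (-(1 + 2 * l)) * hkk
    have h6 : 0 < (l - l') * (1 + 2 * l0) := by rw [h5]; linarith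
    have h7 := (mul_pos_iff_of_pos_right (by linarith : (0 : ℝ) < 1 + 2 * l0)).1 h6
    linarith
  have hPl' : PP l' r := by
    set t : ℝ := (1 + 2 * l0) / (1 + 2 * l) with ht
    have ht0 : 0 ≤ t := by rw [ht]; apply div_nonneg <;> linarith
    have ht1 : t ≤ 1 := by rw [ht, div_le_one (by linarith)]; linarith
    have e1 : l' * t = l0 := by
      rw [hl', ht]
      field_simp
      linear_combination hkk
    have e2 : t * (1 / (1 + 2 * l0)) = r := by
      rw [ht, hr]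
      field_simp
    have h5 := PP_scale (l := l') (r := 1 / (1 + 2 * l0)) hl'0.le (hl'l.trans h1) ht0 ht1
      (by rw [e1]; exact hE)
    rwa [e2] at h5
  have hEq : ∀ a, l' ≤ a → a ≤ l → NN g r a = 1 / (1 - a * r) := fun a h5 h6 =>
    eq_of_eq hg (hl'0.le.trans h5) h6 h1 hr0 hr1 hN
      (PP_mono hl'0.le h5 (h6.trans_lt h1) hr0 hr1 hPl')
  -- the value at the origin is positive
  have hγ0 : 0 < γ := by
    rcases eq_or_lt_of_le hγ with h5 | h5
    · exfalso
      have hg0' : g 0 = 0 := by rw [hg0, ← h5]; simp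
      have hk1 : k ≤ 11 / 47 := by
        rw [hk, div_le_div_iff₀ (by linarith) (by norm_num)]
        linarith
      set u : ℝ := 1 + 2 * l with hu
      have hu1 : 43 / 25 ≤ u := by rw [hu]; linarith
      have hu2 : u ≤ 3 := by rw [hu]; linarith
      have hk2 : k ^ 2 ≤ 121 / 2209 := by
        have : k ^ 2 ≤ (11 / 47) ^ 2 := pow_le_pow_left₀ hk0.le hk1 2
        norm_num at this
        exact this
      have hk20 : 0 ≤ k ^ 2 := by positivity
      have hw1 : 1849 / 625 ≤ u ^ 2 := by nlinarith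
      have hw2 : u ^ 2 ≤ 9 := by nlinarith
      have hnum' : 2 < u ^ 2 * (1 + k ^ 2 - k ^ 2 * u ^ 2) := by
        set w := u ^ 2
        have h6 : 0 ≤ (w - 1849 / 625) * (9 - w) := mul_nonneg (by linarith) (by linarith)
        have h7 : k ^ 2 * (w * (w - 1)) ≤ 121 / 2209 * (w * (w - 1)) :=
          mul_le_mul_of_nonneg_right hk2 (mul_nonneg (by linarith) (by linarith))
        nlinarith
      have hru : r * u = 1 := hrl
      have hnum : r ^ 2 < (1 - r ^ 2) * (1 - l' ^ 2) := by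
        have h6 : 0 < r ^ 2 := by positivity
        have h7 : r ^ 2 * u ^ 2 = 1 := by rw [← mul_pow, hru, one_pow]
        have h8 : r ^ 2 * 2 < r ^ 2 * (u ^ 2 * (1 + k ^ 2 - k ^ 2 * u ^ 2)) :=
          mul_lt_mul_of_pos_left hnum' h6
        have h9 : r ^ 2 * (u ^ 2 * (1 + k ^ 2 - k ^ 2 * u ^ 2)) = 1 + k ^ 2 - k ^ 2 * u ^ 2 := by
          linear_combination (1 + k ^ 2 - k ^ 2 * u ^ 2) * h7
        have h10 : r ^ 2 * (k ^ 2 * u ^ 2) = k ^ 2 := by linear_combination k ^ 2 * h7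
        rw [hl', mul_pow]
        nlinarith
      have h6 := zero_excluded hg hg0' hl'0.le (hl'l.trans h1) hr0 hr1 hnum
      rw [hEq l' le_rfl hl'l.le] at h6
      have h7 : 0 < 1 - l' * r := by nlinarith
      rw [div_lt_one h7] at h6
      nlinarith
    · exact h5
  have hconst := const_of_eq hg hg0 hγ0 hl'0.le hl'l h1 hr0 hr1 hEq
  -- conclusion
  have hoo : o * conj o = 1 := by
    rw [Complex.mul_conj, Complex.normSq_eq_norm_sq, ho]; norm_num
  refine ⟨-1, conj o, by simp, by rw [RCLike.norm_conj, ho], fun z hz => ?_⟩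
  have hz' : ‖conj o * z‖ < 1 := by rw [norm_mul, RCLike.norm_conj, ho, one_mul]; exact hz
  have h5 := hfz _ hz'
  have h6 : o * (conj o * z) = z := by rw [← mul_assoc, hoo, one_mul]
  rw [h6] at h5
  rw [h5, GG_one_eq hz']
  set y := conj o * z
  unfold LL
  rw [hconst y hz']
  have hne := den_ne hl0.le h1 hz' (show ‖(1 : ℂ)‖ ≤ 1 by simp)
  rw [mul_one] at hne ⊢
  have hne2 : (1 : ℂ) + l * (-1 * y) ≠ 0 := by
    have e : (1 : ℂ) + l * (-1 * y) = 1 - l * y := by ring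
    rw [e]; exact hne
  rw [eq_div_iff hne2]
  field_simp
  ring

end Pool.Agent.P187w
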