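import Pool.Agent.Lib.P187w.EEz

/-!
# Bounds for the value of the best constant

`upper_of_member`: a function of the class with majorant at least one at `r` gives `BB l ≤ r`.
`lower_of_family`: if all members of the closed family have majorant at most one at `r` and the
reduction holds at `l`, then `r ≤ BB l`.
-/

set_option autoImplicit false

open Complex Metric Set
open scoped ComplexConjugate
open Pool.Agent.P187f6b Pool.Agent.P187s

namespace Pool.Agent.P187w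

namespace ValAux

open FinAux FinBAux

/-- Strict monotonicity of the majorant of a function with majorant above `l`. -/
lemma maj_strict' {l : ℝ} {f : ℂ → ℂ} (hf : f ∈ FClass l) {r s : ℝ} (hr0 : 0 ≤ r)
    (hrs : r < s) (hs1 : s < 1) (hm : l < maj l f r) : maj l f r < maj l f s := by
  have hS1 := summ hf hr0 (hrs.trans hs1)
  have hS2 := summ hf (hr0.trans hrs.le) hs1
  have hex : ∃ n, ‖tc f (n + 1)‖ ≠ 0 := by
    by_contra hcon2
    push Not at hcon2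
    rw [maj_def] at hm
    simp only [hcon2, zero_mul, tsum_zero, add_zero] at hm
    exact lt_irrefl _ hm
  obtain ⟨n, hn⟩ := hex
  have hn0 : 0 < ‖tc f (n + 1)‖ := lt_of_le_of_ne (norm_nonneg _) (Ne.symm hn)
  have hlt2 := hS1.tsum_lt_tsum (i := n) (fun k => ?_) ?_ hS2
  · rw [maj_def, maj_def]
    linarith
  · exact mul_le_mul_of_nonneg_left (pow_le_pow_left₀ hr0 hrs.le _) (norm_nonneg _)
  · exact mul_lt_mul_of_pos_left (pow_lt_pow_left₀ hrs hr0 (by omega)) hn0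

end ValAux

open ValAux FinAux FinBAux

theorem upper_of_member {l : ℝ} (h0 : 0 < l) (h1 : l < 1) {f : ℂ → ℂ} (hf : f ∈ FClass l)
    {r : ℝ} (hr0 : 0 ≤ r) (hm : 1 ≤ maj l f r) : BB l ≤ r := by
  by_contra hcon
  have h2 := maj_strict' hf hr0 (not_le.1 hcon) (BB_lt_one h0 h1) (by linarith)
  have h3 := maj_le h0 h1 hf
  linarith

theorem upper_of_member_strict {l : ℝ} (h0 : 0 < l) (h1 : l < 1) {f : ℂ → ℂ} (hf : f ∈ FClass l)
    {r : ℝ} (hr0 : 0 ≤ r) (hm : 1 < maj l f r) : BB l < r := by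
  refine lt_of_le_of_ne (upper_of_member h0 h1 hf hr0 hm.le) (fun h => ?_)
  have h3 := maj_le h0 h1 hf
  rw [h] at h3
  linarith

theorem lower_of_family {l r : ℝ} (h0 : 0 < l) (h1 : l < 1) (hr1 : r < 1)
    (hfam : ∀ a : ℝ, 0 ≤ a → a ≤ 1 → ∀ η : ℂ, ‖η‖ = 1 → maj l (GG l a η) r ≤ 1)
    (hred : ∀ f ∈ FClass l, maj l f (BB l) = 1 →
      ∃ (a : ℝ) (η ω : ℂ), 0 ≤ a ∧ a ≤ 1 ∧ ‖η‖ = 1 ∧ ‖ω‖ = 1 ∧
        (1 < maj l (GG l a η) (BB l) ∨ ∀ z : ℂ, ‖z‖ < 1 → f z = GG l a η (ω * z))) :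
    r ≤ BB l := by
  by_contra hcon
  have hB0 := BB_pos h0 h1
  obtain ⟨⟨_, _, a, η, ha0, ha1, hη, hm⟩, _⟩ := (final_closed h0 h1 hred).1
  have hG := GG_mem' h0.le h1 hη ha0 ha1
  have h2 := maj_strict' hG hB0.le (not_le.1 hcon) hr1 (by linarith)
  have h3 := hfam a ha0 ha1 η hη
  linarith

/-- The same with the family check for `a < 1` only and `r ≤ 1 / (1 + 2 l)`. -/
theorem lower_of_family' {l r : ℝ} (h0 : 0 < l) (h1 : l < 1) (hr0 : 0 ≤ r)
    (hr1 : r ≤ 1 / (1 + 2 * l))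
    (hfam : ∀ a : ℝ, 0 ≤ a → a < 1 → ∀ η : ℂ, ‖η‖ = 1 → maj l (GG l a η) r ≤ 1)
    (hred : ∀ f ∈ FClass l, maj l f (BB l) = 1 →
      ∃ (a : ℝ) (η ω : ℂ), 0 ≤ a ∧ a ≤ 1 ∧ ‖η‖ = 1 ∧ ‖ω‖ = 1 ∧
        (1 < maj l (GG l a η) (BB l) ∨ ∀ z : ℂ, ‖z‖ < 1 → f z = GG l a η (ω * z))) :
    r ≤ BB l := by
  have hr2 : 1 / (1 + 2 * l) < 1 := by
    rw [div_lt_one (by linarith)]; linarith
  refine lower_of_family h0 h1 (hr1.trans_lt hr2) (fun a ha0 ha1 η hη => ?_) hred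
  rcases eq_or_lt_of_le ha1 with ha | ha
  · subst ha
    rw [AsmAux.maj_GG_one h0 h1 hη hr0 (hr1.trans_lt hr2)]
    have hpos : 0 < 1 - l * r := by nlinarith
    rw [← div_eq_mul_inv, ← le_sub_iff_add_le', div_le_iff₀ hpos]
    rw [le_div_iff₀ (by linarith)] at hr1
    nlinarith
  · exact hfam a ha0 ha η hη

end Pool.Agent.P187w
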